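import Pool.Agent.Work.MP_3617d5_en.Defs4
import Pool.Agent.Work.MP_3617d5_nr.AllB
import Pool.Agent.Work.MP_3fbbd3_adj.AS

/-!
# MP_3617d5_al, THEOREM EN++, block AQ4: the quotient by the annihilator
-/

set_option autoImplicit false

open Nat

universe u

namespace Pool.EN

open Pool.NR Pool.EA Pool.Agent.Work.MP_3fbbd3_adj

open scoped commutatorElement

/-- the annihilator of the elements of `I` killed by `q` -/
def AQ4_ann {S : Type u} [Ring S] (I : AddSubgroup S) (q : ℕ) : AddSubgroup S where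
  carrier := {a | ∀ c ∈ I, q • c = 0 → a * c = 0 ∧ c * a = 0}
  zero_mem' := fun c _ _ => ⟨zero_mul c, mul_zero c⟩
  add_mem' := fun {a b} ha hb c hc h => by
    rw [add_mul, mul_add, (ha c hc h).1, (ha c hc h).2, (hb c hc h).1, (hb c hc h).2, add_zero]
    exact ⟨rfl, rfl⟩
  neg_mem' := fun {a} ha c hc h => by
    rw [neg_mul, mul_neg, (ha c hc h).1, (ha c hc h).2, neg_zero]
    exact ⟨rfl, rfl⟩

theorem AQ4_idl {S : Type u} [Ring S] {I : AddSubgroup S} (hI : IdI I) (q : ℕ) : IdI (AQ4_ann I q) := by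
  constructor
  · intro b a ha c hc h
    refine ⟨by rw [mul_assoc, (ha c hc h).1, mul_zero], ?_⟩
    rw [← mul_assoc]
    exact (ha (c * b) (hI.right b c hc) (by rw [← smul_mul_assoc, h, zero_mul])).2
  · intro b a ha c hc h
    refine ⟨?_, by rw [← mul_assoc, (ha c hc h).2, zero_mul]⟩
    rw [mul_assoc]
    exact (ha (b * c) (hI.left b c hc) (by rw [← mul_smul_comm, h, mul_zero])).1

/-- the ring is commutative modulo `I` -/
theorem AQ4_com {S : Type u} [Ring S] {G : Type u} [Group G] (η : G →* Sˣ) (M I : AddSubgroup S) (idI : IdI I)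
    (dec : ∀ a : S, ∃ k : ℤ, a - k ∈ M)
    (spn : ∀ a : S, a ∈ M → a ∈ Submodule.span ℤ (Set.range fun g => ((η g : Sˣ) : S) - 1))
    (com : ∀ g h : G, ((η ⁅g, h⁆ : Sˣ) : S) - 1 ∈ I) (a b : S) : a * b - b * a ∈ I := by
  have h1 : ∀ g h : G, ((η g : Sˣ) : S) * ((η h : Sˣ) : S) - ((η h : Sˣ) : S) * ((η g : Sˣ) : S) ∈ I := by
    intro g h
    have h2 : ((η g : Sˣ) : S) * ((η h : Sˣ) : S) - ((η h : Sˣ) : S) * ((η g : Sˣ) : S) =
        (((η ⁅g, h⁆ : Sˣ) : S) - 1) * (((η h : Sˣ) : S) * ((η g : Sˣ) : S)) := by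
      rw [sub_mul, one_mul]
      congr 1
      rw [← Units.val_mul, ← Units.val_mul, ← Units.val_mul, ← map_mul, ← map_mul, ← map_mul, commutatorElement_def]
      congr 2
      group
    rw [h2]
    exact idI.right _ _ (com g h)
  -- the elements which commute with all `η h` modulo `I`
  have h3 : ∀ h : G, ∀ a : S, a * ((η h : Sˣ) : S) - ((η h : Sˣ) : S) * a ∈ I := by
    intro h a
    obtain ⟨k, hk⟩ := dec a
    have h4 : ∀ x ∈ Submodule.span ℤ (Set.range fun g => ((η g : Sˣ) : S) - 1),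
        x * ((η h : Sˣ) : S) - ((η h : Sˣ) : S) * x ∈ I := by
      intro x hx
      refine Submodule.span_induction ?_ ?_ ?_ ?_ hx
      · rintro _ ⟨g, rfl⟩
        have h5 := h1 g h
        have h6 : (((η g : Sˣ) : S) - 1) * ((η h : Sˣ) : S) - ((η h : Sˣ) : S) * (((η g : Sˣ) : S) - 1) =
            ((η g : Sˣ) : S) * ((η h : Sˣ) : S) - ((η h : Sˣ) : S) * ((η g : Sˣ) : S) := by noncomm_ring
        show (((η g : Sˣ) : S) - 1) * ((η h : Sˣ) : S) - ((η h : Sˣ) : S) * (((η g : Sˣ) : S) - 1) ∈ I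
        rw [h6]
        exact h5
      · rw [zero_mul, mul_zero, sub_zero]
        exact I.zero_mem
      · intro x y _ _ hx hy
        have h6 : (x + y) * ((η h : Sˣ) : S) - ((η h : Sˣ) : S) * (x + y) =
            (x * ((η h : Sˣ) : S) - ((η h : Sˣ) : S) * x) + (y * ((η h : Sˣ) : S) - ((η h : Sˣ) : S) * y) := by noncomm_ring
        rw [h6]
        exact I.add_mem hx hy
      · intro k x _ hx
        rw [smul_mul_assoc, mul_smul_comm, ← smul_sub]
        exact I.zsmul_mem hx k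
    have h7 := h4 _ (spn _ hk)
    have h8 : (a - k) * ((η h : Sˣ) : S) - ((η h : Sˣ) : S) * (a - k) = a * ((η h : Sˣ) : S) - ((η h : Sˣ) : S) * a := by
      rw [sub_mul, mul_sub, Int.cast_comm k ((η h : Sˣ) : S)]
      abel
    rwa [h8] at h7
  obtain ⟨k, hk⟩ := dec b
  have h4 : ∀ x ∈ Submodule.span ℤ (Set.range fun g => ((η g : Sˣ) : S) - 1), a * x - x * a ∈ I := by
    intro x hx
    refine Submodule.span_induction ?_ ?_ ?_ ?_ hx
    · rintro _ ⟨g, rfl⟩
      have h5 := h3 g a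
      have h6 : a * (((η g : Sˣ) : S) - 1) - (((η g : Sˣ) : S) - 1) * a = a * ((η g : Sˣ) : S) - ((η g : Sˣ) : S) * a := by
        noncomm_ring
      show a * (((η g : Sˣ) : S) - 1) - (((η g : Sˣ) : S) - 1) * a ∈ I
      rw [h6]
      exact h5
    · rw [zero_mul, mul_zero, sub_zero]
      exact I.zero_mem
    · intro x y _ _ hx hy
      have h6 : a * (x + y) - (x + y) * a = (a * x - x * a) + (a * y - y * a) := by noncomm_ring
      rw [h6]
      exact I.add_mem hx hy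
    · intro k x _ hx
      rw [smul_mul_assoc, mul_smul_comm, ← smul_sub]
      exact I.zsmul_mem hx k
  have h7 := h4 _ (spn _ hk)
  have h8 : a * (b - k) - (b - k) * a = a * b - b * a := by
    rw [sub_mul, mul_sub, Int.cast_comm k a]
    abel
  rwa [h8] at h7

theorem p_AQ4 (hNP : S_NP.{u}) : Stmt_AQ4.{u} := by
  intro p m hp G _ hG hlf S _ η M I V hR K
  obtain ⟨S', hS', π, hπ, hker⟩ := p_QUO S (AQ4_ann I (p ^ K)) (AQ4_idl hR.idI _)
  have hpk : ∀ b : S', p ^ K • b = 0 := by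
    intro b
    obtain ⟨a, rfl⟩ := hπ b
    rw [← map_nsmul, hker]
    intro c hc h
    rw [smul_mul_assoc, mul_smul_comm, ← mul_smul_comm, ← smul_mul_assoc, h, mul_zero, zero_mul]
    exact ⟨rfl, rfl⟩
  refine ⟨S', hS', π, hπ, hker, ?_⟩
  have hIM : I ≤ M := fun a ha => ((hR.mem a).1 ha).1
  have lift : ∀ (x' : S'ˣ), (x' : S') - 1 ∈ I.map π.toAddMonoidHom →
      ∃ x : Sˣ, (x : S) - 1 ∈ I ∧ Units.map (π : S →* S') x = x' := by
    intro x' hx
    obtain ⟨b, hb, hbx⟩ := AddSubgroup.mem_map.1 hx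
    have hu : IsUnit (1 + b) := (hR.nil b hb).isUnit_one_add
    refine ⟨hu.unit, ?_, ?_⟩
    · rw [IsUnit.unit_spec, add_sub_cancel_left]
      exact hb
    · apply Units.ext
      rw [Units.coe_map]
      have h1 : π b = (x' : S') - 1 := hbx
      change π ((hu.unit : Sˣ) : S) = (x' : S')
      rw [IsUnit.unit_spec, map_add, map_one, h1]
      abel
  let φ' : G →* S' := (π : S →* S').comp ((Units.coeHom S).comp η)
  have hφ' : ∀ g, φ' g = π ((η g : Sˣ) : S) := fun _ => rfl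
  have ht : ∀ g, φ' g - 1 ∈ AS.t p S' := fun g => ⟨K, hpk _⟩
  have hMM : ∀ a ∈ M, π a ∈ AS.M' φ' := by
    intro a ha
    refine Submodule.span_induction ?_ ?_ ?_ ?_ ((hR.spn a).1 ha)
    · rintro _ ⟨g, rfl⟩
      show π (((η g : Sˣ) : S) - 1) ∈ AS.M' φ'
      rw [map_sub, map_one]
      exact Submodule.subset_span ⟨g, rfl⟩
    · rw [map_zero]
      exact (AS.M' φ').zero_mem
    · intro x y _ _ hx hy
      rw [map_add]
      exact (AS.M' φ').add_mem hx hy
    · intro k x _ hx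
      rw [map_zsmul]
      exact (AS.M' φ').smul_mem _ hx
  refine ⟨QIL_ideal M π hπ hR.idM, QIL_ideal I π hπ hR.idI, AddSubgroup.map_mono hIM, ?_, ?_, ?_, ?_, ?_, ?_, ?_⟩
  · intro a' b'
    obtain ⟨a, rfl⟩ := hπ a'
    obtain ⟨b, rfl⟩ := hπ b'
    refine AddSubgroup.mem_map.2 ⟨a * b - b * a, AQ4_com η M I hR.idI hR.dec (fun a ha => (hR.spn a).1 ha) hR.com a b, ?_⟩
    change π (a * b - b * a) = _
    rw [map_sub, map_mul, map_mul]
  · intro a'
    obtain ⟨a, rfl⟩ := hπ a'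
    obtain ⟨k, hk⟩ := hR.dec a
    refine ⟨k, AddSubgroup.mem_map.2 ⟨a - k, hk, ?_⟩⟩
    change π (a - k) = _
    rw [map_sub, map_intCast]
  · intro Λ hΛ hΛM
    refine AS.loc_nil hNP hp hG hlf ht Λ hΛ ?_
    intro x hx
    obtain ⟨a, ha, rfl⟩ := AddSubgroup.mem_map.1 (hΛM hx)
    exact hMM a ha
  · intro b _
    exact ⟨K, hpk b⟩
  · intro x hx
    obtain ⟨v, hv, rfl⟩ := Subgroup.mem_map.1 hx
    refine AddSubgroup.mem_map.2 ⟨(v : S) - 1, hR.sub v hv, ?_⟩
    change π ((v : S) - 1) = _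
    rw [map_sub, map_one]
    rfl
  · intro x hx u' hu'
    obtain ⟨v, hv, rfl⟩ := Subgroup.mem_map.1 hx
    obtain ⟨u, hu, rfl⟩ := lift u' hu'
    exact Subgroup.mem_map.2 ⟨u⁻¹ * v * u, hR.nrm v hv u hu, by rw [map_mul, map_mul, map_inv]⟩
  · intro x hx y hy
    obtain ⟨v, hv, rfl⟩ := Subgroup.mem_map.1 hx
    obtain ⟨w, hw, rfl⟩ := Subgroup.mem_map.1 hy
    rw [← SK_iter (Units.map (π : S →* S')) v m w, hR.eng v hv w hw, map_one]

/-- the case `V = η.range` -/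
theorem AQ4_AQ (hNP : S_NP.{u}) : Stmt_AQ.{u} := by
  intro p m hp G _ hG hlf S _ η M I hR K
  refine p_AQ4 hNP p m hp G hG hlf S η M I η.range
    ⟨hR.idM, hR.idI, hR.dec, hR.spn, hR.mem, hR.com, hR.nil, le_rfl, ?_, hR.nrm, hR.eng⟩ K
  rintro _ ⟨g, rfl⟩
  exact (hR.spn _).2 (Submodule.subset_span ⟨g, rfl⟩)

end Pool.EN
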