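import Pool.Agent.Work.MP_3617d5_en.Defs3
import Pool.Agent.Work.MP_3617d5_en.B_QU2
import Pool.Agent.Work.MP_3fbbd3_adj.AS

/-!
# MP_3617d5_al, THEOREM EN+, block AQ (second copy): the quotient by the annihilator
-/

set_option autoImplicit false

universe u

namespace Pool.EN

open Pool.NR Pool.EA
open Pool.Agent.Work.MP_3fbbd3_adj

open scoped commutatorElement

theorem q_AQ (hNP : S_NP.{u}) (hQUO : Stmt_QUO.{u}) : Stmt_AQ.{u} := by
  intro p m hp G _ hG hlf S _ η M I hred K
  have hid : ∃ N : AddSubgroup S, IdI N ∧ ∀ a, a ∈ N ↔ ∀ c ∈ I, p ^ K • c = 0 → a * c = 0 ∧ c * a = 0 := by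
    refine ⟨{ carrier := {a | ∀ c ∈ I, p ^ K • c = 0 → a * c = 0 ∧ c * a = 0}
              zero_mem' := fun c _ _ => ⟨zero_mul c, mul_zero c⟩
              add_mem' := ?_
              neg_mem' := ?_ }, ⟨?_, ?_⟩, fun a => Iff.rfl⟩
    · intro a b ha hb c hc hK
      rw [add_mul, mul_add, (ha c hc hK).1, (hb c hc hK).1, (ha c hc hK).2, (hb c hc hK).2, add_zero]
      exact ⟨rfl, rfl⟩
    · intro a ha c hc hK
      rw [neg_mul, mul_neg, (ha c hc hK).1, (ha c hc hK).2, neg_zero]
      exact ⟨rfl, rfl⟩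
    · intro a b hb c hc hK
      refine ⟨by rw [mul_assoc, (hb c hc hK).1, mul_zero], ?_⟩
      rw [← mul_assoc]
      exact (hb (c * a) (hred.idI.right _ _ hc) (by rw [← smul_mul_assoc, hK, zero_mul])).2
    · intro a b hb c hc hK
      refine ⟨?_, by rw [← mul_assoc, (hb c hc hK).2, zero_mul]⟩
      rw [mul_assoc]
      exact (hb (a * c) (hred.idI.left _ _ hc) (by rw [← mul_smul_comm, hK, mul_zero])).1
  obtain ⟨N, hN, hNm⟩ := hid
  obtain ⟨S', _, π, hπ, hker⟩ := hQUO S N hN
  have hpK : ∀ x : S', p ^ K • x = 0 := by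
    intro x
    obtain ⟨y, rfl⟩ := hπ x
    rw [← map_nsmul, hker, hNm]
    intro c _ hc
    rw [smul_mul_assoc, ← mul_smul_comm, hc, mul_zero, mul_smul_comm, ← smul_mul_assoc, hc, zero_mul]
    exact ⟨rfl, rfl⟩
  have hIM : I ≤ M := fun a ha => ((hred.mem a).1 ha).1
  have hcomS : ∀ a b : S, a * b - b * a ∈ I := by
    have h1 : ∀ g h : G, ((η g : Sˣ) : S) * ((η h : Sˣ) : S) - ((η h : Sˣ) : S) * ((η g : Sˣ) : S) ∈ I := by
      intro g h
      have h2 : ((η g : Sˣ) : S) * ((η h : Sˣ) : S) - ((η h : Sˣ) : S) * ((η g : Sˣ) : S) =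
          (((η ⁅g, h⁆ : Sˣ) : S) - 1) * (((η h : Sˣ) : S) * ((η g : Sˣ) : S)) := by
        rw [sub_mul, one_mul]
        congr 1
        rw [← Units.val_mul, ← Units.val_mul, ← Units.val_mul, ← map_mul, ← map_mul, ← map_mul]
        congr 2
        rw [commutatorElement_def]
        group
      rw [h2]
      exact hred.idI.right _ _ (hred.com g h)
    have h2 : ∀ a : S, a ∈ Submodule.span ℤ (Set.range fun g => ((η g : Sˣ) : S) - 1) →
        ∀ b : S, b ∈ Submodule.span ℤ (Set.range fun g => ((η g : Sˣ) : S) - 1) → a * b - b * a ∈ I := by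
      intro a ha b hb
      induction ha using Submodule.span_induction with
      | mem x hx =>
        obtain ⟨g, rfl⟩ := hx
        induction hb using Submodule.span_induction with
        | mem y hy =>
          obtain ⟨h, rfl⟩ := hy
          have h3 : (((η g : Sˣ) : S) - 1) * (((η h : Sˣ) : S) - 1) - (((η h : Sˣ) : S) - 1) * (((η g : Sˣ) : S) - 1)
              = ((η g : Sˣ) : S) * ((η h : Sˣ) : S) - ((η h : Sˣ) : S) * ((η g : Sˣ) : S) := by noncomm_ring
          rw [show (fun g => ((η g : Sˣ) : S) - 1) g = ((η g : Sˣ) : S) - 1 from rfl,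
            show (fun g => ((η g : Sˣ) : S) - 1) h = ((η h : Sˣ) : S) - 1 from rfl, h3]
          exact h1 g h
        | zero =>
          rw [mul_zero, zero_mul, sub_zero]
          exact I.zero_mem
        | add x y _ _ hx hy =>
          rw [mul_add, add_mul, add_sub_add_comm]
          exact I.add_mem hx hy
        | smul k x _ hx =>
          rw [mul_smul_comm, smul_mul_assoc, ← smul_sub]
          exact I.zsmul_mem hx k
      | zero =>
        rw [mul_zero, zero_mul, sub_zero]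
        exact I.zero_mem
      | add x y _ _ hx hy =>
        rw [mul_add, add_mul, add_sub_add_comm]
        exact I.add_mem hx hy
      | smul k x _ hx =>
        rw [mul_smul_comm, smul_mul_assoc, ← smul_sub]
        exact I.zsmul_mem hx k
    intro a b
    obtain ⟨k, hk⟩ := hred.dec a
    obtain ⟨l, hl⟩ := hred.dec b
    have h3 : a * b - b * a = (a - k) * (b - l) - (b - l) * (a - k) := by
      have e1 : (k : S) * b = b * k := (Int.cast_commute k b).eq
      have e2 : (l : S) * a = a * l := (Int.cast_commute l a).eq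
      have e3 : (k : S) * (l : S) = l * k := (Int.cast_commute k (l : S)).eq
      simp only [sub_mul, mul_sub, e1, e2, e3]
      abel
    rw [h3]
    exact h2 _ ((hred.spn _).1 hk) _ ((hred.spn _).1 hl)
  have hlift : ∀ u' : S'ˣ, (u' : S') - 1 ∈ I.map π.toAddMonoidHom →
      ∃ u : Sˣ, (u : S) - 1 ∈ I ∧ Units.map (π : S →* S') u = u' := by
    intro u' hu'
    obtain ⟨b, hb, hbx⟩ := AddSubgroup.mem_map.1 hu'
    have hu : IsUnit (1 + b) := (hred.nil b hb).isUnit_one_add
    refine ⟨hu.unit, ?_, ?_⟩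
    · rw [IsUnit.unit_spec, add_sub_cancel_left]
      exact hb
    · apply Units.ext
      rw [Units.coe_map]
      have h1 : π b = (u' : S') - 1 := hbx
      change π ((hu.unit : Sˣ) : S) = (u' : S')
      rw [IsUnit.unit_spec, map_add, map_one, h1]
      abel
  refine ⟨S', inferInstance, π, hπ, fun a => (hker a).trans (hNm a), ?_⟩
  refine ⟨QU2_idI hred.idM hπ, QU2_idI hred.idI hπ, AddSubgroup.map_mono hIM, ?_, ?_, ?_, ?_, ?_, ?_, ?_⟩
  · intro a b
    obtain ⟨a0, rfl⟩ := hπ a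
    obtain ⟨b0, rfl⟩ := hπ b
    refine AddSubgroup.mem_map.2 ⟨_, hcomS a0 b0, ?_⟩
    show π (a0 * b0 - b0 * a0) = π a0 * π b0 - π b0 * π a0
    rw [map_sub, map_mul, map_mul]
  · intro a
    obtain ⟨a0, rfl⟩ := hπ a
    obtain ⟨k, hk⟩ := hred.dec a0
    refine ⟨k, AddSubgroup.mem_map.2 ⟨_, hk, ?_⟩⟩
    show π (a0 - k) = π a0 - k
    rw [map_sub, map_intCast]
  · intro Λ hfin hsub
    obtain ⟨ψ, hψ⟩ : ∃ ψ : G →* S', ψ = ((π : S →* S').comp (Units.coeHom S)).comp η := ⟨_, rfl⟩
    have hψg : ∀ g, ψ g = π ((η g : Sˣ) : S) := fun g => by rw [hψ]; rfl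
    have ht : ∀ g, ψ g - 1 ∈ AS.t p S' := by
      intro g
      rw [AS.mem_t]
      exact ⟨K, hpK _⟩
    refine AS.loc_nil hNP hp hG hlf ht Λ hfin ?_
    intro x hx
    obtain ⟨y, hy, hyx⟩ := AddSubgroup.mem_map.1 (hsub hx)
    have h1 := (hred.spn y).1 hy
    rw [← hyx]
    clear hyx hx hy
    change π y ∈ Submodule.span ℤ (Set.range fun g => ψ g - 1)
    induction h1 using Submodule.span_induction with
    | mem x hx =>
      obtain ⟨g, rfl⟩ := hx
      refine Submodule.subset_span ⟨g, ?_⟩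
      show ψ g - 1 = π (((η g : Sˣ) : S) - 1)
      rw [hψg, map_sub, map_one]
    | zero => rw [map_zero]; exact Submodule.zero_mem _
    | add x y _ _ hx hy => rw [map_add]; exact Submodule.add_mem _ hx hy
    | smul k x _ hx => rw [map_zsmul]; exact Submodule.smul_mem _ k hx
  · intro b _
    exact ⟨K, hpK b⟩
  · rintro _ ⟨_, ⟨g, rfl⟩, rfl⟩
    refine AddSubgroup.mem_map.2 ⟨((η g : Sˣ) : S) - 1, (hred.spn _).2 (Submodule.subset_span ⟨g, rfl⟩), ?_⟩
    show π (((η g : Sˣ) : S) - 1) = π ((η g : Sˣ) : S) - 1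
    rw [map_sub, map_one]
  · rintro _ ⟨x, hx, rfl⟩ u' hu'
    obtain ⟨u, hu, rfl⟩ := hlift u' hu'
    refine ⟨u⁻¹ * x * u, hred.nrm x hx u hu, ?_⟩
    rw [map_mul, map_mul, map_inv]
  · rintro _ ⟨x, hx, rfl⟩ _ ⟨y, hy, rfl⟩
    have hsc : Function.Semiconj (Units.map (π : S →* S')) (fun z : Sˣ => z⁻¹ * x⁻¹ * z * x)
        (fun z : S'ˣ => z⁻¹ * (Units.map (π : S →* S') x)⁻¹ * z * Units.map (π : S →* S') x) := by
      intro z
      simp only [map_mul, map_inv]
    have h := (hsc.iterate_right m) y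
    rw [← h, hred.eng x hx y hy, map_one]

end Pool.EN
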