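import Pool.Agent.Work.MP_3617d5_rx.Main

/-!
# MP_3617d5_al, THEOREM EN+: from the quotient by the annihilator to a soluble normal subgroup

`UD_core`: if `x - 1` generates a nilpotent ideal modulo the annihilator of `I_K = {b ∈ I | q b = 0}` and `q (ψ - 1) I = 0`, then
`b x - x b` is in a nilpotent ideal `T ≤ I` for all `b ∈ I`. `UD_sol`: then `x` lies in a soluble normal subgroup of any group `P` of
units if `S / I` is commutative.
-/

set_option autoImplicit false

open Nat

universe u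

namespace Pool.EN

open Pool.NR Pool.EA Pool.RX

theorem UD_core (S : Type u) [Ring S] (I : AddSubgroup S) (idl : IdI I) (x : Sˣ) (q : ℕ)
    (hK : ∀ s ∈ I, q • (inn x s - s) = 0) (S' : Type u) [Ring S'] (π : S →+* S')
    (hker : ∀ a, π a = 0 → ∀ c ∈ I, q • c = 0 → a * c = 0)
    (hN : NilGen (π (x : S) - 1)) :
    ∃ T : AddSubgroup S, IdI T ∧ T ≤ I ∧ NilT T ∧ ∀ b ∈ I, b * (x : S) - (x : S) * b ∈ T := by
  obtain ⟨h5, h6, h7⟩ := p_NGI S' _ hN
  set T0 := AddSubgroup.closure {y : S' | ∃ a b, y = a * (π (x : S) - 1) * b} with hT0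
  have hEid : IdI (tors I q) := tors_idl idl q
  have hcom : IdI (T0.comap (π : S →+ S')) := by
    constructor
    · intro a b hb
      change π (a * b) ∈ T0
      rw [map_mul]
      exact h5.left _ _ hb
    · intro a b hb
      change π (b * a) ∈ T0
      rw [map_mul]
      exact h5.right _ _ hb
  refine ⟨tors I q ⊓ T0.comap (π : S →+ S'), inf_idl hEid hcom, ?_, ?_, ?_⟩
  · intro b hb
    exact (mem_tors.1 hb.1).1
  · obtain ⟨M, hM⟩ := h7
    refine ⟨M + 1, fun l hl hb => ?_⟩
    have h1 : (l.take M).length = M := by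
      rw [List.length_take, hl]
      omega
    have h2 : (l.drop M).length = 0 + 1 := by
      rw [List.length_drop, hl]
      omega
    obtain ⟨y, l2, h3⟩ := List.exists_cons_of_length_eq_add_one h2
    have h4 : l2 = [] := by
      rw [h3] at h2
      exact List.length_eq_zero_iff.1 (by simpa using h2)
    subst h4
    have h8 : π (l.take M).prod = 0 := by
      rw [map_list_prod]
      refine hM _ (by rw [List.length_map, h1]) ?_
      intro b' hb'
      obtain ⟨b, hb1, rfl⟩ := List.mem_map.1 hb'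
      exact (hb b (List.mem_of_mem_take hb1)).2
    have h9 : y ∈ tors I q := by
      refine (hb y ?_).1
      have h10 : y ∈ l.drop M := by rw [h3]; exact List.mem_cons_self
      exact List.mem_of_mem_drop h10
    rw [← List.take_append_drop M l, List.prod_append, h3, List.prod_cons, List.prod_nil, mul_one]
    obtain ⟨h11, h12⟩ := mem_tors.1 h9
    exact hker _ h8 y h11 h12
  · intro b hb
    refine ⟨mem_tors.2 ⟨I.sub_mem (idl.right _ _ hb) (idl.left _ _ hb), ?_⟩, ?_⟩
    · have h1 : b * (x : S) - (x : S) * b = (x : S) * (inn x b - b) := by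
        rw [inn_apply, mul_sub, ← mul_assoc, ← mul_assoc, Units.mul_inv, one_mul]
      rw [h1, ← mul_smul_comm, hK b hb, mul_zero]
    · change π (b * (x : S) - (x : S) * b) ∈ T0
      have h1 : π (b * (x : S) - (x : S) * b) = π b * (π (x : S) - 1) - (π (x : S) - 1) * π b := by
        rw [map_sub, map_mul, map_mul]
        noncomm_ring
      rw [h1]
      exact T0.sub_mem (h5.left _ _ h6) (h5.right _ _ h6)

/-- the units `1 + I` -/
def UD_one {S : Type u} [Ring S] (I : AddSubgroup S) (idl : IdI I) : Subgroup Sˣ where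
  carrier := {u | (u : S) - 1 ∈ I}
  one_mem' := by
    change ((1 : Sˣ) : S) - 1 ∈ I
    rw [Units.val_one, sub_self]
    exact I.zero_mem
  mul_mem' := by
    intro a b ha hb
    change ((a * b : Sˣ) : S) - 1 ∈ I
    have h1 : ((a * b : Sˣ) : S) - 1 = ((a : S) - 1) * (b : S) + ((b : S) - 1) := by
      rw [Units.val_mul]
      noncomm_ring
    rw [h1]
    exact I.add_mem (idl.right _ _ ha) hb
  inv_mem' := by
    intro a ha
    change ((a⁻¹ : Sˣ) : S) - 1 ∈ I
    have h1 : ((a⁻¹ : Sˣ) : S) - 1 = - (((a⁻¹ : Sˣ) : S) * ((a : S) - 1)) := by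
      rw [mul_sub, Units.inv_mul]
      noncomm_ring
    rw [h1]
    exact I.neg_mem (idl.left _ _ ha)

theorem mem_UD_one {S : Type u} [Ring S] {I : AddSubgroup S} {idl : IdI I} {u : Sˣ} :
    u ∈ UD_one I idl ↔ (u : S) - 1 ∈ I := Iff.rfl

theorem UD_one_normal {S : Type u} [Ring S] (I : AddSubgroup S) (idl : IdI I) : (UD_one I idl).Normal := by
  constructor
  intro n hn g
  rw [mem_UD_one] at hn ⊢
  have h1 : ((g * n * g⁻¹ : Sˣ) : S) - 1 = (g : S) * ((n : S) - 1) * ((g⁻¹ : Sˣ) : S) := by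
    rw [mul_sub, sub_mul, mul_one, Units.mul_inv]
    simp only [Units.val_mul]
  rw [h1]
  exact idl.right _ _ (idl.left _ _ hn)

/-- the commutator of units of a ring which is commutative modulo `I` -/
theorem UD_comm {S : Type u} [Ring S] {T : AddSubgroup S} (idl : IdI T) (u v : Sˣ)
    (h : (u : S) * (v : S) - (v : S) * (u : S) ∈ T) : ((u⁻¹ * v⁻¹ * u * v : Sˣ) : S) - 1 ∈ T := by
  have h1 : ((u⁻¹ * v⁻¹ * u * v : Sˣ) : S) - 1 =
      ((u⁻¹ * v⁻¹ : Sˣ) : S) * ((u : S) * (v : S) - (v : S) * (u : S)) := by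
    have h2 : ((u⁻¹ * v⁻¹ : Sˣ) : S) * ((v : S) * (u : S)) = 1 := by
      rw [← Units.val_mul, ← Units.val_mul]
      have h3 : u⁻¹ * v⁻¹ * (v * u) = 1 := by group
      rw [h3, Units.val_one]
    rw [mul_sub, h2]
    simp only [Units.val_mul, mul_assoc]
  rw [h1]
  exact idl.left _ _ h

theorem UD_sol (S : Type u) [Ring S] (I : AddSubgroup S) (idl : IdI I) (com : ∀ a b : S, a * b - b * a ∈ I)
    (T : AddSubgroup S) (hT : IdI T) (hTI : T ≤ I) (hn : NilT T) (P : Subgroup Sˣ) (x : Sˣ) (hx : x ∈ P)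
    (h : ∀ b ∈ I, b * (x : S) - (x : S) * b ∈ T) :
    ∃ C : Subgroup P, C.Normal ∧ Group.IsSolvable C ∧ (⟨x, hx⟩ : P) ∈ C := by
  obtain ⟨H, h3, h4, h5⟩ := p_GEN S T hT hn
  have hN := UD_one_normal I idl
  have hN' : ((UD_one I idl).subgroupOf P).Normal := by
    have := hN
    infer_instance
  have hL' : (H.subgroupOf P).Normal := by
    have := h3
    infer_instance
  refine p_GRH P ((UD_one I idl).subgroupOf P) (H.subgroupOf P) hL' ?_ ?_ ?_ ⟨x, hx⟩ ?_
  · intro y hy
    rw [Subgroup.mem_subgroupOf] at hy ⊢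
    exact mem_UD_one.2 (hTI ((h5 _).1 hy))
  · have h6 : Group.IsSolvable H := by
      have := h4
      infer_instance
    have hinj : Function.Injective ((P.subtype.comp (H.subgroupOf P).subtype).codRestrict H (fun y => y.2)) := by
      intro a b hab
      have h7 := congrArg Subtype.val hab
      exact Subtype.ext (Subtype.ext h7)
    exact Group.isSolvable_of_isSolvable_injective hinj
  · have hcomm : ∀ a b : P ⧸ (UD_one I idl).subgroupOf P, a * b = b * a := by
      intro a b
      obtain ⟨a, rfl⟩ := QuotientGroup.mk_surjective a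
      obtain ⟨b, rfl⟩ := QuotientGroup.mk_surjective b
      rw [← QuotientGroup.mk_mul, ← QuotientGroup.mk_mul, QuotientGroup.eq, Subgroup.mem_subgroupOf, mem_UD_one]
      have h8 := UD_comm idl (b : Sˣ) (a : Sˣ) (com _ _)
      have h9 : (((a * b)⁻¹ * (b * a) : P) : Sˣ) = (b : Sˣ)⁻¹ * (a : Sˣ)⁻¹ * (b : Sˣ) * (a : Sˣ) := by
        simp [mul_assoc]
      rw [h9]
      exact h8
    letI : CommGroup (P ⧸ (UD_one I idl).subgroupOf P) :=
      { (inferInstance : Group (P ⧸ (UD_one I idl).subgroupOf P)) with mul_comm := hcomm }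
    infer_instance
  · intro y hy
    rw [Subgroup.mem_subgroupOf, mem_UD_one] at hy
    rw [Subgroup.mem_subgroupOf]
    have h8 : ((y : Sˣ) : S) * (x : S) - (x : S) * ((y : Sˣ) : S) ∈ T := by
      have h9 := h _ hy
      have h10 : (((y : Sˣ) : S) - 1) * (x : S) - (x : S) * (((y : Sˣ) : S) - 1) =
          ((y : Sˣ) : S) * (x : S) - (x : S) * ((y : Sˣ) : S) := by noncomm_ring
      rwa [h10] at h9
    exact (h5 _).2 (UD_comm hT _ _ h8)

end Pool.EN
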