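import Pool.Agent.Work.MP_3617d5_en.Defs3
import Pool.Agent.Work.MP_3617d5_en.UDc

/-!
# MP_3617d5_al, THEOREM EN+, block FI3: the theorem
-/

set_option autoImplicit false

universe u

namespace Pool.EN

open Pool.NR Pool.EA

open scoped commutatorElement

section
variable {S : Type u} [Ring S] {p m : ℕ} {G : Type u} [Group G] {η : G →* Sˣ} {M I : AddSubgroup S}

theorem FI3_unit (v z : Sˣ) :
    Units.map ((Pool.RX.inn v : S →+* S) : S →* S) z = v⁻¹ * z * v := by
  apply Units.ext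
  rfl

theorem FI3_enga (hR : Red p m η M I) {x : Sˣ} (hx : x ∈ η.range) (j : ℕ) :
    EngA (m + 1) I (Pool.RX.inn x ^ j) := by
  intro y hy
  rw [Pool.RX.inn_pow]
  have hv : x ^ j ∈ η.range := Subgroup.pow_mem _ hx j
  generalize x ^ j = v at hv
  have h1 : (fun z : Sˣ => z⁻¹ * Units.map ((Pool.RX.inn v : S →+* S) : S →* S) z)
      = fun z : Sˣ => z⁻¹ * v⁻¹ * z * v := by
    funext z
    rw [FI3_unit]
    group
  rw [h1, Function.iterate_succ_apply]
  refine hR.eng v hv _ ?_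
  exact Subgroup.mul_mem _ (hR.nrm _ (Subgroup.inv_mem _ hv) y hy) hv

theorem FI3_inv (hI : IdI I) (x : Sˣ) : InvI I (Pool.RX.inn x) := by
  intro b
  rw [Pool.RX.inn_apply]
  constructor
  · intro h
    have h1 := hI.right ((x⁻¹ : Sˣ) : S) _ (hI.left (x : S) _ h)
    have e : (x : S) * (((x⁻¹ : Sˣ) : S) * b * (x : S)) * ((x⁻¹ : Sˣ) : S) = b := by
      simp only [mul_assoc, Units.mul_inv, mul_one]
      rw [← mul_assoc, Units.mul_inv, one_mul]
    rwa [e] at h1
  · intro h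
    exact hI.right _ _ (hI.left _ _ h)

end

theorem p_FI3 (hUTP : Stmt_UTP.{u}) (hUNC : Stmt_UNC.{u}) (hAQ : Stmt_AQ.{u}) (hIN2 : Stmt_IN2.{u})
    (hUD : Stmt_UD.{u}) : Stmt_FI3.{u} := by
  intro p n m hp hn hm G _ hG hGE hlf A _ χ hker U hU hUn hE hcl
  by_cases h2 : p = 2
  · subst h2
    have h1 : Engel 1 G := by
      interval_cases n
      · exact SK_mono hGE
      · exact hGE
    have hcomm : ∀ x y : G, x * y = y * x := by
      intro x y
      have h3 : x⁻¹ * y⁻¹ * x * y = 1 := h1 y x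
      calc x * y = y * x * (x⁻¹ * y⁻¹ * x * y) := by group
        _ = y * x := by rw [h3, mul_one]
    intro g
    let _ : CommGroup G := { (inferInstance : Group G) with mul_comm := hcomm }
    exact ⟨⊤, inferInstance, by infer_instance, trivial⟩
  · obtain ⟨S, hS, η, M, I, hR, hηk⟩ := hUTP p m hp h2 G hG hlf A χ U hU hUn hE hcl
    have h2p : 2 < p := lt_of_le_of_ne hp.two_le (Ne.symm h2)
    have hks : Group.IsSolvable η.rangeRestrict.ker := by
      rw [MonoidHom.ker_rangeRestrict, hηk]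
      exact hker
    refine p_PU2 (p_SOL (p_EXT (p_NAC p_ABE))) G η.range p n hp hn hG hGE η.rangeRestrict hks ?_
    intro g
    obtain ⟨x, hxd⟩ : ∃ x, x = η g := ⟨_, rfl⟩
    have hx : x ∈ η.range := ⟨g, hxd.symm⟩
    obtain ⟨e, he⟩ := hG g
    have hxe : x ^ p ^ e = 1 := by rw [hxd, ← map_pow, he, map_one]
    obtain ⟨K, hK⟩ := hUNC S (m + 1) p e I (Pool.RX.inn x) hR.idI
      (fun b hb => (hR.nil b hb).isUnit_one_add) (FI3_inv hR.idI x) (FI3_enga hR hx)
      (fun b _ => Pool.RX.inn_ord x _ hxe b)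
    obtain ⟨S', hS', π, hπ, hπk, hgood⟩ := hAQ p m hp G hG hlf S η M I hR K
    have hN : NilGen (π (x : S) - 1) :=
      hIN2 S' p m _ _ _ hp h2p hm hgood (Units.map (π : S →* S') x) ⟨x, hx, rfl⟩
    obtain ⟨T, hT, hTI, hTn, hTx⟩ := UD_core S I hR.idI x (p ^ K) hK S' π
      (fun a ha c hc hqc => ((hπk a).1 ha c hc hqc).1) hN
    have hg : η.rangeRestrict g = ⟨x, hx⟩ := Subtype.ext hxd.symm
    rw [hg]
    refine hUD S I T hR.idI hT hTI hTn η.range ?_ ⟨x, hx⟩ ?_
    · rintro ⟨_, a, rfl⟩ ⟨_, b, rfl⟩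
      have h3 := hR.com a b
      rw [map_commutatorElement] at h3
      exact h3
    · intro b hb
      have h4 : ((x⁻¹ : Sˣ) : S) * b * (x : S) - b
          = ((x⁻¹ : Sˣ) : S) * (b * (x : S) - (x : S) * b) := by
        rw [mul_sub, ← mul_assoc, ← mul_assoc, Units.inv_mul, one_mul]
      show ((x⁻¹ : Sˣ) : S) * b * (x : S) - b ∈ T
      rw [h4]
      exact hT.left _ _ (hTx b hb)

end Pool.EN
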