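import Pool.Agent.Work.MP_3617d5_en.Defs3

/-!
# Block G32
-/

set_option autoImplicit false

universe u

namespace Pool.EN

open Pool.NR

section
variable {S : Type u} [Ring S]

theorem G32_anti {F : ℕ → AddSubgroup S} (hF : Fil F) {i j : ℕ} (h : i ≤ j) : F j ≤ F i := by
  induction h with
  | refl => exact le_rfl
  | step _ ih => exact (hF.anti _).trans ih

theorem G32_pow {F : ℕ → AddSubgroup S} (hF : Fil F) {z : S} (hz : z ∈ F 0) (i : ℕ) :
    z ^ i ∈ F 0 := by
  induction i with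
  | zero => rw [pow_zero]; exact hF.one
  | succ i ih => rw [pow_succ]; exact hF.mul 0 0 _ ih _ hz

theorem G32_inv {F : ℕ → AddSubgroup S} (hF : Fil F) {z : S} (hz : z ∈ F 0) {k : ℕ}
    (hk : z ^ (k + 1) = 0) (g : Sˣ) (hg : (g : S) = 1 + z) : ((g⁻¹ : Sˣ) : S) ∈ F 0 := by
  have h1 : (g : S) * ∑ i ∈ Finset.range (k + 1), (-z) ^ i = 1 := by
    have h2 := mul_neg_geom_sum (-z) (k + 1)
    rw [sub_neg_eq_add, ← hg] at h2
    rw [h2, neg_pow, hk, mul_zero, sub_zero]
  rw [Units.inv_eq_of_mul_eq_one_right h1]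
  refine AddSubgroup.sum_mem _ fun i _ => G32_pow hF ((F 0).neg_mem hz) i

end

theorem p_G32 (hINV : Stmt_INV.{u}) : Stmt_G32.{u} := by
  intro S _ m F P z k g hL hk j hj a ha
  have hF := hL.fil
  obtain ⟨v, hv⟩ : ∃ v, v = z ^ (k - 1) := ⟨_, rfl⟩
  obtain ⟨w, hw⟩ : ∃ w, w = z ^ k := ⟨_, rfl⟩
  have hvz : v * z = w := by rw [hv, hw, ← pow_succ]; congr 1; omega
  have hzv : z * v = w := by rw [hv, hw, ← pow_succ']; congr 1; omega
  have hzw : z * w = 0 := by rw [hw, ← pow_succ', hL.zn]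
  have hwz : w * z = 0 := by rw [hw, ← pow_succ, hL.zn]
  have hvw : v * w = 0 := by
    rw [hv, hw, ← pow_add]
    have e : k - 1 + k = (k + 1) + (k - 2) := by omega
    rw [e, pow_add, hL.zn, zero_mul]
  have hwv : w * v = 0 := by
    rw [hv, hw, ← pow_add]
    have e : k + (k - 1) = (k + 1) + (k - 2) := by omega
    rw [e, pow_add, hL.zn, zero_mul]
  have hv0 : v ∈ F 0 := by rw [hv]; exact G32_pow hF hL.z0 _
  have hw1 : w ∈ F 1 := by rw [hw]; exact hL.w1
  have hgi : ((g⁻¹ : Sˣ) : S) ∈ F 0 := G32_inv hF hL.z0 hL.zn g hL.gz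
  have hgiP : g⁻¹ ∈ P := P.inv_mem hL.gP
  rw [← hw]
  refine ⟨?_, ?_⟩
  · -- the element `h`
    have hb : w * a * v ∈ F (1 + j) := by
      have := hF.mul (1 + j) 0 _ (hF.mul 1 j _ hw1 _ ha) _ hv0
      rwa [add_zero] at this
    obtain ⟨u, hu⟩ := (hINV S F hF (1 + j) (by omega)).1 _ hb
    have hu1 : (u : S) - 1 ∈ F 2 := by
      rw [hu, add_sub_cancel_left]
      exact G32_anti hF (by omega) hb
    refine ⟨u⁻¹ * g⁻¹ * u * g, P.mul_mem (hL.nrm _ hgiP u hu1) hL.gP, ?_⟩
    have e1 : (g * u) * (u⁻¹ * g⁻¹ * u * g) = u * g := by group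
    have e2 : ((g * u : Sˣ) : S) * ((u⁻¹ * g⁻¹ * u * g : Sˣ) : S) = (u : S) * (g : S) := by
      rw [← Units.val_mul, e1, Units.val_mul]
    have e3 : ((g * u : Sˣ) : S) * (1 + w * a * w) = (u : S) * (g : S) := by
      rw [Units.val_mul, hu, hL.gz]
      calc (1 + z) * (1 + w * a * v) * (1 + w * a * w)
          = (1 + z + w * a * v + (z * w) * a * v) + (w * a * w + (z * w) * a * w
            + w * a * (v * w) * a * w + (z * w) * a * v * w * a * w) := by noncomm_ring
        _ = 1 + z + w * a * v + w * a * (v * z) := by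
            rw [hzw, hvw, hvz]
            simp only [zero_mul, mul_zero, add_zero]
        _ = (1 + w * a * v) * (1 + z) := by noncomm_ring
    exact (Units.mul_right_inj (g * u)).1 (e2.trans e3.symm)
  · have hb : v * a ∈ F j := by
      have := hF.mul 0 j _ hv0 _ ha
      rwa [zero_add] at this
    obtain ⟨u, hu⟩ := (hINV S F hF j (by omega)).1 _ hb
    have huj : (u : S) - 1 ∈ F j := by rw [hu, add_sub_cancel_left]; exact hb
    have hu1 : (u : S) - 1 ∈ F 2 := G32_anti hF hj huj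
    have hui : ((u⁻¹ : Sˣ) : S) - 1 ∈ F j := (hINV S F hF j (by omega)).2 u huj
    have hui0 : ((u⁻¹ : Sˣ) : S) ∈ F 0 := by
      have := (F 0).add_mem (G32_anti hF (Nat.zero_le j) hui) hF.one
      rwa [sub_add_cancel] at this
    obtain ⟨c, hc⟩ : ∃ c, c = u⁻¹ * g⁻¹ * u * g := ⟨_, rfl⟩
    have hcP : c ∈ P := by rw [hc]; exact P.mul_mem (hL.nrm _ hgiP u hu1) hL.gP
    have hc1 : (c : S) - 1 = ((u⁻¹ : Sˣ) : S) * ((g⁻¹ : Sˣ) : S) * (v * a * z - w * a) := by
      have e1 : (g * u) * c = u * g := by rw [hc]; group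
      have e2 : ((g * u : Sˣ) : S) * (c : S) = (u : S) * (g : S) := by
        rw [← Units.val_mul, e1, Units.val_mul]
      have e3 : ((g * u : Sˣ) : S) * ((c : S) - 1) = v * a * z - w * a := by
        rw [mul_sub, e2, mul_one, Units.val_mul, hu, hL.gz]
        calc (1 + v * a) * (1 + z) - (1 + z) * (1 + v * a) = v * a * z - (z * v) * a := by
              noncomm_ring
          _ = v * a * z - w * a := by rw [hzv]
      rw [← e3, Units.val_mul, ← mul_assoc, ← mul_assoc, mul_assoc (((u⁻¹ : Sˣ) : S)),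
        Units.inv_mul, mul_one, Units.inv_mul, one_mul]
    refine ⟨c, hcP, ?_, ?_, ?_⟩
    · rw [hc1]
      have h1 := hF.mul 0 0 _ hui0 _ hgi
      have h2 : v * a * z - w * a ∈ F j := by
        refine (F j).sub_mem ?_ ?_
        · have := hF.mul j 0 _ hb _ hL.z0
          rwa [add_zero] at this
        · exact G32_anti hF (by omega) (hF.mul 1 j _ hw1 _ ha)
      have := hF.mul 0 j _ h1 _ h2
      rwa [zero_add] at this
    · have h1 : w * (u : S) = w := by rw [hu, mul_add, mul_one, ← mul_assoc, hwv, zero_mul, add_zero]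
      have h2 : w * (g : S) = w := by rw [hL.gz, mul_add, mul_one, hwz, add_zero]
      have h3 : w * ((u⁻¹ : Sˣ) : S) = w := by
        conv_lhs => rw [← h1]
        rw [mul_assoc, Units.mul_inv, mul_one]
      have h4 : w * ((g⁻¹ : Sˣ) : S) = w := by
        conv_lhs => rw [← h2]
        rw [mul_assoc, Units.mul_inv, mul_one]
      rw [hc, Units.val_mul, Units.val_mul, Units.val_mul, ← mul_assoc, ← mul_assoc, ← mul_assoc, h3,
        h4, h1, h2]
    · have h1 : ((g⁻¹ : Sˣ) : S) * w = w := by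
        have h2 : (g : S) * w = w := by rw [hL.gz, add_mul, one_mul, hzw, add_zero]
        conv_lhs => rw [← h2]
        rw [← mul_assoc, Units.inv_mul, one_mul]
      have h2 : ((c : S) - 1) * w + w * a * w = -((((u⁻¹ : Sˣ) : S) - 1) * (w * a * w)) := by
        rw [hc1]
        calc ((u⁻¹ : Sˣ) : S) * ((g⁻¹ : Sˣ) : S) * (v * a * z - w * a) * w + w * a * w
            = ((u⁻¹ : Sˣ) : S) * ((g⁻¹ : Sˣ) : S) * (v * a * (z * w))
              - ((u⁻¹ : Sˣ) : S) * (((g⁻¹ : Sˣ) : S) * w) * a * w + w * a * w := by noncomm_ring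
          _ = -((((u⁻¹ : Sˣ) : S) - 1) * (w * a * w)) := by
            rw [hzw, h1]; noncomm_ring
      rw [h2]
      have h3 := hF.mul (1 + j) 1 _ (hF.mul 1 j _ hw1 _ ha) _ hw1
      have h4 := hF.mul j _ _ hui _ h3
      have e : j + (1 + j + 1) = 2 * j + 2 := by omega
      rw [e] at h4
      exact (F _).neg_mem h4

end Pool.EN
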