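import Pool.Agent.Work.MP_3fbbd3_adj.GT
import Pool.Agent.Work.MP_3fbbd3_adj.RP

/-!
# MP_3617d5_al, THEOREM EN+, blocks GTC, RPC: finite `p`-groups of units whose cyclic subgroups have central sums, `p` odd
-/

set_option autoImplicit false

universe u

namespace Pool.EN

open Pool.Agent.Work.MP_3fbbd3_adj

open scoped commutatorElement

theorem GTC_pow {G : Type u} [Group G] (v w c : G) (hc : ∀ g : G, c * g = g * c) (h : w * v = c * (v * w)) (n : ℕ) :
    w ^ n * v = c ^ n * (v * w ^ n) ∧ (v * w) ^ n = c ^ (n * (n - 1) / 2) * (v ^ n * w ^ n) := by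
  have hcn : ∀ (k : ℕ) (g : G), c ^ k * g = g * c ^ k := fun k g =>
    ((show Commute c g from hc g).pow_left k).eq
  have h1 : ∀ n : ℕ, w ^ n * v = c ^ n * (v * w ^ n) := by
    intro n
    induction n with
    | zero => simp
    | succ n ih =>
      calc w ^ (n + 1) * v = w * (w ^ n * v) := by rw [pow_succ']; group
        _ = w * (c ^ n * (v * w ^ n)) := by rw [ih]
        _ = c ^ n * (w * v) * w ^ n := by rw [← mul_assoc w, ← hcn n w]; group
        _ = c ^ n * (c * (v * w)) * w ^ n := by rw [h]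
        _ = c ^ (n + 1) * (v * w ^ (n + 1)) := by rw [pow_succ c, pow_succ' w]; group
  refine ⟨h1 n, ?_⟩
  induction n with
  | zero => simp
  | succ n ih =>
    have e : (n + 1) * (n + 1 - 1) / 2 = n * (n - 1) / 2 + n := by
      rw [Nat.add_sub_cancel]
      have h3 : (n + 1) * n = n * (n - 1) + n * 2 := by
        rcases n with _ | n
        · rfl
        · rw [Nat.add_sub_cancel]; ring
      rw [h3, Nat.add_mul_div_right _ _ (by norm_num)]
    calc (v * w) ^ (n + 1) = (v * w) ^ n * (v * w) := pow_succ _ _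
      _ = c ^ (n * (n - 1) / 2) * (v ^ n * (w ^ n * v) * w) := by rw [ih]; group
      _ = c ^ (n * (n - 1) / 2) * (v ^ n * (c ^ n * (v * w ^ n)) * w) := by rw [h1 n]
      _ = c ^ (n * (n - 1) / 2) * (c ^ n * v ^ n * (v * w ^ n) * w) := by
          rw [← mul_assoc (v ^ n), ← hcn n (v ^ n)]
      _ = c ^ (n * (n - 1) / 2 + n) * (v ^ (n + 1) * w ^ (n + 1)) := by
          rw [pow_add, pow_succ v, pow_succ w]; group
      _ = _ := by rw [e]

theorem GTC_cyc {p : ℕ} (hp : p.Prime) (h2 : p ≠ 2) : ∀ (N : ℕ) (G : Type u) [Group G] [Finite G], Nat.card G ≤ N →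
    IsPGroup p G → (∀ u v : G, Commute u v → u ^ p = 1 → v ^ p = 1 → u ≠ 1 → ∃ i : ℕ, u ^ i * v = 1) →
    ∀ a b : G, a * b = b * a := by
  intro N
  induction N with
  | zero =>
    intro G _ _ hN
    have := Nat.card_pos (α := G)
    omega
  | succ N ih =>
    intro G _ _ hN hG h a b
    haveI : Fact p.Prime := ⟨hp⟩
    by_cases hab : a * b = b * a
    · exact hab
    exfalso
    have htop : (⊤ : Subgroup G) ≠ ⊥ := by
      intro h0
      have h1 : ∀ x : G, x = 1 := fun x => by
        have : x ∈ (⊤ : Subgroup G) := Subgroup.mem_top x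
        rwa [h0, Subgroup.mem_bot] at this
      exact hab (by rw [h1 a, h1 b])
    obtain ⟨z0, -, hz1, hzc⟩ := GTx.exists_central hp hG ⊤ htop
    -- a central element of order `p`
    obtain ⟨z, hzp, hz1', hzc'⟩ : ∃ z : G, z ^ p = 1 ∧ z ≠ 1 ∧ ∀ g, g * z = z * g := by
      obtain ⟨k, hk⟩ := (IsPGroup.iff_orderOf.1 hG) z0
      have hk0 : k ≠ 0 := by
        intro h0
        rw [h0, pow_zero, orderOf_eq_one_iff] at hk
        exact hz1 hk
      obtain ⟨k, rfl⟩ := Nat.exists_eq_succ_of_ne_zero hk0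
      refine ⟨z0 ^ p ^ k, ?_, ?_, ?_⟩
      · rw [← pow_mul, ← pow_succ, ← Nat.succ_eq_add_one, ← hk]
        exact pow_orderOf_eq_one z0
      · intro h8
        have := orderOf_dvd_of_pow_eq_one h8
        rw [hk] at this
        have := (Nat.pow_dvd_pow_iff_le_right hp.one_lt).1 this
        omega
      · intro g
        exact ((show Commute g z0 from hzc g).pow_right _).eq
    have hord : ∀ v : G, v ^ p = 1 → v ∈ Subgroup.zpowers z := by
      intro v hv
      obtain ⟨i, hi⟩ := h z v (hzc' v).symm hzp hv hz1'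
      have h1 : v = (z ^ i)⁻¹ := by rw [eq_inv_iff_mul_eq_one, ← hi]; exact ((show Commute v z from hzc' v).pow_right i).eq
      rw [h1]
      exact inv_mem (Subgroup.pow_mem _ (Subgroup.mem_zpowers z) i)
    set Z : Subgroup G := Subgroup.zpowers z with hZ
    have hZc : ∀ c ∈ Z, ∀ g : G, c * g = g * c := by
      intro c hc g
      obtain ⟨i, rfl⟩ := Subgroup.mem_zpowers_iff.1 hc
      exact ((show Commute g z from hzc' g).zpow_right i).eq.symm
    have hZp : ∀ c ∈ Z, c ^ p = 1 := by
      intro c hc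
      obtain ⟨i, rfl⟩ := Subgroup.mem_zpowers_iff.1 hc
      rw [← zpow_natCast, ← zpow_mul, mul_comm, zpow_mul, zpow_natCast, hzp, one_zpow]
    have hZn : Z.Normal := by
      refine ⟨fun c hc g => ?_⟩
      rw [← hZc c hc g, mul_inv_cancel_right]
      exact hc
    -- generators of `Z`
    have hgen : ∀ c ∈ Z, c ≠ 1 → ∀ d ∈ Z, ∃ i : ℕ, d = c ^ i := by
      intro c hc hc1 d hd
      obtain ⟨i, hi⟩ := h c d (hZc c hc d) (hZp c hc) (hZp d hd) hc1
      refine ⟨i * (p - 1), ?_⟩
      have h3 : (c ^ i) ^ p = 1 := by rw [← pow_mul, mul_comm, pow_mul, hZp c hc, one_pow]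
      have h4 : d = (c ^ i)⁻¹ := by
        rw [eq_inv_iff_mul_eq_one, ← hi]; exact hZc d hd _
      rw [h4, pow_mul, inv_eq_iff_mul_eq_one, ← pow_succ', Nat.sub_add_cancel hp.one_lt.le]
      exact h3
    have hcard : Nat.card (G ⧸ Z) ≤ N := by
      have h5 := Subgroup.card_eq_card_quotient_mul_card_subgroup Z
      have h6 : 1 < Nat.card Z := by
        rw [Finite.one_lt_card_iff_nontrivial]
        exact ⟨⟨⟨z, Subgroup.mem_zpowers z⟩, 1, fun h0 => hz1' (congrArg Subtype.val h0)⟩⟩
      have h7 : 0 < Nat.card (G ⧸ Z) := Nat.card_pos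
      nlinarith
    have hprop : ∀ u v : G ⧸ Z, Commute u v → u ^ p = 1 → v ^ p = 1 → u ≠ 1 → ∃ i : ℕ, u ^ i * v = 1 := by
      intro u' v' huv hu hv hu1
      obtain ⟨u, rfl⟩ := QuotientGroup.mk'_surjective Z u'
      obtain ⟨v, rfl⟩ := QuotientGroup.mk'_surjective Z v'
      have hup : u ^ p ∈ Z := by
        rw [← map_pow] at hu
        exact (QuotientGroup.eq_one_iff _).1 hu
      have hvp : v ^ p ∈ Z := by
        rw [← map_pow] at hv
        exact (QuotientGroup.eq_one_iff _).1 hv
      have hup1 : u ^ p ≠ 1 := by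
        intro h0
        apply hu1
        exact (QuotientGroup.eq_one_iff u).2 (hord u h0)
      obtain ⟨i, hi⟩ := hgen _ hup hup1 _ hvp
      -- `v * w`, `w = u ^ (- i)`
      obtain ⟨w, hw⟩ : ∃ w : G, w = (u ^ i)⁻¹ := ⟨_, rfl⟩
      obtain ⟨c, hcdef⟩ : ∃ c : G, c = w * v * w⁻¹ * v⁻¹ := ⟨_, rfl⟩
      have hcZ : c ∈ Z := by
        have h8 : (QuotientGroup.mk' Z) c = 1 := by
          have h9 : Commute ((QuotientGroup.mk' Z) w) ((QuotientGroup.mk' Z) v) := by
            rw [hw, map_inv, map_pow]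
            exact ((huv.pow_left i).inv_left)
          rw [hcdef, map_mul, map_mul, map_mul, map_inv, map_inv, h9.eq, mul_inv_cancel_right, mul_inv_cancel]
        exact (QuotientGroup.eq_one_iff c).1 h8
      have hwv : w * v = c * (v * w) := by rw [hcdef]; group
      have h10 := (GTC_pow v w c (hZc c hcZ) hwv p).2
      have h11 : c ^ (p * (p - 1) / 2) = 1 := by
        have hodd : 2 ∣ p - 1 := by
          rcases hp.eq_two_or_odd with h0 | h0
          · exact absurd h0 h2
          · omega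
        rw [Nat.mul_div_assoc _ hodd, pow_mul, hZp c hcZ, one_pow]
      have h12 : w ^ p = (v ^ p)⁻¹ := by
        rw [hw, inv_pow, ← pow_mul, mul_comm, pow_mul, hi]
      rw [h11, one_mul, h12, mul_inv_cancel] at h10
      have h13 := hord _ h10
      refine ⟨i * (orderOf ((QuotientGroup.mk' Z) u) - 1), ?_⟩
      have h14 : (QuotientGroup.mk' Z) (v * w) = 1 := (QuotientGroup.eq_one_iff _).2 h13
      have h15 : (QuotientGroup.mk' Z) v = ((QuotientGroup.mk' Z) u) ^ i := by
        rw [map_mul, hw, map_inv, map_pow, mul_inv_eq_one] at h14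
        exact h14
      rw [h15, ← pow_add]
      have h16 : 0 < orderOf ((QuotientGroup.mk' Z) u) := orderOf_pos _
      have h17 : i * (orderOf ((QuotientGroup.mk' Z) u) - 1) + i = orderOf ((QuotientGroup.mk' Z) u) * i := by
        obtain ⟨o, ho⟩ : ∃ o, orderOf ((QuotientGroup.mk' Z) u) = o + 1 := ⟨_, (Nat.sub_add_cancel h16).symm⟩
        rw [ho, Nat.add_sub_cancel]
        ring
      rw [h17, pow_mul, pow_orderOf_eq_one, one_pow]
    have hquot := ih (G ⧸ Z) hcard (hG.to_quotient Z) hprop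
    -- the quotient is cyclic
    haveI hcyc : IsCyclic (G ⧸ Z) := by
      letI : CommGroup (G ⧸ Z) := { (inferInstance : Group (G ⧸ Z)) with mul_comm := hquot }
      exact GTx.cyc hp (G ⧸ Z) (hG.to_quotient Z) (fun u v hu hv hu1 =>
        hprop u v (Commute.all u v) hu hv hu1)
    exact hab (commutative_of_cyclic_center_quotient (QuotientGroup.mk' Z) (by
      rw [QuotientGroup.ker_mk']
      intro c hc
      rw [Subgroup.mem_center_iff]
      intro g
      exact (hZc c hc g).symm) a b)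

end Pool.EN
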