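import Pool.Agent.Work.MP_3617d5_en.Defs3
import Pool.Agent.Work.MP_3617d5_en.GTC

/-!
# MP_3617d5_al, THEOREM EN+, block GTC
-/

set_option autoImplicit false

universe u

namespace Pool.EN

theorem p_GTC : Stmt_GTC.{u} := fun _ hp h2 Q _ _ hQ h a b =>
  commutatorElement_eq_one_iff_mul_comm.2 (GTC_cyc hp h2 _ Q le_rfl hQ h a b)

end Pool.EN
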