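import Pool.Agent.Work.MP_3617d5_en.Defs3
import Pool.Agent.Work.MP_3617d5_nr.B_IND

/-!
# MP_3617d5_al, THEOREM EN+, block IN2
-/

set_option autoImplicit false

universe u

namespace Pool.EN

open Pool.NR

theorem IN2_nil {S : Type u} [Ring S] {p m : ℕ} {M I : AddSubgroup S} {P : Subgroup Sˣ}
    (hG : GoodN2 p m M I P) {b : S} (hb : b ∈ M) : IsNilpotent b := by
  obtain ⟨n, hn⟩ := hG.lnil {b} (Set.finite_singleton b) (Set.singleton_subset_iff.2 hb)
  refine ⟨n, ?_⟩
  have h1 := Submodule.pow_mem_pow _ (Submodule.mem_span_singleton_self (R := ℤ) b) n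
  rwa [hn, Submodule.mem_bot] at h1

theorem p_IN2 (hDW2 : Stmt_DW2.{u}) (hQU2 : Stmt_QU2.{u}) (hNGI : Stmt_NGI.{u}) (hQUO : Stmt_QUO.{u}) :
    Stmt_IN2.{u} := by
  intro S₀ _ p m M₀ I₀ P₀ hp h2 hm hG₀ g₀ hg₀
  have key : ∀ k : ℕ, ∀ (S : Type u) [Ring S] (M I : AddSubgroup S) (P : Subgroup Sˣ), GoodN2 p m M I P →
      ∀ g ∈ P, (((g : Sˣ) : S) - 1) ^ k = 0 → NilGen (((g : Sˣ) : S) - 1) := by
    intro k
    induction k with
    | zero =>
      intro S _ M I P _ g _ hz
      rw [pow_zero] at hz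
      refine ⟨0, fun l _ => ?_⟩
      rw [← mul_one (zw _ l), hz, mul_zero]
    | succ k ih =>
      intro S _ M I P hG g hg hz
      rcases Nat.eq_zero_or_pos k with hk | hk
      · subst hk
        rw [zero_add, pow_one] at hz
        refine ⟨0, fun l hl => ?_⟩
        rw [List.length_eq_zero_iff] at hl
        subst hl
        exact hz
      · set z : S := ((g : Sˣ) : S) - 1 with hzdef
        have hy : NilGen (z ^ k) :=
          hDW2 S p m M I P hp h2 hm hG g hg z (by rw [hzdef]; abel) k hk hz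
        obtain ⟨hT, hyT, M', hM⟩ := hNGI S (z ^ k) hy
        obtain ⟨S', _, π, hπ, hker⟩ := hQUO S _ hT
        have hG' := hQU2 S p m M I P S' π hπ hG
        have hπz : ((Units.map (π : S →* S') g : S'ˣ) : S') - 1 = π z := by
          rw [hzdef, map_sub, map_one]
          rfl
        have hzk : (((Units.map (π : S →* S') g : S'ˣ) : S') - 1) ^ k = 0 := by
          rw [hπz, ← map_pow]
          exact (hker _).2 hyT
        obtain ⟨N, hN⟩ := ih S' _ _ _ hG' _ ⟨g, hg, rfl⟩ hzk
        rw [hπz] at hN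
        have hN' : ∀ l : List S, l.length = N →
            zw z l ∈ AddSubgroup.closure {x : S | ∃ a b, x = a * z ^ k * b} := by
          intro l hl
          rw [← hker, IND_map]
          exact hN _ (by rw [List.length_map, hl])
        refine ⟨M' * (N + 1) + N, fun L hL => ?_⟩
        obtain ⟨l, hl1, hl2, hl3⟩ := IND_factor _ hT z N hN' M' L hL
        rw [← hl3]
        obtain ⟨b, l', rfl⟩ : ∃ b l', l = b :: l' := by
          cases l with
          | nil => simp at hl1
          | cons b l' => exact ⟨b, l', rfl⟩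
        rw [List.prod_cons, hM l' (by simpa using hl1)
          (fun c hc => hl2 c (List.mem_cons_of_mem _ hc)), mul_zero]
  obtain ⟨k, hk⟩ := IN2_nil hG₀ (hG₀.sub g₀ hg₀)
  exact key k S₀ M₀ I₀ P₀ hG₀ g₀ hg₀ hk

end Pool.EN
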