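import Pool.Agent.Work.MP_3617d5_en.Defs3
import Pool.Agent.Work.MP_3fbbd3_adj.RP

/-!
# MP_3617d5_al, THEOREM EN+, block RPC
-/

set_option autoImplicit false

universe u

namespace Pool.EN

open Pool.Agent.Work.MP_3fbbd3_adj

open scoped commutatorElement

theorem p_RPC (hGTC : Stmt_GTC.{u}) : Stmt_RPC.{u} := by
  intro p hp hp2 P _ _ hP R _ hR ψ h1 h2 a b
  classical
  have := Fact.mk hp
  obtain ⟨k, hk⟩ := IsPGroup.iff_card.1 hP
  have hn : ∀ x : R, Nat.card P • x = 0 → x = 0 := by
    rw [hk]; exact RP.notors hR k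
  by_contra hx
  have hx' : ψ ⁅a, b⁆ - 1 ≠ 0 := sub_ne_zero.2 hx
  have := Fintype.ofFinite P
  obtain ⟨f, hf, hc, hS⟩ := RP.exists_f (ψ := ψ) h1 h2 hn _ hx' Finset.univ
  have hf0 : f ≠ 0 := by rintro rfl; simp at hf
  set N := RP.N ψ f with hN
  have hNn : N.Normal := RP.N_normal f hc
  have hQ : IsPGroup p (P ⧸ N) := hP.to_quotient N
  -- the function on the quotient
  have hwd : ∀ x y : P, (QuotientGroup.mk x : P ⧸ N) = QuotientGroup.mk y → ψ x * f = ψ y * f := by
    intro x y hxy
    rw [QuotientGroup.eq] at hxy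
    have h3 : ψ (x⁻¹ * y) * f = f := hxy
    calc ψ x * f = ψ x * (ψ (x⁻¹ * y) * f) := by rw [h3]
      _ = ψ y * f := by rw [← mul_assoc, ← map_mul, mul_inv_cancel_left]
  let F : P ⧸ N → R := fun q => ψ q.out * f
  have hF : ∀ x : P, F (QuotientGroup.mk x) = ψ x * f := fun x => hwd _ _ (by simp)
  have hF1 : F 1 = f := by
    have := hF 1
    rw [map_one, one_mul] at this
    exact this
  have hFmul : ∀ (q : P ⧸ N) (y : P), F (q * QuotientGroup.mk y) = F q * ψ y := by
    intro q y
    obtain ⟨x, rfl⟩ := QuotientGroup.mk_surjective q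
    rw [← QuotientGroup.mk_mul, hF, hF, map_mul, mul_assoc, ← hc, mul_assoc]
  have hsum : ∀ q : P ⧸ N, q ≠ 1 → q ^ p = 1 → ∑ i ∈ Finset.range p, F (q ^ i) = 0 := by
    intro q hq hqp
    obtain ⟨g, rfl⟩ := QuotientGroup.mk_surjective q
    have hgN : ¬ ψ g * f = f := by
      intro h
      apply hq
      rw [QuotientGroup.eq_one_iff]
      exact h
    have hs : RP.s ψ g * f = 0 := by
      rcases hS g (Finset.mem_univ g) with h | h
      · exact absurd h hgN
      · exact h
    have hs2 : ∑ i ∈ Finset.range (Nat.card P), F ((QuotientGroup.mk g : P ⧸ N) ^ i) = 0 := by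
      rw [← hs, RP.s, Finset.sum_mul]
      refine Finset.sum_congr rfl fun i _ => ?_
      rw [← QuotientGroup.mk_pow, hF, map_pow]
    rcases k with _ | k
    · exfalso
      rw [hk, pow_zero, Finset.sum_range_one, pow_zero, hF1] at hs2
      exact hf0 hs2
    · have e : Nat.card P = p * p ^ k := by rw [hk, pow_succ']
      rw [e, RP.sum_range_mul_add (fun i => F ((QuotientGroup.mk g : P ⧸ N) ^ i)) p (by
        intro i
        show F _ = F _
        rw [pow_add, hqp, one_mul])] at hs2
      exact RP.notors hR k _ hs2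
  have key := hGTC p hp hp2 (P ⧸ N) hQ (by
    intro u v huv hu hv hu1
    by_contra hno
    push Not at hno
    obtain ⟨b', rfl⟩ := QuotientGroup.mk_surjective v
    have hsum2 : ∀ i ∈ Finset.range p, ∑ j ∈ Finset.range p,
        F ((u ^ i * (QuotientGroup.mk b' : P ⧸ N)) ^ j) = 0 := by
      intro i _
      apply hsum _ (hno i)
      rw [(huv.pow_left i).mul_pow, hv, ← pow_mul, mul_comm i p, pow_mul, hu, one_pow, one_mul]
    have h0 : ∑ j ∈ Finset.range p, ∑ i ∈ Finset.range p,
        F ((u ^ i * (QuotientGroup.mk b' : P ⧸ N)) ^ j) = 0 := by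
      rw [Finset.sum_comm]
      exact Finset.sum_eq_zero hsum2
    have hj : ∀ j ∈ Finset.range p, j ≠ 0 → ∑ i ∈ Finset.range p,
        F ((u ^ i * (QuotientGroup.mk b' : P ⧸ N)) ^ j) = 0 := by
      intro j hj hj0
      have hjp : j < p := Finset.mem_range.1 hj
      have e : ∀ i : ℕ, (u ^ i * (QuotientGroup.mk b' : P ⧸ N)) ^ j
          = (u ^ j) ^ i * (QuotientGroup.mk (b' ^ j) : P ⧸ N) := by
        intro i
        rw [(huv.pow_left i).mul_pow, ← pow_mul, ← pow_mul, mul_comm i j, QuotientGroup.mk_pow]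
      rw [Finset.sum_congr rfl fun i _ => by rw [e i, hFmul], ← Finset.sum_mul,
        hsum (u ^ j), zero_mul]
      · intro h
        have hord : orderOf u = p := orderOf_eq_prime hu hu1
        have := orderOf_dvd_of_pow_eq_one h
        rw [hord] at this
        exact absurd (Nat.le_of_dvd (Nat.pos_of_ne_zero hj0) this) (not_le.2 hjp)
      · rw [← pow_mul, mul_comm, pow_mul, hu, one_pow]
    rw [Finset.sum_eq_single 0 (fun j hj' h => hj j hj' h)
      (fun h => absurd (Finset.mem_range.2 hp.pos) h)] at h0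
    simp only [pow_zero, hF1, Finset.sum_const, Finset.card_range] at h0
    exact hf0 (hR _ h0))
  have h4 := key (QuotientGroup.mk a) (QuotientGroup.mk b)
  have h5 : (QuotientGroup.mk ⁅a, b⁆ : P ⧸ N) = 1 := by
    rw [← h4]
    simp only [commutatorElement_def, QuotientGroup.mk_mul, QuotientGroup.mk_inv]
  rw [QuotientGroup.eq_one_iff] at h5
  have h6 : ψ ⁅a, b⁆ * f = f := h5
  apply hf
  rw [mul_sub, mul_one, hc, h6, sub_self]

end Pool.EN
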