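import Pool.Agent.Work.MP_3617d5_en.B_S3

/-!
# MP_3617d5_al, THEOREM EN, block S2: the symmetric sums, the case `k = 1`
-/

set_option autoImplicit false

open Nat

universe u

namespace Pool.EN

open Pool.NR

theorem S2_lp {S : Type u} [Ring S] {n : ℕ} {P : Subgroup Sˣ} {c : Fin n → Sˣ} (h : ∀ i, c i ∈ P)
    (T : Finset (Fin n)) : lp c T ∈ P := by
  unfold lp
  apply Subgroup.list_prod_mem
  intro x hx
  rw [List.mem_map] at hx
  obtain ⟨i, -, rfl⟩ := hx
  split_ifs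
  · exact h i
  · exact P.one_mem

theorem p_S2 (hBAS : Stmt_BAS.{u}) (hMUL : Stmt_MUL.{u}) (hINV : Stmt_INV.{u}) (hLPB : Stmt_LPB.{u})
    (hEXT : Stmt_EXT.{u}) (hG2 : Stmt_G2.{u}) (hC2 : Stmt_C2.{u}) (hA2 : Stmt_A2.{u}) : Stmt_S2.{u} := by
  intro S _ m F P z g hl κ hκ a ha
  have hF := hl.fil
  have hz0 : z ∈ F 0 := hl.z0
  have hzz : z * z = 0 := by
    have := hl.zn
    rwa [pow_succ, pow_one] at this
  have hκ1 : ∀ i, 1 ≤ κ i := fun i => by have := hκ i; omega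
  choose h hhP hh using fun i => (hG2 S m F P z g hl (κ i) (hκ1 i) (a i) (ha i)).1
  choose c hcP hc using fun i => (hG2 S m F P z g hl (κ i) (hκ1 i) (a i) (ha i)).2
  have hzl : ∀ i x, x ∈ F (κ i) → z * x ∈ F (κ i) := fun i x hx => by
    have := hF.mul 0 (κ i) z hz0 x hx
    rwa [zero_add] at this
  have hzr : ∀ i x, x ∈ F (κ i) → x * z ∈ F (κ i) := fun i x hx => by
    have := hF.mul (κ i) 0 x hx z hz0
    rwa [add_zero] at this
  have hW : ∀ i, z * a i * z ∈ F (κ i) := fun i => hzr i _ (hzl i _ (ha i))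
  have hρ : ∀ i, a i * z - z * a i - z * a i * z ∈ F (κ i) := fun i =>
    (F _).sub_mem ((F _).sub_mem (hzr i _ (ha i)) (hzl i _ (ha i))) (hW i)
  have hh1 : ∀ i, ((h i : Sˣ) : S) - 1 ∈ F (κ i) := fun i => by
    have h1 := (F _).add_mem (S3_anti hF (show κ i ≤ 2 * κ i + 3 by omega) (hh i)) (hW i)
    rwa [sub_add_cancel] at h1
  have hc1 : ∀ i, ((c i : Sˣ) : S) - 1 ∈ F (κ i) := fun i => by
    have h1 := (F _).add_mem (S3_anti hF (show κ i ≤ 2 * κ i + 1 by omega) (hc i)) (hρ i)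
    rwa [sub_add_cancel] at h1
  obtain ⟨h1, h2, h3⟩ := hLPB S F hF _ κ (m + 3) (by omega) hκ h hh1
  obtain ⟨c1, c2, c3⟩ := hLPB S F hF _ κ (m + 3) (by omega) hκ c hc1
  have h4 := h3 (fun i => z * a i * z) hW (fun i => S3_anti hF (by have := hκ i; omega) (hh i))
  have c4 := c3 (fun i => a i * z - z * a i - z * a i * z) hρ
    (fun i => S3_anti hF (by have := hκ i; omega) (hc i))
  have e1 : ∀ T, ls (fun i => z * a i * z) T = z * ls a T * z := fun T => by
    unfold ls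
    rw [Finset.mul_sum, Finset.sum_mul]
  have e2 : ∀ T, ls (fun i => a i * z - z * a i - z * a i * z) T =
      ls a T * z - z * ls a T - z * ls a T * z := fun T => by
    unfold ls
    rw [Finset.sum_sub_distrib, Finset.sum_sub_distrib, ← Finset.sum_mul, ← Finset.mul_sum, ← Finset.sum_mul,
      ← Finset.mul_sum]
  have h5 := hC2 S F hF _ κ (m + 3) hκ (lp h) (lp c) (ls fun i => z * a i * z)
    (ls fun i => a i * z - z * a i - z * a i * z) h1 h2 c1 c2 h4 c4 m
  have h6 := S3_cl hBAS hMUL hF hκ ((F 0).neg_mem hF.one) h5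
  have e : (fun T => -(1 : S) * ((((fun v : Sˣ => v⁻¹ * (lp c T)⁻¹ * v * lp c T)^[m] (lp h T) : Sˣ) : S) - 1 -
      (fun v : S => v * ls (fun i => a i * z - z * a i - z * a i * z) T -
        ls (fun i => a i * z - z * a i - z * a i * z) T * v)^[m] (ls (fun i => z * a i * z) T))) =
      fun T => 2 ^ m • ((z * ls a T) ^ (m + 1) * z) := by
    funext T
    rw [hl.eng _ (S2_lp hcP T) _ (S2_lp hhP T), e1, e2, hA2 S z (ls a T) hzz m]
    simp
  rw [e] at h6
  have h7 := hEXT S F hF (m + 1) κ (m + 3) z a (2 ^ m) h6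
  have h8 : (∑ i, κ i) + (m + 3) = (∑ i, κ i) + (m + 1) + 2 := by ring
  rw [h8] at h7
  rw [pow_one, Nat.add_sub_cancel]
  exact h7

end Pool.EN
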