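import Pool.Agent.Work.MP_3617d5_en.Defs

/-!
# MP_3617d5_al, THEOREM EN, block S3: the symmetric sums, the case `k ≥ 2`
-/

set_option autoImplicit false

open Nat

universe u

namespace Pool.EN

open Pool.NR

section

variable {S : Type u} [Ring S] {F : ℕ → AddSubgroup S} {n : ℕ} {κ : Fin n → ℕ} {g : ℕ}

theorem S3_anti (hF : Fil F) {i j : ℕ} (h : i ≤ j) : F j ≤ F i := antitone_nat_of_succ_le hF.anti h

/-- letters of higher degree -/
theorem S3_ls (hBAS : Stmt_BAS.{u}) (hF : Fil F) (σ : Fin n → S) (h : ∀ i, σ i ∈ F (κ i + g)) :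
    NN F κ g 2 (ls σ) := by
  obtain ⟨c, h1, h2⟩ := (hBAS S F hF n (fun i => κ i + g) g).2.2.2.2 σ h
  refine ⟨c, h1, fun U => S3_anti hF ?_ (h2 U)⟩
  rw [Finset.sum_add_distrib, Finset.sum_const, smul_eq_mul]
  rcases Nat.eq_zero_or_pos U.card with h0 | h0
  · rw [if_pos (by omega), if_pos (by omega)]
    omega
  · rw [if_neg (show ¬ U.card < 1 by omega)]
    have h3 : g ≤ U.card * g := Nat.le_mul_of_pos_left g h0
    split_ifs <;> omega

theorem S3_zero (q : ℕ) : NN F κ g q (fun _ => (0 : S)) :=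
  ⟨fun _ => 0, fun T => by simp, fun _ => (F _).zero_mem⟩

/-- constants times functions -/
theorem S3_cl (hBAS : Stmt_BAS.{u}) (hMUL : Stmt_MUL.{u}) (hF : Fil F) (hκ : ∀ i, g ≤ κ i) {s : S} (hs : s ∈ F 0)
    {q : ℕ} {f : Finset (Fin n) → S} (hf : NN F κ g q f) : NN F κ g q (fun T => s * f T) := by
  have h1 := hMUL S F hF n κ g hκ 0 q _ f ((hBAS S F hF n κ g).2.2.2.1 s hs) hf
  rwa [zero_add] at h1

theorem S3_cr (hBAS : Stmt_BAS.{u}) (hMUL : Stmt_MUL.{u}) (hF : Fil F) (hκ : ∀ i, g ≤ κ i) {s : S} (hs : s ∈ F 0)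
    {q : ℕ} {f : Finset (Fin n) → S} (hf : NN F κ g q f) : NN F κ g q (fun T => f T * s) :=
  hMUL S F hF n κ g hκ q 0 f _ hf ((hBAS S F hF n κ g).2.2.2.1 s hs)

/-- powers of `w * ls a` -/
theorem S3_pow (hBAS : Stmt_BAS.{u}) (hMUL : Stmt_MUL.{u}) (hF : Fil F) (hκ : ∀ i, g ≤ κ i) {w : S} (hw : w ∈ F 0)
    {L : Finset (Fin n) → S} (hL : NN F κ g 1 L) (j : ℕ) : NN F κ g j (fun T => (w * L T) ^ j) := by
  induction j with
  | zero =>
    simp only [pow_zero]
    exact (hBAS S F hF n κ g).2.2.2.1 1 hF.one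
  | succ j ih =>
    simp only [pow_succ]
    exact hMUL S F hF n κ g hκ j 1 _ _ ih (S3_cl hBAS hMUL hF hκ hw hL)

/-- the main induction -/
theorem S3_ind (hBAS : Stmt_BAS.{u}) (hMUL : Stmt_MUL.{u}) (hF : Fil F) (hκ : ∀ i, g ≤ κ i) {w : S} (hw : w ∈ F 0)
    {L D : Finset (Fin n) → S} (hL : NN F κ g 1 L) (hD : NN F κ g 1 D)
    (hE : NN F κ g 2 (fun T => D T * w + w * L T * w)) (j : ℕ) :
    NN F κ g (j + 2) (fun T => D T ^ j * (w * L T * w) - (-1) ^ j * ((w * L T) ^ (j + 1) * w)) := by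
  induction j with
  | zero =>
    have e : (fun T => D T ^ 0 * (w * L T * w) - (-1) ^ 0 * ((w * L T) ^ (0 + 1) * w)) = fun _ => (0 : S) := by
      funext T
      simp
    rw [e]
    exact S3_zero _
  | succ j ih =>
    have h1 : NN F κ g (1 + (j + 2)) (fun T => D T * (D T ^ j * (w * L T * w) -
        (-1) ^ j * ((w * L T) ^ (j + 1) * w))) := hMUL S F hF n κ g hκ 1 (j + 2) _ _ hD ih
    have h2 : NN F κ g (1 + j) (fun T => L T * (w * L T) ^ j) :=
      hMUL S F hF n κ g hκ 1 j _ _ hL (S3_pow hBAS hMUL hF hκ hw hL j)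
    have h3 := S3_cr hBAS hMUL hF hκ hw h2
    have h4 := hMUL S F hF n κ g hκ 2 (1 + j) _ _ hE h3
    have hm : ((-1 : S)) ^ j ∈ F 0 := by
      rcases neg_one_pow_eq_or S j with h | h
      · rw [h]; exact hF.one
      · rw [h]; exact (F 0).neg_mem hF.one
    have h5 := S3_cl hBAS hMUL hF hκ hm h4
    have h6 := (hBAS S F hF n κ g).1 (j + 1 + 2) _ _
      (by rw [show j + 1 + 2 = 1 + (j + 2) by ring]; exact h1)
      (by rw [show j + 1 + 2 = 2 + (1 + j) by ring]; exact h5)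
    have e : (fun T => D T ^ (j + 1) * (w * L T * w) - (-1) ^ (j + 1) * ((w * L T) ^ (j + 1 + 1) * w)) =
        fun T => D T * (D T ^ j * (w * L T * w) - (-1) ^ j * ((w * L T) ^ (j + 1) * w)) +
          (-1) ^ j * ((D T * w + w * L T * w) * (L T * (w * L T) ^ j * w)) := by
      funext T
      rcases neg_one_pow_eq_or S j with h | h
      · rw [pow_succ (-1 : S) j, h, pow_succ' (D T), pow_succ' (w * L T) (j + 1), pow_succ' (w * L T) j]
        noncomm_ring
      · rw [pow_succ (-1 : S) j, h, pow_succ' (D T), pow_succ' (w * L T) (j + 1), pow_succ' (w * L T) j]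
        noncomm_ring
    rw [e]
    exact h6

theorem S3_fix {w : S} {f : Fin n → Sˣ} (h : ∀ i, w * ((f i : Sˣ) : S) = w) (l : List (Fin n)) :
    w * (((l.map f).prod : Sˣ) : S) = w := by
  induction l with
  | nil => simp
  | cons i l ih =>
    rw [List.map_cons, List.prod_cons, Units.val_mul, ← mul_assoc, h i, ih]

end

theorem p_S3 (hBAS : Stmt_BAS.{u}) (hMUL : Stmt_MUL.{u}) (hLPB : Stmt_LPB.{u}) (hEXT : Stmt_EXT.{u})
    (hG3 : Stmt_G3.{u}) (hE3 : Stmt_E3.{u}) : Stmt_S3.{u} := by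
  intro S _ m F P z k g hl hk κ hκ a ha
  have hF := hl.fil
  have hwF : z ^ k ∈ F 1 := hl.w1
  have hw0 : z ^ k ∈ F 0 := hF.anti 0 hwF
  have hww : z ^ k * z ^ k = 0 := by
    rw [← pow_add, show k + k = (k + 1) + (k - 1) by omega, pow_add, hl.zn, zero_mul]
  have hκ1 : ∀ i, 1 ≤ κ i := fun i => by have := hκ i; omega
  choose c hcP hcF hcw hcr using fun i => (hG3 S m F P z k g hl hk (κ i) (hκ1 i) (a i) (ha i)).2
  have hls : ∀ T, ls a T ∈ F 1 := fun T =>
    (F 1).sum_mem fun i _ => S3_anti hF (hκ1 i) (ha i)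
  choose h hhP hh using fun T => (hG3 S m F P z k g hl hk 1 le_rfl (ls a T) (hls T)).1
  generalize hw : z ^ k = w at *
  have hcT : ∀ T, lp c T ∈ P := fun T => by
    unfold lp
    apply Subgroup.list_prod_mem
    intro x hx
    rw [List.mem_map] at hx
    obtain ⟨i, -, rfl⟩ := hx
    split_ifs
    · exact hcP i
    · exact P.one_mem
  have hwc : ∀ T, w * ((lp c T : Sˣ) : S) = w := fun T => by
    unfold lp
    apply S3_fix
    intro i
    split_ifs
    · exact hcw i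
    · simp
  have key : ∀ T, (((lp c T : Sˣ) : S) - 1) ^ m * (w * ls a T * w) = 0 := fun T =>
    hE3 S m w (ls a T) (h T) (lp c T) (hh T) hww (hwc T) (hl.eng _ (hcT T) _ (hhP T))
  have hL : NN F κ (m + 3) 1 (ls a) := (hBAS S F hF _ κ (m + 3)).2.2.2.2 a ha
  obtain ⟨hD, -, h3⟩ := hLPB S F hF _ κ (m + 3) (by omega) hκ c hcF
  have h4 := h3 (fun i => ((c i : Sˣ) : S) - 1) hcF (fun i => by
    rw [sub_self]; exact (F _).zero_mem)
  have h5 := S3_cr hBAS hMUL hF hκ hw0 h4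
  have h6 : NN F κ (m + 3) 2 (ls (fun i => (((c i : Sˣ) : S) - 1) * w + w * a i * w)) :=
    S3_ls hBAS hF _ (fun i => S3_anti hF (by have := hκ i; omega) (hcr i))
  have hE : NN F κ (m + 3) 2 (fun T => (((lp c T : Sˣ) : S) - 1) * w + w * ls a T * w) := by
    have h7 := (hBAS S F hF _ κ (m + 3)).1 2 _ _ h5 h6
    have e : (fun T => (((lp c T : Sˣ) : S) - 1) * w + w * ls a T * w) =
        fun T => (((lp c T : Sˣ) : S) - 1 - ls (fun i => ((c i : Sˣ) : S) - 1) T) * w +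
          ls (fun i => (((c i : Sˣ) : S) - 1) * w + w * a i * w) T := by
      funext T
      unfold ls
      rw [Finset.sum_add_distrib, ← Finset.sum_mul, ← Finset.sum_mul, ← Finset.mul_sum]
      noncomm_ring
    rw [e]
    exact h7
  have h8 := S3_ind hBAS hMUL hF hκ hw0 hL hD hE m
  have hm : (-(-1 : S) ^ m) ∈ F 0 := by
    rcases neg_one_pow_eq_or S m with h | h
    · rw [h]; exact (F 0).neg_mem hF.one
    · rw [h, neg_neg]; exact hF.one
  have h9 := S3_cl hBAS hMUL hF hκ hm h8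
  have e : (fun T => -(-1 : S) ^ m * ((((lp c T : Sˣ) : S) - 1) ^ m * (w * ls a T * w) -
      (-1) ^ m * ((w * ls a T) ^ (m + 1) * w))) = fun T => 1 • ((w * ls a T) ^ (m + 1) * w) := by
    funext T
    rw [key T]
    rcases neg_one_pow_eq_or S m with h | h <;> rw [h] <;> simp
  rw [e] at h9
  have h10 := hEXT S F hF (m + 1) κ (m + 3) w a 1 h9
  rw [one_smul] at h10
  have h11 : (∑ i, κ i) + (m + 3) = (∑ i, κ i) + (m + 1) + 2 := by ring
  rw [h11] at h10
  exact (F _).nsmul_mem h10 _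

end Pool.EN
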