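import Pool.Agent.Work.MP_3617d5_en.Defs2
import Pool.Agent.Work.MP_3617d5_en.B_S3

/-!
# MP_3617d5_al, THEOREM EN, block S3L: the sums with the last letter fixed, the case `k ≥ 2`
-/

set_option autoImplicit false

open Nat

universe u

namespace Pool.EN

open Pool.NR

section

variable {S : Type u} [Ring S] {F : ℕ → AddSubgroup S} {n : ℕ} {κ : Fin n → ℕ} {g : ℕ}

theorem S3L_sw {w L : S} (j : ℕ) : (w * L) ^ j * w = w * (L * w) ^ j := by
  induction j with
  | zero => simp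
  | succ j ih =>
    rw [_root_.pow_succ', mul_assoc (w * L), ih, _root_.pow_succ']
    noncomm_ring

theorem S3L_pow (hBAS : Stmt_BAS.{u}) (hMUL : Stmt_MUL.{u}) (hF : Fil F) (hκ : ∀ i, g ≤ κ i) {w : S} (hw : w ∈ F 0)
    {L : Finset (Fin n) → S} (hL : NN F κ g 1 L) (j : ℕ) : NN F κ g j (fun T => (L T * w) ^ j) := by
  induction j with
  | zero =>
    simp only [pow_zero]
    exact (hBAS S F hF n κ g).2.2.2.1 1 hF.one
  | succ j ih =>
    simp only [pow_succ]
    exact hMUL S F hF n κ g hκ j 1 _ _ ih (S3_cr hBAS hMUL hF hκ hw hL)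

/-- the main induction -/
theorem S3L_ind (hBAS : Stmt_BAS.{u}) (hMUL : Stmt_MUL.{u}) (hF : Fil F) (hκ : ∀ i, g ≤ κ i) {w : S} (hw : w ∈ F 0)
    {L D : Finset (Fin n) → S} (hL : NN F κ g 1 L) (hD : NN F κ g 1 D)
    (hE : NN F κ g 2 (fun T => D T * w + w * L T * w)) (j : ℕ) :
    NN F κ g (j + 1) (fun T => D T ^ j * w - (-1) ^ j * ((w * L T) ^ j * w)) := by
  induction j with
  | zero =>
    have e : (fun T => D T ^ 0 * w - (-1) ^ 0 * ((w * L T) ^ 0 * w)) = fun _ => (0 : S) := by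
      funext T
      simp
    rw [e]
    exact S3_zero _
  | succ j ih =>
    have h1 : NN F κ g (1 + (j + 1)) (fun T => D T * (D T ^ j * w - (-1) ^ j * ((w * L T) ^ j * w))) :=
      hMUL S F hF n κ g hκ 1 (j + 1) _ _ hD ih
    have h4 := hMUL S F hF n κ g hκ 2 j _ _ hE (S3L_pow hBAS hMUL hF hκ hw hL j)
    have hm : ((-1 : S)) ^ j ∈ F 0 := by
      rcases neg_one_pow_eq_or S j with h | h
      · rw [h]; exact hF.one
      · rw [h]; exact (F 0).neg_mem hF.one
    have h5 := S3_cl hBAS hMUL hF hκ hm h4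
    have h6 := (hBAS S F hF n κ g).1 (j + 1 + 1) _ _
      (by rw [show j + 1 + 1 = 1 + (j + 1) by ring]; exact h1)
      (by rw [show j + 1 + 1 = 2 + j by ring]; exact h5)
    have e : (fun T => D T ^ (j + 1) * w - (-1) ^ (j + 1) * ((w * L T) ^ (j + 1) * w)) =
        fun T => D T * (D T ^ j * w - (-1) ^ j * ((w * L T) ^ j * w)) +
          (-1) ^ j * ((D T * w + w * L T * w) * (L T * w) ^ j) := by
      funext T
      rw [S3L_sw, S3L_sw, pow_succ' (L T * w) j]
      rcases neg_one_pow_eq_or S j with h | h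
      · rw [pow_succ (-1 : S) j, h, pow_succ' (D T)]
        noncomm_ring
      · rw [pow_succ (-1 : S) j, h, pow_succ' (D T)]
        noncomm_ring
    rw [e]
    exact h6

end

theorem p_S3L (hBAS : Stmt_BAS.{u}) (hMUL : Stmt_MUL.{u}) (hLPB : Stmt_LPB.{u}) (hEX2 : Stmt_EX2.{u})
    (hG3 : Stmt_G3.{u}) (hE3 : Stmt_E3.{u}) : Stmt_S3L.{u} := by
  intro S _ m F P z k g hl hk κ hκ a ha l hlk s hs
  have hF := hl.fil
  have hwF : z ^ k ∈ F 1 := hl.w1
  have hw0 : z ^ k ∈ F 0 := hF.anti 0 hwF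
  have hww : z ^ k * z ^ k = 0 := by
    rw [← pow_add, show k + k = (k + 1) + (k - 1) by omega, pow_add, hl.zn, zero_mul]
  have hκ1 : ∀ i, 1 ≤ κ i := fun i => by have := hκ i; omega
  choose c hcP hcF hcw hcr using fun i => (hG3 S m F P z k g hl hk (κ i) (hκ1 i) (a i) (ha i)).2
  obtain ⟨h, hhP, hh⟩ := (hG3 S m F P z k g hl hk l (by omega) s hs).1
  generalize hw : z ^ k = w at *
  have hcT : ∀ T, lp c T ∈ P := fun T => by
    unfold lp
    apply Subgroup.list_prod_mem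
    intro x hx
    rw [List.mem_map] at hx
    obtain ⟨i, -, rfl⟩ := hx
    split_ifs
    · exact hcP i
    · exact P.one_mem
  have hwc : ∀ T, w * ((lp c T : Sˣ) : S) = w := fun T => by
    unfold lp
    apply S3_fix
    intro i
    split_ifs
    · exact hcw i
    · simp
  have key : ∀ T, (((lp c T : Sˣ) : S) - 1) ^ m * (w * s * w) = 0 := fun T =>
    hE3 S m w s h (lp c T) hh hww (hwc T) (hl.eng _ (hcT T) _ hhP)
  have hL : NN F κ (m + 3) 1 (ls a) := (hBAS S F hF _ κ (m + 3)).2.2.2.2 a ha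
  obtain ⟨hD, -, h3⟩ := hLPB S F hF _ κ (m + 3) (by omega) hκ c hcF
  have h4 := h3 (fun i => ((c i : Sˣ) : S) - 1) hcF (fun i => by
    rw [sub_self]; exact (F _).zero_mem)
  have h5 := S3_cr hBAS hMUL hF hκ hw0 h4
  have h6 : NN F κ (m + 3) 2 (ls (fun i => (((c i : Sˣ) : S) - 1) * w + w * a i * w)) :=
    S3_ls hBAS hF _ (fun i => S3_anti hF (by have := hκ i; omega) (hcr i))
  have hE : NN F κ (m + 3) 2 (fun T => (((lp c T : Sˣ) : S) - 1) * w + w * ls a T * w) := by
    have h7 := (hBAS S F hF _ κ (m + 3)).1 2 _ _ h5 h6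
    have e : (fun T => (((lp c T : Sˣ) : S) - 1) * w + w * ls a T * w) =
        fun T => (((lp c T : Sˣ) : S) - 1 - ls (fun i => ((c i : Sˣ) : S) - 1) T) * w +
          ls (fun i => (((c i : Sˣ) : S) - 1) * w + w * a i * w) T := by
      funext T
      unfold ls
      rw [Finset.sum_add_distrib, ← Finset.sum_mul, ← Finset.sum_mul, ← Finset.mul_sum]
      noncomm_ring
    rw [e]
    exact h7
  have h8 := S3L_ind hBAS hMUL hF hκ hw0 hL hD hE m
  have hm : (-(-1 : S) ^ m) ∈ F 0 := by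
    rcases neg_one_pow_eq_or S m with h | h
    · rw [h]; exact (F 0).neg_mem hF.one
    · rw [h, neg_neg]; exact hF.one
  have h9 := S3_cl hBAS hMUL hF hκ hm h8
  have hv : s * w ∈ F (l + 1) := hF.mul l 1 s hs w hwF
  have h10 := hEX2 S F hF m κ (m + 3) w a (l + 1) (s * w) hv _ h9 (fun T => by
    have hk := key T
    show -(-1 : S) ^ m * ((((lp c T : Sˣ) : S) - 1) ^ m * w - (-1) ^ m * ((w * ls a T) ^ m * w)) * (s * w) = _
    have e : (((lp c T : Sˣ) : S) - 1) ^ m * w * (s * w) = 0 := by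
      rw [← hk]; noncomm_ring
    rw [mul_assoc, sub_mul, e]
    rcases neg_one_pow_eq_or S m with h | h <;> rw [h] <;> simp [mul_assoc])
  have e : (∑ τ : Equiv.Perm (Fin m), (List.ofFn fun i => w * a (τ i)).prod) * (w * s) * w = sy w a * (s * w) := by
    unfold sy
    rw [← Finset.sum_mul]
    noncomm_ring
  rw [e]
  exact S3_anti hF (by omega) h10

end Pool.EN
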