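import Pool.Agent.Work.MP_3617d5_en.Defs3
import Pool.Agent.Work.MP_3617d5_nr.B_GEN
import Pool.Agent.Work.MP_3617d5_ea.B_GRH

/-!
# MP_3617d5_al, THEOREM EN+, block UD
-/

set_option autoImplicit false

universe u

namespace Pool.EN

open Pool.NR Pool.EA

open scoped commutatorElement

theorem p_UD : Stmt_UD.{u} := by
  intro S _ I T hid t1 t2 t3 H hmet g t5
  obtain ⟨H₀, h3, h4, h5⟩ := p_GEN S T t1 t3
  let N : Subgroup H :=
    { carrier := {h | (((h : H) : Sˣ) : S) - 1 ∈ I}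
      one_mem' := by
        show (((1 : H) : Sˣ) : S) - 1 ∈ I
        simp
      mul_mem' := by
        intro a b ha hb
        show ((((a * b : H)) : Sˣ) : S) - 1 ∈ I
        have e1 : ((((a * b : H)) : Sˣ) : S) - 1
            = ((a : Sˣ) : S) * (((b : Sˣ) : S) - 1) + (((a : Sˣ) : S) - 1) := by
          rw [Subgroup.coe_mul, Units.val_mul]; noncomm_ring
        rw [e1]
        exact I.add_mem (hid.left _ _ hb) ha
      inv_mem' := by
        intro a ha
        show ((((a⁻¹ : H)) : Sˣ) : S) - 1 ∈ I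
        have e1 : ((((a⁻¹ : H)) : Sˣ) : S) - 1
            = - ((((a : Sˣ)⁻¹ : Sˣ) : S) * (((a : Sˣ) : S) - 1)) := by
          rw [Subgroup.coe_inv, mul_sub, Units.inv_mul]; noncomm_ring
        rw [e1]
        exact I.neg_mem (hid.left _ _ ha) }
  have hN : ∀ h : H, h ∈ N ↔ ((h : Sˣ) : S) - 1 ∈ I := fun _ => Iff.rfl
  have hNn : N.Normal := by
    constructor
    intro a ha h
    rw [hN] at ha ⊢
    have e1 : ((((h * a * h⁻¹ : H)) : Sˣ) : S) - 1
        = ((h : Sˣ) : S) * (((a : Sˣ) : S) - 1) * (((h : Sˣ)⁻¹ : Sˣ) : S) := by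
      rw [Subgroup.coe_mul, Subgroup.coe_mul, Subgroup.coe_inv, Units.val_mul, Units.val_mul,
        mul_sub, sub_mul, mul_one, Units.mul_inv]
    rw [e1]
    exact hid.right _ _ (hid.left _ _ ha)
  have hLn : (H₀.subgroupOf H).Normal := by
    have := h3
    infer_instance
  have hmem : ∀ h : H, h ∈ H₀.subgroupOf H ↔ ((h : Sˣ) : S) - 1 ∈ T := by
    intro h
    rw [Subgroup.mem_subgroupOf, h5]
  have hLs : Group.IsSolvable (H₀.subgroupOf H) := by
    have h8 : Group.IsSolvable H₀ := by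
      have := h4
      infer_instance
    have := h8
    have hinj : Function.Injective
        ((H.subtype.comp (H₀.subgroupOf H).subtype).codRestrict H₀ (fun x => x.2)) := by
      intro a b hab
      apply Subtype.ext
      apply Subtype.ext
      exact congrArg (fun x : H₀ => (x : Sˣ)) hab
    exact Group.isSolvable_of_isSolvable_injective hinj
  have hQs : Group.IsSolvable (H ⧸ N) := by
    have hc : ∀ a b : H ⧸ N, a * b = b * a := by
      intro a b
      obtain ⟨a, rfl⟩ := QuotientGroup.mk'_surjective N a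
      obtain ⟨b, rfl⟩ := QuotientGroup.mk'_surjective N b
      rw [← commutatorElement_eq_one_iff_mul_comm, ← map_commutatorElement]
      exact (QuotientGroup.eq_one_iff _).2 (hmet a b)
    let _ : CommGroup (H ⧸ N) := { (inferInstance : Group (H ⧸ N)) with mul_comm := hc }
    infer_instance
  refine p_GRH H N (H₀.subgroupOf H) hLn ?_ hLs hQs g ?_
  · intro x hx
    rw [hN]
    exact t2 ((hmem x).1 hx)
  · intro x hx
    rw [hmem]
    have h6 := t5 _ ((hN x).1 hx)
    have e1 : (((x⁻¹ * g⁻¹ * x * g : H) : Sˣ) : S) - 1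
        = (((x : Sˣ)⁻¹ : Sˣ) : S) * ((((g : Sˣ)⁻¹ : Sˣ) : S) * (((x : Sˣ) : S) - 1) * ((g : Sˣ) : S)
          - (((x : Sˣ) : S) - 1)) := by
      have e2 : (((g : Sˣ)⁻¹ : Sˣ) : S) * (((x : Sˣ) : S) - 1) * ((g : Sˣ) : S)
          = (((g : Sˣ)⁻¹ : Sˣ) : S) * ((x : Sˣ) : S) * ((g : Sˣ) : S) - 1 := by
        rw [mul_sub, sub_mul, mul_one, Units.inv_mul]
      rw [e2]
      have e3 : (((g : Sˣ)⁻¹ : Sˣ) : S) * ((x : Sˣ) : S) * ((g : Sˣ) : S) - 1
          - (((x : Sˣ) : S) - 1)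
          = (((g : Sˣ)⁻¹ : Sˣ) : S) * ((x : Sˣ) : S) * ((g : Sˣ) : S) - ((x : Sˣ) : S) := by abel
      rw [e3, mul_sub, Units.inv_mul]
      simp only [Subgroup.coe_mul, Subgroup.coe_inv, Units.val_mul, mul_assoc]
    rw [e1]
    exact t1.left _ _ h6

end Pool.EN
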