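import Pool.Agent.Work.MP_3617d5_ea.All

/-!
# MP_3617d5_al, THEOREM EN+: the torsion bound for automorphisms without the Engel law of `1 + I`

`p ^ K (ψ s - s) = 0` on `I` needs only `EngA` (edit of `B_QUB`, `B_CEA`, `B_TRB`, `B_UNB` of `MP_3617d5_ea`).
-/

set_option autoImplicit false

open Nat

universe u

namespace Pool.EN

open Pool.NR Pool.EA

/-- `GoodB` without the Engel law of `1 + I` -/
structure GoodC {S : Type u} [Ring S] (n : ℕ) (I : AddSubgroup S) (ψ : RingAut S) : Prop where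
  idl : IdI I
  uni : ∀ b ∈ I, IsUnit (1 + b)
  inv : InvI I ψ
  enga : ∀ j : ℕ, EngA n I (ψ ^ j)

theorem UNC_quo (S : Type u) [Ring S] (n : ℕ) (I : AddSubgroup S) (ψ : RingAut S) (hG : GoodC n I ψ)
    (T : AddSubgroup S) (hT : IdI T) (hTI : T ≤ I) (hTψ : InvI T ψ) :
    ∃ (S' : Type u) (_ : Ring S') (π : S →+* S') (ψ' : RingAut S'), Function.Surjective π ∧ (∀ a, π a = 0 ↔ a ∈ T) ∧
      (∀ a, ψ' (π a) = π (ψ a)) ∧ GoodC n (I.map π.toAddMonoidHom) ψ' := by
  obtain ⟨S', hS', π, hπ, hker⟩ := p_QUO S T hT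
  obtain ⟨ψ', hψ'⟩ := QUB_aut T ψ π hπ hker hTψ
  have lift : ∀ (x' : S'ˣ), (x' : S') - 1 ∈ I.map π.toAddMonoidHom →
      ∃ x : Sˣ, (x : S) - 1 ∈ I ∧ Units.map (π : S →* S') x = x' := by
    intro x' hx
    obtain ⟨b, hb, hbx⟩ := AddSubgroup.mem_map.1 hx
    have hu : IsUnit (1 + b) := hG.uni b hb
    refine ⟨hu.unit, ?_, ?_⟩
    · rw [IsUnit.unit_spec, add_sub_cancel_left]
      exact hb
    · apply Units.ext
      rw [Units.coe_map]
      have h1 : π b = (x' : S') - 1 := hbx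
      change π ((hu.unit : Sˣ) : S) = (x' : S')
      rw [IsUnit.unit_spec, map_add, map_one, h1]
      abel
  refine ⟨S', hS', π, ψ', hπ, hker, hψ', QIL_ideal I π hπ hG.idl, ?_, ?_, ?_⟩
  · intro b hb
    obtain ⟨b0, hb0, rfl⟩ := AddSubgroup.mem_map.1 hb
    have h := (hG.uni b0 hb0).map π
    rw [map_add, map_one] at h
    exact h
  · intro b'
    obtain ⟨b, rfl⟩ := hπ b'
    rw [hψ']
    constructor
    · intro h
      obtain ⟨c, hc, hcb⟩ := AddSubgroup.mem_map.1 h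
      have h1 : π (c - ψ b) = 0 := by
        rw [map_sub, sub_eq_zero]
        exact hcb
      have h2 : ψ b ∈ I := by
        have h3 := I.sub_mem hc (hTI ((hker _).1 h1))
        rwa [sub_sub_cancel] at h3
      exact AddSubgroup.mem_map.2 ⟨b, (hG.inv b).1 h2, rfl⟩
    · intro h
      obtain ⟨c, hc, hcb⟩ := AddSubgroup.mem_map.1 h
      have h1 : π (c - b) = 0 := by
        rw [map_sub, sub_eq_zero]
        exact hcb
      have h2 : b ∈ I := by
        have h3 := I.sub_mem hc (hTI ((hker _).1 h1))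
        rwa [sub_sub_cancel] at h3
      exact AddSubgroup.mem_map.2 ⟨ψ b, (hG.inv b).2 h2, rfl⟩
  · intro j x' hx
    obtain ⟨x, hx1, rfl⟩ := lift x' hx
    have hsc : Function.Semiconj (Units.map (π : S →* S'))
        (fun z : Sˣ => z⁻¹ * Units.map (((ψ ^ j : RingAut S) : S →+* S) : S →* S) z)
        (fun z : S'ˣ => z⁻¹ * Units.map (((ψ' ^ j : RingAut S') : S' →+* S') : S' →* S') z) := by
      intro z
      rw [map_mul, map_inv]
      congr 1
      apply Units.ext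
      exact (QUB_pow hψ' j (z : S)).symm
    rw [← (hsc.iterate_right n) x, hG.enga j x hx1, map_one]

theorem UNC_cea (S : Type u) [Ring S] (m p e : ℕ) (I : AddSubgroup S) (ψ : RingAut S) (hG : GoodC m I ψ)
    (hp : ∀ b ∈ I, p • b = 0 → b = 0) (hq : ∀ b ∈ I, (ψ ^ p ^ e) b = b) : ∀ s ∈ I, ψ s = s := by
  intro s hs
  have hI := hG.idl
  have hinv := hG.inv
  have hE : EngA m I ψ := by
    have := hG.enga 1
    rwa [pow_one] at this
  have hL := CEA_idl hI p
  have hLI : CEA_L I p ≤ I := by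
    intro b hb
    obtain ⟨c, hc, h⟩ := hb 0
    rw [h, pow_zero, one_smul]
    exact hc
  have hLinv := CEA_inv hinv p
  have htf := CEA_tf hp
  have hdiv : ∀ (k : ℕ) (b : S), b ∈ I → p ^ k • b ∈ CEA_L I p → b ∈ CEA_L I p := by
    intro k b hb h r
    obtain ⟨c, hc, h1⟩ := h (k + r)
    refine ⟨c, hc, ?_⟩
    have h2 : p ^ k • (b - p ^ r • c) = 0 := by
      rw [smul_sub, h1, pow_add, mul_smul, sub_self]
    exact sub_eq_zero.mp (htf k _ (I.sub_mem hb (I.nsmul_mem hc _)) h2)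
  have hDI : ∀ t ∈ I, dl ψ t ∈ I := fun t ht => by
    rw [dl_apply]
    exact I.sub_mem (inv_mem hinv t ht) ht
  have h1 : ∀ t ∈ I, dl ψ t ∈ CEA_L I p := by
    intro t ht
    have h2 := CEA_lde hinv (CEA_L I p) (p ^ e) m hq (fun t ht i hi => by
      have h3 : (dl ψ ^ m) t ∈ CEA_L I p := fun r =>
        p_PRA S m (p ^ r) I ψ hI hG.uni hinv hE (htf r) t ht
      have h4 : i = (i - m) + m := by omega
      rw [h4, dl_add]
      exact dl_mem (inv_mem hLinv) h3) t ht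
    rw [← pow_mul] at h2
    exact hdiv _ _ (hDI t ht) h2
  have h2 : ∀ t ∈ I, dl ψ (dl ψ t) = 0 := by
    intro t ht
    exact dl_eq_zero.2 (p_CIA S m (p ^ e) I (CEA_L I p) ψ hI hG.uni hinv hE (htf e) hL hLI hLinv
      (fun b hb => hb e) hq (dl ψ t) (h1 t ht))
  have h3 := CEA_lde hinv ⊥ (p ^ e) 2 hq (fun t ht i hi => by
    have h4 : i = (i - 2) + 2 := by omega
    have h5 : (dl ψ ^ 2) t = 0 := by
      rw [show (2 : ℕ) = 1 + 1 from rfl, dl_succ', pow_one]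
      exact h2 t ht
    rw [h4, dl_add, h5, map_zero]
    exact zero_mem _) s hs
  rw [AddSubgroup.mem_bot, ← pow_mul] at h3
  exact dl_eq_zero.1 (htf _ _ (hDI s hs) h3)

theorem UNC_trb (S : Type u) [Ring S] (m p e : ℕ) (I : AddSubgroup S) (ψ : RingAut S) (hG : GoodC m I ψ)
    (hψ : ∀ b ∈ I, (ψ ^ p ^ e) b = b) : ∀ s ∈ I, ∃ k : ℕ, p ^ k • (ψ s - s) = 0 := by
  intro s hs
  obtain ⟨S', _, π, ψ', hπ, hker, hψ', hG'⟩ :=
    UNC_quo S m I ψ hG (TRA_A p I) (TRA_idl p I hG.idl) (fun b hb => hb.1) (TRB_inv p hG.inv)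
  have hT' : ∀ b' ∈ I.map π.toAddMonoidHom, p • b' = 0 → b' = 0 := by
    rintro b' ⟨b, hb, rfl⟩ hpb
    have h3 : π (p • b) = 0 := by
      rw [map_nsmul]
      exact hpb
    obtain ⟨_, k, hk⟩ := (hker _).1 h3
    refine (hker b).2 ⟨hb, k + 1, ?_⟩
    rw [pow_succ, mul_smul, hk]
  have hq' : ∀ b' ∈ I.map π.toAddMonoidHom, (ψ' ^ p ^ e) b' = b' := by
    rintro b' ⟨b, hb, rfl⟩
    exact (QUB_pow hψ' (p ^ e) b).trans (congrArg π (hψ b hb))
  have h4 : ψ' (π s) = π s := UNC_cea S' m p e (I.map π.toAddMonoidHom) ψ' hG' hT' hq' (π s) ⟨s, hs, rfl⟩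
  have h5 : π (ψ s - s) = 0 := by
    rw [map_sub, ← hψ', h4, sub_self]
  exact ((hker _).1 h5).2

/-- **UNC**: the torsion bound, with the Engel law for the automorphism only. -/
theorem p_UNC (S : Type u) [Ring S] (m p e : ℕ) (I : AddSubgroup S) (ψ : RingAut S) (hid : IdI I)
    (huni : ∀ b ∈ I, IsUnit (1 + b)) (hinv : InvI I ψ) (henga : ∀ j : ℕ, EngA m I (ψ ^ j))
    (hψ : ∀ b ∈ I, (ψ ^ p ^ e) b = b) : ∃ K : ℕ, ∀ s ∈ I, p ^ K • (ψ s - s) = 0 := by
  by_contra hcon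
  push Not at hcon
  choose s hsI hs using hcon
  have hG' : GoodC m (UNB_pi I) (UNB_au ψ) := by
    refine ⟨UNB_idl I hid, fun b hb => Pi.isUnit_iff.2 fun n => huni (b n) (hb n), ?_, ?_⟩
    · intro b
      constructor
      · intro h n
        exact (hinv (b n)).1 (h n)
      · intro h n
        exact (hinv (b n)).2 (h n)
    · intro j
      exact UNB_enga m I ψ j (henga j)
  obtain ⟨k, hk⟩ := UNC_trb (ℕ → S) m p e (UNB_pi I) (UNB_au ψ) hG'
    (fun b hb => funext fun n => by rw [UNB_pow]; exact hψ (b n) (hb n)) s hsI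
  exact hs k (congrFun hk k)

end Pool.EN
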