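import Pool.Agent.Work.MP_3617d5_en.Defs3
import Pool.Agent.Work.MP_3617d5_en.UNC

/-!
# Block UNC (the proof is `Pool.EN.p_UNC` of `UNC.lean`, helper10)
-/

set_option autoImplicit false

universe u

namespace Pool.EN

open Pool.NR Pool.EA

theorem q_UNC : Stmt_UNC.{u} := by
  intro S _ m p e I ψ h1 h2 h3 h4 h5
  exact p_UNC S m p e I ψ h1 h2 h3 h4 h5

end Pool.EN
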