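import Pool.Agent.Work.MP_3617d5_en.Defs3
import Pool.Agent.Work.MP_3617d5_eu.UT

/-!
# MP_3617d5_al, THEOREM EN+, block UTP: the torsion ideal
-/

set_option autoImplicit false

universe u

namespace Pool.EN

open Pool.NR Pool.EA Pool.Agent.Work.MP_3fbbd3_adj Pool.EU

open scoped commutatorElement

section tors

variable {p m : ℕ} {A : Type u} [Ring A] {G : Type u} [Group G] (φ : G →* Aˣ) (U : Subgroup Aˣ)

lemma UTP_tors1 (hit : ∀ x ∈ φ.range, ∀ w ∈ U, (fun z : Aˣ => z⁻¹ * x⁻¹ * z * x)^[m] w = 1)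
    (hnil : ∀ x ∈ AS.M' (TOR.φ0 φ), IsNilpotent x → ∃ w ∈ U, ((w : Aˣ) : A) = 1 + x)
    (g h : G) (k : ℕ) (hn : g ^ p ^ k = 1) :
    (TOR.φ0 φ g - 1) * TOR.φ0 φ h * (∑ i ∈ Finset.range (p ^ k), TOR.φ0 φ g ^ i) ∈ AS.t p A := by
  have hgn : TOR.φ0 φ g ^ p ^ k = 1 := by rw [← map_pow, hn, map_one]
  set S := ∑ i ∈ Finset.range (p ^ k), TOR.φ0 φ g ^ i with hSdef
  have h0 : S * (TOR.φ0 φ g - 1) = 0 := by rw [hSdef, geom_sum_mul, hgn, sub_self]
  obtain ⟨y, hy⟩ : ∃ y, y = (TOR.φ0 φ g - 1) * TOR.φ0 φ h * S := ⟨_, rfl⟩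
  have hyM : y ∈ AS.M' (TOR.φ0 φ) := by
    rw [hy, hSdef, Finset.mul_sum]
    refine Submodule.sum_mem _ fun i _ => ?_
    have e : (TOR.φ0 φ g - 1) * TOR.φ0 φ h * TOR.φ0 φ g ^ i
        = TOR.φ0 φ (g * h * g ^ i) - TOR.φ0 φ (h * g ^ i) := by
      simp only [map_mul, map_pow]
      noncomm_ring
    rw [e]
    exact AS.sub_mem _ _
  have hy2 : y * y = 0 := by
    calc y * y = (TOR.φ0 φ g - 1) * TOR.φ0 φ h * S * ((TOR.φ0 φ g - 1) * TOR.φ0 φ h * S) := by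
          rw [hy]
      _ = (TOR.φ0 φ g - 1) * TOR.φ0 φ h * (S * (TOR.φ0 φ g - 1)) * TOR.φ0 φ h * S := by
          simp only [mul_assoc]
      _ = 0 := by rw [h0]; simp
  have hyg : y * ((φ g : Aˣ) : A) = y := by
    have h1 : S * TOR.φ0 φ g = S := by
      rw [mul_sub, mul_one, sub_eq_zero] at h0
      exact h0
    rw [← TOR.φ0_apply, hy, mul_assoc, h1]
  have hyg' : y * (((φ g)⁻¹ : Aˣ) : A) = y := by
    conv_lhs => rw [← hyg]
    rw [mul_assoc, Units.mul_inv, mul_one]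
  obtain ⟨w, hwU, hw⟩ := hnil y hyM ⟨2, by rw [pow_two, hy2]⟩
  have h1 := UT.it_r w (φ g)⁻¹ y hw hy2 hyg' m
  rw [hit _ (φ.range.inv_mem ⟨g, rfl⟩) w hwU, Units.val_one, inv_inv] at h1
  have h3 : (TOR.φ0 φ g - 1) ^ m * y = 0 := (left_eq_add.1 h1)
  set q := Ideal.Quotient.mk (AS.t p A) with hq
  rw [← Ideal.Quotient.eq_zero_iff_mem]
  have h4 : q ((TOR.φ0 φ g - 1) ^ m * y) = 0 := by rw [h3, map_zero]
  have h5 : (q (TOR.φ0 φ g) - 1) ^ (m + 1) * (q (TOR.φ0 φ h) * q S) = 0 := by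
    rw [pow_succ, mul_assoc, ← mul_assoc (q (TOR.φ0 φ g) - 1)]
    rw [hy, map_mul, map_pow, map_mul, map_mul, map_sub, map_one] at h4
    exact h4
  have h6 := TOR.desc_l (n := p ^ k) (RP.notors (R := A ⧸ AS.t p A) (p := p) AS.notors k)
    (q (TOR.φ0 φ g)) _ (by rw [← map_pow, hgn, map_one]) m h5
  rw [map_mul, map_mul, map_sub, map_one, mul_assoc]
  exact h6

lemma UTP_tors2 (hit : ∀ x ∈ φ.range, ∀ w ∈ U, (fun z : Aˣ => z⁻¹ * x⁻¹ * z * x)^[m] w = 1)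
    (hnil : ∀ x ∈ AS.M' (TOR.φ0 φ), IsNilpotent x → ∃ w ∈ U, ((w : Aˣ) : A) = 1 + x)
    (g h : G) (k : ℕ) (hn : g ^ p ^ k = 1) :
    (∑ i ∈ Finset.range (p ^ k), TOR.φ0 φ g ^ i) * TOR.φ0 φ h * (TOR.φ0 φ g - 1) ∈ AS.t p A := by
  have hgn : TOR.φ0 φ g ^ p ^ k = 1 := by rw [← map_pow, hn, map_one]
  set S := ∑ i ∈ Finset.range (p ^ k), TOR.φ0 φ g ^ i with hSdef
  have h0 : (TOR.φ0 φ g - 1) * S = 0 := by rw [hSdef, mul_geom_sum, hgn, sub_self]
  obtain ⟨y, hy⟩ : ∃ y, y = S * TOR.φ0 φ h * (TOR.φ0 φ g - 1) := ⟨_, rfl⟩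
  have hyM : y ∈ AS.M' (TOR.φ0 φ) := by
    rw [hy, hSdef, Finset.sum_mul, Finset.sum_mul]
    refine Submodule.sum_mem _ fun i _ => ?_
    have e : TOR.φ0 φ g ^ i * TOR.φ0 φ h * (TOR.φ0 φ g - 1)
        = TOR.φ0 φ (g ^ i * h * g) - TOR.φ0 φ (g ^ i * h) := by
      simp only [map_mul, map_pow]
      noncomm_ring
    rw [e]
    exact AS.sub_mem _ _
  have hy2 : y * y = 0 := by
    calc y * y = S * TOR.φ0 φ h * (TOR.φ0 φ g - 1) * (S * TOR.φ0 φ h * (TOR.φ0 φ g - 1)) := by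
          rw [hy]
      _ = S * TOR.φ0 φ h * ((TOR.φ0 φ g - 1) * S) * TOR.φ0 φ h * (TOR.φ0 φ g - 1) := by
          simp only [mul_assoc]
      _ = 0 := by rw [h0]; simp
  have hgS : TOR.φ0 φ g * S = S := by
    rw [sub_mul, one_mul, sub_eq_zero] at h0
    exact h0
  have hyg : ((φ g : Aˣ) : A) * y = y := by
    rw [← TOR.φ0_apply, hy, ← mul_assoc, ← mul_assoc, hgS]
  obtain ⟨w, hwU, hw⟩ := hnil y hyM ⟨2, by rw [pow_two, hy2]⟩
  have h1 := UT.it_l w (φ g) y hw hy2 hyg m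
  rw [hit _ ⟨g, rfl⟩ w hwU, Units.val_one] at h1
  have h3 : y * (TOR.φ0 φ g - 1) ^ m = 0 := (left_eq_add.1 h1)
  set q := Ideal.Quotient.mk (AS.t p A) with hq
  rw [← Ideal.Quotient.eq_zero_iff_mem]
  have h4 : q (y * (TOR.φ0 φ g - 1) ^ m) = 0 := by rw [h3, map_zero]
  have h5 : (q S * q (TOR.φ0 φ h)) * (q (TOR.φ0 φ g) - 1) ^ (m + 1) = 0 := by
    rw [pow_succ', ← mul_assoc]
    rw [hy, map_mul, map_pow, map_mul, map_mul, map_sub, map_one] at h4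
    exact h4
  have h6 := TOR.desc_r (n := p ^ k) (RP.notors (R := A ⧸ AS.t p A) (p := p) AS.notors k)
    (q (TOR.φ0 φ g)) _ (by rw [← map_pow, hgn, map_one]) m h5
  rw [map_mul, map_mul, map_sub, map_one]
  exact h6

lemma UTP_comm (hRPC : Stmt_RPC.{u}) (hp : p.Prime) (hp2 : p ≠ 2) (hG : IsPGroup p G)
    (hlf : ∀ s : Set G, s.Finite → ((Subgroup.closure s : Subgroup G) : Set G).Finite)
    (hit : ∀ x ∈ φ.range, ∀ w ∈ U, (fun z : Aˣ => z⁻¹ * x⁻¹ * z * x)^[m] w = 1)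
    (hnil : ∀ x ∈ AS.M' (TOR.φ0 φ), IsNilpotent x → ∃ w ∈ U, ((w : Aˣ) : A) = 1 + x)
    (a b : G) : TOR.φ0 φ ⁅a, b⁆ - 1 ∈ AS.t p A := by
  let ψ : G →* A ⧸ AS.t p A :=
    (Ideal.Quotient.mk (AS.t p A) : A →* A ⧸ AS.t p A).comp (TOR.φ0 φ)
  have hfin : (({a, b} : Set G)).Finite := Set.toFinite _
  set P : Subgroup G := Subgroup.closure {a, b} with hP
  have hPf : Finite P := hlf _ hfin
  have hPp : IsPGroup p P := hG.to_subgroup P
  have := Fact.mk hp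
  obtain ⟨k, hk⟩ := IsPGroup.iff_card.1 hPp
  have hsub : ({a, b} : Set G) ⊆ P := Subgroup.subset_closure
  have hcard : ∀ g : P, (g : G) ^ p ^ k = 1 := by
    intro g
    have : g ^ Nat.card P = 1 := pow_card_eq_one'
    rw [hk] at this
    exact_mod_cast congrArg Subtype.val this
  have := hRPC p hp hp2 P hPp (A ⧸ AS.t p A) AS.notors (ψ.comp P.subtype) (by
    intro g h
    have h3 := UTP_tors1 (p := p) φ U hit hnil (g : G) (h : G) k (hcard g)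
    rw [← Ideal.Quotient.eq_zero_iff_mem] at h3
    rw [map_mul, map_mul, map_sub, map_sum, map_one] at h3
    simp only [map_pow] at h3
    rw [hk]
    exact h3) (by
    intro g h
    have h3 := UTP_tors2 (p := p) φ U hit hnil (g : G) (h : G) k (hcard g)
    rw [← Ideal.Quotient.eq_zero_iff_mem] at h3
    rw [map_mul, map_mul, map_sub, map_sum, map_one] at h3
    simp only [map_pow] at h3
    rw [hk]
    exact h3)
    ⟨a, hsub (by simp)⟩ ⟨b, hsub (by simp)⟩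
  have h1 : ψ ⁅a, b⁆ = 1 := this
  rw [← Ideal.Quotient.eq_zero_iff_mem, map_sub, map_one, sub_eq_zero]
  exact h1

end tors

theorem p_UTP (hRPC : Stmt_RPC.{u}) (hNP : S_NP.{u}) : Stmt_UTP.{u} := by
  intro p m hp hp2 G _ hG hlf A _ φ U hU hnrm hE hnil
  have hnil' : ∀ x ∈ AS.M' (TOR.φ0 φ), IsNilpotent x → ∃ w ∈ U, ((w : Aˣ) : A) = 1 + x := hnil
  have hconj : ∀ x ∈ φ.range, ∀ w ∈ U, w⁻¹ * x * w ∈ φ.range := by
    intro x hx w hw
    have h1 := hnrm.conj_mem ⟨x, hU hx⟩ (by rw [Subgroup.mem_subgroupOf]; exact hx)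
      ⟨w⁻¹, U.inv_mem hw⟩
    rw [Subgroup.mem_subgroupOf] at h1
    have h2 : w⁻¹ * x * (w⁻¹)⁻¹ ∈ φ.range := h1
    rwa [inv_inv] at h2
  have hit : ∀ x ∈ φ.range, ∀ w ∈ U, (fun z : Aˣ => z⁻¹ * x⁻¹ * z * x)^[m + 1] w = 1 := by
    intro x hx w hw
    rw [Function.iterate_succ_apply]
    exact UT.engel_val hE hx (φ.range.mul_mem (hconj _ (φ.range.inv_mem hx) w hw) hx)
  set B := AS.B (TOR.φ0 φ) with hB
  have hmt := UTP_comm (m := m + 1) φ U hRPC hp hp2 hG hlf hit hnil'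
  let M : AddSubgroup B :=
    { carrier := {b | (b : A) ∈ AS.M' (TOR.φ0 φ)}
      zero_mem' := (AS.M' _).zero_mem
      add_mem' := fun ha hb => (AS.M' _).add_mem ha hb
      neg_mem' := fun ha => (AS.M' _).neg_mem ha }
  let I : AddSubgroup B :=
    { carrier := {b | (b : A) ∈ AS.M' (TOR.φ0 φ) ∧ (b : A) ∈ AS.t p A}
      zero_mem' := ⟨(AS.M' _).zero_mem, (AS.t p A).zero_mem⟩
      add_mem' := fun ha hb => ⟨(AS.M' _).add_mem ha.1 hb.1, (AS.t p A).add_mem ha.2 hb.2⟩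
      neg_mem' := fun ha => ⟨(AS.M' _).neg_mem ha.1, (AS.t p A).neg_mem ha.2⟩ }
  have hM : ∀ b : B, b ∈ M ↔ (b : A) ∈ AS.M' (TOR.φ0 φ) := fun b => Iff.rfl
  have hI : ∀ b : B, b ∈ I ↔ (b : A) ∈ AS.M' (TOR.φ0 φ) ∧ (b : A) ∈ AS.t p A := fun b => Iff.rfl
  have hMl : ∀ a b : B, b ∈ M → a * b ∈ M := by
    intro a b hb
    rw [hM] at hb ⊢
    obtain ⟨k, hk⟩ := a.2
    have e : ((a * b : B) : A) = k • (b : A) + ((a : A) - k) * b := by
      rw [Subring.coe_mul, zsmul_eq_mul]; noncomm_ring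
    rw [e]
    exact (AS.M' _).add_mem ((AS.M' _).smul_mem _ hb) (AS.mul_le (Submodule.mul_mem_mul hk hb))
  have hMr : ∀ a b : B, b ∈ M → b * a ∈ M := by
    intro a b hb
    rw [hM] at hb ⊢
    obtain ⟨k, hk⟩ := a.2
    have e : ((b * a : B) : A) = k • (b : A) + b * ((a : A) - k) := by
      rw [Subring.coe_mul, zsmul_eq_mul, mul_sub, ← Int.cast_comm k (b : A)]; abel
    rw [e]
    exact (AS.M' _).add_mem ((AS.M' _).smul_mem _ hb) (AS.mul_le (Submodule.mul_mem_mul hb hk))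
  have hIl : ∀ a b : B, b ∈ I → a * b ∈ I := fun a b hb =>
    ⟨hMl a b hb.1, (AS.t p A).mul_mem_left _ hb.2⟩
  have hIr : ∀ a b : B, b ∈ I → b * a ∈ I := fun a b hb =>
    ⟨hMr a b hb.1, Ideal.mul_mem_right _ _ hb.2⟩
  let ηf : G → Bˣ := fun g =>
    ⟨⟨((φ g : Aˣ) : A), AS.mem_B g⟩, ⟨((φ g⁻¹ : Aˣ) : A), AS.mem_B g⁻¹⟩, by
      apply Subtype.ext
      show ((φ g : Aˣ) : A) * ((φ g⁻¹ : Aˣ) : A) = 1
      rw [← Units.val_mul, ← map_mul, mul_inv_cancel, map_one, Units.val_one], by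
      apply Subtype.ext
      show ((φ g⁻¹ : Aˣ) : A) * ((φ g : Aˣ) : A) = 1
      rw [← Units.val_mul, ← map_mul, inv_mul_cancel, map_one, Units.val_one]⟩
  let η : G →* Bˣ :=
    { toFun := ηf
      map_one' := by
        apply Units.ext
        apply Subtype.ext
        show ((φ 1 : Aˣ) : A) = 1
        rw [map_one, Units.val_one]
      map_mul' := by
        intro a b
        apply Units.ext
        apply Subtype.ext
        show ((φ (a * b) : Aˣ) : A) = ((φ a : Aˣ) : A) * ((φ b : Aˣ) : A)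
        rw [map_mul, Units.val_mul] }
  have hη : ∀ g, (((η g : Bˣ) : B) : A) = ((φ g : Aˣ) : A) := fun g => rfl
  let ι : Bˣ →* Aˣ := Units.map B.subtype.toMonoidHom
  have hι : ∀ x : Bˣ, ((ι x : Aˣ) : A) = ((x : B) : A) := fun x => rfl
  have hιinj : Function.Injective ι := by
    intro x y hxy
    apply Units.ext
    apply Subtype.ext
    rw [← hι, ← hι, hxy]
  have hιη : ∀ g, ι (η g) = φ g := fun g => Units.ext rfl
  have hInil : ∀ b ∈ I, IsNilpotent (b : A) := fun b hb =>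
    UT.nilp (TOR.φ0 φ) hNP hp hG hlf (b : A) hb.1 hb.2
  have hιr : ∀ x ∈ η.range, ι x ∈ φ.range := by
    rintro _ ⟨g, rfl⟩
    exact ⟨g, (hιη g).symm⟩
  refine ⟨B, inferInstance, η, M, I, ⟨⟨fun a b hb => hMl a b hb, fun a b hb => hMr a b hb⟩,
    ⟨fun a b hb => hIl a b hb, fun a b hb => hIr a b hb⟩, ?_, ?_, ?_, ?_, ?_, ?_, ?_⟩, ?_⟩
  · intro a
    obtain ⟨k, hk⟩ := a.2
    refine ⟨k, ?_⟩
    rw [hM]
    show (a : A) - (((k : ℤ) : B) : A) ∈ AS.M' (TOR.φ0 φ)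
    rw [show (((k : ℤ) : B) : A) = (k : A) from map_intCast B.subtype k]
    exact hk
  · intro a
    have h1 : Submodule.map B.subtype.toIntAlgHom.toLinearMap
        (Submodule.span ℤ (Set.range fun g => ((η g : Bˣ) : B) - 1)) = AS.M' (TOR.φ0 φ) := by
      rw [Submodule.map_span, ← Set.range_comp]
      rfl
    rw [hM, ← h1]
    constructor
    · rintro ⟨b, hb, hba⟩
      have h2 : b = a := Subtype.ext hba
      rw [← h2]
      exact hb
    · intro ha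
      exact ⟨a, ha, rfl⟩
  · intro a
    rw [hI, hM]
    have h1 : ∀ e : ℕ, p ^ e • (a : A) = 0 ↔ p ^ e • a = 0 := by
      intro e
      constructor
      · intro h
        apply Subtype.ext
        exact h
      · intro h
        exact congrArg Subtype.val h
    constructor
    · rintro ⟨h2, e, he⟩
      exact ⟨h2, e, (h1 e).1 he⟩
    · rintro ⟨h2, e, he⟩
      exact ⟨h2, e, (h1 e).2 he⟩
  · intro g h
    rw [hI]
    exact ⟨Submodule.subset_span ⟨⁅g, h⁆, rfl⟩, hmt g h⟩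
  · intro b hb
    obtain ⟨n, hn⟩ := hInil b hb
    refine ⟨n, ?_⟩
    apply Subtype.ext
    rw [Subring.coe_pow, hn]
    rfl
  · rintro _ ⟨g, rfl⟩ u hu
    obtain ⟨w, hwU, hw⟩ := hnil' _ hu.1 (hInil _ hu)
    have h2 : ι u = w := by
      apply Units.ext
      rw [hι, hw]
      show ((u : B) : A) = 1 + (((u : B) : A) - 1)
      abel
    obtain ⟨g', hg'⟩ := hconj (φ g) ⟨g, rfl⟩ w hwU
    refine ⟨g', hιinj ?_⟩
    rw [hιη, hg', map_mul, map_mul, map_inv, h2, hιη]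
  · intro x hx y hy
    have h1 := UT.engel_val hE (hιr _ hx) (hιr _ hy)
    have h2 : ∀ j : ℕ, ι ((fun z : Bˣ => z⁻¹ * x⁻¹ * z * x)^[j] y)
        = (fun z : Aˣ => z⁻¹ * (ι x)⁻¹ * z * (ι x))^[j] (ι y) := by
      intro j
      induction j with
      | zero => rfl
      | succ j ih =>
        rw [Function.iterate_succ_apply', Function.iterate_succ_apply', ← ih]
        simp only [map_mul, map_inv]
    apply hιinj
    rw [h2, h1, map_one]
  · ext g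
    rw [MonoidHom.mem_ker, MonoidHom.mem_ker, ← hιη g]
    constructor
    · intro h
      rw [h, map_one]
    · intro h
      exact hιinj (by rw [h, map_one])

end Pool.EN
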