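import Pool.Agent.Work.MP_3617d5_en.AllW
import Pool.Agent.Work.MP_3617d5_en.B_GTC
import Pool.Agent.Work.MP_3617d5_en.B_RPC
import Pool.Agent.Work.MP_3617d5_en.B_UTP
import Pool.Agent.Work.MP_3617d5_en.B_UNC
import Pool.Agent.Work.MP_3617d5_en.B_G22
import Pool.Agent.Work.MP_3617d5_en.B_G32
import Pool.Agent.Work.MP_3617d5_en.B_S22
import Pool.Agent.Work.MP_3617d5_en.B_S32
import Pool.Agent.Work.MP_3617d5_en.B_DW2
import Pool.Agent.Work.MP_3617d5_en.B_QU2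
import Pool.Agent.Work.MP_3617d5_en.B_IN2
import Pool.Agent.Work.MP_3617d5_en.B_UD
import Pool.Agent.Work.MP_3617d5_en.B_FI3
import Pool.Agent.Work.MP_3617d5_en.B_AQh

/-!
# MP_3617d5_al, THEOREM EN+ (no torsion hypothesis): all blocks together
-/

set_option autoImplicit false

universe u

namespace Pool.EN

open Pool.NR

theorem enp_S22 : Stmt_S22.{u} :=
  p_S22 p_BAS p_MUL p_INV en_LPB p_EXV (p_G22 p_INV) (p_C2 p_BAS p_MUL) p_A2V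

theorem enp_S32 : Stmt_S32.{u} := p_S32 p_BAS p_MUL en_LPB p_EX2 (p_G32 p_INV) p_E3

theorem enp_DW2 : Stmt_DW2.{u} :=
  p_DW2 enp_S22 enp_S32 (p_HOV (p_VNH p_NHT p_VID)) (p_HOL p_NHT) p_FZP p_FZN (p_GAI p_FZP)

theorem enp_IN2 : Stmt_IN2.{u} := p_IN2 enp_DW2 p_QU2 p_NGI p_QUO

theorem enp_UTP : Stmt_UTP.{u} := p_UTP (p_RPC p_GTC) Pool.Agent.Work.MP_3fbbd3_adj.blk_NP

theorem enp_AQ : Stmt_AQ.{u} := q_AQ Pool.Agent.Work.MP_3fbbd3_adj.blk_NP p_QUO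

theorem enp_FI3 : Stmt_FI3.{u} := p_FI3 enp_UTP q_UNC enp_AQ enp_IN2 p_UD

end Pool.EN
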