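import Pool.Agent.Work.MP_3617d5_en.Defs

/-!
# C2: the iterated commutators of functions of subsets
-/

set_option autoImplicit false

universe u

namespace Pool.EN

open Pool.NR

theorem C2_step {S : Type u} [Ring S] (z c : Sˣ) :
    ((z⁻¹ * c⁻¹ * z * c : Sˣ) : S) - 1 =
      ((((z : S) - 1) * ((c : S) - 1) - ((c : S) - 1) * ((z : S) - 1))) +
      ((((z⁻¹ : Sˣ) : S) - 1) + (((c⁻¹ : Sˣ) : S) - 1) +
        (((z⁻¹ : Sˣ) : S) - 1) * (((c⁻¹ : Sˣ) : S) - 1)) *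
        ((((z : S) - 1) * ((c : S) - 1) - ((c : S) - 1) * ((z : S) - 1))) := by
  have h1 : ((z⁻¹ * c⁻¹ * z * c : Sˣ) : S) - 1 =
      ((z⁻¹ : Sˣ) : S) * ((c⁻¹ : Sˣ) : S) * ((z : S) * (c : S) - (c : S) * (z : S)) := by
    have h2 : ((z⁻¹ : Sˣ) : S) * ((c⁻¹ : Sˣ) : S) * ((c : S) * (z : S)) = 1 := by
      rw [mul_assoc, ← mul_assoc ((c⁻¹ : Sˣ) : S), Units.inv_mul, one_mul, Units.inv_mul]
    rw [mul_sub, h2]
    push_cast
    simp only [mul_assoc]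
  rw [h1]
  noncomm_ring

theorem C2_step' {S : Type u} [Ring S] (z c : Sˣ) :
    (((z⁻¹ * c⁻¹ * z * c)⁻¹ : Sˣ) : S) - 1 =
      ((((c : S) - 1) * ((z : S) - 1) - ((z : S) - 1) * ((c : S) - 1))) +
      ((((c⁻¹ : Sˣ) : S) - 1) + (((z⁻¹ : Sˣ) : S) - 1) +
        (((c⁻¹ : Sˣ) : S) - 1) * (((z⁻¹ : Sˣ) : S) - 1)) *
        ((((c : S) - 1) * ((z : S) - 1) - ((z : S) - 1) * ((c : S) - 1))) := by
  have h0 : (z⁻¹ * c⁻¹ * z * c)⁻¹ = c⁻¹ * z⁻¹ * c * z := by group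
  rw [h0]
  exact C2_step c z

theorem p_C2 (hB : Stmt_BAS.{u}) (hM : Stmt_MUL.{u}) : Stmt_C2.{u} := by
  intro S _ F hF n κ g hg h c W ρ H1 H1' H2 H2' H3 H4
  obtain ⟨hadd, hsub, hmon, -, -⟩ := hB S F hF n κ g
  have hmul := hM S F hF n κ g hg
  have hρ : NN F κ g 1 ρ := by
    have h1 := hsub 1 _ _ H2 (hmon 2 1 _ (by norm_num) H4)
    have h2 : (fun T => ((c T : Sˣ) : S) - 1 - (((c T : Sˣ) : S) - 1 - ρ T)) = ρ := by
      funext T; abel
    rwa [h2] at h1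
  have key : ∀ i : ℕ,
      NN F κ g (i + 1) (fun T =>
        (((fun v : Sˣ => v⁻¹ * (c T)⁻¹ * v * c T)^[i] (h T) : Sˣ) : S) - 1) ∧
      NN F κ g 1 (fun T =>
        ((((fun v : Sˣ => v⁻¹ * (c T)⁻¹ * v * c T)^[i] (h T))⁻¹ : Sˣ) : S) - 1) ∧
      NN F κ g (i + 2) (fun T =>
        (((fun v : Sˣ => v⁻¹ * (c T)⁻¹ * v * c T)^[i] (h T) : Sˣ) : S) - 1 -
          (fun v : S => v * ρ T - ρ T * v)^[i] (W T)) ∧
      NN F κ g (i + 1) (fun T => (fun v : S => v * ρ T - ρ T * v)^[i] (W T)) := by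
    intro i
    induction i with
    | zero =>
      refine ⟨H1, H1', H3, ?_⟩
      have h1 := hsub 1 _ _ H1 (hmon 2 1 _ (by norm_num) H3)
      have h2 : (fun T => ((h T : Sˣ) : S) - 1 - (((h T : Sˣ) : S) - 1 - W T)) = W := by
        funext T; abel
      rwa [h2] at h1
    | succ i ih =>
      obtain ⟨a1, a2, a3, a4⟩ := ih
      simp only [Function.iterate_succ_apply']
      generalize hZ : (fun T => (fun v : Sˣ => v⁻¹ * (c T)⁻¹ * v * c T)^[i] (h T)) = Z at *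
      have hZT : ∀ T, (fun v : Sˣ => v⁻¹ * (c T)⁻¹ * v * c T)^[i] (h T) = Z T :=
        fun T => congrFun hZ T
      generalize hV : (fun T => (fun v : S => v * ρ T - ρ T * v)^[i] (W T)) = V at *
      have hVT : ∀ T, (fun v : S => v * ρ T - ρ T * v)^[i] (W T) = V T :=
        fun T => congrFun hV T
      simp only [hZT, hVT] at a1 a2 a3 a4 ⊢
      -- `k = f γ - γ f`
      have k1 : NN F κ g (i + 2) (fun T => ((Z T : S) - 1) * ((c T : S) - 1) -
          ((c T : S) - 1) * ((Z T : S) - 1)) := by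
        have b1 := hmul _ _ _ _ a1 H2
        have b2 := hmul _ _ _ _ H2 a1
        rw [Nat.add_comm 1 (i + 1)] at b2
        exact hsub _ _ _ b1 b2
      have k1' : NN F κ g (i + 2) (fun T => ((c T : S) - 1) * ((Z T : S) - 1) -
          ((Z T : S) - 1) * ((c T : S) - 1)) := by
        have b1 := hmul _ _ _ _ a1 H2
        have b2 := hmul _ _ _ _ H2 a1
        rw [Nat.add_comm 1 (i + 1)] at b2
        exact hsub _ _ _ b2 b1
      have e1 : NN F κ g 1 (fun T => ((((Z T)⁻¹ : Sˣ) : S) - 1) + ((((c T)⁻¹ : Sˣ) : S) - 1) +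
          ((((Z T)⁻¹ : Sˣ) : S) - 1) * ((((c T)⁻¹ : Sˣ) : S) - 1)) :=
        hadd _ _ _ (hadd _ _ _ a2 H2') (hmon 2 1 _ (by norm_num) (hmul _ _ _ _ a2 H2'))
      have e1' : NN F κ g 1 (fun T => ((((c T)⁻¹ : Sˣ) : S) - 1) + ((((Z T)⁻¹ : Sˣ) : S) - 1) +
          ((((c T)⁻¹ : Sˣ) : S) - 1) * ((((Z T)⁻¹ : Sˣ) : S) - 1)) :=
        hadd _ _ _ (hadd _ _ _ H2' a2) (hmon 2 1 _ (by norm_num) (hmul _ _ _ _ H2' a2))
      have ek : NN F κ g (i + 3) (fun T => (((((Z T)⁻¹ : Sˣ) : S) - 1) + ((((c T)⁻¹ : Sˣ) : S) - 1) +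
          ((((Z T)⁻¹ : Sˣ) : S) - 1) * ((((c T)⁻¹ : Sˣ) : S) - 1)) *
          (((Z T : S) - 1) * ((c T : S) - 1) - ((c T : S) - 1) * ((Z T : S) - 1))) := by
        have b1 := hmul _ _ _ _ e1 k1
        rw [Nat.add_comm 1 (i + 2)] at b1
        exact b1
      have ek' : NN F κ g (i + 3) (fun T => (((((c T)⁻¹ : Sˣ) : S) - 1) + ((((Z T)⁻¹ : Sˣ) : S) - 1) +
          ((((c T)⁻¹ : Sˣ) : S) - 1) * ((((Z T)⁻¹ : Sˣ) : S) - 1)) *
          (((c T : S) - 1) * ((Z T : S) - 1) - ((Z T : S) - 1) * ((c T : S) - 1))) := by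
        have b1 := hmul _ _ _ _ e1' k1'
        rw [Nat.add_comm 1 (i + 2)] at b1
        exact b1
      refine ⟨?_, ?_, ?_, ?_⟩
      · simp only [C2_step]
        exact hadd _ _ _ k1 (hmon (i + 3) (i + 2) _ (by omega) ek)
      · simp only [C2_step']
        exact hmon (i + 2) 1 _ (by omega)
          (hadd _ _ _ k1' (hmon (i + 3) (i + 2) _ (by omega) ek'))
      · have c1 : NN F κ g (i + 3) (fun T => ((Z T : S) - 1 - V T) * ((c T : S) - 1)) :=
          hmul (i + 2) 1 _ _ a3 H2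
        have c2 : NN F κ g (i + 3) (fun T => V T * ((c T : S) - 1 - ρ T)) :=
          hmul (i + 1) 2 _ _ a4 H4
        have c3 : NN F κ g (i + 3) (fun T => ((c T : S) - 1 - ρ T) * ((Z T : S) - 1)) := by
          have b1 := hmul _ _ _ _ H4 a1
          rw [Nat.add_comm 2 (i + 1)] at b1
          exact b1
        have c4 : NN F κ g (i + 3) (fun T => ρ T * ((Z T : S) - 1 - V T)) := by
          have b1 := hmul _ _ _ _ hρ a3
          rw [Nat.add_comm 1 (i + 2)] at b1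
          exact b1
        have c5 := hadd _ _ _ ek (hsub _ _ _ (hadd _ _ _ c1 c2) (hadd _ _ _ c3 c4))
        have c6 : (fun T => (((Z T)⁻¹ * (c T)⁻¹ * Z T * c T : Sˣ) : S) - 1 -
            (V T * ρ T - ρ T * V T)) = fun T =>
            ((((((Z T)⁻¹ : Sˣ) : S) - 1) + ((((c T)⁻¹ : Sˣ) : S) - 1) +
            ((((Z T)⁻¹ : Sˣ) : S) - 1) * ((((c T)⁻¹ : Sˣ) : S) - 1)) *
            (((Z T : S) - 1) * ((c T : S) - 1) - ((c T : S) - 1) * ((Z T : S) - 1))) +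
            ((((Z T : S) - 1 - V T) * ((c T : S) - 1) + V T * ((c T : S) - 1 - ρ T)) -
            (((c T : S) - 1 - ρ T) * ((Z T : S) - 1) + ρ T * ((Z T : S) - 1 - V T))) := by
          funext T
          rw [C2_step]
          noncomm_ring
        rw [c6]
        exact c5
      · have b1 := hmul _ _ _ _ a4 hρ
        have b2 := hmul _ _ _ _ hρ a4
        rw [Nat.add_comm 1 (i + 1)] at b2
        exact hsub _ _ _ b1 b2
  exact fun i => (key i).2.2.1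

end Pool.EN
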