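import Pool.Agent.Work.MP_3617d5_en.Defs2
import Pool.Agent.Work.MP_3617d5_en.B_DWN

/-!
# MP_3617d5_al, THEOREM EN, block DWV: the last power of `z` generates a nilpotent ideal
-/

set_option autoImplicit false

universe u

namespace Pool.EN

open Pool.NR

theorem p_DWV (hS2V : Stmt_S2V.{u}) (hS3L : Stmt_S3L.{u}) (hHOV : Stmt_HOV.{u}) (hHOL : Stmt_HOL.{u})
    (hFZP : Stmt_FZP.{u}) (hFZN : Stmt_FZN.{u}) (hGAI : Stmt_GAI.{u}) : Stmt_DWV.{u} := by
  intro S _ p m I P hp h2 hm hgood g hg z hgz k hk hzk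
  by_cases hm1 : 1 ≤ m
  swap
  · have hm0 : m = 0 := by omega
    subst hm0
    have h1 : g = 1 := hgood.eng 1 P.one_mem g hg
    have hz : z = 0 := by
      rw [h1, Units.val_one] at hgz
      have := hgz
      exact (add_eq_left.mp this.symm)
    refine ⟨0, ?_⟩
    intro l hl
    rw [List.length_eq_zero_iff] at hl
    subst hl
    show z ^ k = 0
    rw [hz, zero_pow (by omega)]
  have hzI : z ∈ I := by
    have := hgood.sub g hg
    rw [hgz, add_sub_cancel_left] at this
    exact this
  have hwI : z ^ k ∈ I := by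
    obtain ⟨k', rfl⟩ : ∃ k', k = k' + 1 := ⟨k - 1, by omega⟩
    rw [pow_succ]
    exact hgood.idl.left _ _ hzI
  have hww : z ^ k * z ^ k = 0 := by
    rw [← pow_add]
    obtain ⟨j, hj⟩ : ∃ j, k + k = (k + 1) + j := ⟨k - 1, by omega⟩
    rw [hj, pow_add, hzk, zero_mul]
  -- letters in `I`
  have main : ∀ l : List S, (∀ b ∈ l, b ∈ I) →
      l.length = (2 ^ (m + 1) - 1) * ((m + 3) + 1) + 1 → zw (z ^ k) l = 0 := by
    intro l hl hlen
    obtain ⟨Λ, hΛ⟩ : ∃ Λ : Set S, Λ = {x | x = z ∨ x ∈ l} := ⟨_, rfl⟩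
    have hΛfin : Λ.Finite := by
      rw [hΛ]
      exact (Set.finite_singleton z).union (List.finite_toSet l)
    have hΛI : Λ ⊆ I := by
      rw [hΛ]
      rintro x (rfl | hx)
      · exact hzI
      · exact hl x hx
    obtain ⟨n, hn⟩ := hgood.lnil Λ hΛfin hΛI
    have hzΛ : z ∈ Λ := by rw [hΛ]; exact Or.inl rfl
    have hbot := hFZN S Λ n hn z hzΛ k hk
    obtain ⟨E, hE⟩ : ∃ E : Subring S, E = Subring.closure Λ := ⟨_, rfl⟩
    rw [← hE] at hbot
    have hzE : z ∈ E := by rw [hE]; exact Subring.subset_closure hzΛ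
    have hlE : ∀ b ∈ l, b ∈ E := by
      intro b hb
      rw [hE]
      exact Subring.subset_closure (by rw [hΛ]; exact Or.inr hb)
    have hwE : z ^ k ∈ E := E.pow_mem hzE k
    obtain ⟨h0, hmul, hanti, hw1, hI1⟩ := hFZP S E (z ^ k) hwE
    have hpow : ∀ x ∈ FZ E (z ^ k) 1, ∀ i : ℕ, x ^ i ∈ FZ E (z ^ k) i := by
      intro x hx i
      induction i with
      | zero => rw [pow_zero, h0]; exact E.one_mem
      | succ i ih =>
        rw [pow_succ]
        exact hmul i 1 _ ih _ hx
    have hfil : Fil (FZ E (z ^ k)) :=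
      { one := by rw [h0]; exact E.one_mem
        mul := hmul
        anti := hanti
        nil := by
          intro x hx
          refine ⟨n, ?_⟩
          have := hpow x hx n
          rw [hbot] at this
          exact this }
    have hle : FZ E (z ^ k) 1 ≤ I := hI1 I hgood.idl hwI
    have hloc : Loc m (FZ E (z ^ k)) P z k g :=
      { fil := hfil
        z0 := by rw [h0]; exact hzE
        zn := hzk
        w1 := hw1
        gz := hgz
        gP := hg
        nrm := fun x hx u hu => hgood.nrm x hx u (hle hu)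
        eng := hgood.eng }
    have hgain : ∀ l : List S, l.length = 2 ^ (m + 1) - 1 → (∀ b ∈ l, b ∈ FZ E (z ^ k) (m + 3)) →
        (l.map (z ^ k * ·)).prod * z ^ k ∈ FZ E (z ^ k) ((2 ^ (m + 1) - 1) * ((m + 3) + 1) + 2) := by
      rcases Nat.lt_or_ge 1 k with h | h
      · exact hHOL S _ hfil (z ^ k) p m (m + 3) hw1 hp hm1 hm
          (fun x hx => hgood.tor x (hle hx)) (hS3L S m _ P z k g hloc h)
      · have hk1 : k = 1 := by omega
        subst hk1
        exact hHOV S _ hfil (z ^ 1) p m (m + 3) hw1 hp h2 hm1 hm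
          (fun x hx => hgood.tor x (hle hx)) (hS2V S m _ P z g hloc)
    have hD := hGAI S E (z ^ k) hwE (2 ^ (m + 1) - 1) (m + 3) n hbot hgain
    have hword : ∀ l : List S, (∀ b ∈ l, b ∈ E) → zw (z ^ k) l ∈ FZ E (z ^ k) (l.length + 1) := by
      intro l
      induction l with
      | nil => intro _; exact hw1
      | cons a l ih =>
        intro hl
        have h1 := ih (fun b hb => hl b (List.mem_cons_of_mem _ hb))
        have h2 : a ∈ FZ E (z ^ k) 0 := by rw [h0]; exact hl a List.mem_cons_self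
        have h3 := hmul _ _ _ (hmul 1 0 _ hw1 _ h2) _ h1
        have h4 : 1 + 0 + (l.length + 1) = (a :: l).length + 1 := by
          rw [List.length_cons]; omega
        rw [h4] at h3
        exact h3
    have h5 := hword l hlE
    have h6 := hanti _ h5
    rw [hlen, hD] at h6
    exact h6
  refine ⟨(2 ^ (m + 1) - 1) * ((m + 3) + 1) + 1, ?_⟩
  intro l hl
  obtain ⟨l', hl', hI', he⟩ := DWN_red I hgood.dec (z ^ k) hww l
  rw [he]
  exact main l' hI' (by rw [hl', hl])

end Pool.EN
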