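import Pool.Agent.Work.MP_3617d5_en.Defs

/-!
# Block E3
-/

set_option autoImplicit false

universe u

namespace Pool.EN

open Pool.NR

theorem p_E3 : Stmt_E3.{u} := by
  intro S _ m w a h c hh hww hwc hit
  obtain ⟨x, hx⟩ : ∃ x, x = w * a * w := ⟨_, rfl⟩
  obtain ⟨D, hD⟩ : ∃ D : S, D = ((c⁻¹ : Sˣ) : S) - 1 := ⟨_, rfl⟩
  rw [← hx] at hh ⊢
  have hxc : x * (c : S) = x := by rw [hx, mul_assoc, hwc]
  have hxci : x * ((c⁻¹ : Sˣ) : S) = x := by
    conv_lhs => rw [← hxc]
    rw [mul_assoc, Units.mul_inv, mul_one]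
  have hxD : x * D = 0 := by rw [hD, mul_sub, hxci, mul_one, sub_self]
  have hcD : (c : S) * D = 1 - (c : S) := by rw [hD, mul_sub, Units.mul_inv, mul_one]
  have hDc : D * (c : S) = 1 - (c : S) := by rw [hD, sub_mul, Units.inv_mul, one_mul]
  have hxx : x * x = 0 := by
    rw [hx]
    calc w * a * w * (w * a * w) = w * a * (w * w) * a * w := by noncomm_ring
      _ = 0 := by rw [hww]; simp
  have hxq : ∀ i : ℕ, x * D ^ (i + 1) = 0 := by
    intro i
    rw [pow_succ', ← mul_assoc, hxD, zero_mul]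
  have key : ∀ i : ℕ, (((fun v : Sˣ => v⁻¹ * c⁻¹ * v * c)^[i] h : Sˣ) : S) = 1 + D ^ i * x := by
    intro i
    induction i with
    | zero => rw [Function.iterate_zero, id, hh, pow_zero, one_mul]
    | succ i ih =>
      rw [Function.iterate_succ_apply']
      generalize (fun v : Sˣ => v⁻¹ * c⁻¹ * v * c)^[i] h = v at ih ⊢
      have e1 : (c * v) * (v⁻¹ * c⁻¹ * v * c) = v * c := by group
      have e2 : ((c * v : Sˣ) : S) * ((v⁻¹ * c⁻¹ * v * c : Sˣ) : S) = (v : S) * (c : S) := by
        rw [← Units.val_mul, e1, Units.val_mul]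
      have e3 : ((c * v : Sˣ) : S) * (1 + D ^ (i + 1) * x) = (v : S) * (c : S) := by
        rw [Units.val_mul, ih]
        have h1 : x * (D ^ (i + 1) * x) = 0 := by rw [← mul_assoc, hxq, zero_mul]
        have h2 : (c : S) * (D ^ (i + 1) * x) = D ^ i * x - (c : S) * (D ^ i * x) := by
          rw [pow_succ', ← mul_assoc, ← mul_assoc, hcD, sub_mul, sub_mul, one_mul, mul_assoc (c : S)]
        calc (c : S) * (1 + D ^ i * x) * (1 + D ^ (i + 1) * x)
            = (c : S) + (c : S) * (D ^ i * x) + (c : S) * (D ^ (i + 1) * x)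
              + (c : S) * D ^ i * (x * (D ^ (i + 1) * x)) := by
              simp only [mul_add, add_mul, mul_one, one_mul, mul_assoc]
              abel
          _ = (c : S) + D ^ i * x := by
              rw [h1, h2, mul_zero]
              abel
          _ = (1 + D ^ i * x) * (c : S) := by
              rw [add_mul, one_mul, mul_assoc, hxc]
      exact (Units.mul_right_inj (c * v)).1 (e2.trans e3.symm)
  have hm := key m
  rw [hit, Units.val_one] at hm
  have hD0 : D ^ m * x = 0 := by
    have := hm.symm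
    rwa [add_eq_left] at this
  have hcc : (c : S) - 1 = (-(c : S)) * D := by rw [neg_mul, hcD]; abel
  have hcomm : Commute (-(c : S)) D := by
    show -(c : S) * D = D * -(c : S)
    rw [neg_mul, mul_neg, hcD, hDc]
  rw [hcc, hcomm.mul_pow, mul_assoc, hD0, mul_zero]

end Pool.EN
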