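import Pool.Agent.Work.MP_3617d5_en.Defs

/-!
# MP_3617d5_al, THEOREM EN, block EXT: the top Moebius coefficient
-/

set_option autoImplicit false

universe u

namespace Pool.EN

open Pool.NR

section
variable {S : Type u} [Ring S]

theorem EXT_uniq {ι : Type} [DecidableEq ι] (c c' : Finset ι → S)
    (h : ∀ T : Finset ι, ∑ U ∈ T.powerset, c U = ∑ U ∈ T.powerset, c' U) : ∀ T, c T = c' T := by
  intro T
  induction T using Finset.strongInduction with
  | H T ih =>
    have h1 := h T
    have hT : T ∈ T.powerset := Finset.mem_powerset_self T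
    rw [← Finset.add_sum_erase _ _ hT, ← Finset.add_sum_erase _ _ hT] at h1
    have h2 : ∑ U ∈ T.powerset.erase T, c U = ∑ U ∈ T.powerset.erase T, c' U := by
      refine Finset.sum_congr rfl fun U hU => ih U ?_
      rw [Finset.mem_erase, Finset.mem_powerset] at hU
      exact Finset.ssubset_iff_subset_ne.mpr ⟨hU.2, hU.1⟩
    rw [h2] at h1
    exact add_right_cancel h1

/-- the word of a map -/
def EXT_wd {n : ℕ} (w : S) (a : Fin n → S) {k : ℕ} (r : Fin k → Fin n) : S :=
  (List.ofFn fun i => w * a (r i)).prod * w

theorem EXT_pow {n : ℕ} (w : S) (a : Fin n → S) (T : Finset (Fin n)) : ∀ k : ℕ,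
    (w * ls a T) ^ k * w = ∑ r ∈ Fintype.piFinset (fun _ : Fin k => T), EXT_wd w a r := by
  intro k
  induction k with
  | zero =>
    simp [EXT_wd]
  | succ k ih =>
    rw [pow_succ', mul_assoc, ih]
    have h1 : w * ls a T = ∑ i ∈ T, w * a i := by unfold ls; rw [Finset.mul_sum]
    rw [h1, Finset.sum_mul_sum, ← Finset.sum_product']
    refine Finset.sum_bij' (fun x _ => (Fin.cons x.1 x.2 : Fin (k + 1) → Fin n))
      (fun r _ => (r 0, fun i => r i.succ)) ?_ ?_ ?_ ?_ ?_
    · rintro ⟨i, r⟩ h
      rw [Finset.mem_product] at h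
      rw [Fintype.mem_piFinset]
      intro j
      have h2 := Fintype.mem_piFinset.mp h.2
      refine Fin.cases ?_ (fun j => ?_) j
      · exact h.1
      · exact h2 j
    · intro r h
      rw [Fintype.mem_piFinset] at h
      rw [Finset.mem_product, Fintype.mem_piFinset]
      exact ⟨h 0, fun j => h j.succ⟩
    · rintro ⟨i, r⟩ h
      rfl
    · intro r h
      exact Fin.cons_self_tail r
    · rintro ⟨i, r⟩ h
      show w * a i * ((List.ofFn fun j => w * a (r j)).prod * w)
        = (List.ofFn fun j => w * a ((Fin.cons i r : Fin (k + 1) → Fin n) j)).prod * w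
      rw [List.ofFn_succ, List.prod_cons]
      simp only [Fin.cons_zero, Fin.cons_succ]
      rw [mul_assoc (w * a i)]

end

theorem p_EXT : Stmt_EXT.{u} := by
  intro S _ F hF n κ g w a c hNN
  obtain ⟨d, hd, hdF⟩ := hNN
  -- the other expansion
  obtain ⟨e, he⟩ : ∃ e : Finset (Fin n) → S, e = fun U =>
    c • ∑ r ∈ (Finset.univ : Finset (Fin n → Fin n)).filter (fun r => Finset.univ.image r = U),
      EXT_wd w a r := ⟨_, rfl⟩
  have h1 : ∀ T : Finset (Fin n), ∑ U ∈ T.powerset, d U = ∑ U ∈ T.powerset, e U := by
    intro T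
    rw [← hd T]
    show c • ((w * ls a T) ^ n * w) = _
    rw [EXT_pow w a T n, he, ← Finset.smul_sum]
    congr 1
    rw [← Finset.sum_fiberwise_of_maps_to (s := Fintype.piFinset (fun _ : Fin n => T))
      (t := T.powerset) (g := fun r => Finset.univ.image r)]
    · refine Finset.sum_congr rfl fun U hU => ?_
      refine Finset.sum_congr ?_ fun _ _ => rfl
      ext r
      rw [Finset.mem_filter, Finset.mem_filter, Fintype.mem_piFinset]
      constructor
      · rintro ⟨_, h⟩
        exact ⟨Finset.mem_univ _, h⟩
      · rintro ⟨_, h⟩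
        refine ⟨fun i => ?_, h⟩
        rw [Finset.mem_powerset] at hU
        apply hU
        rw [← h]
        exact Finset.mem_image_of_mem r (Finset.mem_univ i)
    · intro r hr
      rw [Fintype.mem_piFinset] at hr
      rw [Finset.mem_powerset]
      intro x hx
      rw [Finset.mem_image] at hx
      obtain ⟨i, _, rfl⟩ := hx
      exact hr i
  have h2 := EXT_uniq d e h1 Finset.univ
  have h3 := hdF Finset.univ
  rw [h2, he] at h3
  have hcard : (Finset.univ : Finset (Fin n)).card < n + 1 := by
    rw [Finset.card_univ, Fintype.card_fin]; omega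
  rw [if_pos hcard] at h3
  have h4 : (∑ r ∈ (Finset.univ : Finset (Fin n → Fin n)).filter
      (fun r => Finset.univ.image r = Finset.univ), EXT_wd w a r) = sy w a := by
    unfold sy
    symm
    refine Finset.sum_bij (fun (τ : Equiv.Perm (Fin n)) _ => (τ : Fin n → Fin n)) ?_ ?_ ?_ ?_
    · intro τ _
      rw [Finset.mem_filter]
      refine ⟨Finset.mem_univ _, ?_⟩
      exact Finset.image_univ_of_surjective τ.surjective
    · intro τ _ τ' _ h
      exact DFunLike.coe_injective h
    · intro r hr
      rw [Finset.mem_filter] at hr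
      have hs : Function.Surjective r := by
        intro x
        have hx : x ∈ Finset.univ.image r := by rw [hr.2]; exact Finset.mem_univ x
        rw [Finset.mem_image] at hx
        obtain ⟨i, _, hi⟩ := hx
        exact ⟨i, hi⟩
      have hb : Function.Bijective r := (Finite.surjective_iff_bijective).mp hs
      exact ⟨Equiv.ofBijective r hb, Finset.mem_univ _, rfl⟩
    · intro τ _
      rfl
  have h5 : c • (∑ r ∈ (Finset.univ : Finset (Fin n → Fin n)).filter
      (fun r => Finset.univ.image r = Finset.univ), EXT_wd w a r) ∈ F ((∑ i, κ i) + g) := h3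
  rw [h4] at h5
  exact h5

end Pool.EN
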