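import Pool.Agent.Work.MP_3617d5_en.Defs2
import Pool.Agent.Work.MP_3617d5_en.B_EXT

/-!
# MP_3617d5_al, THEOREM EN, block EX2: the top Moebius coefficient
-/

set_option autoImplicit false

universe u

namespace Pool.EN

open Pool.NR

theorem EX2_top {S : Type u} [Ring S] {n : ℕ} (w : S) (a : Fin n → S) (v : S)
    (d : Finset (Fin n) → S)
    (h : ∀ T : Finset (Fin n), ∑ U ∈ T.powerset, d U = (w * ls a T) ^ n * w * v) :
    d Finset.univ = sy w a * v := by
  obtain ⟨e, he⟩ : ∃ e : Finset (Fin n) → S, e = fun U =>
    (∑ r ∈ (Finset.univ : Finset (Fin n → Fin n)).filter (fun r => Finset.univ.image r = U),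
      EXT_wd w a r) * v := ⟨_, rfl⟩
  have h1 : ∀ T : Finset (Fin n), ∑ U ∈ T.powerset, d U = ∑ U ∈ T.powerset, e U := by
    intro T
    rw [h T, EXT_pow w a T n, he, ← Finset.sum_mul]
    congr 1
    rw [← Finset.sum_fiberwise_of_maps_to (s := Fintype.piFinset (fun _ : Fin n => T))
      (t := T.powerset) (g := fun r => Finset.univ.image r)]
    · refine Finset.sum_congr rfl fun U hU => ?_
      refine Finset.sum_congr ?_ fun _ _ => rfl
      ext r
      rw [Finset.mem_filter, Finset.mem_filter, Fintype.mem_piFinset]
      constructor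
      · rintro ⟨_, h⟩
        exact ⟨Finset.mem_univ _, h⟩
      · rintro ⟨_, h⟩
        refine ⟨fun i => ?_, h⟩
        rw [Finset.mem_powerset] at hU
        apply hU
        rw [← h]
        exact Finset.mem_image_of_mem r (Finset.mem_univ i)
    · intro r hr
      rw [Fintype.mem_piFinset] at hr
      rw [Finset.mem_powerset]
      intro x hx
      rw [Finset.mem_image] at hx
      obtain ⟨i, _, rfl⟩ := hx
      exact hr i
  have h2 := EXT_uniq d e h1 Finset.univ
  have h4 : (∑ r ∈ (Finset.univ : Finset (Fin n → Fin n)).filter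
      (fun r => Finset.univ.image r = Finset.univ), EXT_wd w a r) = sy w a := by
    unfold sy
    symm
    refine Finset.sum_bij (fun (τ : Equiv.Perm (Fin n)) _ => (τ : Fin n → Fin n)) ?_ ?_ ?_ ?_
    · intro τ _
      rw [Finset.mem_filter]
      refine ⟨Finset.mem_univ _, ?_⟩
      exact Finset.image_univ_of_surjective τ.surjective
    · intro τ _ τ' _ h
      exact DFunLike.coe_injective h
    · intro r hr
      rw [Finset.mem_filter] at hr
      have hs : Function.Surjective r := by
        intro x
        have hx : x ∈ Finset.univ.image r := by rw [hr.2]; exact Finset.mem_univ x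
        rw [Finset.mem_image] at hx
        obtain ⟨i, _, hi⟩ := hx
        exact ⟨i, hi⟩
      have hb : Function.Bijective r := (Finite.surjective_iff_bijective).mp hs
      exact ⟨Equiv.ofBijective r hb, Finset.mem_univ _, rfl⟩
    · intro τ _
      rfl
  rw [h2, he]
  show (∑ r ∈ (Finset.univ : Finset (Fin n → Fin n)).filter
      (fun r => Finset.univ.image r = Finset.univ), EXT_wd w a r) * v = sy w a * v
  rw [h4]

theorem p_EX2 : Stmt_EX2.{u} := by
  intro S _ F hF n κ g w a l v hv f hNN hf
  obtain ⟨d, hd, hdF⟩ := hNN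
  have h1 := EX2_top w a v (fun U => d U * v) (fun T => by
    rw [← hf T, hd T, Finset.sum_mul])
  have h3 := hdF Finset.univ
  have hcard : (Finset.univ : Finset (Fin n)).card < n + 1 := by
    rw [Finset.card_univ, Fintype.card_fin]; omega
  rw [if_pos hcard] at h3
  have h4 := hF.mul _ _ _ h3 _ hv
  have h5 : d Finset.univ * v = sy w a * v := h1
  rw [← h5]
  exact h4

end Pool.EN
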