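import Pool.Agent.Work.MP_3617d5_en.Defs2
import Pool.Agent.Work.MP_3617d5_en.B_EXT

/-!
# MP_3617d5_al, THEOREM EN, block EXV: the top Moebius coefficient
-/

set_option autoImplicit false

universe u

namespace Pool.EN

open Pool.NR

section
variable {S : Type u} [Ring S]

theorem EXV_pow {n : ℕ} (x : S) (g : Fin n → S) (T : Finset (Fin n)) (hx : x = ∑ i ∈ T, g i) :
    ∀ k : ℕ, x ^ k = ∑ r ∈ Fintype.piFinset (fun _ : Fin k => T), (List.ofFn fun i => g (r i)).prod := by
  intro k
  induction k with
  | zero => simp
  | succ k ih =>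
    rw [pow_succ', ih]
    nth_rewrite 1 [hx]
    rw [Finset.sum_mul_sum, ← Finset.sum_product']
    refine Finset.sum_bij' (fun x _ => (Fin.cons x.1 x.2 : Fin (k + 1) → Fin n))
      (fun r _ => (r 0, fun i => r i.succ)) ?_ ?_ ?_ ?_ ?_
    · rintro ⟨i, r⟩ h
      rw [Finset.mem_product] at h
      rw [Fintype.mem_piFinset]
      intro j
      have h2 := Fintype.mem_piFinset.mp h.2
      refine Fin.cases ?_ (fun j => ?_) j
      · exact h.1
      · exact h2 j
    · intro r h
      rw [Fintype.mem_piFinset] at h
      rw [Finset.mem_product, Fintype.mem_piFinset]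
      exact ⟨h 0, fun j => h j.succ⟩
    · rintro ⟨i, r⟩ h
      rfl
    · intro r h
      exact Fin.cons_self_tail r
    · rintro ⟨i, r⟩ h
      show g i * (List.ofFn fun j => g (r j)).prod
        = (List.ofFn fun j => g ((Fin.cons i r : Fin (k + 1) → Fin n) j)).prod
      rw [List.ofFn_succ, List.prod_cons]
      simp only [Fin.cons_zero, Fin.cons_succ]

theorem EXV_split {n : ℕ} (x c : S) (g : Fin n → S) (T : Finset (Fin n)) (hx : x = ∑ i ∈ T, g i) :
    ∀ k p : ℕ, p ≤ k → ∑ r ∈ Fintype.piFinset (fun _ : Fin k => T),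
      (((List.ofFn fun i => g (r i)).take p).prod * c * ((List.ofFn fun i => g (r i)).drop p).prod)
      = x ^ p * c * x ^ (k - p) := by
  intro k
  induction k with
  | zero =>
    intro p hp
    have : p = 0 := by omega
    subst this
    simp
  | succ k ih =>
    intro p hp
    cases p with
    | zero =>
      simp only [List.take_zero, List.prod_nil, List.drop_zero, pow_zero, one_mul, Nat.sub_zero]
      rw [← Finset.mul_sum, ← EXV_pow x g T hx (k + 1)]
    | succ p =>
      have h1 := ih p (by omega)
      have h2 : k + 1 - (p + 1) = k - p := by omega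
      rw [h2, pow_succ', mul_assoc x, mul_assoc x, ← h1]
      nth_rewrite 1 [hx]
      rw [Finset.sum_mul_sum, ← Finset.sum_product']
      symm
      refine Finset.sum_bij' (fun x _ => (Fin.cons x.1 x.2 : Fin (k + 1) → Fin n))
        (fun r _ => (r 0, fun i => r i.succ)) ?_ ?_ ?_ ?_ ?_
      · rintro ⟨i, r⟩ h
        rw [Finset.mem_product] at h
        rw [Fintype.mem_piFinset]
        intro j
        have h2 := Fintype.mem_piFinset.mp h.2
        refine Fin.cases ?_ (fun j => ?_) j
        · exact h.1
        · exact h2 j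
      · intro r h
        rw [Fintype.mem_piFinset] at h
        rw [Finset.mem_product, Fintype.mem_piFinset]
        exact ⟨h 0, fun j => h j.succ⟩
      · rintro ⟨i, r⟩ h
        rfl
      · intro r h
        exact Fin.cons_self_tail r
      · rintro ⟨i, r⟩ h
        show g i * (((List.ofFn fun j => g (r j)).take p).prod * c
            * ((List.ofFn fun j => g (r j)).drop p).prod)
          = ((List.ofFn fun j => g ((Fin.cons i r : Fin (k + 1) → Fin n) j)).take (p + 1)).prod * c
            * ((List.ofFn fun j => g ((Fin.cons i r : Fin (k + 1) → Fin n) j)).drop (p + 1)).prod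
        rw [List.ofFn_succ, List.take_succ_cons, List.drop_succ_cons, List.prod_cons]
        simp only [Fin.cons_zero, Fin.cons_succ]
        rw [mul_assoc, mul_assoc, mul_assoc]

end

theorem p_EXV : Stmt_EXV.{u} := by
  intro S _ F hF m κ g w a s hNN
  obtain ⟨d, hd, hdF⟩ := hNN
  obtain ⟨φ, hφ⟩ : ∃ φ : (Fin m → Fin m) → S, φ = fun r =>
    ∑ t ∈ Finset.range (m + 1), m.choose t •
      (((List.ofFn fun i => w * a (r i)).take (m - t)).prod * (w * s) *
        ((List.ofFn fun i => w * a (r i)).drop (m - t)).prod * w) := ⟨_, rfl⟩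
  obtain ⟨G, hG⟩ : ∃ G : (Fin m → Fin m) → Finset (Fin (m + 1)), G = fun r =>
    insert 0 (Finset.univ.image fun i => (r i).succ) := ⟨_, rfl⟩
  obtain ⟨e, he⟩ : ∃ e : Finset (Fin (m + 1)) → S, e = fun U =>
    ∑ r ∈ (Finset.univ : Finset (Fin m → Fin m)).filter (fun r => G r = U), φ r := ⟨_, rfl⟩
  have hf : ∀ T : Finset (Fin (m + 1)), (∑ t ∈ Finset.range (m + 1), m.choose t •
      ((w * ls (Fin.cons 0 a : Fin (m + 1) → S) T) ^ (m - t)
        * (w * ls (Fin.cons s 0 : Fin (m + 1) → S) T) *
        (w * ls (Fin.cons 0 a : Fin (m + 1) → S) T) ^ t * w))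
      = ∑ r ∈ (Finset.univ : Finset (Fin m → Fin m)).filter (fun r => G r ⊆ T), φ r := by
    intro T
    obtain ⟨T', hT'⟩ : ∃ T' : Finset (Fin m), T' = Finset.univ.filter (fun i => i.succ ∈ T) :=
      ⟨_, rfl⟩
    have hmT : ∀ i, i ∈ T' ↔ i.succ ∈ T := by intro i; rw [hT']; simp
    have hS : ls (Fin.cons s 0 : Fin (m + 1) → S) T = if (0 : Fin (m + 1)) ∈ T then s else 0 := by
      unfold ls
      have h1 : ∀ i : Fin (m + 1), (Fin.cons s 0 : Fin (m + 1) → S) i = if i = 0 then s else 0 := by
        intro i
        refine Fin.cases ?_ (fun j => ?_) i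
        · simp
        · simp [Fin.succ_ne_zero]
      simp only [h1]
      rw [Finset.sum_ite_eq']
    have hA : w * ls (Fin.cons 0 a : Fin (m + 1) → S) T = ∑ i ∈ T', w * a i := by
      unfold ls
      rw [Finset.mul_sum]
      have h1 : ∑ i ∈ T, w * (Fin.cons 0 a : Fin (m + 1) → S) i
          = ∑ i : Fin (m + 1), if i ∈ T then w * (Fin.cons 0 a : Fin (m + 1) → S) i else 0 := by
        rw [Finset.sum_ite_mem, Finset.univ_inter]
      rw [h1, Fin.sum_univ_succ]
      simp only [Fin.cons_zero, Fin.cons_succ, mul_zero, ite_self, zero_add]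
      rw [← Finset.sum_filter, hT']
    by_cases h0 : (0 : Fin (m + 1)) ∈ T
    · rw [hS, if_pos h0]
      have h2 : (Finset.univ : Finset (Fin m → Fin m)).filter (fun r => G r ⊆ T)
          = Fintype.piFinset (fun _ : Fin m => T') := by
        ext r
        rw [Finset.mem_filter, Fintype.mem_piFinset, hG]
        constructor
        · rintro ⟨_, h⟩ i
          rw [hmT]
          exact h (Finset.mem_insert_of_mem (Finset.mem_image_of_mem _ (Finset.mem_univ i)))
        · intro h
          refine ⟨Finset.mem_univ _, ?_⟩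
          intro x hx
          rcases Finset.mem_insert.mp hx with rfl | hx
          · exact h0
          · obtain ⟨i, _, rfl⟩ := Finset.mem_image.mp hx
            exact (hmT _).mp (h i)
      rw [h2, hφ, Finset.sum_comm]
      refine Finset.sum_congr rfl fun t ht => ?_
      rw [Finset.mem_range] at ht
      rw [← Finset.smul_sum, ← Finset.sum_mul]
      have h3 := EXV_split (w * ls (Fin.cons 0 a : Fin (m + 1) → S) T) (w * s)
        (fun i => w * a i) T' hA m (m - t) (by omega)
      have h4 : m - (m - t) = t := by omega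
      rw [h3, h4]
    · rw [hS, if_neg h0]
      have h2 : (Finset.univ : Finset (Fin m → Fin m)).filter (fun r => G r ⊆ T) = ∅ := by
        rw [Finset.filter_eq_empty_iff]
        intro r _ h
        apply h0
        apply h
        rw [hG]
        exact Finset.mem_insert_self _ _
      rw [h2, Finset.sum_empty]
      refine Finset.sum_eq_zero fun t _ => ?_
      simp
  have h1 : ∀ T : Finset (Fin (m + 1)), ∑ U ∈ T.powerset, d U = ∑ U ∈ T.powerset, e U := by
    intro T
    have h2 := hd T
    have h3 : ∑ U ∈ T.powerset, d U = ∑ r ∈ (Finset.univ : Finset (Fin m → Fin m)).filter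
        (fun r => G r ⊆ T), φ r := by
      rw [← h2]
      exact hf T
    rw [h3, he, ← Finset.sum_fiberwise_of_maps_to (t := T.powerset) (g := G)]
    · refine Finset.sum_congr rfl fun U hU => ?_
      refine Finset.sum_congr ?_ fun _ _ => rfl
      ext r
      rw [Finset.mem_filter, Finset.mem_filter, Finset.mem_filter]
      rw [Finset.mem_powerset] at hU
      constructor
      · rintro ⟨_, h⟩
        exact ⟨Finset.mem_univ _, h⟩
      · rintro ⟨_, h⟩
        exact ⟨⟨Finset.mem_univ _, by rw [h]; exact hU⟩, h⟩
    · intro r hr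
      rw [Finset.mem_filter] at hr
      rw [Finset.mem_powerset]
      exact hr.2
  have h2 := EXT_uniq d e h1 Finset.univ
  have h3 := hdF Finset.univ
  have hcard : (Finset.univ : Finset (Fin (m + 1))).card < m + 2 := by
    rw [Finset.card_univ, Fintype.card_fin]; omega
  rw [if_pos hcard, h2, he] at h3
  have h4 : (∑ r ∈ (Finset.univ : Finset (Fin m → Fin m)).filter
      (fun r => G r = Finset.univ), φ r) = sv m w a s := by
    unfold sv
    symm
    refine Finset.sum_bij (fun (τ : Equiv.Perm (Fin m)) _ => (τ : Fin m → Fin m)) ?_ ?_ ?_ ?_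
    · intro τ _
      rw [Finset.mem_filter]
      refine ⟨Finset.mem_univ _, ?_⟩
      rw [hG]
      ext x
      constructor
      · intro _; exact Finset.mem_univ x
      · intro _
        refine Fin.cases ?_ (fun j => ?_) x
        · exact Finset.mem_insert_self _ _
        · refine Finset.mem_insert_of_mem (Finset.mem_image.mpr ⟨τ.symm j, Finset.mem_univ _, ?_⟩)
          rw [Equiv.apply_symm_apply]
    · intro τ _ τ' _ h
      exact DFunLike.coe_injective h
    · intro r hr
      rw [Finset.mem_filter, hG] at hr
      have hs : Function.Surjective r := by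
        intro x
        have hx : x.succ ∈ insert (0 : Fin (m + 1)) (Finset.univ.image fun i => (r i).succ) := by
          have h5 : insert (0 : Fin (m + 1)) (Finset.univ.image fun i => (r i).succ) = Finset.univ := hr.2
          rw [h5]
          exact Finset.mem_univ _
        rcases Finset.mem_insert.mp hx with hx | hx
        · exact absurd hx (Fin.succ_ne_zero x)
        · obtain ⟨i, _, hi⟩ := Finset.mem_image.mp hx
          exact ⟨i, Fin.succ_injective _ hi⟩
      have hb : Function.Bijective r := (Finite.surjective_iff_bijective).mp hs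
      exact ⟨Equiv.ofBijective r hb, Finset.mem_univ _, rfl⟩
    · intro τ _
      rw [hφ]
  have h5 : (∑ r ∈ (Finset.univ : Finset (Fin m → Fin m)).filter
      (fun r => G r = Finset.univ), φ r) ∈ F ((∑ i, κ i) + g) := h3
  rw [h4] at h5
  exact h5

end Pool.EN
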