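import Pool.Agent.Work.MP_3617d5_en.Defs2

/-!
# MP_3617d5_al, THEOREM EN, block FIW: the theorem
-/

set_option autoImplicit false

universe u

namespace Pool.EN

open Pool.NR

theorem FIW_comm {G : Type u} [Group G] (h : ∀ x y : G, x * y = y * x) : Fitting G := by
  intro g
  letI : CommGroup G := { (inferInstance : Group G) with mul_comm := h }
  exact ⟨⊤, inferInstance, inferInstance, Subgroup.mem_top g⟩

theorem p_FIW (hINW : Stmt_INW.{u}) (hRDN : Stmt_RDN.{u}) (hNGI : Stmt_NGI.{u}) (hGEN : Stmt_GEN.{u})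
    (hPUL : Stmt_PUL.{u}) : Stmt_FIW.{u} := by
  intro p n m hp hn hm G _ hG hGE hlf A _ χ hker U hU hnrm hE hnil htors
  by_cases h2 : 2 < p
  · obtain ⟨S, _, I, f, hgood, hf⟩ := hRDN p m hp G hG hlf A χ U hU hnrm hE hnil htors
    refine hPUL G Sˣ p n hp hn hG hGE f ?_ ?_
    · have h : f.ker = χ.ker := by
        ext g
        rw [MonoidHom.mem_ker, MonoidHom.mem_ker]
        exact hf g
      rw [h]
      exact hker
    · intro x
      have h1 := hINW S p m I f.range hp h2 hm hgood (f x) ⟨x, rfl⟩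
      obtain ⟨hI, hmem, hnT⟩ := hNGI S _ h1
      obtain ⟨H, hHn, hHnil, hH⟩ := hGEN S _ hI hnT
      exact ⟨H, hHn, hHnil, (hH (f x)).mpr hmem⟩
  · have h3 : n ≤ 1 := by omega
    apply FIW_comm
    intro x y
    rcases Nat.lt_or_ge 0 n with h4 | h4
    · have h5 : n = 1 := by omega
      subst h5
      have h6 : x⁻¹ * y⁻¹ * x * y = 1 := hGE y x
      have h7 : x * y = y * x * (x⁻¹ * y⁻¹ * x * y) := by group
      rw [h7, h6, mul_one]
    · have h5 : n = 0 := by omega
      subst h5
      have h6 : x = 1 := hGE x x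
      have h7 : y = 1 := hGE y y
      rw [h6, h7]

end Pool.EN
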