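import Pool.Agent.Work.MP_3617d5_en.Defs

/-!
# MP_3617d5_al, THEOREM EN, block FZN
-/

set_option autoImplicit false

universe u

namespace Pool.EN

open Pool.NR

/-- the sum of the powers of `T` from `j` on -/
def FZN_V {S : Type u} [Ring S] (T : Submodule ℤ S) (j : ℕ) : Submodule ℤ S := ⨆ i : ℕ, T ^ (j + i)

lemma FZN_mul {S : Type u} [Ring S] (T : Submodule ℤ S) (i j : ℕ) {x y : S} (hx : x ∈ FZN_V T i)
    (hy : y ∈ FZN_V T j) : x * y ∈ FZN_V T (i + j) := by
  have h1 : FZN_V T i * FZN_V T j ≤ FZN_V T (i + j) := by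
    unfold FZN_V
    rw [Submodule.iSup_mul]
    refine iSup_le fun a => ?_
    rw [Submodule.mul_iSup]
    refine iSup_le fun b => ?_
    rw [← pow_add]
    have e : i + a + (j + b) = i + j + (a + b) := by ring
    rw [e]
    exact le_iSup (fun c => T ^ (i + j + c)) (a + b)
  exact h1 (Submodule.mul_mem_mul hx hy)

lemma FZN_one {S : Type u} [Ring S] (T : Submodule ℤ S) : (1 : S) ∈ FZN_V T 0 := by
  have h1 : T ^ (0 + 0) ≤ FZN_V T 0 := le_iSup (fun c => T ^ (0 + c)) 0
  apply h1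
  rw [pow_zero]
  exact Submodule.one_le.1 le_rfl

lemma FZN_closure {S : Type u} [Ring S] (Λ : Set S) {x : S} (hx : x ∈ Subring.closure Λ) :
    x ∈ FZN_V (Submodule.span ℤ Λ) 0 := by
  induction hx using Subring.closure_induction with
  | mem x hx =>
    have h1 : (Submodule.span ℤ Λ) ^ (0 + 1) ≤ FZN_V (Submodule.span ℤ Λ) 0 :=
      le_iSup (fun c => (Submodule.span ℤ Λ) ^ (0 + c)) 1
    apply h1
    rw [zero_add, pow_one]
    exact Submodule.subset_span hx
  | zero => exact Submodule.zero_mem _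
  | one => exact FZN_one _
  | add x y _ _ hx hy => exact Submodule.add_mem _ hx hy
  | neg x _ hx => exact Submodule.neg_mem _ hx
  | mul x y _ _ hx hy => exact FZN_mul _ 0 0 hx hy

lemma FZN_list {S : Type u} [Ring S] (Λ : Set S) {w : S}
    (hw : w ∈ FZN_V (Submodule.span ℤ Λ) 1) (l : List S) (hl : ∀ b ∈ l, b ∈ Subring.closure Λ) :
    (l.map (· * w)).prod ∈ FZN_V (Submodule.span ℤ Λ) l.length := by
  induction l with
  | nil => exact FZN_one _
  | cons b l ih =>
    rw [List.map_cons, List.prod_cons, List.length_cons, add_comm]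
    refine FZN_mul _ 1 _ ?_ (ih fun c hc => hl c (List.mem_cons_of_mem _ hc))
    have h1 := FZN_mul _ 0 1 (FZN_closure Λ (hl b List.mem_cons_self)) hw
    rw [zero_add] at h1
    exact h1

theorem p_FZN : Stmt_FZN.{u} := by
  intro S _ Λ n hT z hz k hk
  have hw : z ^ k ∈ FZN_V (Submodule.span ℤ Λ) 1 := by
    have h1 : (Submodule.span ℤ Λ) ^ (1 + (k - 1)) ≤ FZN_V (Submodule.span ℤ Λ) 1 :=
      le_iSup (fun c => (Submodule.span ℤ Λ) ^ (1 + c)) (k - 1)
    apply h1
    rw [Nat.add_sub_cancel' hk]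
    exact Submodule.pow_mem_pow _ (Submodule.subset_span hz) k
  have hV : FZN_V (Submodule.span ℤ Λ) n = ⊥ := by
    unfold FZN_V
    rw [iSup_eq_bot]
    intro i
    rw [pow_add, hT, Submodule.bot_mul]
  rw [FZ, AddSubgroup.closure_eq_bot_iff]
  rintro x ⟨l, hl, hlE, a, ha, rfl⟩
  have h1 := FZN_mul _ _ 0 (FZN_list Λ hw l hlE) (FZN_closure Λ ha)
  rw [hl, add_zero, hV, Submodule.mem_bot] at h1
  exact h1

end Pool.EN
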