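import Pool.Agent.Work.MP_3617d5_en.Defs

/-!
# Block FZP
-/

set_option autoImplicit false

universe u

namespace Pool.EN

open Pool.NR

/-- a generator of `FZ` -/
theorem FZP_gen {S : Type u} [Ring S] {E : Subring S} {w : S} (l : List S)
    (hl : ∀ b ∈ l, b ∈ E) {a : S} (ha : a ∈ E) : (l.map (· * w)).prod * a ∈ FZ E w l.length :=
  AddSubgroup.subset_closure ⟨l, rfl, hl, a, ha, rfl⟩

theorem FZP_gen' {S : Type u} [Ring S] {E : Subring S} {w : S} {j : ℕ} (l : List S)
    (hj : l.length = j) (hl : ∀ b ∈ l, b ∈ E) {a : S} (ha : a ∈ E) :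
    (l.map (· * w)).prod * a ∈ FZ E w j := by
  subst hj
  exact FZP_gen l hl ha

/-- induction for `FZ` -/
theorem FZP_le {S : Type u} [Ring S] {E : Subring S} {w : S} {j : ℕ} {I : AddSubgroup S}
    (h : ∀ l : List S, l.length = j → (∀ b ∈ l, b ∈ E) → ∀ a ∈ E,
      (l.map (· * w)).prod * a ∈ I) : FZ E w j ≤ I := by
  rw [FZ, AddSubgroup.closure_le]
  rintro x ⟨l, h1, h2, a, ha, rfl⟩
  exact h l h1 h2 a ha

theorem FZP_mul {S : Type u} [Ring S] {E : Subring S} {w : S} {i j : ℕ} {x y : S}
    (hx : x ∈ FZ E w i) (hy : y ∈ FZ E w j) : x * y ∈ FZ E w (i + j) := by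
  have h1 : ∀ l : List S, l.length = i → (∀ b ∈ l, b ∈ E) → ∀ a ∈ E, ∀ l' : List S,
      l'.length = j → (∀ b ∈ l', b ∈ E) → ∀ a' ∈ E,
      (l.map (· * w)).prod * a * ((l'.map (· * w)).prod * a') ∈ FZ E w (i + j) := by
    intro l hl hlE a ha l' hl' hlE' a' ha'
    cases l' with
    | nil =>
      rw [List.map_nil, List.prod_nil, one_mul, mul_assoc]
      refine FZP_gen' l ?_ hlE (E.mul_mem ha ha')
      rw [List.length_nil] at hl'
      omega
    | cons b t =>
      have e : (l.map (· * w)).prod * a * (((b :: t).map (· * w)).prod * a') =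
          ((l ++ (a * b) :: t).map (· * w)).prod * a' := by
        simp only [List.map_append, List.map_cons, List.prod_append, List.prod_cons, mul_assoc]
      rw [e]
      refine FZP_gen' _ ?_ ?_ ha'
      · rw [List.length_append, List.length_cons, hl]
        rw [List.length_cons] at hl'
        omega
      · intro c hc
        rw [List.mem_append, List.mem_cons] at hc
        rcases hc with hc | rfl | hc
        · exact hlE c hc
        · exact E.mul_mem ha (hlE' b (List.mem_cons_self))
        · exact hlE' c (List.mem_cons_of_mem _ hc)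
  have h2 : ∀ l : List S, l.length = i → (∀ b ∈ l, b ∈ E) → ∀ a ∈ E, ∀ y ∈ FZ E w j,
      (l.map (· * w)).prod * a * y ∈ FZ E w (i + j) := by
    intro l hl hlE a ha y hy
    have h3 : FZ E w j ≤ (FZ E w (i + j)).comap
        (AddMonoidHom.mulLeft ((l.map (· * w)).prod * a)) :=
      FZP_le (fun l' hl' hlE' a' ha' => h1 l hl hlE a ha l' hl' hlE' a' ha')
    exact h3 hy
  have h3 : FZ E w i ≤ (FZ E w (i + j)).comap (AddMonoidHom.mulRight y) :=
    FZP_le (fun l hl hlE a ha => h2 l hl hlE a ha y hy)
  exact h3 hx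

theorem FZP_anti {S : Type u} [Ring S] {E : Subring S} {w : S} (hw : w ∈ E) (i : ℕ) :
    FZ E w (i + 1) ≤ FZ E w i := by
  refine FZP_le (fun l hl hlE a ha => ?_)
  rcases List.eq_nil_or_concat l with rfl | ⟨t, b, rfl⟩
  · simp at hl
  · have e : (((t.concat b).map (· * w)).prod * a) = (t.map (· * w)).prod * (b * w * a) := by
      simp only [List.concat_eq_append, List.map_append, List.map_cons, List.map_nil,
        List.prod_append, List.prod_cons, List.prod_nil, mul_one, mul_assoc]
    rw [e]
    rw [List.concat_eq_append, List.length_append, List.length_singleton] at hl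
    refine FZP_gen' t (by omega) (fun c hc => hlE c ?_) (E.mul_mem (E.mul_mem (hlE b ?_) hw) ha)
    · rw [List.concat_eq_append, List.mem_append]
      exact Or.inl hc
    · rw [List.concat_eq_append, List.mem_append]
      exact Or.inr (List.mem_singleton.2 rfl)

theorem p_FZP : Stmt_FZP.{u} := by
  intro S _ E w hw
  refine ⟨fun x => ⟨fun hx => ?_, fun hx => ?_⟩, fun i j x hx y hy => FZP_mul hx hy,
    FZP_anti hw, ?_, fun I hI hwI => ?_⟩
  · have h : FZ E w 0 ≤ E.toAddSubgroup := by
      refine FZP_le (fun l hl _ a ha => ?_)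
      rw [List.length_eq_zero_iff] at hl
      subst hl
      rw [List.map_nil, List.prod_nil, one_mul]
      exact ha
    exact h hx
  · have h := FZP_gen' (E := E) (w := w) (j := 0) [] rfl (fun b hb => by simp at hb) hx
    rw [List.map_nil, List.prod_nil, one_mul] at h
    exact h
  · have h := FZP_gen' (E := E) (w := w) (j := 1) [1] rfl
      (fun b hb => by rw [List.mem_singleton.1 hb]; exact E.one_mem) E.one_mem
    rw [List.map_cons, List.map_nil, List.prod_cons, List.prod_nil, one_mul, mul_one,
      mul_one] at h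
    exact h
  · refine FZP_le (fun l hl _ a _ => ?_)
    obtain ⟨b, rfl⟩ := List.length_eq_one_iff.1 hl
    rw [List.map_cons, List.map_nil, List.prod_cons, List.prod_nil, mul_one]
    exact hI.right a _ (hI.left b w hwI)

end Pool.EN
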