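import Pool.Agent.Work.MP_3617d5_en.Defs

/-!
# Block G2
-/

set_option autoImplicit false

universe u

namespace Pool.EN

open Pool.NR

section
variable {S : Type u} [Ring S]

theorem G2_anti {F : ℕ → AddSubgroup S} (hF : Fil F) {i j : ℕ} (h : i ≤ j) : F j ≤ F i := by
  induction h with
  | refl => exact le_rfl
  | step _ ih => exact (hF.anti _).trans ih

/-- the commutator of two units -/
theorem G2_com (u g : Sˣ) : ((u⁻¹ * g⁻¹ * u * g : Sˣ) : S) - 1 =
    ((u⁻¹ : Sˣ) : S) * (((g⁻¹ : Sˣ) : S) * ((u : S) * (g : S) - (g : S) * (u : S))) := by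
  have e1 : (g * u) * (u⁻¹ * g⁻¹ * u * g) = u * g := by group
  have e2 : ((g * u : Sˣ) : S) * ((u⁻¹ * g⁻¹ * u * g : Sˣ) : S) = (u : S) * (g : S) := by
    rw [← Units.val_mul, e1, Units.val_mul]
  apply (Units.mul_right_inj (g * u)).1
  rw [mul_sub, e2, mul_one, Units.val_mul]
  calc (u : S) * (g : S) - (g : S) * (u : S)
      = (g : S) * (((g⁻¹ : Sˣ) : S) * ((u : S) * (g : S) - (g : S) * (u : S))) := by
        rw [← mul_assoc, Units.mul_inv, one_mul]
    _ = (g : S) * ((u : S) * (((u⁻¹ : Sˣ) : S) *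
          (((g⁻¹ : Sˣ) : S) * ((u : S) * (g : S) - (g : S) * (u : S))))) := by
        rw [← mul_assoc (u : S), Units.mul_inv, one_mul]
    _ = _ := by rw [mul_assoc]

end

theorem p_G2 (hINV : Stmt_INV.{u}) : Stmt_G2.{u} := by
  intro S _ m F P z g hL j hj a ha
  have hF := hL.fil
  have hzz : z * z = 0 := by
    have := hL.zn
    rwa [pow_succ, pow_one] at this
  have hz1 : z ∈ F 1 := by
    have := hL.w1
    rwa [pow_one] at this
  have hgiP : g⁻¹ ∈ P := P.inv_mem hL.gP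
  have hgi : ((g⁻¹ : Sˣ) : S) = 1 - z := by
    apply Units.inv_eq_of_mul_eq_one_right
    rw [hL.gz]
    calc (1 + z) * (1 - z) = 1 - z * z := by noncomm_ring
      _ = 1 := by rw [hzz, sub_zero]
  have haz : a * z ∈ F (j + 1) := hF.mul j 1 _ ha _ hz1
  have hza : z * a ∈ F (1 + j) := hF.mul 1 j _ hz1 _ ha
  have hzaz : z * a * z ∈ F (1 + j + 1) := hF.mul (1 + j) 1 _ hza _ hz1
  refine ⟨?_, ?_⟩
  · obtain ⟨u, hu⟩ := (hINV S F hF (1 + j) (by omega)).1 _ hza
    have huj : (u : S) - 1 ∈ F (1 + j) := by rw [hu, add_sub_cancel_left]; exact hza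
    have hu1 : (u : S) - 1 ∈ F 1 := G2_anti hF (by omega) huj
    have hui : ((u⁻¹ : Sˣ) : S) - 1 ∈ F (1 + j) := (hINV S F hF (1 + j) (by omega)).2 u huj
    refine ⟨u⁻¹ * g⁻¹ * u * g, P.mul_mem (hL.nrm _ hgiP u hu1) hL.gP, ?_⟩
    have h1 : ((g⁻¹ : Sˣ) : S) * ((u : S) * (g : S) - (g : S) * (u : S)) = z * a * z := by
      rw [hgi, hu, hL.gz]
      calc (1 - z) * ((1 + z * a) * (1 + z) - (1 + z) * (1 + z * a))
          = z * a * z - (z * z) * a - (z * z) * a * z + z * (z * z) * a := by noncomm_ring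
        _ = z * a * z := by rw [hzz]; simp
    rw [G2_com, h1]
    have h2 : ((u⁻¹ : Sˣ) : S) * (z * a * z) - z * a * z
        = (((u⁻¹ : Sˣ) : S) - 1) * (z * a * z) := by rw [sub_mul, one_mul]
    rw [h2]
    have h3 := hF.mul _ _ _ hui _ hzaz
    have e : 1 + j + (1 + j + 1) = 2 * j + 3 := by omega
    rwa [e] at h3
  · obtain ⟨u, hu⟩ := (hINV S F hF j hj).1 _ ha
    have huj : (u : S) - 1 ∈ F j := by rw [hu, add_sub_cancel_left]; exact ha
    have hu1 : (u : S) - 1 ∈ F 1 := G2_anti hF hj huj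
    have hui : ((u⁻¹ : Sˣ) : S) - 1 ∈ F j := (hINV S F hF j hj).2 u huj
    refine ⟨u⁻¹ * g⁻¹ * u * g, P.mul_mem (hL.nrm _ hgiP u hu1) hL.gP, ?_⟩
    have h1 : ((g⁻¹ : Sˣ) : S) * ((u : S) * (g : S) - (g : S) * (u : S))
        = a * z - z * a - z * a * z := by
      rw [hgi, hu, hL.gz]
      calc (1 - z) * ((1 + a) * (1 + z) - (1 + z) * (1 + a))
          = a * z - z * a - z * a * z + (z * z) * a := by noncomm_ring
        _ = a * z - z * a - z * a * z := by rw [hzz]; simp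
    rw [G2_com, h1]
    have h2 : ((u⁻¹ : Sˣ) : S) * (a * z - z * a - z * a * z) - (a * z - z * a - z * a * z)
        = (((u⁻¹ : Sˣ) : S) - 1) * (a * z - z * a - z * a * z) := by
      rw [sub_mul (((u⁻¹ : Sˣ) : S)), one_mul]
    rw [h2]
    have hY : a * z - z * a - z * a * z ∈ F (j + 1) := by
      refine (F _).sub_mem ((F _).sub_mem haz (G2_anti hF (by omega) hza)) ?_
      exact G2_anti hF (by omega) hzaz
    have h3 := hF.mul _ _ _ hui _ hY
    have e : j + (j + 1) = 2 * j + 1 := by omega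
    rwa [e] at h3

end Pool.EN
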