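import Pool.Agent.Work.MP_3617d5_en.Defs

/-!
# Block GAI
-/

set_option autoImplicit false

universe u

namespace Pool.EN

open Pool.NR

theorem GAI_shift {S : Type u} [Ring S] (w : S) (t : List S) : ∀ a : S,
    (a * w) * (t.map (· * w)).prod = a * ((t.map (w * ·)).prod * w) := by
  induction t with
  | nil => intro a; simp
  | cons d t' ih =>
    intro a
    rw [List.map_cons, List.prod_cons, List.map_cons, List.prod_cons, ih d]
    simp only [mul_assoc]

theorem GAI_block {S : Type u} [Ring S] (w : S) (t : List S) (c : S) :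
    ((t ++ [c]).map (w * ·)).prod = w * ((t.map (· * w)).prod * c) := by
  induction t with
  | nil => simp
  | cons d t' ih =>
    rw [List.cons_append, List.map_cons, List.prod_cons, ih, List.map_cons, List.prod_cons]
    simp only [mul_assoc]

theorem GAI_group {S : Type u} [Ring S] {E : Subring S} {w : S} (k0 : ℕ) : ∀ (L : ℕ)
    (l : List S), l.length = L * (k0 + 1) → (∀ b ∈ l, b ∈ E) → ∃ l' : List S, l'.length = L ∧
      (∀ b ∈ l', b ∈ FZ E w k0) ∧ (l.map (w * ·)).prod = (l'.map (w * ·)).prod := by
  intro L
  induction L with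
  | zero =>
    intro l hl _
    rw [Nat.zero_mul, List.length_eq_zero_iff] at hl
    subst hl
    exact ⟨[], rfl, fun b hb => by simp at hb, rfl⟩
  | succ L ih =>
    intro l hl hlE
    have h1 : (l.take (k0 + 1)).length = k0 + 1 := by
      rw [List.length_take, hl]
      refine Nat.min_eq_left ?_
      nlinarith
    have h2 : (l.drop (k0 + 1)).length = L * (k0 + 1) := by
      rw [List.length_drop, hl]
      have : (L + 1) * (k0 + 1) = L * (k0 + 1) + (k0 + 1) := by ring
      omega
    obtain ⟨l', h3, h4, h5⟩ := ih (l.drop (k0 + 1)) h2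
      (fun b hb => hlE b (List.mem_of_mem_drop hb))
    rcases List.eq_nil_or_concat (l.take (k0 + 1)) with h6 | ⟨t, c, h6⟩
    · rw [h6] at h1; simp at h1
    · rw [List.concat_eq_append] at h6
      have h7 : t.length = k0 := by
        rw [h6, List.length_append, List.length_singleton] at h1
        omega
      have h8 : ∀ b ∈ t ++ [c], b ∈ E := fun b hb =>
        hlE b (List.mem_of_mem_take (h6 ▸ hb))
      refine ⟨((t.map (· * w)).prod * c) :: l', by rw [List.length_cons, h3], ?_, ?_⟩
      · intro b hb
        rw [List.mem_cons] at hb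
        rcases hb with rfl | hb
        · exact AddSubgroup.subset_closure ⟨t, h7, fun b hb => h8 b (List.mem_append_left _ hb),
            c, h8 c (List.mem_append_right _ (List.mem_singleton.2 rfl)), rfl⟩
        · exact h4 b hb
      · rw [← List.take_append_drop (k0 + 1) l, List.map_append, List.prod_append, h6, GAI_block,
          h5, List.map_cons, List.prod_cons]

theorem p_GAI (hFZP : Stmt_FZP.{u}) : Stmt_GAI.{u} := by
  intro S _ E w hw L k0 N hN hL
  obtain ⟨p0, pm, pa, -, -⟩ := hFZP S E w hw
  have hle : ∀ {j : ℕ} {I : AddSubgroup S}, (∀ l : List S, l.length = j →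
      (∀ b ∈ l, b ∈ E) → ∀ a ∈ E, (l.map (· * w)).prod * a ∈ I) → FZ E w j ≤ I := by
    intro j I h
    rw [FZ, AddSubgroup.closure_le]
    rintro x ⟨l, h1, h2, a, ha, rfl⟩
    exact h l h1 h2 a ha
  obtain ⟨D, hD⟩ : ∃ D, D = L * (k0 + 1) + 1 := ⟨_, rfl⟩
  rw [← hD]
  have h1 : FZ E w D ≤ FZ E w (D + 1) := by
    refine hle (fun l hl hlE a ha => ?_)
    cases l with
    | nil => rw [List.length_nil] at hl; omega
    | cons c t =>
      rw [List.length_cons] at hl
      obtain ⟨l', h3, h4, h5⟩ := GAI_group (w := w) k0 L t (by omega)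
        (fun b hb => hlE b (List.mem_cons_of_mem _ hb))
      have h6 := hL l' h3 h4
      rw [← h5] at h6
      rw [List.map_cons, List.prod_cons, GAI_shift]
      have h7 := pm 0 _ c ((p0 c).2 (hlE c List.mem_cons_self)) _ h6
      have h8 := pm _ 0 _ h7 a ((p0 a).2 ha)
      have e : 0 + (L * (k0 + 1) + 2) + 0 = D + 1 := by omega
      rw [e] at h8
      exact h8
  have h2 : ∀ j, FZ E w (D + j) ≤ FZ E w (D + j + 1) := by
    intro j
    refine hle (fun l hl hlE a ha => ?_)
    have e : (l.map (· * w)).prod * a = (((l.take D).map (· * w)).prod * 1) *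
        (((l.drop D).map (· * w)).prod * a) := by
      rw [mul_one, ← mul_assoc, ← List.prod_append, ← List.map_append, List.take_append_drop]
    rw [e]
    have h3 : ((l.take D).map (· * w)).prod * 1 ∈ FZ E w D :=
      AddSubgroup.subset_closure ⟨l.take D, by rw [List.length_take]; omega,
        fun b hb => hlE b (List.mem_of_mem_take hb), 1, E.one_mem, rfl⟩
    have h4 : ((l.drop D).map (· * w)).prod * a ∈ FZ E w j :=
      AddSubgroup.subset_closure ⟨l.drop D, by rw [List.length_drop]; omega,
        fun b hb => hlE b (List.mem_of_mem_drop hb), a, ha, rfl⟩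
    have h5 := pm _ _ _ (h1 h3) _ h4
    have e2 : D + 1 + j = D + j + 1 := by omega
    rw [e2] at h5
    exact h5
  have h3 : ∀ j, FZ E w D ≤ FZ E w (D + j) := by
    intro j
    induction j with
    | zero => exact le_rfl
    | succ j ih => exact ih.trans (h2 j)
  have h4 : ∀ i j, FZ E w (i + j) ≤ FZ E w i := by
    intro i j
    induction j with
    | zero => exact le_rfl
    | succ j ih => exact (pa (i + j)).trans ih
  have h5 : FZ E w D ≤ FZ E w N := by
    refine (h3 N).trans ?_
    rw [add_comm]
    exact h4 N D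
  rw [hN] at h5
  exact le_bot_iff.1 h5

end Pool.EN
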