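import Pool.Agent.Work.MP_3617d5_en.Defs

/-! # THEOREM EN, block HOM: Nagata-Higman in the polynomial ring -/

set_option autoImplicit false

open Nat

universe u

namespace Pool.EN

open Pool.NR

section
variable {S : Type u} [Ring S]

theorem HOM_anti {F : ℕ → AddSubgroup S} (hF : Fil F) {i j : ℕ} (h : i ≤ j) : F j ≤ F i := by
  induction h with
  | refl => exact le_refl _
  | step _ ih => exact (hF.anti _).trans ih

/-- The polynomials whose coefficients are `w * a`. -/
def HOM_B (F : ℕ → AddSubgroup S) (w : S) (k0 : ℕ) : AddSubgroup (Polynomial S) where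
  carrier := {f | ∀ j, ∃ a ∈ F (j - 1), f.coeff j = w * a ∧ (j < k0 + 1 → a = 0)}
  add_mem' := by
    intro f g hf hg j
    obtain ⟨a, ha, h1, h2⟩ := hf j
    obtain ⟨b, hb, h3, h4⟩ := hg j
    exact ⟨a + b, add_mem ha hb, by rw [Polynomial.coeff_add, h1, h3, mul_add],
      fun h => by rw [h2 h, h4 h, add_zero]⟩
  zero_mem' := fun j => ⟨0, zero_mem _, by simp, fun _ => rfl⟩
  neg_mem' := by
    intro f hf j
    obtain ⟨a, ha, h1, h2⟩ := hf j
    exact ⟨-a, neg_mem ha, by rw [Polynomial.coeff_neg, h1, mul_neg],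
      fun h => by rw [h2 h, neg_zero]⟩

/-- The polynomials whose coefficients have high degree after multiplication by `w`. -/
def HOM_T (F : ℕ → AddSubgroup S) (w : S) : AddSubgroup (Polynomial S) where
  carrier := {f | ∀ j, f.coeff j * w ∈ F (j + 2)}
  add_mem' := by
    intro f g hf hg j
    rw [Polynomial.coeff_add, add_mul]
    exact add_mem (hf j) (hg j)
  zero_mem' := fun j => by
    rw [Polynomial.coeff_zero, zero_mul]
    exact zero_mem _
  neg_mem' := by
    intro f hf j
    rw [Polynomial.coeff_neg, neg_mul]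
    exact neg_mem (hf j)

theorem HOM_BB {F : ℕ → AddSubgroup S} (hF : Fil F) {w : S} (hw : w ∈ F 1) (k0 : ℕ)
    {f g : Polynomial S} (hf : f ∈ HOM_B F w k0) (hg : g ∈ HOM_B F w k0) :
    f * g ∈ HOM_B F w k0 := by
  intro J
  have hf' : ∀ j, ∃ a ∈ F (j - 1), f.coeff j = w * a ∧ (j < k0 + 1 → a = 0) := hf
  have hg' : ∀ j, ∃ a ∈ F (j - 1), g.coeff j = w * a ∧ (j < k0 + 1 → a = 0) := hg
  choose a ha ha1 ha2 using hf'
  choose b hb hb1 hb2 using hg'
  refine ⟨∑ x ∈ Finset.HasAntidiagonal.antidiagonal J, a x.1 * (w * b x.2), ?_, ?_, ?_⟩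
  · refine sum_mem fun x hx => ?_
    rw [Finset.HasAntidiagonal.mem_antidiagonal] at hx
    by_cases h1 : x.1 < k0 + 1
    · rw [ha2 _ h1, zero_mul]; exact zero_mem _
    by_cases h2 : x.2 < k0 + 1
    · rw [hb2 _ h2, mul_zero, mul_zero]; exact zero_mem _
    have h3 := hF.mul _ _ _ (ha x.1) _ (hF.mul _ _ _ hw _ (hb x.2))
    have h4 : x.1 - 1 + (1 + (x.2 - 1)) = J - 1 := by omega
    rwa [h4] at h3
  · rw [Polynomial.coeff_mul, Finset.mul_sum]
    refine Finset.sum_congr rfl fun x _ => ?_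
    rw [ha1, hb1, mul_assoc]
  · intro hJ
    refine Finset.sum_eq_zero fun x hx => ?_
    rw [Finset.HasAntidiagonal.mem_antidiagonal] at hx
    rw [ha2 _ (by omega), zero_mul]

theorem HOM_BT {F : ℕ → AddSubgroup S} (hF : Fil F) {w : S} (hw : w ∈ F 1) (k0 : ℕ)
    {f g : Polynomial S} (hf : f ∈ HOM_B F w k0) (hg : g ∈ HOM_T F w) :
    f * g ∈ HOM_T F w ∧ g * f ∈ HOM_T F w := by
  have hf' : ∀ j, ∃ a ∈ F (j - 1), f.coeff j = w * a ∧ (j < k0 + 1 → a = 0) := hf
  have hg' : ∀ j, g.coeff j * w ∈ F (j + 2) := hg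
  choose a ha ha1 ha2 using hf'
  constructor
  · intro J
    rw [Polynomial.coeff_mul, Finset.sum_mul]
    refine sum_mem fun x hx => ?_
    rw [Finset.HasAntidiagonal.mem_antidiagonal] at hx
    rw [ha1]
    by_cases h1 : x.1 < k0 + 1
    · rw [ha2 _ h1, mul_zero, zero_mul, zero_mul]; exact zero_mem _
    have h3 := hF.mul _ _ _ hw _ (hF.mul _ _ _ (ha x.1) _ (hg' x.2))
    have h4 : 1 + (x.1 - 1 + (x.2 + 2)) = J + 2 := by omega
    rw [h4] at h3
    have h5 : w * a x.1 * g.coeff x.2 * w = w * (a x.1 * (g.coeff x.2 * w)) := by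
      simp only [mul_assoc]
    rw [h5]
    exact h3
  · intro J
    rw [Polynomial.coeff_mul, Finset.sum_mul]
    refine sum_mem fun x hx => ?_
    rw [Finset.HasAntidiagonal.mem_antidiagonal] at hx
    rw [ha1]
    by_cases h1 : x.2 < k0 + 1
    · rw [ha2 _ h1, mul_zero, mul_zero, zero_mul]; exact zero_mem _
    have h3 := hF.mul _ _ _ (hg' x.1) _ (hF.mul _ _ _ (ha x.2) _ hw)
    have h4 : x.1 + 2 + (x.2 - 1 + 1) = J + 2 := by omega
    rw [h4] at h3
    have h5 : g.coeff x.1 * (w * a x.2) * w = g.coeff x.1 * w * (a x.2 * w) := by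
      simp only [mul_assoc]
    rw [h5]
    exact h3

theorem HOM_sat {F : ℕ → AddSubgroup S} {p N : ℕ} (hN : Nat.Coprime N p)
    (htor : ∀ x ∈ F 1, ∃ e : ℕ, p ^ e • x = 0) {x : S} (hx : x ∈ F 1) {j : ℕ}
    (h : N • x ∈ F j) : x ∈ F j := by
  obtain ⟨e, he⟩ := htor x hx
  have hc : IsCoprime (N : ℤ) ((p ^ e : ℕ) : ℤ) := Nat.isCoprime_iff_coprime.2 (hN.pow_right e)
  obtain ⟨u, v, huv⟩ := hc
  have h1 : x = u • (N • x) + v • ((p ^ e) • x) := by
    rw [← natCast_zsmul x N, ← natCast_zsmul x (p ^ e), ← mul_smul, ← mul_smul, ← add_smul, huv,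
      one_smul]
  rw [h1, he, smul_zero, add_zero]
  exact zsmul_mem h u

theorem HOM_w {F : ℕ → AddSubgroup S} (hF : Fil F) {w : S} (hw : w ∈ F 1) (k0 : ℕ)
    {f : Polynomial S} (hf : f ∈ HOM_B F w k0) (j : ℕ) : f.coeff j * w ∈ F 1 := by
  obtain ⟨a, ha, h1, _⟩ := hf j
  rw [h1]
  have h3 := hF.mul _ _ _ (hF.mul _ _ _ hw _ ha) _ hw
  exact HOM_anti hF (by omega) h3

theorem HOM_list (l : List ℕ) (c : ℕ → S) :
    (l.map fun j => Polynomial.monomial j (c j)).prod =
      Polynomial.monomial l.sum (l.map c).prod := by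
  induction l with
  | nil => simp
  | cons a l ih =>
    rw [List.map_cons, List.prod_cons, ih, Polynomial.monomial_mul_monomial, List.map_cons,
      List.prod_cons, List.sum_cons]

theorem HOM_expand (x : Polynomial S) (n : ℕ) (A : Finset ℕ)
    (hx : x = ∑ j ∈ A, Polynomial.monomial j (x.coeff j)) :
    x ^ n = ∑ r ∈ Fintype.piFinset (fun _ : Fin n => A),
      Polynomial.monomial (∑ i, r i) (List.ofFn fun i => x.coeff (r i)).prod := by
  have h1 : x ^ n = MultilinearMap.mkPiAlgebraFin ℤ n (Polynomial S) (fun _ => x) := by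
    rw [MultilinearMap.mkPiAlgebraFin_apply, List.ofFn_const, List.prod_replicate]
  have h2 : (fun _ : Fin n => x) =
      fun _ : Fin n => ∑ j ∈ A, Polynomial.monomial j (x.coeff j) := by
    funext _
    exact hx
  rw [h1, h2, MultilinearMap.map_sum_finset]
  refine Finset.sum_congr rfl fun r _ => ?_
  rw [MultilinearMap.mkPiAlgebraFin_apply]
  have h3 := HOM_list (List.ofFn r) (fun j => x.coeff j)
  rw [List.map_ofFn, List.map_ofFn, List.sum_ofFn] at h3
  exact h3

theorem HOM_sym (x : Polynomial S) (n : ℕ) (A : Finset ℕ) (w : S) (a : ℕ → S)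
    (hx : x = ∑ j ∈ A, Polynomial.monomial j (x.coeff j)) (ha : ∀ j, x.coeff j = w * a j)
    (J : ℕ) : n ! • ((x ^ n).coeff J * w) =
      ∑ r ∈ (Fintype.piFinset (fun _ : Fin n => A)).filter (fun r => ∑ i, r i = J),
        sy w (fun i => a (r i)) := by
  have h1 : (x ^ n).coeff J * w =
      ∑ r ∈ (Fintype.piFinset (fun _ : Fin n => A)).filter (fun r => ∑ i, r i = J),
        (List.ofFn fun i => w * a (r i)).prod * w := by
    rw [HOM_expand x n A hx, Polynomial.finsetSum_coeff, Finset.sum_mul, Finset.sum_filter]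
    refine Finset.sum_congr rfl fun r _ => ?_
    rw [Polynomial.coeff_monomial]
    by_cases h : ∑ i, r i = J
    · rw [if_pos h, if_pos h]
      simp only [ha]
    · rw [if_neg h, if_neg h, zero_mul]
  have h2 : ∀ τ : Equiv.Perm (Fin n), (x ^ n).coeff J * w =
      ∑ r ∈ (Fintype.piFinset (fun _ : Fin n => A)).filter (fun r => ∑ i, r i = J),
        (List.ofFn fun i => w * a (r (τ i))).prod * w := by
    intro τ
    rw [h1]
    refine Finset.sum_nbij' (fun r => fun i => r (τ.symm i)) (fun r => fun i => r (τ i))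
      ?_ ?_ ?_ ?_ ?_
    · intro r hr
      rw [Finset.mem_filter, Fintype.mem_piFinset] at hr ⊢
      exact ⟨fun i => hr.1 _, by rw [Equiv.sum_comp τ.symm r]; exact hr.2⟩
    · intro r hr
      rw [Finset.mem_filter, Fintype.mem_piFinset] at hr ⊢
      exact ⟨fun i => hr.1 _, by rw [Equiv.sum_comp τ r]; exact hr.2⟩
    · intro r _
      funext i
      simp
    · intro r _
      funext i
      simp
    · intro r _
      simp
  have h3 : n ! • ((x ^ n).coeff J * w) =
      ∑ _τ : Equiv.Perm (Fin n), (x ^ n).coeff J * w := by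
    rw [Finset.sum_const, Finset.card_univ, Fintype.card_perm, Fintype.card_fin]
  rw [h3, Finset.sum_congr rfl (fun τ _ => h2 τ), Finset.sum_comm]
  rfl

end

theorem p_HOM (hNHT : Stmt_NHT.{u}) : Stmt_HOM.{u} := by
  intro S _ F hF w p n k0 hw hp hp2 hn hnp htor hsym l hl hlF
  have hcop : ∀ N : ℕ, N ∣ n ! * 2 ^ (n - 1) → Nat.Coprime N p := by
    intro N hN
    have h1 : Nat.Coprime (n ! * 2 ^ (n - 1)) p := by
      apply Nat.Coprime.mul_left
      · exact ((Nat.Prime.coprime_iff_not_dvd hp).2 fun h => absurd ((Nat.Prime.dvd_factorial hp).1 h)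
          (by omega)).symm
      · exact (Nat.coprime_primes Nat.prime_two hp |>.2 (by omega)).pow_left _
    exact Nat.Coprime.coprime_dvd_left hN h1
  have hpowB : ∀ x ∈ HOM_B F w k0, ∀ m : ℕ, x ^ (m + 1) ∈ HOM_B F w k0 := by
    intro x hx m
    induction m with
    | zero => simpa using hx
    | succ m ih =>
      rw [_root_.pow_succ]
      exact HOM_BB hF hw k0 ih hx
  have key : ∀ x ∈ HOM_B F w k0, x ^ n ∈ HOM_T F w := by
    intro x hx J
    have hx' : ∀ j, ∃ a ∈ F (j - 1), x.coeff j = w * a ∧ (j < k0 + 1 → a = 0) := hx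
    choose a ha ha1 ha2 using hx'
    set A : Finset ℕ := (Finset.range (x.natDegree + 1)).filter (fun j => k0 + 1 ≤ j) with hA
    have hxA : x = ∑ j ∈ A, Polynomial.monomial j (x.coeff j) := by
      conv_lhs => rw [x.as_sum_range]
      rw [hA, Finset.sum_filter]
      refine Finset.sum_congr rfl fun j _ => ?_
      by_cases h : k0 + 1 ≤ j
      · rw [if_pos h]
      · rw [if_neg h, ha1, ha2 j (by omega), mul_zero, map_zero]
    have h1 : (x ^ n).coeff J * w ∈ F 1 := by
      obtain ⟨m, rfl⟩ : ∃ m, n = m + 1 := ⟨n - 1, by omega⟩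
      exact HOM_w hF hw k0 (hpowB x hx m) J
    refine HOM_sat (hcop _ (dvd_refl _)) htor h1 ?_
    rw [mul_comm, mul_smul, HOM_sym x n A w a hxA ha1 J, Finset.smul_sum]
    refine sum_mem fun r hr => ?_
    rw [Finset.mem_filter, Fintype.mem_piFinset] at hr
    have hr1 : ∀ i, k0 + 1 ≤ r i := fun i => by
      have := hr.1 i
      rw [hA, Finset.mem_filter] at this
      exact this.2
    have h2 := hsym (fun i => r i - 1) (fun i => by have := hr1 i; omega) (fun i => a (r i))
      (fun i => ha (r i))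
    have h3 : (∑ i, (r i - 1)) + n = ∑ i, r i := by
      have h4 : ∑ i, r i = ∑ i, ((r i - 1) + 1) :=
        Finset.sum_congr rfl fun i _ => by have := hr1 i; omega
      rw [h4, Finset.sum_add_distrib]
      simp
    rw [h3, hr.2] at h2
    exact h2
  have h1 := hNHT (Polynomial S) (HOM_B F w k0) n hn
    (fun f hf g hg => HOM_BB hF hw k0 hf hg) (HOM_T F w)
    (fun f hf g hg => HOM_BT hF hw k0 hf hg)
    (fun f hf hT j => by
      have h2 := HOM_w hF hw k0 hf j
      refine HOM_sat (hcop (n !) (Dvd.intro _ rfl)) htor h2 ?_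
      have h3 : (n ! • f).coeff j * w ∈ F (j + 2) := hT j
      rwa [Polynomial.coeff_smul, smul_mul_assoc] at h3)
    key (l.map fun b => Polynomial.monomial (k0 + 1) (w * b)) (by rw [List.length_map]; exact hl)
    (by
      intro f hf
      rw [List.mem_map] at hf
      obtain ⟨b, hb, rfl⟩ := hf
      intro j
      by_cases h : j = k0 + 1
      · subst h
        exact ⟨b, by simpa using hlF b hb, by simp, fun h => by omega⟩
      · exact ⟨0, zero_mem _, by
          rw [Polynomial.coeff_monomial, if_neg (fun hh => h hh.symm), mul_zero], fun _ => rfl⟩)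
  have h2 : ∀ l : List S, (l.map fun b => Polynomial.monomial (k0 + 1) (w * b)).prod =
      Polynomial.monomial (l.length * (k0 + 1)) (l.map (w * ·)).prod := by
    intro l
    induction l with
    | nil => simp
    | cons b l ih =>
      rw [List.map_cons, List.prod_cons, ih, Polynomial.monomial_mul_monomial, List.map_cons,
        List.prod_cons, List.length_cons]
      have e : k0 + 1 + l.length * (k0 + 1) = (l.length + 1) * (k0 + 1) := by ring
      rw [e]
  rw [h2 l, hl] at h1
  have h3 := h1 ((2 ^ n - 1) * (k0 + 1))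
  rwa [Polynomial.coeff_monomial, if_pos rfl] at h3

end Pool.EN
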