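import Pool.Agent.Work.MP_3617d5_en.Defs2
import Pool.Agent.Work.MP_3617d5_en.B_HOM

/-! # THEOREM EN, block HOL: Nagata-Higman in the polynomial ring, the case `k ≥ 2` -/

set_option autoImplicit false

open Nat

universe u

namespace Pool.EN

open Pool.NR

section
variable {S : Type u} [Ring S]

/-- The polynomials whose coefficients have high degree after multiplication by `w s w`. -/
def HOL_T (F : ℕ → AddSubgroup S) (w : S) (k0 : ℕ) : AddSubgroup (Polynomial S) where
  carrier := {f | ∀ j : ℕ, ∀ l : ℕ, k0 ≤ l → ∀ s ∈ F l, f.coeff j * (w * s) * w ∈ F (j + l + 3)}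
  add_mem' := by
    intro f g hf hg j l hl s hs
    rw [Polynomial.coeff_add, add_mul, add_mul]
    exact add_mem (hf j l hl s hs) (hg j l hl s hs)
  zero_mem' := fun j l hl s hs => by
    rw [Polynomial.coeff_zero, zero_mul, zero_mul]
    exact zero_mem _
  neg_mem' := by
    intro f hf j l hl s hs
    rw [Polynomial.coeff_neg, neg_mul, neg_mul]
    exact neg_mem (hf j l hl s hs)

theorem HOL_BT {F : ℕ → AddSubgroup S} (hF : Fil F) {w : S} (hw : w ∈ F 1) (k0 : ℕ)
    {f g : Polynomial S} (hf : f ∈ HOM_B F w k0) (hg : g ∈ HOL_T F w k0) :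
    f * g ∈ HOL_T F w k0 ∧ g * f ∈ HOL_T F w k0 := by
  have hf' : ∀ j, ∃ a ∈ F (j - 1), f.coeff j = w * a ∧ (j < k0 + 1 → a = 0) := hf
  have hg' : ∀ j : ℕ, ∀ l : ℕ, k0 ≤ l → ∀ s ∈ F l, g.coeff j * (w * s) * w ∈ F (j + l + 3) := hg
  choose a ha ha1 ha2 using hf'
  constructor
  · intro J l hl s hs
    rw [Polynomial.coeff_mul, Finset.sum_mul, Finset.sum_mul]
    refine sum_mem fun x hx => ?_
    rw [Finset.HasAntidiagonal.mem_antidiagonal] at hx
    rw [ha1]
    by_cases h1 : x.1 < k0 + 1
    · rw [ha2 _ h1, mul_zero, zero_mul, zero_mul, zero_mul]; exact zero_mem _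
    have h3 := hF.mul _ _ _ hw _ (hF.mul _ _ _ (ha x.1) _ (hg' x.2 l hl s hs))
    have h4 : 1 + (x.1 - 1 + (x.2 + l + 3)) = J + l + 3 := by omega
    rw [h4] at h3
    have h5 : w * a x.1 * g.coeff x.2 * (w * s) * w
        = w * (a x.1 * (g.coeff x.2 * (w * s) * w)) := by
      simp only [mul_assoc]
    rw [h5]
    exact h3
  · intro J l hl s hs
    rw [Polynomial.coeff_mul, Finset.sum_mul, Finset.sum_mul]
    refine sum_mem fun x hx => ?_
    rw [Finset.HasAntidiagonal.mem_antidiagonal] at hx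
    rw [ha1]
    by_cases h1 : x.2 < k0 + 1
    · rw [ha2 _ h1, mul_zero, mul_zero, zero_mul, zero_mul]; exact zero_mem _
    have h2 := hF.mul _ _ _ (ha x.2) _ (hF.mul _ _ _ hw _ hs)
    have h3 := hg' x.1 _ (by omega) _ h2
    have h4 : x.1 + (x.2 - 1 + (1 + l)) + 3 = J + l + 3 := by omega
    rw [h4] at h3
    have h5 : g.coeff x.1 * (w * a x.2) * (w * s) * w
        = g.coeff x.1 * (w * (a x.2 * (w * s))) * w := by
      simp only [mul_assoc]
    rw [h5]
    exact h3

theorem HOL_w {F : ℕ → AddSubgroup S} (hF : Fil F) {w : S} (hw : w ∈ F 1) (k0 : ℕ)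
    {f : Polynomial S} (hf : f ∈ HOM_B F w k0) (j l : ℕ) {s : S} (hs : s ∈ F l) :
    f.coeff j * (w * s) * w ∈ F 1 := by
  obtain ⟨a, ha, h1, _⟩ := hf j
  rw [h1]
  have h3 := hF.mul _ _ _ (hF.mul _ _ _ (hF.mul _ _ _ hw _ ha) _ (hF.mul _ _ _ hw _ hs)) _ hw
  exact HOM_anti hF (by omega) h3

theorem HOL_sym (x : Polynomial S) (n : ℕ) (A : Finset ℕ) (w : S) (a : ℕ → S) (v : S)
    (hx : x = ∑ j ∈ A, Polynomial.monomial j (x.coeff j)) (ha : ∀ j, x.coeff j = w * a j)
    (J : ℕ) : n ! • ((x ^ n).coeff J * v) =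
      ∑ r ∈ (Fintype.piFinset (fun _ : Fin n => A)).filter (fun r => ∑ i, r i = J),
        (∑ τ : Equiv.Perm (Fin n), (List.ofFn fun i => w * a (r (τ i))).prod) * v := by
  have h1 : (x ^ n).coeff J * v =
      ∑ r ∈ (Fintype.piFinset (fun _ : Fin n => A)).filter (fun r => ∑ i, r i = J),
        (List.ofFn fun i => w * a (r i)).prod * v := by
    rw [HOM_expand x n A hx, Polynomial.finsetSum_coeff, Finset.sum_mul, Finset.sum_filter]
    refine Finset.sum_congr rfl fun r _ => ?_
    rw [Polynomial.coeff_monomial]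
    by_cases h : ∑ i, r i = J
    · rw [if_pos h, if_pos h]
      simp only [ha]
    · rw [if_neg h, if_neg h, zero_mul]
  have h2 : ∀ τ : Equiv.Perm (Fin n), (x ^ n).coeff J * v =
      ∑ r ∈ (Fintype.piFinset (fun _ : Fin n => A)).filter (fun r => ∑ i, r i = J),
        (List.ofFn fun i => w * a (r (τ i))).prod * v := by
    intro τ
    rw [h1]
    refine Finset.sum_nbij' (fun r => fun i => r (τ.symm i)) (fun r => fun i => r (τ i))
      ?_ ?_ ?_ ?_ ?_
    · intro r hr
      rw [Finset.mem_filter, Fintype.mem_piFinset] at hr ⊢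
      exact ⟨fun i => hr.1 _, by rw [Equiv.sum_comp τ.symm r]; exact hr.2⟩
    · intro r hr
      rw [Finset.mem_filter, Fintype.mem_piFinset] at hr ⊢
      exact ⟨fun i => hr.1 _, by rw [Equiv.sum_comp τ r]; exact hr.2⟩
    · intro r _
      funext i
      simp
    · intro r _
      funext i
      simp
    · intro r _
      simp
  have h3 : n ! • ((x ^ n).coeff J * v) =
      ∑ _τ : Equiv.Perm (Fin n), (x ^ n).coeff J * v := by
    rw [Finset.sum_const, Finset.card_univ, Fintype.card_perm, Fintype.card_fin]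
  rw [h3, Finset.sum_congr rfl (fun τ _ => h2 τ), Finset.sum_comm]
  refine Finset.sum_congr rfl fun r _ => ?_
  rw [Finset.sum_mul]

theorem HOL_prod {F : ℕ → AddSubgroup S} (hF : Fil F) {w : S} (hw : w ∈ F 1) (k0 : ℕ)
    (l : List S) (hl : ∀ b ∈ l, b ∈ F k0) :
    (l.map (w * ·)).prod ∈ F (l.length * (k0 + 1)) := by
  induction l with
  | nil => simpa using hF.one
  | cons b l ih =>
    rw [List.map_cons, List.prod_cons, List.length_cons]
    have h1 := ih fun c hc => hl c (List.mem_cons_of_mem _ hc)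
    have h2 := hF.mul _ _ _ (hF.mul _ _ _ hw _ (hl b List.mem_cons_self)) _ h1
    have e : 1 + k0 + l.length * (k0 + 1) = (l.length + 1) * (k0 + 1) := by ring
    rwa [e] at h2

end

theorem p_HOL (hNHT : Stmt_NHT.{u}) : Stmt_HOL.{u} := by
  intro S _ F hF w p n k0 hw hp hn hnp htor hsym l hl hlF
  have hcop : Nat.Coprime (n !) p :=
    ((Nat.Prime.coprime_iff_not_dvd hp).2 fun h => absurd ((Nat.Prime.dvd_factorial hp).1 h)
          (by omega)).symm
  have hpowB : ∀ x ∈ HOM_B F w k0, ∀ m : ℕ, x ^ (m + 1) ∈ HOM_B F w k0 := by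
    intro x hx m
    induction m with
    | zero => simpa using hx
    | succ m ih =>
      rw [_root_.pow_succ]
      exact HOM_BB hF hw k0 ih hx
  have key : ∀ x ∈ HOM_B F w k0, x ^ n ∈ HOL_T F w k0 := by
    intro x hx J l hl s hs
    have hx' : ∀ j, ∃ a ∈ F (j - 1), x.coeff j = w * a ∧ (j < k0 + 1 → a = 0) := hx
    choose a ha ha1 ha2 using hx'
    set A : Finset ℕ := (Finset.range (x.natDegree + 1)).filter (fun j => k0 + 1 ≤ j) with hA
    have hxA : x = ∑ j ∈ A, Polynomial.monomial j (x.coeff j) := by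
      conv_lhs => rw [x.as_sum_range]
      rw [hA, Finset.sum_filter]
      refine Finset.sum_congr rfl fun j _ => ?_
      by_cases h : k0 + 1 ≤ j
      · rw [if_pos h]
      · rw [if_neg h, ha1, ha2 j (by omega), mul_zero, map_zero]
    have h1 : (x ^ n).coeff J * (w * s) * w ∈ F 1 := by
      obtain ⟨m, rfl⟩ : ∃ m, n = m + 1 := ⟨n - 1, by omega⟩
      exact HOL_w hF hw k0 (hpowB x hx m) J l hs
    refine HOM_sat hcop htor h1 ?_
    rw [mul_assoc, HOL_sym x n A w a (w * s * w) hxA ha1 J]
    refine sum_mem fun r hr => ?_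
    rw [Finset.mem_filter, Fintype.mem_piFinset] at hr
    have hr1 : ∀ i, k0 + 1 ≤ r i := fun i => by
      have := hr.1 i
      rw [hA, Finset.mem_filter] at this
      exact this.2
    have h2 := hsym (fun i => r i - 1) (fun i => by have := hr1 i; omega) (fun i => a (r i))
      (fun i => ha (r i)) l hl s hs
    have h3 : (∑ i, (r i - 1)) + n = ∑ i, r i := by
      have h4 : ∑ i, r i = ∑ i, ((r i - 1) + 1) :=
        Finset.sum_congr rfl fun i _ => by have := hr1 i; omega
      rw [h4, Finset.sum_add_distrib]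
      simp
    have h5 : (∑ i, (r i - 1)) + l + n + 3 = J + l + 3 := by
      rw [← hr.2]
      omega
    rw [h5, mul_assoc] at h2
    exact h2
  -- split the list
  set N := 2 ^ n - 1 with hN
  have hpow : 1 ≤ 2 ^ n := Nat.one_le_two_pow
  have hlen : 2 ^ (n + 1) - 1 = N + 1 + N := by
    rw [_root_.pow_succ]
    omega
  rw [hlen] at hl ⊢
  obtain ⟨l1, l2, hl12, hl1⟩ : ∃ l1 l2 : List S, l = l1 ++ l2 ∧ l1.length = N :=
    ⟨l.take N, l.drop N, (List.take_append_drop N l).symm, by rw [List.length_take]; omega⟩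
  have hl2 : l2.length = N + 1 := by
    have := congrArg List.length hl12
    rw [List.length_append] at this
    omega
  obtain ⟨s, l3, rfl⟩ : ∃ s l3, l2 = s :: l3 := by
    cases l2 with
    | nil => simp at hl2
    | cons s l3 => exact ⟨s, l3, rfl⟩
  have hl3 : l3.length = N := by simpa using hl2
  subst hl12
  have h1 := hNHT (Polynomial S) (HOM_B F w k0) n hn
    (fun f hf g hg => HOM_BB hF hw k0 hf hg) (HOL_T F w k0)
    (fun f hf g hg => HOL_BT hF hw k0 hf hg)
    (fun f hf hT j l hl s hs => by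
      have h2 := HOL_w hF hw k0 hf j l hs
      refine HOM_sat hcop htor h2 ?_
      have h3 : (n ! • f).coeff j * (w * s) * w ∈ F (j + l + 3) := hT j l hl s hs
      rwa [Polynomial.coeff_smul, smul_mul_assoc, smul_mul_assoc] at h3)
    key (l1.map fun b => Polynomial.monomial (k0 + 1) (w * b)) (by rw [List.length_map]; exact hl1)
    (by
      intro f hf
      rw [List.mem_map] at hf
      obtain ⟨b, hb, rfl⟩ := hf
      intro j
      by_cases h : j = k0 + 1
      · subst h
        exact ⟨b, by simpa using hlF b (List.mem_append_left _ hb), by simp, fun h => by omega⟩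
      · exact ⟨0, zero_mem _, by
          rw [Polynomial.coeff_monomial, if_neg (fun hh => h hh.symm), mul_zero], fun _ => rfl⟩)
  have h2 : ∀ l : List S, (l.map fun b => Polynomial.monomial (k0 + 1) (w * b)).prod =
      Polynomial.monomial (l.length * (k0 + 1)) (l.map (w * ·)).prod := by
    intro l
    induction l with
    | nil => simp
    | cons b l ih =>
      rw [List.map_cons, List.prod_cons, ih, Polynomial.monomial_mul_monomial, List.map_cons,
        List.prod_cons, List.length_cons]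
      have e : k0 + 1 + l.length * (k0 + 1) = (l.length + 1) * (k0 + 1) := by ring
      rw [e]
  rw [h2 l1, hl1] at h1
  have hs : s ∈ F k0 := hlF s (List.mem_append_right _ List.mem_cons_self)
  have h3m := HOL_prod hF hw k0 l3
    (fun b hb => hlF b (List.mem_append_right _ (List.mem_cons_of_mem _ hb)))
  have hs' := hF.mul _ _ _ hs _ h3m
  have h3 := h1 (N * (k0 + 1)) _ (Nat.le_add_right _ _) _ hs'
  rw [Polynomial.coeff_monomial, if_pos rfl, hl3] at h3
  have e : N * (k0 + 1) + (k0 + N * (k0 + 1)) + 3 = (N + 1 + N) * (k0 + 1) + 2 := by ring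
  rw [e] at h3
  have e2 : ((l1 ++ s :: l3).map (w * ·)).prod * w
      = (l1.map (w * ·)).prod * (w * (s * (l3.map (w * ·)).prod)) * w := by
    rw [List.map_append, List.prod_append, List.map_cons, List.prod_cons]
    simp only [mul_assoc]
  rw [e2]
  exact h3

end Pool.EN
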