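import Pool.Agent.Work.MP_3617d5_en.Defs2
import Pool.Agent.Work.MP_3617d5_en.B_HOM

/-! # THEOREM EN for all `m < p`, block HOV -/

set_option autoImplicit false

open Nat

universe u

namespace Pool.EN

open Pool.NR

section
variable {S : Type u} [Ring S]

theorem HOV_dist0 {R : Type u} [Ring R] {ι : Type} [Fintype ι] (f : ι → R) (m : ℕ) :
    ∑ r : Fin m → ι, (List.ofFn fun i => f (r i)).prod = (∑ j, f j) ^ m := by
  classical
  have h1 : (∑ j, f j) ^ m = MultilinearMap.mkPiAlgebraFin ℤ m R (fun _ => ∑ j, f j) := by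
    rw [MultilinearMap.mkPiAlgebraFin_apply, List.ofFn_const, List.prod_replicate]
  rw [h1, MultilinearMap.map_sum]
  refine Finset.sum_congr rfl fun r _ => ?_
  rw [MultilinearMap.mkPiAlgebraFin_apply]

theorem HOV_cons {R : Type u} [Ring R] {ι : Type} [Fintype ι] (m : ℕ) (g : (Fin (m + 1) → ι) → R) :
    ∑ r : Fin (m + 1) → ι, g r = ∑ j : ι, ∑ r : Fin m → ι, g (Fin.cons j r) := by
  classical
  rw [← Fintype.sum_prod_type']
  exact (Fintype.sum_equiv (Fin.consEquiv fun _ => ι) _ _ (fun x => rfl)).symm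

theorem HOV_dist {R : Type u} [Ring R] {ι : Type} [Fintype ι] (f : ι → R) (y : R) :
    ∀ m p : ℕ, p ≤ m → ∑ r : Fin m → ι, ((List.ofFn fun i => f (r i)).take p).prod * y *
      ((List.ofFn fun i => f (r i)).drop p).prod = (∑ j, f j) ^ p * y * (∑ j, f j) ^ (m - p) := by
  intro m
  induction m with
  | zero =>
    intro p hp
    obtain rfl : p = 0 := by omega
    simp
  | succ m ih =>
    intro p hp
    cases p with
    | zero =>
      simp only [List.take_zero, List.prod_nil, one_mul, List.drop_zero, pow_zero, Nat.sub_zero]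
      rw [← Finset.mul_sum, HOV_dist0]
    | succ p =>
      rw [HOV_cons]
      have h1 : ∀ (j : ι) (r : Fin m → ι),
          (List.ofFn fun i => f ((Fin.cons j r : Fin (m + 1) → ι) i)) =
            f j :: List.ofFn fun i => f (r i) := by
        intro j r
        rw [List.ofFn_succ]
        simp
      simp only [h1, List.take_succ_cons, List.prod_cons, List.drop_succ_cons]
      have h2 : m + 1 - (p + 1) = m - p := by omega
      rw [h2, _root_.pow_succ', mul_assoc, mul_assoc, ← mul_assoc ((∑ j, f j) ^ p), ← ih p (by omega),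
        Finset.sum_mul]
      refine Finset.sum_congr rfl fun j _ => ?_
      rw [Finset.mul_sum]
      refine Finset.sum_congr rfl fun r _ => ?_
      simp only [mul_assoc]

/-- a word of monomials -/
theorem HOV_word {m : ℕ} (r : Fin m → ℕ) (c d : ℕ → S) (p j0 J : ℕ) :
    ((((List.ofFn fun i => Polynomial.monomial (r i) (c (r i))).take p).prod *
      Polynomial.monomial j0 (d j0) *
      ((List.ofFn fun i => Polynomial.monomial (r i) (c (r i))).drop p).prod).coeff J) =
    if (∑ i, r i) + j0 = J then ((List.ofFn fun i => c (r i)).take p).prod * d j0 *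
      ((List.ofFn fun i => c (r i)).drop p).prod else 0 := by
  have e1 : (List.ofFn fun i => Polynomial.monomial (r i) (c (r i))) =
      (List.ofFn r).map fun j => Polynomial.monomial j (c j) := by
    rw [List.map_ofFn]; rfl
  have e2 : (List.ofFn fun i => c (r i)) = (List.ofFn r).map c := by
    rw [List.map_ofFn]; rfl
  rw [e1, e2, ← List.map_take, ← List.map_drop, ← List.map_take, ← List.map_drop, HOM_list,
    HOM_list, Polynomial.monomial_mul_monomial, Polynomial.monomial_mul_monomial,
    Polynomial.coeff_monomial]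
  have e3 : ((List.ofFn r).take p).sum + j0 + ((List.ofFn r).drop p).sum = (∑ i, r i) + j0 := by
    have h := congrArg List.sum (List.take_append_drop p (List.ofFn r))
    rw [List.sum_append, List.sum_ofFn] at h
    omega
  rw [e3]

theorem HOV_B {F : ℕ → AddSubgroup S} (hF : Fil F) {w : S} (hw : w ∈ F 1) (k0 : ℕ)
    {x y : Polynomial S} (hx : x ∈ HOM_B F w k0) (hy : y ∈ HOM_B F w k0) (i j : ℕ) :
    x ^ i * y * x ^ j ∈ HOM_B F w k0 := by
  have h1 : ∀ i, x ^ i * y ∈ HOM_B F w k0 := by
    intro i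
    induction i with
    | zero => simpa using hy
    | succ i ih =>
      rw [_root_.pow_succ', mul_assoc]
      exact HOM_BB hF hw k0 hx ih
  induction j with
  | zero => simpa using h1 i
  | succ j ih =>
    rw [_root_.pow_succ, ← mul_assoc]
    exact HOM_BB hF hw k0 ih hx

theorem HOV_E {F : ℕ → AddSubgroup S} (m : ℕ) (w : S) (x y : Polynomial S) (A : Finset ℕ)
    (a s : ℕ → S) (hx : x = ∑ j ∈ A, Polynomial.monomial j (x.coeff j))
    (hy : y = ∑ j ∈ A, Polynomial.monomial j (y.coeff j))
    (ha : ∀ j, x.coeff j = w * a j) (hs : ∀ j, y.coeff j = w * s j) (J : ℕ)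
    (hF : ∀ r : Fin m → A, ∀ j0 : A, (∑ i, (r i : ℕ)) + (j0 : ℕ) = J →
      sv m w (fun i => a (r i)) (s j0) ∈ F (J + 2)) :
    m ! • ((∑ t ∈ Finset.range (m + 1), m.choose t • (x ^ (m - t) * y * x ^ t)).coeff J * w) ∈
      F (J + 2) := by
  classical
  set H : (Fin m → A) → S := fun r => ∑ j0 : A, if (∑ i, (r i : ℕ)) + (j0 : ℕ) = J then
    ∑ t ∈ Finset.range (m + 1), m.choose t •
      (((List.ofFn fun i => w * a (r i)).take (m - t)).prod * (w * s j0) *
      ((List.ofFn fun i => w * a (r i)).drop (m - t)).prod * w) else 0 with hH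
  have h1 : (∑ t ∈ Finset.range (m + 1), m.choose t • (x ^ (m - t) * y * x ^ t)).coeff J * w =
      ∑ r : Fin m → A, H r := by
    have hx' : x = ∑ j : A, Polynomial.monomial (j : ℕ) (x.coeff j) := by
      rw [Finset.sum_coe_sort A (fun j => Polynomial.monomial j (x.coeff j))]
      exact hx
    have hy' : y = ∑ j : A, Polynomial.monomial (j : ℕ) (y.coeff j) := by
      rw [Finset.sum_coe_sort A (fun j => Polynomial.monomial j (y.coeff j))]
      exact hy
    have hterm : ∀ t ∈ Finset.range (m + 1), (x ^ (m - t) * y * x ^ t).coeff J * w =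
        ∑ r : Fin m → A, ∑ j0 : A, if (∑ i, (r i : ℕ)) + (j0 : ℕ) = J then
          (((List.ofFn fun i => w * a (r i)).take (m - t)).prod * (w * s j0) *
          ((List.ofFn fun i => w * a (r i)).drop (m - t)).prod * w) else 0 := by
      intro t ht
      rw [Finset.mem_range] at ht
      have h2 := HOV_dist (fun j : A => Polynomial.monomial (j : ℕ) (x.coeff j)) y m (m - t)
        (by omega)
      rw [← hx', show m - (m - t) = t by omega] at h2
      rw [← h2, Polynomial.finsetSum_coeff, Finset.sum_mul]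
      refine Finset.sum_congr rfl fun r _ => ?_
      conv_lhs => rw [hy']
      rw [Finset.mul_sum, Finset.sum_mul, Polynomial.finsetSum_coeff, Finset.sum_mul]
      refine Finset.sum_congr rfl fun j0 _ => ?_
      rw [HOV_word (fun i => (r i : ℕ)) x.coeff y.coeff (m - t) j0 J]
      by_cases h : (∑ i, (r i : ℕ)) + (j0 : ℕ) = J
      · rw [if_pos h, if_pos h]
        simp only [ha, hs]
      · rw [if_neg h, if_neg h, zero_mul]
    rw [Polynomial.finsetSum_coeff, Finset.sum_mul]
    have h3 : ∀ t ∈ Finset.range (m + 1), (m.choose t • (x ^ (m - t) * y * x ^ t)).coeff J * w =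
        m.choose t • ((x ^ (m - t) * y * x ^ t).coeff J * w) := by
      intro t _
      rw [Polynomial.coeff_smul, smul_mul_assoc]
    rw [Finset.sum_congr rfl h3, Finset.sum_congr rfl (fun t ht => by rw [hterm t ht])]
    simp only [Finset.smul_sum]
    rw [Finset.sum_comm]
    refine Finset.sum_congr rfl fun r _ => ?_
    rw [Finset.sum_comm]
    simp only [hH]
    refine Finset.sum_congr rfl fun j0 _ => ?_
    by_cases h : (∑ i, (r i : ℕ)) + (j0 : ℕ) = J
    · simp only [if_pos h]
    · simp only [if_neg h, smul_zero, Finset.sum_const_zero]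
  have h2 : m ! • ((∑ t ∈ Finset.range (m + 1), m.choose t • (x ^ (m - t) * y * x ^ t)).coeff J * w)
      = ∑ τ : Equiv.Perm (Fin m), ∑ r : Fin m → A, H (fun i => r (τ i)) := by
    have h3 : ∀ τ : Equiv.Perm (Fin m), ∑ r : Fin m → A, H (fun i => r (τ i)) =
        ∑ r : Fin m → A, H r := by
      intro τ
      exact Fintype.sum_equiv (Equiv.arrowCongr τ.symm (Equiv.refl A)) _ _ (fun r => rfl)
    rw [Finset.sum_congr rfl (fun τ _ => h3 τ), Finset.sum_const, Finset.card_univ,
      Fintype.card_perm, Fintype.card_fin, h1]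
  rw [h2, Finset.sum_comm]
  refine sum_mem fun r _ => ?_
  simp only [hH]
  rw [Finset.sum_comm]
  refine sum_mem fun j0 _ => ?_
  have h4 : ∀ τ : Equiv.Perm (Fin m), ∑ i, ((r (τ i) : A) : ℕ) = ∑ i, ((r i : A) : ℕ) := fun τ =>
    Equiv.sum_comp τ (fun i => ((r i : A) : ℕ))
  simp only [h4]
  by_cases h : (∑ i, (r i : ℕ)) + (j0 : ℕ) = J
  · simp only [if_pos h]
    exact hF r j0 h
  · simp only [if_neg h, Finset.sum_const_zero]
    exact zero_mem _

end

theorem p_HOV (hVNH : Stmt_VNH.{u}) : Stmt_HOV.{u} := by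
  intro S _ F hF w p m k0 hw hp hp2 hm hmp htor hsym l hl hlF
  have hcop1 : Nat.Coprime (m !) p :=
    ((Nat.Prime.coprime_iff_not_dvd hp).2 fun h => absurd ((Nat.Prime.dvd_factorial hp).1 h)
      (by omega)).symm
  have hcop2 : Nat.Coprime (2 ^ m) p :=
    (Nat.coprime_primes Nat.prime_two hp |>.2 (by omega)).pow_left _
  have hsat : ∀ N : ℕ, Nat.Coprime N p → ∀ f ∈ HOM_B F w k0, N • f ∈ HOM_T F w → f ∈ HOM_T F w := by
    intro N hN f hf hT j
    have h2 := HOM_w hF hw k0 hf j
    refine HOM_sat hN htor h2 ?_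
    have h3 : (N • f).coeff j * w ∈ F (j + 2) := hT j
    rwa [Polynomial.coeff_smul, smul_mul_assoc] at h3
  have key : ∀ x ∈ HOM_B F w k0, ∀ y ∈ HOM_B F w k0,
      ∑ t ∈ Finset.range (m + 1), m.choose t • (x ^ (m - t) * y * x ^ t) ∈ HOM_T F w := by
    intro x hx y hy J
    have hx' : ∀ j, ∃ a ∈ F (j - 1), x.coeff j = w * a ∧ (j < k0 + 1 → a = 0) := hx
    have hy' : ∀ j, ∃ a ∈ F (j - 1), y.coeff j = w * a ∧ (j < k0 + 1 → a = 0) := hy
    choose a ha ha1 ha2 using hx'
    choose s hs hs1 hs2 using hy'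
    set A : Finset ℕ := (Finset.range (x.natDegree + y.natDegree + 1)).filter
      (fun j => k0 + 1 ≤ j) with hA
    have hexp : ∀ (z : Polynomial S) (b : ℕ → S), (∀ j, z.coeff j = w * b j) →
        (∀ j < k0 + 1, b j = 0) → z.natDegree ≤ x.natDegree + y.natDegree →
        z = ∑ j ∈ A, Polynomial.monomial j (z.coeff j) := by
      intro z b hb1 hb2 hdeg
      conv_lhs => rw [z.as_sum_range' (x.natDegree + y.natDegree + 1) (by omega)]
      rw [hA, Finset.sum_filter]
      refine Finset.sum_congr rfl fun j _ => ?_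
      by_cases h : k0 + 1 ≤ j
      · rw [if_pos h]
      · rw [if_neg h, hb1, hb2 j (by omega), mul_zero, map_zero]
    have hEB : ∑ t ∈ Finset.range (m + 1), m.choose t • (x ^ (m - t) * y * x ^ t) ∈
        HOM_B F w k0 :=
      sum_mem fun t _ => nsmul_mem (HOV_B hF hw k0 hx hy _ _) _
    refine HOM_sat hcop1 htor (HOM_w hF hw k0 hEB J) ?_
    refine HOV_E m w x y A a s (hexp x a ha1 ha2 (by omega)) (hexp y s hs1 hs2 (by omega))
      ha1 hs1 J ?_
    intro r j0 hJ
    have hr1 : ∀ i, k0 + 1 ≤ (r i : ℕ) := fun i => (Finset.mem_filter.1 (r i).2).2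
    have hj1 : k0 + 1 ≤ (j0 : ℕ) := (Finset.mem_filter.1 j0.2).2
    have h2 := hsym (fun i => (r i : ℕ) - 1) (fun i => by have := hr1 i; omega)
      (fun i => a (r i)) (fun i => ha (r i)) ((j0 : ℕ) - 1) (by omega) (s j0) (hs j0)
    have h3 : (∑ i, ((r i : ℕ) - 1)) + m = ∑ i, (r i : ℕ) := by
      have h4 : ∑ i, (r i : ℕ) = ∑ i, (((r i : ℕ) - 1) + 1) :=
        Finset.sum_congr rfl fun i _ => by have := hr1 i; omega
      rw [h4, Finset.sum_add_distrib]
      simp
    have h5 : (∑ i, ((r i : ℕ) - 1)) + ((j0 : ℕ) - 1) + m + 3 = J + 2 := by omega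
    rw [h5] at h2
    exact h2
  have h1 := hVNH (Polynomial S) (HOM_B F w k0) (HOM_T F w) m hm
    (fun f hf g hg => HOM_BB hF hw k0 hf hg)
    (fun f hf g hg => HOM_BT hF hw k0 hf hg)
    (hsat _ hcop1) (hsat _ hcop2)
    key (l.map fun b => Polynomial.monomial (k0 + 1) (w * b)) (by rw [List.length_map]; exact hl)
    (by
      intro f hf
      rw [List.mem_map] at hf
      obtain ⟨b, hb, rfl⟩ := hf
      intro j
      by_cases h : j = k0 + 1
      · subst h
        exact ⟨b, by simpa using hlF b hb, by simp, fun h => by omega⟩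
      · exact ⟨0, zero_mem _, by
          rw [Polynomial.coeff_monomial, if_neg (fun hh => h hh.symm), mul_zero], fun _ => rfl⟩)
  have h2 : ∀ l : List S, (l.map fun b => Polynomial.monomial (k0 + 1) (w * b)).prod =
      Polynomial.monomial (l.length * (k0 + 1)) (l.map (w * ·)).prod := by
    intro l
    induction l with
    | nil => simp
    | cons b l ih =>
      rw [List.map_cons, List.prod_cons, ih, Polynomial.monomial_mul_monomial, List.map_cons,
        List.prod_cons, List.length_cons]
      have e : k0 + 1 + l.length * (k0 + 1) = (l.length + 1) * (k0 + 1) := by ring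
      rw [e]
  rw [h2 l, hl] at h1
  have h3 := h1 ((2 ^ (m + 1) - 1) * (k0 + 1))
  rwa [Polynomial.coeff_monomial, if_pos rfl] at h3

end Pool.EN
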