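import Pool.Agent.Work.MP_3617d5_en.Defs

/-!
# MP_3617d5_al, THEOREM EN, block INV
-/

set_option autoImplicit false

universe u

namespace Pool.EN

open Pool.NR

section
variable {S : Type u} [Ring S]

theorem INV_anti {F : ℕ → AddSubgroup S} (hF : Fil F) {i j : ℕ} (h : i ≤ j) : F j ≤ F i := by
  induction j, h using Nat.le_induction with
  | base => exact le_refl _
  | succ j _ ih => exact (hF.anti j).trans ih

theorem INV_pow {F : ℕ → AddSubgroup S} (hF : Fil F) {j : ℕ} {b : S} (hb : b ∈ F j) :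
    ∀ i : ℕ, b ^ (i + 1) ∈ F j := by
  intro i
  induction i with
  | zero => simpa using hb
  | succ i ih =>
    rw [pow_succ]
    exact INV_anti hF (by omega) (hF.mul j j _ ih _ hb)

end

theorem p_INV : Stmt_INV.{u} := by
  intro S _ F hF j hj
  constructor
  · intro b hb
    have h := hF.nil b (INV_anti hF hj hb)
    obtain ⟨u, hu⟩ := h.isUnit_one_add
    exact ⟨u, hu⟩
  · intro u hu
    obtain ⟨x, hxe⟩ : ∃ x : S, x = -((u : S) - 1) := ⟨_, rfl⟩
    have hx : x ∈ F j := by rw [hxe]; exact (F j).neg_mem hu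
    obtain ⟨v, hv⟩ : ∃ v : S, v = ((u⁻¹ : Sˣ) : S) - 1 := ⟨_, rfl⟩
    have hrel : v = x + x * v := by
      have h1 : (u : S) * ((u⁻¹ : Sˣ) : S) = 1 := by simp
      rw [hv, hxe]
      have e : -((u : S) - 1) + -((u : S) - 1) * (((u⁻¹ : Sˣ) : S) - 1)
          = ((u⁻¹ : Sˣ) : S) - (u : S) * ((u⁻¹ : Sˣ) : S) := by noncomm_ring
      rw [e, h1]
    have hall : ∀ n : ℕ, ∃ m ∈ F j, v = m + x ^ n * v := by
      intro n
      induction n with
      | zero => exact ⟨0, (F j).zero_mem, by simp⟩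
      | succ n ih =>
        obtain ⟨m, hm, hmv⟩ := ih
        refine ⟨m + x ^ (n + 1), (F j).add_mem hm (INV_pow hF hx n), ?_⟩
        calc v = m + x ^ n * v := hmv
          _ = m + x ^ n * (x + x * v) := by rw [← hrel]
          _ = m + x ^ (n + 1) + x ^ (n + 1) * v := by rw [pow_succ]; noncomm_ring
    obtain ⟨n, hn⟩ := hF.nil x (INV_anti hF hj hx)
    obtain ⟨m, hm, hmv⟩ := hall n
    rw [hn, zero_mul, add_zero] at hmv
    rw [← hv, hmv]
    exact hm

end Pool.EN
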