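import Pool.Agent.Work.MP_3617d5_en.Defs

/-!
# MP_3617d5_al, THEOREM EN for all `m < p`: the blocks which change

The letter `s` (the group element `h`) is kept apart from the letters `a i`. Nagata-Higman with the exponent `m`.
Same rules as in `Defs.lean`: files `B_X.lean`, `import Pool.Agent.Work.MP_3617d5_en.Defs2`.
-/

set_option autoImplicit false

open Nat

universe u

namespace Pool.EN

open Pool.NR

section
variable {S : Type u} [Ring S]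

/-- the symmetric sum of the words with the letter `s` at the position `m - t`, with binomial coefficients -/
def sv (m : ℕ) (w : S) (a : Fin m → S) (s : S) : S :=
  ∑ τ : Equiv.Perm (Fin m), ∑ t ∈ Finset.range (m + 1), m.choose t •
    (((List.ofFn fun i => w * a (τ i)).take (m - t)).prod * (w * s) *
      ((List.ofFn fun i => w * a (τ i)).drop (m - t)).prod * w)

/-- the case `k = 1` -/
def SymV (F : ℕ → AddSubgroup S) (w : S) (m k0 : ℕ) : Prop :=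
  ∀ κ : Fin m → ℕ, (∀ i, k0 ≤ κ i) → ∀ a : Fin m → S, (∀ i, a i ∈ F (κ i)) →
    ∀ l : ℕ, k0 ≤ l → ∀ s ∈ F l, sv m w a s ∈ F ((∑ i, κ i) + l + m + 3)

/-- the case `k ≥ 2` -/
def SymL (F : ℕ → AddSubgroup S) (w : S) (m k0 : ℕ) : Prop :=
  ∀ κ : Fin m → ℕ, (∀ i, k0 ≤ κ i) → ∀ a : Fin m → S, (∀ i, a i ∈ F (κ i)) →
    ∀ l : ℕ, k0 ≤ l → ∀ s ∈ F l,
      (∑ τ : Equiv.Perm (Fin m), (List.ofFn fun i => w * a (τ i)).prod) * (w * s) * w ∈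
        F ((∑ i, κ i) + l + m + 3)

end

/-- **EX2** (edit of EXT). The top coefficient of `f T * v`. -/
def Stmt_EX2 : Prop := ∀ (S : Type u) [Ring S] (F : ℕ → AddSubgroup S), Fil F → ∀ (n : ℕ) (κ : Fin n → ℕ) (g : ℕ) (w : S)
  (a : Fin n → S) (l : ℕ) (v : S), v ∈ F l → ∀ f : Finset (Fin n) → S, NN F κ g (n + 1) f →
  (∀ T, f T * v = (w * ls a T) ^ n * w * v) → sy w a * v ∈ F ((∑ i, κ i) + g + l)

/-- **EXV** (edit of EXT). Letters `0 ↦ s`, `i.succ ↦ a i`. `f T = ∑_{r : Fin m → Fin m, all (r j).succ ∈ T, 0 ∈ T} ∑_t C(m, t) • word`; top coefficient: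
`r` bijective. -/
def Stmt_EXV : Prop := ∀ (S : Type u) [Ring S] (F : ℕ → AddSubgroup S), Fil F → ∀ (m : ℕ) (κ : Fin (m + 1) → ℕ) (g : ℕ) (w : S)
  (a : Fin m → S) (s : S), NN F κ g (m + 2) (fun T => ∑ t ∈ Finset.range (m + 1), m.choose t •
    ((w * ls (Fin.cons 0 a : Fin (m + 1) → S) T) ^ (m - t) * (w * ls (Fin.cons s 0 : Fin (m + 1) → S) T) *
      (w * ls (Fin.cons 0 a : Fin (m + 1) → S) T) ^ t * w)) → sv m w a s ∈ F ((∑ i, κ i) + g)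

/-- **A2V** (50). `z * z = 0`. `v = z x z ↦ z x (z a) z + (z a) z x z`: left multiplication by `z a` and `z x z ↦ z x (z a) z` commute; Pascal. -/
def Stmt_A2V : Prop := ∀ (S : Type u) [Ring S] (z a s : S), z * z = 0 → ∀ i : ℕ,
  (fun v : S => v * (a * z - z * a - z * a * z) - (a * z - z * a - z * a * z) * v)^[i] (z * s * z) =
    ∑ t ∈ Finset.range (i + 1), i.choose t • ((z * a) ^ (i - t) * (z * s) * (z * a) ^ t * z)

/-- **S2V** (120, edit of S2), uses BAS MUL INV LPB EXV G2 C2 A2V. Index set `Fin (m + 1)`, `κ' = Fin.cons l κ`, `g = k0 = m + 3`. `h T = lp (Fin.cons h0 1) T`,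
`c T = lp (Fin.cons 1 c) T`, `W T = ls (Fin.cons (z s z) 0) T = z * ls (Fin.cons s 0) T * z`, `ρ T = ls (Fin.cons 0 (a z - z a - z a z)) T`. C2 for `i = m`, A2V with
`a := ls (Fin.cons 0 a) T`, `s := ls (Fin.cons s 0) T`; EXV. -/
def Stmt_S2V : Prop := ∀ (S : Type u) [Ring S] (m : ℕ) (F : ℕ → AddSubgroup S) (P : Subgroup Sˣ) (z : S) (g : Sˣ),
  Loc m F P z 1 g → SymV F (z ^ 1) m (m + 3)

/-- **S3L** (edit of S3), uses BAS MUL LPB EX2 G3 E3. Index set `Fin m`, `g = k0 = m + 3` (the gap `m + 2` is enough), `h` from G3 for `s`: `(c T - 1) ^ m * (w s w) = 0` for all `T`. By induction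
`NN (j + 1) (fun T => (c T - 1) ^ j * w - (-1) ^ j * ((w * ls a T) ^ j * w))`. EX2 for `f T = ((w * ls a T) ^ m * w) - (-1) ^ m * (c T - 1) ^ m * w`, `v = s * w ∈ F (l + 1)`
(`f T * v = (w ls) ^ m * w * v`). -/
def Stmt_S3L : Prop := ∀ (S : Type u) [Ring S] (m : ℕ) (F : ℕ → AddSubgroup S) (P : Subgroup Sˣ) (z : S) (k : ℕ) (g : Sˣ),
  Loc m F P z k g → 2 ≤ k → SymL F (z ^ k) m (m + 3)

/-- **HOL** (edit of HOM), uses NHT. `n = m`, `T = {t | ∀ j, ∀ l ≥ k0, ∀ s ∈ F l, t_j * (w s) * w ∈ F (j + l + 3)}` (two-sided: `t_i (w a) (w s) w = t_i (w (a w s)) w`). NHT: products of `2 ^ m - 1` elements of `B` are in `T`; the next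
letter is `s`, then further letters are multiplied on the right (`F (..) * F ..`). -/
def Stmt_HOL : Prop := ∀ (S : Type u) [Ring S] (F : ℕ → AddSubgroup S), Fil F → ∀ (w : S) (p m k0 : ℕ), w ∈ F 1 → p.Prime → 1 ≤ m → m < p →
  (∀ x ∈ F 1, ∃ e : ℕ, p ^ e • x = 0) → SymL F w m k0 →
  ∀ l : List S, l.length = 2 ^ (m + 1) - 1 → (∀ b ∈ l, b ∈ F k0) → (l.map (w * ·)).prod * w ∈ F ((2 ^ (m + 1) - 1) * (k0 + 1) + 2)

/-- **VID** (100). Nagata-Higman trick for `E(x; y) = ∑_t C(m, t) x ^ (m - t) y x ^ t`: if `E(x; y) ∈ T` for all `x, y ∈ B`, then `2 ^ m • (x ^ m * y * b ^ m) ∈ T` for `x, y, b ∈ B`: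
`∑_{t, j} C(m, t) C(m, j) x ^ (m - t) (y b ^ j) x ^ t b ^ (m - j)`, summed over `t` first: `∑_j C(m, j) E(x; y b ^ j) b ^ (m - j) ∈ T`; summed over `j` first: `C(m, t) x ^ (m - t) y E(b; x ^ t)` for `t ≥ 1`
(`Nat.choose_symm`, `Finset.sum_range_reflect`) and `x ^ m y (∑_j C(m, j)) b ^ m` for `t = 0`. (`x ^ (m - t)` with `m = t`: then the factor is `y * ..`, in `B`.) -/
def Stmt_VID : Prop := ∀ (S : Type u) [Ring S] (B T : AddSubgroup S) (m : ℕ), 1 ≤ m → (∀ a ∈ B, ∀ b ∈ B, a * b ∈ B) →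
  (∀ b ∈ B, ∀ t ∈ T, b * t ∈ T ∧ t * b ∈ T) →
  (∀ x ∈ B, ∀ y ∈ B, ∑ t ∈ Finset.range (m + 1), m.choose t • (x ^ (m - t) * y * x ^ t) ∈ T) →
  ∀ x ∈ B, ∀ y ∈ B, ∀ b ∈ B, 2 ^ m • (x ^ m * y * b ^ m) ∈ T

/-- **VNH** (100), uses NHT VID. If `E(x; y) ∈ T` then the products of `2 ^ (m + 1) - 1` elements of `B` are in `T`. `N = 2 ^ m - 1`. NHT for `T1 = {t | ∀ y ∈ B, ∀ b ∈ B, t * y * b ^ m ∈ T}` (`x ^ m ∈ T1` by VID and saturation): products `u` of `N` elements: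
`u * y * b ^ m ∈ T`. NHT for `T2 = {t | ∀ u product of N elements of B, ∀ y ∈ B, u * y * t ∈ T}`. `2 ^ (m + 1) - 1 = N + 1 + N`. (Take `T ⊓ B`-like conditions as needed; saturation: `(2 * m !) • b ∈ T → b ∈ T` for `b ∈ B`.) -/
def Stmt_VNH : Prop := ∀ (S : Type u) [Ring S] (B T : AddSubgroup S) (m : ℕ), 1 ≤ m → (∀ a ∈ B, ∀ b ∈ B, a * b ∈ B) →
  (∀ b ∈ B, ∀ t ∈ T, b * t ∈ T ∧ t * b ∈ T) → (∀ b ∈ B, m ! • b ∈ T → b ∈ T) → (∀ b ∈ B, 2 ^ m • b ∈ T → b ∈ T) →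
  (∀ x ∈ B, ∀ y ∈ B, ∑ t ∈ Finset.range (m + 1), m.choose t • (x ^ (m - t) * y * x ^ t) ∈ T) →
  ∀ l : List S, l.length = 2 ^ (m + 1) - 1 → (∀ b ∈ l, b ∈ B) → l.prod ∈ T

/-- **HOV** (edit of HOM), uses VNH. `B`, `T` as in HOM (`T` = coefficients with `t_j * w ∈ F (j + 2)`). `E(x; y) ∈ T` for `x, y ∈ B`: `m ! • coeff J (E(x; y)) * w = ∑_{(r, j0), ∑ r + j0 = J} sv m w a_r s_{j0}`,
`x_(r i) = w * a_r i`, `y_{j0} = w * s`. -/
def Stmt_HOV : Prop := ∀ (S : Type u) [Ring S] (F : ℕ → AddSubgroup S), Fil F → ∀ (w : S) (p m k0 : ℕ), w ∈ F 1 → p.Prime → 2 < p → 1 ≤ m → m < p →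
  (∀ x ∈ F 1, ∃ e : ℕ, p ^ e • x = 0) → SymV F w m k0 →
  ∀ l : List S, l.length = 2 ^ (m + 1) - 1 → (∀ b ∈ l, b ∈ F k0) → (l.map (w * ·)).prod * w ∈ F ((2 ^ (m + 1) - 1) * (k0 + 1) + 2)

/-- **DWV** (edit of DWN), uses S2V S3L HOV HOL FZP FZN GAI. -/
def Stmt_DWV : Prop := ∀ (S : Type u) [Ring S] (p m : ℕ) (I : AddSubgroup S) (P : Subgroup Sˣ), p.Prime → 2 < p → m < p → GoodN p m I P →
  ∀ g ∈ P, ∀ z : S, ((g : Sˣ) : S) = 1 + z → ∀ k : ℕ, 1 ≤ k → z ^ (k + 1) = 0 → NilGen (z ^ k)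

/-- **INW** (edit of INN), uses DWV QUN NGI QUO. -/
def Stmt_INW : Prop := ∀ (S : Type u) [Ring S] (p m : ℕ) (I : AddSubgroup S) (P : Subgroup Sˣ), p.Prime → 2 < p → m < p → GoodN p m I P →
  ∀ g ∈ P, NilGen (((g : Sˣ) : S) - 1)

/-- **FIW** (edit of FIN), uses INW RDN NGI GEN PUL. `p = 2`: `n ≤ 1`, `G` is commutative. -/
def Stmt_FIW : Prop := ∀ (p n m : ℕ) (_ : p.Prime) (_ : n < p) (_ : m < p) (G : Type u) [Group G] (_ : IsPGroup p G)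
    (_ : Engel n G)
    (_ : ∀ s : Set G, s.Finite → ((Subgroup.closure s : Subgroup G) : Set G).Finite)
    (A : Type u) [Ring A] (χ : G →* Aˣ) (_ : Group.IsSolvable χ.ker) (U : Subgroup Aˣ) (_ : χ.range ≤ U)
    (_ : (χ.range.subgroupOf U).Normal) (_ : Engel m χ.range)
    (_ : ∀ x ∈ Submodule.span ℤ (Set.range fun g => ((χ g : Aˣ) : A) - 1), IsNilpotent x →
      ∃ w ∈ U, ((w : Aˣ) : A) = 1 + x)
    (_ : ∀ g, ∃ n : ℕ, p ^ n • (((χ g : Aˣ) : A) - 1) = 0), Fitting G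

end Pool.EN
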