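import Pool.Agent.Work.MP_3617d5_en.Defs

/-!
# MP_3617d5_al, THEOREM EN, block LPB: ordered products over subsets
-/

set_option autoImplicit false

universe u

namespace Pool.EN

open Pool.NR Finset

/-- one letter -/
theorem LPB_one {S : Type u} [Ring S] (F : ℕ → AddSubgroup S) {n : ℕ} (κ : Fin n → ℕ) (g q : ℕ) (i : Fin n) (b : S)
    (hb : b ∈ F (κ i + if 1 < q then g else 0)) : NN F κ g q (fun T => if i ∈ T then b else 0) := by
  classical
  refine ⟨fun U => if U = {i} then b else 0, ?_, ?_⟩
  · intro T
    rw [Finset.sum_ite_eq']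
    simp only [Finset.mem_powerset, Finset.singleton_subset_iff]
  · intro U
    by_cases h : U = {i}
    · subst h
      simp only [if_true, Finset.sum_singleton, Finset.card_singleton]
      exact hb
    · simp only [if_neg h]
      exact AddSubgroup.zero_mem _

theorem LPB_zero {S : Type u} [Ring S] (F : ℕ → AddSubgroup S) {n : ℕ} (κ : Fin n → ℕ) (g q : ℕ) :
    NN F κ g q (fun _ => (0 : S)) :=
  ⟨fun _ => 0, fun T => by simp, fun U => AddSubgroup.zero_mem _⟩

/-- the ordered product over a list -/
def LPB_l {S : Type u} [Ring S] {n : ℕ} (x : Fin n → Sˣ) (l : List (Fin n)) (T : Finset (Fin n)) : Sˣ :=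
  (l.map fun i => if i ∈ T then x i else 1).prod

theorem p_LPB (hBAS : Stmt_BAS.{u}) (hMUL : Stmt_MUL.{u}) (hINV : Stmt_INV.{u}) : Stmt_LPB.{u} := by
  intro S _ F hF n κ g h1 hg x hx
  obtain ⟨badd, bsub, bmono, -, -⟩ := hBAS S F hF n κ g
  have bmul := hMUL S F hF n κ g hg
  have hX : ∀ i, NN F κ g 1 (fun T => ((if i ∈ T then x i else 1 : Sˣ) : S) - 1) := by
    intro i
    have h := LPB_one F κ g 1 i (((x i : Sˣ) : S) - 1) (by simpa using hx i)
    have e : (fun T : Finset (Fin n) => ((if i ∈ T then x i else 1 : Sˣ) : S) - 1) =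
        fun T => if i ∈ T then ((x i : Sˣ) : S) - 1 else 0 := by
      funext T
      by_cases hT : i ∈ T
      · simp [hT]
      · simp [hT]
    rw [e]
    exact h
  have hXi : ∀ i, NN F κ g 1 (fun T => (((if i ∈ T then x i else 1 : Sˣ)⁻¹ : Sˣ) : S) - 1) := by
    intro i
    have h0 : (((x i)⁻¹ : Sˣ) : S) - 1 ∈ F (κ i) := (hINV S F hF (κ i) (by have := hg i; omega)).2 (x i) (hx i)
    have h := LPB_one F κ g 1 i ((((x i)⁻¹ : Sˣ) : S) - 1) (by simpa using h0)
    have e : (fun T : Finset (Fin n) => (((if i ∈ T then x i else 1 : Sˣ)⁻¹ : Sˣ) : S) - 1) =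
        fun T => if i ∈ T then (((x i)⁻¹ : Sˣ) : S) - 1 else 0 := by
      funext T
      by_cases hT : i ∈ T
      · simp [hT]
      · simp [hT]
    rw [e]
    exact h
  have H1 : ∀ l : List (Fin n), NN F κ g 1 (fun T => ((LPB_l x l T : Sˣ) : S) - 1) := by
    intro l
    induction l with
    | nil =>
      have e : (fun T : Finset (Fin n) => ((LPB_l x [] T : Sˣ) : S) - 1) = fun _ => (0 : S) := by
        funext T
        simp [LPB_l]
      rw [e]
      exact LPB_zero F κ g 1
    | cons i l ih =>
      have h2 := badd 1 _ _ (badd 1 _ _ (hX i) ih) (bmono (1 + 1) 1 _ (by omega) (bmul 1 1 _ _ (hX i) ih))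
      have e : (fun T : Finset (Fin n) => ((LPB_l x (i :: l) T : Sˣ) : S) - 1) = fun T =>
          (((if i ∈ T then x i else 1 : Sˣ) : S) - 1 + (((LPB_l x l T : Sˣ) : S) - 1)) +
            (((if i ∈ T then x i else 1 : Sˣ) : S) - 1) * (((LPB_l x l T : Sˣ) : S) - 1) := by
        funext T
        have e1 : LPB_l x (i :: l) T = (if i ∈ T then x i else 1) * LPB_l x l T := by
          unfold LPB_l
          rw [List.map_cons, List.prod_cons]
        rw [e1, Units.val_mul]
        noncomm_ring
      rw [e]
      exact h2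
  refine ⟨H1 (List.finRange n), ?_, ?_⟩
  · have H2 : ∀ l : List (Fin n), NN F κ g 1 (fun T => (((LPB_l x l T)⁻¹ : Sˣ) : S) - 1) := by
      intro l
      induction l with
      | nil =>
        have e : (fun T : Finset (Fin n) => (((LPB_l x [] T)⁻¹ : Sˣ) : S) - 1) = fun _ => (0 : S) := by
          funext T
          simp [LPB_l]
        rw [e]
        exact LPB_zero F κ g 1
      | cons i l ih =>
        have h2 := badd 1 _ _ (badd 1 _ _ ih (hXi i)) (bmono (1 + 1) 1 _ (by omega) (bmul 1 1 _ _ ih (hXi i)))
        have e : (fun T : Finset (Fin n) => (((LPB_l x (i :: l) T)⁻¹ : Sˣ) : S) - 1) = fun T =>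
            ((((LPB_l x l T)⁻¹ : Sˣ) : S) - 1 + ((((if i ∈ T then x i else 1 : Sˣ)⁻¹ : Sˣ) : S) - 1)) +
              ((((LPB_l x l T)⁻¹ : Sˣ) : S) - 1) * ((((if i ∈ T then x i else 1 : Sˣ)⁻¹ : Sˣ) : S) - 1) := by
          funext T
          have e1 : LPB_l x (i :: l) T = (if i ∈ T then x i else 1) * LPB_l x l T := by
            unfold LPB_l
            rw [List.map_cons, List.prod_cons]
          rw [e1, mul_inv_rev, Units.val_mul]
          noncomm_ring
        rw [e]
        exact h2
    exact H2 (List.finRange n)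
  · intro ρ hρ hρ'
    have hR : ∀ i, NN F κ g 2 (fun T => ((if i ∈ T then x i else 1 : Sˣ) : S) - 1 - if i ∈ T then ρ i else 0) := by
      intro i
      have h := LPB_one F κ g 2 i (((x i : Sˣ) : S) - 1 - ρ i) (by simpa using hρ' i)
      have e : (fun T : Finset (Fin n) => ((if i ∈ T then x i else 1 : Sˣ) : S) - 1 - if i ∈ T then ρ i else 0) =
          fun T => if i ∈ T then ((x i : Sˣ) : S) - 1 - ρ i else 0 := by
        funext T
        by_cases hT : i ∈ T
        · simp [hT]
        · simp [hT]
      rw [e]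
      exact h
    have H3 : ∀ l : List (Fin n), NN F κ g 2 (fun T => ((LPB_l x l T : Sˣ) : S) - 1 -
        (l.map fun i => if i ∈ T then ρ i else 0).sum) := by
      intro l
      induction l with
      | nil =>
        have e : (fun T : Finset (Fin n) => ((LPB_l x [] T : Sˣ) : S) - 1 -
            (([] : List (Fin n)).map fun i => if i ∈ T then ρ i else 0).sum) = fun _ => (0 : S) := by
          funext T
          simp [LPB_l]
        rw [e]
        exact LPB_zero F κ g 2
      | cons i l ih =>
        have h2 := badd 2 _ _ (badd 2 _ _ (hR i) ih) (bmul 1 1 _ _ (hX i) (H1 l))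
        have e : (fun T : Finset (Fin n) => ((LPB_l x (i :: l) T : Sˣ) : S) - 1 -
            ((i :: l).map fun i => if i ∈ T then ρ i else 0).sum) = fun T =>
            ((((if i ∈ T then x i else 1 : Sˣ) : S) - 1 - if i ∈ T then ρ i else 0) +
              (((LPB_l x l T : Sˣ) : S) - 1 - (l.map fun i => if i ∈ T then ρ i else 0).sum)) +
              (((if i ∈ T then x i else 1 : Sˣ) : S) - 1) * (((LPB_l x l T : Sˣ) : S) - 1) := by
          funext T
          have e1 : LPB_l x (i :: l) T = (if i ∈ T then x i else 1) * LPB_l x l T := by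
            unfold LPB_l
            rw [List.map_cons, List.prod_cons]
          rw [e1, Units.val_mul, List.map_cons, List.sum_cons]
          noncomm_ring
        rw [e]
        exact h2
    have h4 := H3 (List.finRange n)
    have e : (fun T : Finset (Fin n) => ((LPB_l x (List.finRange n) T : Sˣ) : S) - 1 -
        ((List.finRange n).map fun i => if i ∈ T then ρ i else 0).sum) =
        fun T => ((lp x T : Sˣ) : S) - 1 - ls ρ T := by
      funext T
      have e2 : ((List.finRange n).map fun i => if i ∈ T then ρ i else 0).sum = ls ρ T := by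
        rw [← Fin.sum_univ_def, ls, Finset.sum_ite_mem, Finset.univ_inter]
      rw [e2]
      rfl
    rw [e] at h4
    exact h4

end Pool.EN
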