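import Pool.Agent.Work.MP_3617d5_en.Defs

/-!
# MP_3617d5_al, THEOREM EN, block MUL: products of functions of subsets
-/

set_option autoImplicit false

universe u

namespace Pool.EN

open Pool.NR Finset

theorem MUL_anti {S : Type u} [Ring S] {F : ℕ → AddSubgroup S} (hF : Fil F) {a b : ℕ} (h : a ≤ b) : F b ≤ F a :=
  antitone_nat_of_succ_le (fun i => hF.anti i) h

theorem MUL_deg {n : ℕ} (κ : Fin n → ℕ) (g : ℕ) (hg : ∀ i, g ≤ κ i) (q r : ℕ) (A B : Finset (Fin n)) :
    ((∑ i ∈ A ∪ B, κ i) + if (A ∪ B).card < q + r then g else 0) ≤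
      ((∑ i ∈ A, κ i) + if A.card < q then g else 0) + ((∑ i ∈ B, κ i) + if B.card < r then g else 0) := by
  have h1 : (∑ i ∈ A ∪ B, κ i) + ∑ i ∈ A ∩ B, κ i = (∑ i ∈ A, κ i) + ∑ i ∈ B, κ i := Finset.sum_union_inter
  by_cases hd : (A ∩ B).Nonempty
  · obtain ⟨i, hi⟩ := hd
    have h2 : κ i ≤ ∑ i ∈ A ∩ B, κ i := Finset.single_le_sum (f := κ) (fun _ _ => Nat.zero_le _) hi
    have h3 := hg i
    split_ifs <;> omega
  · rw [Finset.not_nonempty_iff_eq_empty] at hd
    have h2 : (A ∪ B).card = A.card + B.card := by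
      have := Finset.card_union_add_card_inter A B
      rw [hd, Finset.card_empty] at this
      omega
    rw [hd, Finset.sum_empty] at h1
    split_ifs <;> omega

theorem p_MUL : Stmt_MUL.{u} := by
  intro S _ F hF n κ g hg q r f f' hf hf'
  obtain ⟨c, hc, hcF⟩ := hf
  obtain ⟨c', hc', hcF'⟩ := hf'
  classical
  refine ⟨fun U => ∑ x ∈ (U.powerset ×ˢ U.powerset).filter (fun x => x.1 ∪ x.2 = U), c x.1 * c' x.2, ?_, ?_⟩
  · intro T
    change f T * f' T = _
    rw [hc T, hc' T, Finset.sum_mul_sum, ← Finset.sum_product',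
      ← Finset.sum_fiberwise_of_maps_to (s := T.powerset ×ˢ T.powerset) (t := T.powerset)
        (g := fun x : Finset (Fin n) × Finset (Fin n) => x.1 ∪ x.2)]
    · apply Finset.sum_congr rfl
      intro U hU
      rw [Finset.mem_powerset] at hU
      apply Finset.sum_congr _ (fun _ _ => rfl)
      ext x
      simp only [Finset.mem_filter, Finset.mem_product, Finset.mem_powerset]
      constructor
      · rintro ⟨-, h⟩
        exact ⟨⟨h ▸ Finset.subset_union_left, h ▸ Finset.subset_union_right⟩, h⟩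
      · rintro ⟨⟨h1, h2⟩, h⟩
        exact ⟨⟨h1.trans hU, h2.trans hU⟩, h⟩
    · intro x hx
      rw [Finset.mem_product, Finset.mem_powerset, Finset.mem_powerset] at hx
      rw [Finset.mem_powerset]
      exact Finset.union_subset hx.1 hx.2
  · intro U
    apply AddSubgroup.sum_mem
    intro x hx
    rw [Finset.mem_filter] at hx
    have h1 := hF.mul _ _ _ (hcF x.1) _ (hcF' x.2)
    refine MUL_anti hF ?_ h1
    have h2 := MUL_deg κ g hg q r x.1 x.2
    rw [hx.2] at h2
    exact h2

end Pool.EN
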