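import Pool.Agent.Work.MP_3617d5_en.Defs
import Pool.Agent.Work.MP_3fbbd3_adj.RED

/-!
# MP_3617d5_al, THEOREM EN, block RDN: the reduction
-/

set_option autoImplicit false

universe u

namespace Pool.EN

open Pool.NR Submodule
open Pool.Agent.Work.MP_3fbbd3_adj

theorem RDN_iter {G K : Type u} [Group G] [Group K] (h : G →* K) (x y : G) (m : ℕ) :
    h ((fun z : G => z⁻¹ * x⁻¹ * z * x)^[m] y) =
      (fun z : K => z⁻¹ * (h x)⁻¹ * z * h x)^[m] (h y) := by
  induction m with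
  | zero => rfl
  | succ m ih =>
    rw [Function.iterate_succ_apply', Function.iterate_succ_apply', ← ih]
    simp only [map_mul, map_inv]

theorem p_RDN (hNP : S_NP.{u}) : Stmt_RDN.{u} := by
  intro p m hp G _ hG hlf A _ φ U hU hnrm hE hnil htors
  obtain ⟨ψ, hψ⟩ : ∃ ψ : G →* A, ψ = (Units.coeHom A).comp φ := ⟨_, rfl⟩
  have hψg : ∀ g, ψ g = ((φ g : Aˣ) : A) := fun g => by rw [hψ]; rfl
  have hM' : AS.M' ψ = span ℤ (Set.range fun g => ((φ g : Aˣ) : A) - 1) := by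
    unfold AS.M'
    simp only [hψg]
  have ht : ∀ g, ψ g - 1 ∈ AS.t p A := by
    intro g
    rw [AS.mem_t, hψg]
    exact htors g
  have hloc := AS.loc_nil hNP hp hG hlf ht
  obtain ⟨Γ, hΓ⟩ : ∃ Γ : Subgroup Aˣ, Γ = RED.Gam ψ hloc := ⟨_, rfl⟩
  have hΓm : ∀ w : Aˣ, w ∈ Γ ↔ (w : A) - 1 ∈ AS.M' ψ := by
    intro w; rw [hΓ]; exact RED.mem_Gam hloc
  have hunit : ∀ x ∈ AS.M' ψ, ∃ w ∈ U, ((w : Aˣ) : A) = 1 + x := by
    intro x hx
    obtain ⟨n, hn⟩ := RED.nilp hloc hx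
    exact hnil x (by rw [← hM']; exact hx) ⟨n, hn⟩
  have hΓU : Γ ≤ U := by
    intro w hw
    obtain ⟨w', hw', he⟩ := hunit _ ((hΓm w).mp hw)
    have : w' = w := Units.ext (by rw [he]; abel)
    rwa [← this]
  have hφΓ : ∀ g, φ g ∈ Γ := by
    intro g
    rw [hΓm, ← hψg]
    exact subset_span ⟨g, rfl⟩
  have hBm : ∀ w : Γ, ((w : Aˣ) : A) ∈ AS.B ψ := by
    intro w
    exact ⟨1, by rw [Int.cast_one]; exact (hΓm w).mp w.2⟩
  let χ : Γ →* AS.B ψ :=
    { toFun := fun k => ⟨((k : Aˣ) : A), hBm k⟩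
      map_one' := by apply Subtype.ext; simp
      map_mul' := by intro a b; apply Subtype.ext; simp }
  have hadj : Adj p ((AS.M' ψ).comap (AS.B ψ).subtype.toIntAlgHom.toLinearMap) χ := by
    refine RED.core (AS.B ψ).subtype Subtype.val_injective (fun b => b.2) ht hloc χ ?_ ?_ ?_
    · intro a b hab
      apply Subtype.ext
      apply Units.ext
      exact congrArg Subtype.val hab
    · intro g
      exact (hΓm g).mp g.2
    · intro x hx
      obtain ⟨w, _, he⟩ := hunit x hx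
      refine ⟨⟨w, ?_⟩, he⟩
      rw [hΓm, he, add_sub_cancel_left]
      exact hx
  let φΓ : G →* Γ :=
    { toFun := fun g => ⟨φ g, hφΓ g⟩
      map_one' := by apply Subtype.ext; simp
      map_mul' := by intro a b; apply Subtype.ext; simp }
  let f : G →* (AS.B ψ)ˣ := χ.toHomUnits.comp φΓ
  have hf : ∀ g, (((f g : (AS.B ψ)ˣ) : AS.B ψ) : A) = ((φ g : Aˣ) : A) := fun g => rfl
  let j : (AS.B ψ)ˣ →* Aˣ := Units.map ((AS.B ψ).subtype : AS.B ψ →* A)
  have hj : ∀ u : (AS.B ψ)ˣ, ((j u : Aˣ) : A) = ((u : AS.B ψ) : A) := fun u => rfl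
  have hjinj : Function.Injective j := by
    intro a b hab
    apply Units.ext
    apply Subtype.ext
    have h1 := congrArg Units.val hab
    exact h1
  have hjf : ∀ g, j (f g) = φ g := fun g => Units.ext (hf g)
  obtain ⟨M, hM⟩ : ∃ M : Submodule ℤ (AS.B ψ),
    M = (AS.M' ψ).comap (AS.B ψ).subtype.toIntAlgHom.toLinearMap := ⟨_, rfl⟩
  rw [← hM] at hadj
  have hMm : ∀ b : AS.B ψ, b ∈ M ↔ (b : A) ∈ AS.M' ψ := by
    intro b; rw [hM]; rfl
  refine ⟨AS.B ψ, inferInstance, M.toAddSubgroup, f, ?_, ?_⟩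
  · constructor
    · constructor
      · intro a b hb
        exact hadj.hl (Submodule.mul_mem_mul Submodule.mem_top hb)
      · intro a b hb
        exact hadj.hr (Submodule.mul_mem_mul hb Submodule.mem_top)
    · intro b
      obtain ⟨k, hk⟩ := b.2
      refine ⟨k, ?_⟩
      show b - (k : AS.B ψ) ∈ M
      rw [hMm]
      have e : ((b - (k : AS.B ψ) : AS.B ψ) : A) = (b : A) - (k : A) := by
        push_cast
        rfl
      rw [e]
      exact hk
    · intro Λ hΛ hΛM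
      exact hadj.nil Λ hΛ hΛM
    · intro b hb
      exact hadj.tor b hb
    · rintro _ ⟨g, rfl⟩
      show ((f g : (AS.B ψ)ˣ) : AS.B ψ) - 1 ∈ M
      rw [hMm]
      have e : (((((f g : (AS.B ψ)ˣ) : AS.B ψ) - 1 : AS.B ψ)) : A) = ψ g - 1 := by
        push_cast
        rw [hf, hψg]
      rw [e]
      exact subset_span ⟨g, rfl⟩
    · rintro _ ⟨g, rfl⟩ u hu
      have hu' : ((u : AS.B ψ) - 1 : AS.B ψ) ∈ M := hu
      rw [hMm] at hu'
      have hjuΓ : j u ∈ Γ := by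
        rw [hΓm, hj]
        have e : ((((u : AS.B ψ) - 1 : AS.B ψ)) : A) = ((u : AS.B ψ) : A) - 1 := by push_cast; rfl
        rw [← e]
        exact hu'
      have hjuU : j u ∈ U := hΓU hjuΓ
      have h1 : (j u)⁻¹ * φ g * j u ∈ φ.range := by
        have h2 := hnrm.conj_mem ⟨φ g, hU ⟨g, rfl⟩⟩ (by
          rw [Subgroup.mem_subgroupOf]; exact ⟨g, rfl⟩) ⟨(j u)⁻¹, U.inv_mem hjuU⟩
        rw [Subgroup.mem_subgroupOf] at h2
        simpa using h2
      obtain ⟨g', hg'⟩ := h1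
      refine ⟨g', ?_⟩
      apply hjinj
      rw [hjf, hg', map_mul, map_mul, map_inv, hjf]
    · rintro _ ⟨a, rfl⟩ _ ⟨b, rfl⟩
      apply hjinj
      rw [RDN_iter, hjf, hjf, map_one]
      have h1 := hE ⟨φ a, ⟨a, rfl⟩⟩ ⟨φ b, ⟨b, rfl⟩⟩
      have h2 := congrArg φ.range.subtype h1
      rw [RDN_iter, map_one] at h2
      exact h2
  · intro g
    constructor
    · intro h
      rw [← hjf, h, map_one]
    · intro h
      apply hjinj
      rw [hjf, h, map_one]

end Pool.EN
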