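import Pool.Agent.Work.MP_3617d5_en.Defs2

/-!
# VID: the Nagata-Higman trick with binomial coefficients
-/

set_option autoImplicit false

universe u

namespace Pool.EN

theorem p_VID : Stmt_VID.{u} := by
  intro S _ B T m _ hB hT hE x hx y hy b hb
  have hpow : ∀ z ∈ B, ∀ n : ℕ, 1 ≤ n → z ^ n ∈ B := by
    intro z hz n hn
    induction n, hn using Nat.le_induction with
    | base => rwa [pow_one]
    | succ k hk ih => rw [pow_succ]; exact hB _ ih _ hz
  have hTl : ∀ z ∈ B, ∀ (n : ℕ) (t : S), t ∈ T → z ^ n * t ∈ T := by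
    intro z hz n t ht
    rcases Nat.eq_zero_or_pos n with h | h
    · rw [h, pow_zero, one_mul]; exact ht
    · exact (hT _ (hpow z hz n h) t ht).1
  have hTr : ∀ z ∈ B, ∀ (n : ℕ) (t : S), t ∈ T → t * z ^ n ∈ T := by
    intro z hz n t ht
    rcases Nat.eq_zero_or_pos n with h | h
    · rw [h, pow_zero, mul_one]; exact ht
    · exact (hT _ (hpow z hz n h) t ht).2
  have hyb : ∀ j : ℕ, y * b ^ j ∈ B := by
    intro j
    rcases Nat.eq_zero_or_pos j with h | h
    · rw [h, pow_zero, mul_one]; exact hy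
    · exact hB _ hy _ (hpow b hb j h)
  obtain ⟨c, hc⟩ : ∃ c : ℕ → S, ∀ t, c t = ∑ j ∈ Finset.range (m + 1),
      m.choose j • (b ^ j * x ^ t * b ^ (m - j)) := ⟨_, fun _ => rfl⟩
  have hc0 : c 0 = 2 ^ m • b ^ m := by
    rw [hc, ← Nat.sum_range_choose, Finset.sum_smul]
    refine Finset.sum_congr rfl fun j hj => ?_
    rw [Finset.mem_range] at hj
    rw [pow_zero, mul_one, ← pow_add, show j + (m - j) = m by omega]
  have hct : ∀ t, 1 ≤ t → c t ∈ T := by
    intro t ht
    have h := hE b hb (x ^ t) (hpow x hx t ht)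
    have h2 : c t = ∑ j ∈ Finset.range (m + 1), m.choose j • (b ^ (m - j) * x ^ t * b ^ j) := by
      rw [hc, ← Finset.sum_range_reflect]
      refine Finset.sum_congr rfl fun j hj => ?_
      rw [Finset.mem_range] at hj
      have h3 : m + 1 - 1 - j = m - j := by omega
      have h4 : m - (m - j) = j := by omega
      rw [h3, h4, Nat.choose_symm (by omega)]
    rw [h2]; exact h
  have hD : ∑ j ∈ Finset.range (m + 1), m.choose j • ((∑ t ∈ Finset.range (m + 1),
      m.choose t • (x ^ (m - t) * (y * b ^ j) * x ^ t)) * b ^ (m - j)) ∈ T :=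
    T.sum_mem fun j _ => T.nsmul_mem (hTr b hb _ _ (hE x hx _ (hyb j))) _
  have hD2 : ∑ j ∈ Finset.range (m + 1), m.choose j • ((∑ t ∈ Finset.range (m + 1),
      m.choose t • (x ^ (m - t) * (y * b ^ j) * x ^ t)) * b ^ (m - j)) =
      ∑ t ∈ Finset.range (m + 1), m.choose t • (x ^ (m - t) * (y * c t)) := by
    simp only [hc, Finset.sum_mul, Finset.mul_sum, Finset.smul_sum]
    rw [Finset.sum_comm]
    refine Finset.sum_congr rfl fun t _ => Finset.sum_congr rfl fun j _ => ?_
    rw [smul_mul_assoc, mul_smul_comm, mul_smul_comm, smul_comm]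
    simp only [mul_assoc]
  rw [hD2, Finset.sum_range_succ'] at hD
  have h5 : ∑ t ∈ Finset.range m, m.choose (t + 1) • (x ^ (m - (t + 1)) * (y * c (t + 1))) ∈ T :=
    T.sum_mem fun t _ => T.nsmul_mem (hTl x hx _ _ ((hT y hy _ (hct (t + 1) (by omega))).1)) _
  have h6 := (T.add_mem_cancel_left h5).1 hD
  rw [Nat.choose_zero_right, one_smul, Nat.sub_zero, hc0, mul_smul_comm, mul_smul_comm,
    ← mul_assoc] at h6
  exact h6

end Pool.EN
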