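import Pool.Agent.Work.MP_3617d5_nr.B_NHT

/-!
# MP_3617d5_al, THEOREM EN: a variant of the Nagata-Higman theorem

`∑ C(m, i) x ^ i s x ^ (m - i) = 0` for all `x`, `s` makes products of `2 ^ (m + 1) - 1` elements vanish (only `2 * m !` is inverted).
-/

set_option autoImplicit false

open Nat

universe u

namespace Pool.EN

open Pool.NR

def Stmt_NHV : Prop := ∀ (S : Type u) [Ring S] (B : AddSubgroup S) (m : ℕ), 1 ≤ m → (∀ a ∈ B, ∀ b ∈ B, a * b ∈ B) →
  ∀ T : AddSubgroup S, (∀ b ∈ B, ∀ t ∈ T, b * t ∈ T ∧ t * b ∈ T) → (∀ b ∈ B, (2 * m !) • b ∈ T → b ∈ T) →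
  (∀ x ∈ B, ∀ s ∈ B, ∑ i ∈ Finset.range (m + 1), m.choose i • (x ^ i * s * x ^ (m - i)) ∈ T) →
  ∀ l : List S, l.length = 2 ^ (m + 1) - 1 → (∀ b ∈ l, b ∈ B) → l.prod ∈ T

theorem NHV_pow {S : Type u} [Ring S] {B : AddSubgroup S} (hB : ∀ a ∈ B, ∀ b ∈ B, a * b ∈ B) {b : S} (hb : b ∈ B) :
    ∀ k : ℕ, b ^ (k + 1) ∈ B := by
  intro k
  induction k with
  | zero => simpa using hb
  | succ k ih =>
    rw [pow_succ]
    exact hB _ ih _ hb

/-- the identity behind the variant -/
theorem NHV_id {S : Type u} [Ring S] (a b z : S) (m : ℕ) :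
    ∑ j ∈ Finset.range (m + 1), m.choose j •
        ((∑ i ∈ Finset.range (m + 1), m.choose i • (a ^ i * (z * b ^ j) * a ^ (m - i))) * b ^ (m - j)) =
      (∑ i ∈ Finset.range m, m.choose i • (a ^ i * (z *
        ∑ j ∈ Finset.range (m + 1), m.choose j • (b ^ j * a ^ (m - i) * b ^ (m - j))))) + 2 ^ m • (a ^ m * z * b ^ m) := by
  have h1 : ∑ j ∈ Finset.range (m + 1), m.choose j •
        ((∑ i ∈ Finset.range (m + 1), m.choose i • (a ^ i * (z * b ^ j) * a ^ (m - i))) * b ^ (m - j)) =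
      ∑ i ∈ Finset.range (m + 1), m.choose i • (a ^ i * (z *
        ∑ j ∈ Finset.range (m + 1), m.choose j • (b ^ j * a ^ (m - i) * b ^ (m - j)))) := by
    simp only [Finset.sum_mul, Finset.mul_sum, Finset.smul_sum, smul_mul_assoc, mul_smul_comm]
    rw [Finset.sum_comm]
    refine Finset.sum_congr rfl fun i _ => Finset.sum_congr rfl fun j _ => ?_
    rw [smul_comm]
    simp only [mul_assoc]
  rw [h1, Finset.sum_range_succ, Nat.choose_self, one_smul, Nat.sub_self, pow_zero]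
  congr 1
  have h2 : ∀ j ∈ Finset.range (m + 1), m.choose j • (b ^ j * 1 * b ^ (m - j)) = m.choose j • b ^ m := by
    intro j hj
    have h3 : j + (m - j) = m := by
      have := Finset.mem_range.1 hj
      omega
    rw [mul_one, ← pow_add, h3]
  rw [Finset.sum_congr rfl h2, ← Finset.sum_smul, Nat.sum_range_choose, mul_smul_comm, mul_smul_comm, mul_assoc]

theorem p_NHV : Stmt_NHV.{u} := by
  intro S _ B m hm hB T hT hsat hf
  have hpow : ∀ b ∈ B, ∀ k : ℕ, 1 ≤ k → b ^ k ∈ B := by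
    intro b hb k hk
    obtain ⟨k', rfl⟩ := Nat.exists_eq_add_of_le' hk
    exact NHV_pow hB hb k'
  have hsat1 : ∀ b ∈ B, m ! • b ∈ T → b ∈ T := by
    intro b hb h
    refine hsat b hb ?_
    rw [mul_smul]
    exact T.nsmul_mem h 2
  have hsat2 : ∀ b ∈ B, ∀ k : ℕ, 2 ^ k • b ∈ T → b ∈ T := by
    intro b hb k
    induction k with
    | zero => intro h; simpa using h
    | succ k ih =>
      intro h
      apply ih
      have h1 : 2 ^ k • b ∈ B := B.nsmul_mem hb _
      refine hsat _ h1 ?_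
      have h2 : (2 * m !) • (2 ^ k • b) = m ! • (2 ^ (k + 1) • b) := by
        rw [← mul_smul, ← mul_smul]
        congr 1
        ring
      rw [h2]
      exact T.nsmul_mem h _
  -- the key
  have key : ∀ a ∈ B, ∀ z ∈ B, ∀ b ∈ B, a ^ m * z * b ^ m ∈ T := by
    intro a ha z hz b hb
    have haB : a ^ m ∈ B := hpow a ha m hm
    have hbB : b ^ m ∈ B := hpow b hb m hm
    refine hsat2 _ (hB _ (hB _ haB _ hz) _ hbB) m ?_
    have h1 : ∑ j ∈ Finset.range (m + 1), m.choose j •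
        ((∑ i ∈ Finset.range (m + 1), m.choose i • (a ^ i * (z * b ^ j) * a ^ (m - i))) * b ^ (m - j)) ∈ T := by
      refine T.sum_mem fun j hj => T.nsmul_mem ?_ _
      have h2 : z * b ^ j ∈ B := by
        rcases Nat.eq_zero_or_pos j with rfl | h0
        · simpa using hz
        · exact hB _ hz _ (hpow b hb j h0)
      have h3 := hf a ha _ h2
      rcases Nat.eq_zero_or_pos (m - j) with h0 | h0
      · rw [h0, pow_zero, mul_one]
        exact h3
      · exact (hT _ (hpow b hb _ h0) _ h3).2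
    have h4 : (∑ i ∈ Finset.range m, m.choose i • (a ^ i * (z *
        ∑ j ∈ Finset.range (m + 1), m.choose j • (b ^ j * a ^ (m - i) * b ^ (m - j))))) ∈ T := by
      refine T.sum_mem fun i hi => T.nsmul_mem ?_ _
      have h5 : 1 ≤ m - i := by
        have := Finset.mem_range.1 hi
        omega
      have h6 := (hT z hz _ (hf b hb _ (hpow a ha _ h5))).1
      rcases Nat.eq_zero_or_pos i with rfl | h0
      · rw [pow_zero, one_mul]
        exact h6
      · exact (hT _ (hpow a ha i h0) _ h6).1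
    rw [NHV_id a b z m] at h1
    exact (T.add_mem_cancel_left h4).1 h1
  -- the first ideal
  let T1 : AddSubgroup S :=
    { carrier := {t | t ∈ B ∧ ∀ z ∈ B, ∀ y ∈ B, t * z * y ^ m ∈ T}
      zero_mem' := ⟨B.zero_mem, fun z _ y _ => by rw [zero_mul, zero_mul]; exact T.zero_mem⟩
      add_mem' := fun {a b} ha hb => ⟨B.add_mem ha.1 hb.1, fun z hz y hy => by
        rw [add_mul, add_mul]
        exact T.add_mem (ha.2 z hz y hy) (hb.2 z hz y hy)⟩
      neg_mem' := fun {a} ha => ⟨B.neg_mem ha.1, fun z hz y hy => by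
        rw [neg_mul, neg_mul]
        exact T.neg_mem (ha.2 z hz y hy)⟩ }
  have k1 : ∀ l : List S, l.length = 2 ^ m - 1 → (∀ b ∈ l, b ∈ B) → l.prod ∈ T1 := by
    refine p_NHT S B m hm hB T1 ?_ ?_ ?_
    · intro b hb t ht
      refine ⟨⟨hB b hb t ht.1, fun z hz y hy => ?_⟩, ⟨hB t ht.1 b hb, fun z hz y hy => ?_⟩⟩
      · have h1 := (hT b hb _ (ht.2 z hz y hy)).1
        simpa only [mul_assoc] using h1
      · have h1 := ht.2 (b * z) (hB b hb z hz) y hy
        simpa only [mul_assoc] using h1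
    · intro b hb h
      refine ⟨hb, fun z hz y hy => ?_⟩
      refine hsat1 _ (hB _ (hB b hb z hz) _ (hpow y hy m hm)) ?_
      have h1 := h.2 z hz y hy
      rwa [smul_mul_assoc, smul_mul_assoc] at h1
    · intro x hx
      exact ⟨hpow x hx m hm, fun z hz y hy => key x hx z hz y hy⟩
  -- the second ideal
  let T2 : AddSubgroup S :=
    { carrier := {t | t ∈ B ∧ ∀ l : List S, l.length = 2 ^ m - 1 → (∀ b ∈ l, b ∈ B) → ∀ z ∈ B, l.prod * z * t ∈ T}
      zero_mem' := ⟨B.zero_mem, fun l _ _ z _ => by rw [mul_zero]; exact T.zero_mem⟩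
      add_mem' := fun {a b} ha hb => ⟨B.add_mem ha.1 hb.1, fun l hl hl' z hz => by
        rw [mul_add]
        exact T.add_mem (ha.2 l hl hl' z hz) (hb.2 l hl hl' z hz)⟩
      neg_mem' := fun {a} ha => ⟨B.neg_mem ha.1, fun l hl hl' z hz => by
        rw [mul_neg]
        exact T.neg_mem (ha.2 l hl hl' z hz)⟩ }
  have hlp : ∀ l : List S, l.length = 2 ^ m - 1 → (∀ b ∈ l, b ∈ B) → l.prod ∈ B := fun l hl hb => (k1 l hl hb).1
  have k2 : ∀ l : List S, l.length = 2 ^ m - 1 → (∀ b ∈ l, b ∈ B) → l.prod ∈ T2 := by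
    refine p_NHT S B m hm hB T2 ?_ ?_ ?_
    · intro b hb t ht
      refine ⟨⟨hB b hb t ht.1, fun l hl hl' z hz => ?_⟩, ⟨hB t ht.1 b hb, fun l hl hl' z hz => ?_⟩⟩
      · have h1 := ht.2 l hl hl' (z * b) (hB z hz b hb)
        simpa only [mul_assoc] using h1
      · have h1 := (hT b hb _ (ht.2 l hl hl' z hz)).2
        simpa only [mul_assoc] using h1
    · intro b hb h
      refine ⟨hb, fun l hl hl' z hz => ?_⟩
      refine hsat1 _ (hB _ (hB _ (hlp l hl hl') z hz) _ hb) ?_
      have h1 := h.2 l hl hl' z hz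
      rwa [mul_smul_comm] at h1
    · intro x hx
      exact ⟨hpow x hx m hm, fun l hl hl' z hz => (k1 l hl hl').2 z hz x hx⟩
  intro l hl hb
  have h2m : 1 ≤ 2 ^ m := Nat.one_le_two_pow
  have hlen : l.length = (2 ^ m - 1) + (1 + (2 ^ m - 1)) := by
    rw [hl, pow_succ]
    omega
  have h1 : (l.take (2 ^ m - 1)).length = 2 ^ m - 1 := by
    rw [List.length_take, hlen]
    omega
  have h2 : (l.drop (2 ^ m - 1)).length = (2 ^ m - 1) + 1 := by
    rw [List.length_drop, hlen]
    omega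
  obtain ⟨z, l2, h3⟩ := List.exists_cons_of_length_eq_add_one h2
  have h4 : l2.length = 2 ^ m - 1 := by
    rw [h3] at h2
    simpa using h2
  have hd : ∀ b ∈ l.drop (2 ^ m - 1), b ∈ B := fun b hb' => hb b (List.mem_of_mem_drop hb')
  rw [h3] at hd
  have h5 := (k2 l2 h4 fun b hb' => hd b (List.mem_cons_of_mem _ hb')).2 _ h1 (fun b hb' => hb b (List.mem_of_mem_take hb')) z
    (hd z List.mem_cons_self)
  rw [← List.take_append_drop (2 ^ m - 1) l, List.prod_append, h3, List.prod_cons, ← mul_assoc]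
  exact h5

end Pool.EN
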