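import Pool.Agent.Work.MP_3617d5_en.Defs2
import Pool.Agent.Work.MP_3617d5_en.NHV

set_option autoImplicit false

open Nat

universe u

namespace Pool.EN

open Pool.NR

theorem VNH_refl {S : Type u} [Ring S] (x y : S) (m : ℕ) :
    ∑ t ∈ Finset.range (m + 1), m.choose t • (x ^ (m - t) * y * x ^ t) =
      ∑ i ∈ Finset.range (m + 1), m.choose i • (x ^ i * y * x ^ (m - i)) := by
  rw [← Finset.sum_range_reflect]
  refine Finset.sum_congr rfl fun i hi => ?_
  have h1 : i ≤ m := by
    have := Finset.mem_range.1 hi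
    omega
  have h2 : m + 1 - 1 - i = m - i := by omega
  rw [h2, Nat.choose_symm h1, Nat.sub_sub_self h1]

theorem p_VNH (_hNHT : Stmt_NHT.{u}) (_hVID : Stmt_VID.{u}) : Stmt_VNH.{u} := by
  intro S _ B T m hm hB hT hs1 hs2 hf
  refine p_NHV S B m hm hB T hT ?_ ?_
  · intro b hb h
    refine hs1 b hb (hs2 _ (B.nsmul_mem hb _) ?_)
    obtain ⟨k, rfl⟩ := Nat.exists_eq_add_of_le' hm
    have h1 : 2 ^ (k + 1) • ((k + 1)! • b) = 2 ^ k • ((2 * (k + 1)!) • b) := by
      rw [← mul_smul, ← mul_smul]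
      congr 1
      ring
    rw [h1]
    exact T.nsmul_mem h _
  · intro x hx s hs
    rw [← VNH_refl]
    exact hf x hx s hs

end Pool.EN
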