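import Pool.Agent.Work.MP_3617d5_en.B_BAS
import Pool.Agent.Work.MP_3617d5_en.B_MUL
import Pool.Agent.Work.MP_3617d5_en.B_INV
import Pool.Agent.Work.MP_3617d5_en.B_LPB
import Pool.Agent.Work.MP_3617d5_en.B_EX2
import Pool.Agent.Work.MP_3617d5_en.B_EXV
import Pool.Agent.Work.MP_3617d5_en.B_G2
import Pool.Agent.Work.MP_3617d5_en.B_G3
import Pool.Agent.Work.MP_3617d5_en.B_E3
import Pool.Agent.Work.MP_3617d5_en.B_C2
import Pool.Agent.Work.MP_3617d5_en.B_A2V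
import Pool.Agent.Work.MP_3617d5_en.B_S2V
import Pool.Agent.Work.MP_3617d5_en.B_S3L
import Pool.Agent.Work.MP_3617d5_en.B_VID
import Pool.Agent.Work.MP_3617d5_en.B_VNH
import Pool.Agent.Work.MP_3617d5_en.B_HOV
import Pool.Agent.Work.MP_3617d5_en.B_HOL
import Pool.Agent.Work.MP_3617d5_en.B_FZP
import Pool.Agent.Work.MP_3617d5_en.B_FZN
import Pool.Agent.Work.MP_3617d5_en.B_GAI
import Pool.Agent.Work.MP_3617d5_en.B_DWV
import Pool.Agent.Work.MP_3617d5_en.B_QUN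
import Pool.Agent.Work.MP_3617d5_en.B_INW
import Pool.Agent.Work.MP_3617d5_en.B_RDN
import Pool.Agent.Work.MP_3617d5_en.B_FIW
import Pool.Agent.Work.MP_3fbbd3_adj.NP
import Pool.Agent.Work.MP_3617d5_nr.B_NHT
import Pool.Agent.Work.MP_3617d5_nr.B_NGI
import Pool.Agent.Work.MP_3617d5_nr.B_QUO
import Pool.Agent.Work.MP_3617d5_nr.B_GEN
import Pool.Agent.Work.MP_3617d5_nr.B_PUL
import Pool.Agent.Work.MP_3617d5_nr.B_SOL
import Pool.Agent.Work.MP_3617d5_nr.B_EXT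
import Pool.Agent.Work.MP_3617d5_nr.B_NAC
import Pool.Agent.Work.MP_3617d5_nr.B_ABE

/-!
# MP_3617d5_al, THEOREM EN for all `m < p`: all blocks together
-/

set_option autoImplicit false

universe u

namespace Pool.EN

open Pool.NR

theorem en_LPB : Stmt_LPB.{u} := p_LPB p_BAS p_MUL p_INV

theorem en_S2V : Stmt_S2V.{u} :=
  p_S2V p_BAS p_MUL p_INV en_LPB p_EXV (p_G2 p_INV) (p_C2 p_BAS p_MUL) p_A2V

theorem en_S3L : Stmt_S3L.{u} := p_S3L p_BAS p_MUL en_LPB p_EX2 (p_G3 p_INV) p_E3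

theorem en_DWV : Stmt_DWV.{u} :=
  p_DWV en_S2V en_S3L (p_HOV (p_VNH p_NHT p_VID)) (p_HOL p_NHT) p_FZP p_FZN (p_GAI p_FZP)

theorem en_INW : Stmt_INW.{u} := p_INW en_DWV p_QUN p_NGI p_QUO

theorem en_FIW : Stmt_FIW.{u} :=
  p_FIW en_INW (p_RDN Pool.Agent.Work.MP_3fbbd3_adj.blk_NP) p_NGI p_GEN
    (p_PUL (p_SOL (Pool.NR.p_EXT (p_NAC p_ABE))))

end Pool.EN
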