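import Pool.Agent.Work.MP_3617d5_en.Defs

/-!
# MP_3617d5_al, THEOREM EN, block A2
-/

set_option autoImplicit false

universe u

namespace Pool.EN

open Pool.NR

theorem p_A2 : Stmt_A2.{u} := by
  intro S _ z a hz i
  -- `W = z x z` with `x` commuting appropriately: `W = (z a)^(i+1) z`
  have hW : ∀ i : ℕ, (z * a) ^ (i + 1) * z = z * (a * z) ^ (i + 1) := by
    intro i
    induction i with
    | zero => rw [zero_add, pow_one, pow_one, mul_assoc]
    | succ i ih =>
      rw [pow_succ (z * a) (i + 1), pow_succ' (a * z) (i + 1)]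
      have : (z * a) ^ (i + 1) * (z * a) * z = ((z * a) ^ (i + 1) * z) * (a * z) := by
        noncomm_ring
      rw [this, ih]
      have h2 : (a * z) ^ (i + 1) * (a * z) = a * z * (a * z) ^ (i + 1) := by
        rw [← pow_succ, ← pow_succ']
      rw [mul_assoc, h2]
  have hr : ∀ i : ℕ, (z * a) ^ (i + 1) * z * (a * z - z * a - z * a * z) = (z * a) ^ (i + 1 + 1) * z := by
    intro i
    have e : (z * a) ^ (i + 1) * z * (a * z - z * a - z * a * z)
        = (z * a) ^ (i + 1) * (z * a) * z - (z * a) ^ (i + 1) * (z * z) * a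
          - (z * a) ^ (i + 1) * (z * z) * a * z := by noncomm_ring
    rw [e, hz]
    rw [← pow_succ]
    simp
  have hl : ∀ i : ℕ, (a * z - z * a - z * a * z) * ((z * a) ^ (i + 1) * z) = -((z * a) ^ (i + 1 + 1) * z) := by
    intro i
    rw [hW]
    have e : (a * z - z * a - z * a * z) * (z * (a * z) ^ (i + 1))
        = a * (z * z) * (a * z) ^ (i + 1) - z * ((a * z) * (a * z) ^ (i + 1))
          - z * a * (z * z) * (a * z) ^ (i + 1) := by noncomm_ring
    rw [e, hz, ← pow_succ', hW]
    simp
  induction i with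
  | zero => simp
  | succ i ih =>
    rw [Function.iterate_succ_apply', ih]
    show 2 ^ i • ((z * a) ^ (i + 1) * z) * (a * z - z * a - z * a * z)
      - (a * z - z * a - z * a * z) * 2 ^ i • ((z * a) ^ (i + 1) * z) = _
    rw [smul_mul_assoc, mul_smul_comm, hr, hl, smul_neg, sub_neg_eq_add, ← add_smul]
    congr 1
    rw [pow_succ]; ring

end Pool.EN
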