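import Pool.Agent.Work.MP_3617d5_en.Defs2

/-!
# A2V: a computation with a square zero element
-/

set_option autoImplicit false

universe u

namespace Pool.EN

theorem p_A2V : Stmt_A2V.{u} := by
  intro S _ z a s hz i
  obtain ⟨W, hW⟩ : ∃ W : S, W = a * z - z * a - z * a * z := ⟨_, rfl⟩
  obtain ⟨f, hf⟩ : ∃ f : ℕ → ℕ → S, ∀ p q, f p q = (z * a) ^ p * (z * s) * (z * a) ^ q * z :=
    ⟨_, fun _ _ => rfl⟩
  have h1 : ∀ p q, f p q * W = f p (q + 1) := by
    intro p q
    rw [hf, hf, hW, pow_succ]
    have e : (z * a) ^ p * (z * s) * (z * a) ^ q * z * (a * z - z * a - z * a * z)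
        = (z * a) ^ p * (z * s) * ((z * a) ^ q * (z * a)) * z
          - (z * a) ^ p * (z * s) * (z * a) ^ q * (z * z) * a
          - (z * a) ^ p * (z * s) * (z * a) ^ q * (z * z) * a * z := by noncomm_ring
    rw [e, hz, mul_zero, zero_mul, zero_mul, sub_zero, sub_zero]
  have h2 : ∀ p q, W * f p q = - f (p + 1) q := by
    intro p q
    obtain ⟨y, hy⟩ : ∃ y, (z * a) ^ p * (z * s) = z * y := by
      cases p with
      | zero => exact ⟨s, by rw [pow_zero, one_mul]⟩
      | succ p => exact ⟨a * (z * a) ^ p * (z * s), by rw [pow_succ']; simp only [mul_assoc]⟩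
    rw [hf, hf, hW, pow_succ', mul_assoc (z * a), hy]
    have e : (a * z - z * a - z * a * z) * (z * y * (z * a) ^ q * z)
        = a * (z * z) * y * (z * a) ^ q * z - z * a * (z * y) * (z * a) ^ q * z
          - z * a * (z * z) * y * (z * a) ^ q * z := by noncomm_ring
    rw [e, hz]
    simp only [mul_zero, zero_mul, sub_zero, zero_sub]
  have h3 : ∀ i, (fun v : S => v * W - W * v)^[i] (f 0 0) =
      ∑ t ∈ Finset.range (i + 1), i.choose t • f (i - t) t := by
    intro i
    induction i with
    | zero => simp
    | succ i ih =>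
      rw [Function.iterate_succ_apply', ih]
      show (∑ t ∈ Finset.range (i + 1), i.choose t • f (i - t) t) * W -
        W * (∑ t ∈ Finset.range (i + 1), i.choose t • f (i - t) t) = _
      rw [Finset.sum_mul, Finset.mul_sum, ← Finset.sum_sub_distrib,
        Finset.sum_congr rfl (g := fun t => i.choose t • f (i - t) (t + 1) +
          i.choose t • f (i - t + 1) t) (fun t _ => by
            rw [smul_mul_assoc, mul_smul_comm, h1, h2, smul_neg, sub_neg_eq_add]),
        Finset.sum_add_distrib,
        Finset.sum_range_succ' (fun t => (i + 1).choose t • f (i + 1 - t) t),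
        Finset.sum_range_succ' (fun t => i.choose t • f (i - t + 1) t)]
      have e2 : ∑ t ∈ Finset.range i, i.choose (t + 1) • f (i - (t + 1) + 1) (t + 1) =
          ∑ t ∈ Finset.range (i + 1), i.choose (t + 1) • f (i - t) (t + 1) := by
        rw [Finset.sum_range_succ, Nat.choose_succ_self, zero_smul, add_zero]
        refine Finset.sum_congr rfl fun t ht => ?_
        rw [Finset.mem_range] at ht
        rw [show i - (t + 1) + 1 = i - t by omega]
      have e1 : ∑ t ∈ Finset.range (i + 1), (i + 1).choose (t + 1) • f (i + 1 - (t + 1)) (t + 1) =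
          ∑ t ∈ Finset.range (i + 1), i.choose t • f (i - t) (t + 1) +
            ∑ t ∈ Finset.range (i + 1), i.choose (t + 1) • f (i - t) (t + 1) := by
        rw [← Finset.sum_add_distrib]
        refine Finset.sum_congr rfl fun t _ => ?_
        rw [Nat.choose_succ_succ, add_smul, show i + 1 - (t + 1) = i - t by omega]
      rw [e1, e2, Nat.choose_zero_right, Nat.choose_zero_right, Nat.sub_zero, Nat.sub_zero,
        add_assoc]
  have h4 := h3 i
  rw [hf, pow_zero, one_mul, mul_one] at h4
  rw [← hW, h4]
  exact Finset.sum_congr rfl fun t _ => by rw [hf]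

end Pool.EN
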