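import Pool.Agent.Work.MP_3617d5_en.Defs3
import Pool.Agent.Work.MP_3fbbd3_adj.AS

/-!
# MP_3617d5_al, THEOREM EN+, block AQ
-/

set_option autoImplicit false

universe u

namespace Pool.EN

open Pool.NR Pool.Agent.Work.MP_3fbbd3_adj

open scoped commutatorElement

theorem AQ_idl {S : Type u} [Ring S] {S' : Type u} [Ring S'] (π : S →+* S')
    (hπ : Function.Surjective π) {J : AddSubgroup S} (hJ : IdI J) :
    IdI (J.map π.toAddMonoidHom) := by
  constructor
  · intro a b hb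
    obtain ⟨a0, rfl⟩ := hπ a
    obtain ⟨b0, hb0, rfl⟩ := AddSubgroup.mem_map.1 hb
    exact AddSubgroup.mem_map.2 ⟨a0 * b0, hJ.left a0 b0 hb0, map_mul π a0 b0⟩
  · intro a b hb
    obtain ⟨a0, rfl⟩ := hπ a
    obtain ⟨b0, hb0, rfl⟩ := AddSubgroup.mem_map.1 hb
    exact AddSubgroup.mem_map.2 ⟨b0 * a0, hJ.right a0 b0 hb0, map_mul π b0 a0⟩

/-- the annihilator of `{c ∈ I | N c = 0}` -/
def AQ_ann {S : Type u} [Ring S] (I : AddSubgroup S) (N : ℕ) : AddSubgroup S where
  carrier := {a | ∀ c ∈ I, N • c = 0 → a * c = 0 ∧ c * a = 0}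
  zero_mem' := fun c _ _ => ⟨zero_mul c, mul_zero c⟩
  add_mem' := by
    intro a b ha hb c hc hN
    rw [add_mul, mul_add, (ha c hc hN).1, (ha c hc hN).2, (hb c hc hN).1, (hb c hc hN).2, add_zero]
    exact ⟨rfl, rfl⟩
  neg_mem' := by
    intro a ha c hc hN
    rw [neg_mul, mul_neg, (ha c hc hN).1, (ha c hc hN).2, neg_zero]
    exact ⟨rfl, rfl⟩

theorem AQ_mem {S : Type u} [Ring S] {I : AddSubgroup S} {N : ℕ} {a : S} :
    a ∈ AQ_ann I N ↔ ∀ c ∈ I, N • c = 0 → a * c = 0 ∧ c * a = 0 := Iff.rfl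

theorem AQ_ann_id {S : Type u} [Ring S] {I : AddSubgroup S} (hI : IdI I) (N : ℕ) :
    IdI (AQ_ann I N) := by
  constructor
  · intro a b hb
    rw [AQ_mem] at hb ⊢
    intro c hc hN
    refine ⟨by rw [mul_assoc, (hb c hc hN).1, mul_zero], ?_⟩
    rw [← mul_assoc]
    exact (hb (c * a) (hI.right a c hc) (by rw [← smul_mul_assoc, hN, zero_mul])).2
  · intro a b hb
    rw [AQ_mem] at hb ⊢
    intro c hc hN
    refine ⟨?_, by rw [← mul_assoc, (hb c hc hN).2, zero_mul]⟩
    rw [mul_assoc]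
    exact (hb (a * c) (hI.left a c hc) (by rw [← mul_smul_comm, hN, mul_zero])).1

theorem AQ_ind {p m : ℕ} {G : Type u} [Group G] {S : Type u} [Ring S] {η : G →* Sˣ}
    {M I : AddSubgroup S} (hR : Red p m η M I) (D : AddSubgroup S) (h1 : ∀ k : ℤ, (k : S) ∈ D)
    (h2 : ∀ g, ((η g : Sˣ) : S) - 1 ∈ D) (a : S) : a ∈ D := by
  obtain ⟨k, hk⟩ := hR.dec a
  have h3 : Submodule.span ℤ (Set.range fun g => ((η g : Sˣ) : S) - 1) ≤
      AddSubgroup.toIntSubmodule D := by
    rw [Submodule.span_le]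
    rintro _ ⟨g, rfl⟩
    exact h2 g
  have h4 : a - k ∈ D := h3 ((hR.spn _).1 hk)
  have h5 := D.add_mem h4 (h1 k)
  rwa [sub_add_cancel] at h5

theorem AQ_com {p m : ℕ} {G : Type u} [Group G] {S : Type u} [Ring S] {η : G →* Sˣ}
    {M I : AddSubgroup S} (hR : Red p m η M I) (a b : S) : a * b - b * a ∈ I := by
  have key : ∀ (g : G) (b : S), ((η g : Sˣ) : S) * b - b * ((η g : Sˣ) : S) ∈ I := by
    intro g b
    let D : AddSubgroup S :=
      { carrier := {b | ((η g : Sˣ) : S) * b - b * ((η g : Sˣ) : S) ∈ I}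
        zero_mem' := by
          show ((η g : Sˣ) : S) * 0 - 0 * ((η g : Sˣ) : S) ∈ I
          rw [mul_zero, zero_mul, sub_zero]
          exact I.zero_mem
        add_mem' := by
          intro x y hx hy
          have h := I.add_mem hx hy
          have e : ((η g : Sˣ) : S) * (x + y) - (x + y) * ((η g : Sˣ) : S) =
              (((η g : Sˣ) : S) * x - x * ((η g : Sˣ) : S)) +
                (((η g : Sˣ) : S) * y - y * ((η g : Sˣ) : S)) := by
            rw [mul_add, add_mul]; abel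
          show ((η g : Sˣ) : S) * (x + y) - (x + y) * ((η g : Sˣ) : S) ∈ I
          rw [e]
          exact h
        neg_mem' := by
          intro x hx
          have h := I.neg_mem hx
          have e : ((η g : Sˣ) : S) * (-x) - (-x) * ((η g : Sˣ) : S) =
              -(((η g : Sˣ) : S) * x - x * ((η g : Sˣ) : S)) := by
            rw [mul_neg, neg_mul]; abel
          show ((η g : Sˣ) : S) * (-x) - (-x) * ((η g : Sˣ) : S) ∈ I
          rw [e]
          exact h }
    refine AQ_ind hR D (fun k => ?_) (fun h => ?_) b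
    · show ((η g : Sˣ) : S) * (k : S) - (k : S) * ((η g : Sˣ) : S) ∈ I
      rw [(Int.cast_commute k ((η g : Sˣ) : S)).eq, sub_self]
      exact I.zero_mem
    · show ((η g : Sˣ) : S) * (((η h : Sˣ) : S) - 1) - (((η h : Sˣ) : S) - 1) * ((η g : Sˣ) : S) ∈ I
      have e1 : ((η ⁅g, h⁆ : Sˣ) : S) * (((η h : Sˣ) : S) * ((η g : Sˣ) : S)) =
          ((η g : Sˣ) : S) * ((η h : Sˣ) : S) := by
        rw [← Units.val_mul, ← Units.val_mul, ← Units.val_mul, ← map_mul, ← map_mul, ← map_mul,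
          commutatorElement_def]
        congr 2
        group
      have e : ((η g : Sˣ) : S) * (((η h : Sˣ) : S) - 1) - (((η h : Sˣ) : S) - 1) * ((η g : Sˣ) : S) =
          (((η ⁅g, h⁆ : Sˣ) : S) - 1) * (((η h : Sˣ) : S) * ((η g : Sˣ) : S)) := by
        rw [sub_mul _ (1 : S) (((η h : Sˣ) : S) * ((η g : Sˣ) : S)), e1, one_mul, mul_sub, sub_mul,
          mul_one, one_mul]
        abel
      rw [e]
      exact hR.idI.right _ _ (hR.com g h)
  let D : AddSubgroup S :=
    { carrier := {a | a * b - b * a ∈ I}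
      zero_mem' := by
        show (0 : S) * b - b * 0 ∈ I
        rw [mul_zero, zero_mul, sub_zero]
        exact I.zero_mem
      add_mem' := by
        intro x y hx hy
        have h := I.add_mem hx hy
        have e : (x + y) * b - b * (x + y) = (x * b - b * x) + (y * b - b * y) := by
          rw [mul_add, add_mul]; abel
        show (x + y) * b - b * (x + y) ∈ I
        rw [e]
        exact h
      neg_mem' := by
        intro x hx
        have h := I.neg_mem hx
        have e : (-x) * b - b * (-x) = -(x * b - b * x) := by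
          rw [mul_neg, neg_mul]; abel
        show (-x) * b - b * (-x) ∈ I
        rw [e]
        exact h }
  refine AQ_ind hR D (fun k => ?_) (fun g => ?_) a
  · show (k : S) * b - b * (k : S) ∈ I
    rw [(Int.cast_commute k b).eq, sub_self]
    exact I.zero_mem
  · show (((η g : Sˣ) : S) - 1) * b - b * (((η g : Sˣ) : S) - 1) ∈ I
    have e : (((η g : Sˣ) : S) - 1) * b - b * (((η g : Sˣ) : S) - 1) =
        ((η g : Sˣ) : S) * b - b * ((η g : Sˣ) : S) := by
      rw [sub_mul, mul_sub, one_mul, mul_one]; abel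
    rw [e]
    exact key g b

theorem p_AQ (hNP : S_NP.{u}) (hQUO : Stmt_QUO.{u}) : Stmt_AQ.{u} := by
  intro p m hp G _ hG hlf S _ η M I hR K
  obtain ⟨S', _, π, hπ, hker⟩ := hQUO S (AQ_ann I (p ^ K)) (AQ_ann_id hR.idI _)
  have hall : ∀ x : S', p ^ K • x = 0 := by
    intro x
    obtain ⟨a, rfl⟩ := hπ x
    rw [← map_nsmul, hker, AQ_mem]
    intro c _ hN
    refine ⟨?_, ?_⟩
    · rw [smul_mul_assoc, ← mul_smul_comm, hN, mul_zero]
    · rw [mul_smul_comm, ← smul_mul_assoc, hN, zero_mul]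
  have hle : I ≤ M := fun a ha => ((hR.mem a).1 ha).1
  have hlift : ∀ u' : S'ˣ, (u' : S') - 1 ∈ I.map π.toAddMonoidHom →
      ∃ u : Sˣ, (u : S) - 1 ∈ I ∧ Units.map (π : S →* S') u = u' := by
    intro u' hu'
    obtain ⟨b, hb, hbx⟩ := AddSubgroup.mem_map.1 hu'
    have hu : IsUnit (1 + b) := (hR.nil b hb).isUnit_one_add
    refine ⟨hu.unit, ?_, ?_⟩
    · rw [IsUnit.unit_spec, add_sub_cancel_left]
      exact hb
    · apply Units.ext
      rw [Units.coe_map]
      have h1 : π b = (u' : S') - 1 := hbx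
      change π ((hu.unit : Sˣ) : S) = (u' : S')
      rw [IsUnit.unit_spec, map_add, map_one, h1]
      abel
  let φ : G →* S' := (π : S →* S').comp ((Units.coeHom S).comp η)
  have hφ : ∀ g, φ g = π ((η g : Sˣ) : S) := fun _ => rfl
  refine ⟨S', inferInstance, π, hπ, fun a => by rw [hker, AQ_mem], AQ_idl π hπ hR.idM,
    AQ_idl π hπ hR.idI, AddSubgroup.map_mono hle, ?_, ?_, ?_, fun b _ => ⟨K, hall b⟩, ?_, ?_, ?_⟩
  · intro a b
    obtain ⟨a0, rfl⟩ := hπ a
    obtain ⟨b0, rfl⟩ := hπ b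
    refine AddSubgroup.mem_map.2 ⟨_, AQ_com hR a0 b0, ?_⟩
    show π (a0 * b0 - b0 * a0) = π a0 * π b0 - π b0 * π a0
    rw [map_sub, map_mul, map_mul]
  · intro a
    obtain ⟨a0, rfl⟩ := hπ a
    obtain ⟨k, hk⟩ := hR.dec a0
    refine ⟨k, AddSubgroup.mem_map.2 ⟨_, hk, ?_⟩⟩
    show π (a0 - k) = π a0 - k
    rw [map_sub, map_intCast]
  · intro Λ hfin hsub
    refine AS.loc_nil (φ := φ) hNP hp hG hlf (fun g => ?_) Λ hfin ?_
    · rw [AS.mem_t]
      exact ⟨K, hall _⟩
    · intro x hx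
      obtain ⟨y, hy, hyx⟩ := AddSubgroup.mem_map.1 (hsub hx)
      have hy2 := (hR.spn y).1 hy
      have hx2 : π y = x := hyx
      rw [← hx2]
      have h3 : Submodule.span ℤ (Set.range fun g => ((η g : Sˣ) : S) - 1) ≤
          (AS.M' φ).comap π.toIntAlgHom.toLinearMap := by
        rw [Submodule.span_le]
        rintro _ ⟨g, rfl⟩
        show π (((η g : Sˣ) : S) - 1) ∈ AS.M' φ
        rw [map_sub, map_one, ← hφ]
        exact Submodule.subset_span ⟨g, rfl⟩
      exact h3 hy2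
  · rintro _ ⟨_, ⟨g, rfl⟩, rfl⟩
    refine AddSubgroup.mem_map.2 ⟨((η g : Sˣ) : S) - 1, (hR.spn _).2 (Submodule.subset_span ⟨g, rfl⟩), ?_⟩
    show π (((η g : Sˣ) : S) - 1) = π ((η g : Sˣ) : S) - 1
    rw [map_sub, map_one]
  · rintro _ ⟨x, hx, rfl⟩ u' hu'
    obtain ⟨u, hu, rfl⟩ := hlift u' hu'
    refine ⟨u⁻¹ * x * u, hR.nrm x hx u hu, ?_⟩
    rw [map_mul, map_mul, map_inv]
  · rintro _ ⟨x, hx, rfl⟩ _ ⟨y, hy, rfl⟩
    have hsc : Function.Semiconj (Units.map (π : S →* S')) (fun z : Sˣ => z⁻¹ * x⁻¹ * z * x)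
        (fun z : S'ˣ => z⁻¹ * (Units.map (π : S →* S') x)⁻¹ * z * Units.map (π : S →* S') x) := by
      intro z
      simp only [map_mul, map_inv]
    have h := (hsc.iterate_right m) y
    rw [← h, hR.eng x hx y hy, map_one]

end Pool.EN
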