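import Pool.Agent.Work.MP_3617d5_en.Defs

/-!
# Block BAS
-/

set_option autoImplicit false

universe u

namespace Pool.EN

open Pool.NR

theorem p_BAS : Stmt_BAS.{u} := by
  intro S _ F hF n κ g
  have hanti : Antitone F := antitone_nat_of_succ_le hF.anti
  refine ⟨?_, ?_, ?_, ?_, ?_⟩
  · rintro q f f' ⟨c, hc, hm⟩ ⟨c', hc', hm'⟩
    refine ⟨fun U => c U + c' U, fun T => ?_, fun U => (F _).add_mem (hm U) (hm' U)⟩
    show f T + f' T = _
    rw [hc, hc', Finset.sum_add_distrib]
  · rintro q f f' ⟨c, hc, hm⟩ ⟨c', hc', hm'⟩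
    refine ⟨fun U => c U - c' U, fun T => ?_, fun U => (F _).sub_mem (hm U) (hm' U)⟩
    show f T - f' T = _
    rw [hc, hc', Finset.sum_sub_distrib]
  · rintro q q' f hq ⟨c, hc, hm⟩
    refine ⟨c, hc, fun U => hanti ?_ (hm U)⟩
    split_ifs <;> omega
  · intro s hs
    refine ⟨fun U => if U = ∅ then s else 0, fun T => ?_, fun U => ?_⟩
    · rw [Finset.sum_ite_eq' T.powerset ∅ (fun _ => s)]
      rw [if_pos (Finset.empty_mem_powerset T)]
    · show (if U = ∅ then s else 0) ∈ F ((∑ i ∈ U, κ i) + if U.card < 0 then g else 0)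
      by_cases h2 : U = ∅
      · subst h2
        simpa using hs
      · rw [if_neg h2]
        exact (F _).zero_mem
  · intro a ha
    refine ⟨fun U => ∑ i, if U = {i} then a i else 0, fun T => ?_, fun U => ?_⟩
    · rw [Finset.sum_comm]
      unfold ls
      rw [← Finset.sum_filter_add_sum_filter_not Finset.univ (fun i => i ∈ T)]
      have h1 : ∀ i ∈ Finset.univ.filter (fun i => i ∈ T),
          (∑ U ∈ T.powerset, if U = {i} then a i else 0) = a i := by
        intro i hi
        rw [Finset.mem_filter] at hi
        rw [Finset.sum_ite_eq' T.powerset {i} (fun _ => a i), if_pos]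
        rw [Finset.mem_powerset, Finset.singleton_subset_iff]
        exact hi.2
      have h2 : ∀ i ∈ Finset.univ.filter (fun i => ¬ i ∈ T),
          (∑ U ∈ T.powerset, if U = {i} then a i else 0) = 0 := by
        intro i hi
        rw [Finset.mem_filter] at hi
        rw [Finset.sum_ite_eq' T.powerset {i} (fun _ => a i), if_neg]
        rw [Finset.mem_powerset, Finset.singleton_subset_iff]
        exact hi.2
      rw [Finset.sum_congr rfl h1, Finset.sum_congr rfl h2, Finset.sum_const_zero, add_zero]
      refine Finset.sum_congr ?_ fun _ _ => rfl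
      ext i
      simp
    · show (∑ i, if U = {i} then a i else 0) ∈ F ((∑ i ∈ U, κ i) + if U.card < 1 then g else 0)
      refine (F _).sum_mem fun i _ => ?_
      by_cases h2 : U = {i}
      · subst h2
        simpa using ha i
      · rw [if_neg h2]
        exact (F _).zero_mem

end Pool.EN
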