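import Pool.Agent.Work.MP_3617d5_en.Defs

/-!
# MP_3617d5_al, THEOREM EN, block FIN: the theorem
-/

set_option autoImplicit false

universe u

namespace Pool.EN

open Pool.NR

theorem p_FIN (hINN : Stmt_INN.{u}) (hRDN : Stmt_RDN.{u}) (hNGI : Stmt_NGI.{u}) (hGEN : Stmt_GEN.{u})
    (hPUL : Stmt_PUL.{u}) : Stmt_FIN.{u} := by
  intro p n m hp hn hm G _ hG hGE hlf A _ χ hker U hU hnrm hE hnil htors
  obtain ⟨S, _, I, f, hgood, hf⟩ := hRDN p m hp G hG hlf A χ U hU hnrm hE hnil htors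
  refine hPUL G Sˣ p n hp hn hG hGE f ?_ ?_
  · have h : f.ker = χ.ker := by
      ext g
      rw [MonoidHom.mem_ker, MonoidHom.mem_ker]
      exact hf g
    rw [h]
    exact hker
  · intro x
    have h1 := hINN S p m I f.range hp hm hgood (f x) ⟨x, rfl⟩
    obtain ⟨hI, hmem, hnT⟩ := hNGI S _ h1
    obtain ⟨H, hHn, hHnil, hH⟩ := hGEN S _ hI hnT
    exact ⟨H, hHn, hHnil, (hH (f x)).mpr hmem⟩

end Pool.EN
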