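import Pool.Agent.Work.MP_3617d5_en.B_QUN
import Pool.Agent.Work.MP_3617d5_nr.B_IND

/-!
# MP_3617d5_al, THEOREM EN, block INN
-/

set_option autoImplicit false

universe u

namespace Pool.EN

open Pool.NR

theorem p_INN (hDWN : Stmt_DWN.{u}) (hQUN : Stmt_QUN.{u}) (hNGI : Stmt_NGI.{u}) (hQUO : Stmt_QUO.{u}) :
    Stmt_INN.{u} := by
  intro S₀ _ p m I₀ P₀ hp hm hG₀ g₀ hg₀
  have key : ∀ k : ℕ, ∀ (S : Type u) [Ring S] (I : AddSubgroup S) (P : Subgroup Sˣ), GoodN p m I P →
      ∀ g ∈ P, (((g : Sˣ) : S) - 1) ^ k = 0 → NilGen (((g : Sˣ) : S) - 1) := by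
    intro k
    induction k with
    | zero =>
      intro S _ I P _ g _ hz
      rw [pow_zero] at hz
      refine ⟨0, fun l _ => ?_⟩
      rw [← mul_one (zw _ l), hz, mul_zero]
    | succ k ih =>
      intro S _ I P hG g hg hz
      rcases Nat.eq_zero_or_pos k with hk | hk
      · subst hk
        rw [zero_add, pow_one] at hz
        refine ⟨0, fun l hl => ?_⟩
        rw [List.length_eq_zero_iff] at hl
        subst hl
        exact hz
      · set z : S := ((g : Sˣ) : S) - 1 with hzdef
        have hy : NilGen (z ^ k) :=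
          hDWN S p m I P hp hm hG g hg z (by rw [hzdef]; abel) k hk hz
        obtain ⟨hT, hyT, M, hM⟩ := hNGI S (z ^ k) hy
        obtain ⟨S', _, π, hπ, hker⟩ := hQUO S _ hT
        have hG' := hQUN S p m I P S' π hπ hG
        have hπz : ((Units.map (π : S →* S') g : S'ˣ) : S') - 1 = π z := by
          rw [hzdef, map_sub, map_one]
          rfl
        have hzk : (((Units.map (π : S →* S') g : S'ˣ) : S') - 1) ^ k = 0 := by
          rw [hπz, ← map_pow]
          exact (hker _).2 hyT
        obtain ⟨N, hN⟩ := ih S' _ _ hG' _ ⟨g, hg, rfl⟩ hzk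
        rw [hπz] at hN
        have hN' : ∀ l : List S, l.length = N →
            zw z l ∈ AddSubgroup.closure {x : S | ∃ a b, x = a * z ^ k * b} := by
          intro l hl
          rw [← hker, IND_map]
          exact hN _ (by rw [List.length_map, hl])
        refine ⟨M * (N + 1) + N, fun L hL => ?_⟩
        obtain ⟨l, hl1, hl2, hl3⟩ := IND_factor _ hT z N hN' M L hL
        rw [← hl3]
        obtain ⟨b, l', rfl⟩ : ∃ b l', l = b :: l' := by
          cases l with
          | nil => simp at hl1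
          | cons b l' => exact ⟨b, l', rfl⟩
        rw [List.prod_cons, hM l' (by simpa using hl1)
          (fun c hc => hl2 c (List.mem_cons_of_mem _ hc)), mul_zero]
  obtain ⟨k, hk⟩ := QUN_nil hG₀ (hG₀.sub g₀ hg₀)
  exact key k S₀ I₀ P₀ hG₀ g₀ hg₀ hk

end Pool.EN
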