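import Pool.Agent.Work.MP_3617d5_en.Defs

/-!
# MP_3617d5_al, THEOREM EN, block QUN
-/

set_option autoImplicit false

universe u

namespace Pool.EN

open Pool.NR

theorem QUN_nil {S : Type u} [Ring S] {p m : ℕ} {I : AddSubgroup S} {P : Subgroup Sˣ}
    (hG : GoodN p m I P) {b : S} (hb : b ∈ I) : IsNilpotent b := by
  obtain ⟨n, hn⟩ := hG.lnil {b} (Set.finite_singleton b) (Set.singleton_subset_iff.2 hb)
  refine ⟨n, ?_⟩
  have h1 := Submodule.pow_mem_pow _ (Submodule.mem_span_singleton_self (R := ℤ) b) n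
  rwa [hn, Submodule.mem_bot] at h1

theorem p_QUN : Stmt_QUN.{u} := by
  intro S _ p m I P S' _ π hπ hG
  have hlift : ∀ u' : S'ˣ, (u' : S') - 1 ∈ I.map π.toAddMonoidHom →
      ∃ u : Sˣ, (u : S) - 1 ∈ I ∧ Units.map (π : S →* S') u = u' := by
    intro u' hu'
    obtain ⟨b, hb, hbx⟩ := AddSubgroup.mem_map.1 hu'
    have hu : IsUnit (1 + b) := (QUN_nil hG hb).isUnit_one_add
    refine ⟨hu.unit, ?_, ?_⟩
    · rw [IsUnit.unit_spec, add_sub_cancel_left]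
      exact hb
    · apply Units.ext
      rw [Units.coe_map]
      have h1 : π b = (u' : S') - 1 := hbx
      change π ((hu.unit : Sˣ) : S) = (u' : S')
      rw [IsUnit.unit_spec, map_add, map_one, h1]
      abel
  refine ⟨⟨?_, ?_⟩, ?_, ?_, ?_, ?_, ?_, ?_⟩
  · intro a b hb
    obtain ⟨a0, rfl⟩ := hπ a
    obtain ⟨b0, hb0, rfl⟩ := AddSubgroup.mem_map.1 hb
    exact AddSubgroup.mem_map.2 ⟨a0 * b0, hG.idl.left a0 b0 hb0, map_mul π a0 b0⟩
  · intro a b hb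
    obtain ⟨a0, rfl⟩ := hπ a
    obtain ⟨b0, hb0, rfl⟩ := AddSubgroup.mem_map.1 hb
    exact AddSubgroup.mem_map.2 ⟨b0 * a0, hG.idl.right a0 b0 hb0, map_mul π b0 a0⟩
  · intro a
    obtain ⟨a0, rfl⟩ := hπ a
    obtain ⟨k, hk⟩ := hG.dec a0
    refine ⟨k, AddSubgroup.mem_map.2 ⟨_, hk, ?_⟩⟩
    show π (a0 - k) = π a0 - k
    rw [map_sub, map_intCast]
  · intro Λ' hfin hsub
    classical
    have h1 : ∀ x : S', ∃ y : S, x ∈ Λ' → y ∈ I ∧ π y = x := by
      intro x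
      by_cases hx : x ∈ Λ'
      · obtain ⟨y, hy, hyx⟩ := AddSubgroup.mem_map.1 (hsub hx)
        exact ⟨y, fun _ => ⟨hy, hyx⟩⟩
      · exact ⟨0, fun h => absurd h hx⟩
    choose f hf using h1
    obtain ⟨n, hn⟩ := hG.lnil (f '' Λ') (hfin.image f) (by
      rintro _ ⟨x, hx, rfl⟩
      exact (hf x hx).1)
    refine ⟨n, ?_⟩
    have h2 : Submodule.span ℤ Λ' ≤
        Submodule.map π.toIntAlgHom.toLinearMap (Submodule.span ℤ (f '' Λ')) := by
      rw [Submodule.span_le]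
      intro x hx
      exact ⟨f x, Submodule.subset_span ⟨x, hx, rfl⟩, (hf x hx).2⟩
    rw [eq_bot_iff]
    refine le_trans (pow_le_pow_left' h2 n) ?_
    rw [← Submodule.map_pow, hn, Submodule.map_bot]
  · intro b hb
    obtain ⟨b0, hb0, rfl⟩ := AddSubgroup.mem_map.1 hb
    obtain ⟨e, he⟩ := hG.tor b0 hb0
    refine ⟨e, ?_⟩
    show p ^ e • π b0 = 0
    rw [← map_nsmul, he, map_zero]
  · rintro _ ⟨x, hx, rfl⟩
    refine AddSubgroup.mem_map.2 ⟨_, hG.sub x hx, ?_⟩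
    show π ((x : S) - 1) = π (x : S) - 1
    rw [map_sub, map_one]
  · rintro _ ⟨x, hx, rfl⟩ u' hu'
    obtain ⟨u, hu, rfl⟩ := hlift u' hu'
    refine ⟨u⁻¹ * x * u, hG.nrm x hx u hu, ?_⟩
    rw [map_mul, map_mul, map_inv]
  · rintro _ ⟨x, hx, rfl⟩ _ ⟨y, hy, rfl⟩
    have hsc : Function.Semiconj (Units.map (π : S →* S')) (fun z : Sˣ => z⁻¹ * x⁻¹ * z * x)
        (fun z : S'ˣ => z⁻¹ * (Units.map (π : S →* S') x)⁻¹ * z * Units.map (π : S →* S') x) := by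
      intro z
      simp only [map_mul, map_inv]
    have h := (hsc.iterate_right m) y
    rw [← h, hG.eng x hx y hy, map_one]

end Pool.EN
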