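import Pool.Agent.Work.MP_3617d5_nr.Interface

/-!
# MP_3617d5_al, THEOREM EN: normal Engel subgroups of unit groups, the blocks

Files `B_X.lean` in `Pool/Agent/Work/MP_3617d5_en`, `import Pool.Agent.Work.MP_3617d5_en.Defs`, `universe u`,
namespace `Pool.EN`, `open Pool.NR`, `theorem p_X (hA : Stmt_A.{u}) .. : Stmt_X.{u}` with exactly the blocks named
after `uses` as hypotheses in that order. Auxiliary lemmas with the prefix `X_`.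
-/

set_option autoImplicit false

open Nat

universe u

namespace Pool.EN

open Pool.NR

/-! ## Notions -/

section
variable {S : Type u} [Ring S]

/-- a filtration of the subring `F 0` by ideals; `F 1` is nil -/
structure Fil (F : ℕ → AddSubgroup S) : Prop where
  one : (1 : S) ∈ F 0
  mul : ∀ i j : ℕ, ∀ x ∈ F i, ∀ y ∈ F j, x * y ∈ F (i + j)
  anti : ∀ i : ℕ, F (i + 1) ≤ F i
  nil : ∀ x ∈ F 1, IsNilpotent x

/-- functions of subsets with Moebius coefficients in the filtration; those with less than `q` letters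
have the gap `g` -/
def NN {n : ℕ} (F : ℕ → AddSubgroup S) (κ : Fin n → ℕ) (g q : ℕ) (f : Finset (Fin n) → S) : Prop :=
  ∃ c : Finset (Fin n) → S, (∀ T, f T = ∑ U ∈ T.powerset, c U) ∧
    ∀ U, c U ∈ F ((∑ i ∈ U, κ i) + if U.card < q then g else 0)

/-- sum over a subset -/
def ls {n : ℕ} (a : Fin n → S) (T : Finset (Fin n)) : S := ∑ i ∈ T, a i

/-- ordered product over a subset -/
def lp {n : ℕ} (x : Fin n → Sˣ) (T : Finset (Fin n)) : Sˣ :=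
  ((List.finRange n).map fun i => if i ∈ T then x i else 1).prod

/-- the symmetric sum of the words `w a w a ⋯ w a w` -/
def sy {n : ℕ} (w : S) (a : Fin n → S) : S :=
  ∑ τ : Equiv.Perm (Fin n), (List.ofFn fun i => w * a (τ i)).prod * w

/-- the symmetric sums of words have higher degree -/
def SymF (F : ℕ → AddSubgroup S) (w : S) (n k0 : ℕ) : Prop :=
  ∀ κ : Fin n → ℕ, (∀ i, k0 ≤ κ i) → ∀ a : Fin n → S, (∀ i, a i ∈ F (κ i)) →
    2 ^ (n - 1) • sy w a ∈ F ((∑ i, κ i) + n + 2)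

/-- the local situation: `g = 1 + z` in the Engel group `P`, which is normalised by `1 + F 1` -/
structure Loc (m : ℕ) (F : ℕ → AddSubgroup S) (P : Subgroup Sˣ) (z : S) (k : ℕ) (g : Sˣ) : Prop where
  fil : Fil F
  z0 : z ∈ F 0
  zn : z ^ (k + 1) = 0
  w1 : z ^ k ∈ F 1
  gz : (g : S) = 1 + z
  gP : g ∈ P
  nrm : ∀ x ∈ P, ∀ u : Sˣ, (u : S) - 1 ∈ F 1 → u⁻¹ * x * u ∈ P
  eng : ∀ x ∈ P, ∀ y ∈ P, (fun v : Sˣ => v⁻¹ * x⁻¹ * v * x)^[m] y = 1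

/-- the filtration of the subring `E` by the number of factors `w` -/
def FZ (E : Subring S) (w : S) (j : ℕ) : AddSubgroup S :=
  AddSubgroup.closure {x | ∃ l : List S, l.length = j ∧ (∀ b ∈ l, b ∈ E) ∧
    ∃ a ∈ E, x = (l.map (· * w)).prod * a}

/-- `I` is a locally nilpotent, `p`-torsion ideal, `S = ℤ + I`, `P` a subgroup of `1 + I` normalised by `1 + I`,
`P` is `m`-Engel -/
structure GoodN (p m : ℕ) (I : AddSubgroup S) (P : Subgroup Sˣ) : Prop where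
  idl : IdI I
  dec : ∀ a : S, ∃ k : ℤ, a - k ∈ I
  lnil : ∀ Λ : Set S, Λ.Finite → Λ ⊆ I → ∃ n : ℕ, (Submodule.span ℤ Λ) ^ n = ⊥
  tor : ∀ b ∈ I, ∃ e : ℕ, p ^ e • b = 0
  sub : ∀ x ∈ P, (x : S) - 1 ∈ I
  nrm : ∀ x ∈ P, ∀ u : Sˣ, (u : S) - 1 ∈ I → u⁻¹ * x * u ∈ P
  eng : ∀ x ∈ P, ∀ y ∈ P, (fun v : Sˣ => v⁻¹ * x⁻¹ * v * x)^[m] y = 1

end

/-! ## A. The calculus of functions of subsets -/

/-- **BAS** (60). Sums, negatives, monotony in `q`, constants (`c ∅ = s`), `ls` (`c {i} = a i`, other `c U = 0`). -/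
def Stmt_BAS : Prop := ∀ (S : Type u) [Ring S] (F : ℕ → AddSubgroup S), Fil F → ∀ (n : ℕ) (κ : Fin n → ℕ) (g : ℕ),
  (∀ (q : ℕ) (f f' : Finset (Fin n) → S), NN F κ g q f → NN F κ g q f' → NN F κ g q (fun T => f T + f' T)) ∧
  (∀ (q : ℕ) (f f' : Finset (Fin n) → S), NN F κ g q f → NN F κ g q f' → NN F κ g q (fun T => f T - f' T)) ∧
  (∀ (q q' : ℕ) (f : Finset (Fin n) → S), q' ≤ q → NN F κ g q f → NN F κ g q' f) ∧
  (∀ s ∈ F 0, NN F κ g 0 (fun _ => s)) ∧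
  (∀ a : Fin n → S, (∀ i, a i ∈ F (κ i)) → NN F κ g 1 (ls a))

/-- **MUL** (100). `c'' U = ∑_{(A, B), A ∪ B = U} c A * c' B`. The degree of `c A * c' B` is at least `κ A + κ B`; if `A`, `B` are not
disjoint this is `≥ κ U + g`; if they are disjoint and `|U| < q + r`, then `|A| < q` or `|B| < r`. `F` is antitone
(`Fil.anti`). Sum formula: `(∑_{A ⊆ T} c A) * (∑_{B ⊆ T} c' B) = ∑_{U ⊆ T} ∑_{A ∪ B = U} ..` (`Finset.sum_mul_sum`,
`Finset.sum_product'`, `Finset.sum_fiberwise_of_maps_to`; use `c'' U = ∑ x ∈ U.powerset ×ˢ U.powerset with x.1 ∪ x.2 = U, ..`). -/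
def Stmt_MUL : Prop := ∀ (S : Type u) [Ring S] (F : ℕ → AddSubgroup S), Fil F → ∀ (n : ℕ) (κ : Fin n → ℕ) (g : ℕ),
  (∀ i, g ≤ κ i) → ∀ (q r : ℕ) (f f' : Finset (Fin n) → S), NN F κ g q f → NN F κ g r f' →
  NN F κ g (q + r) (fun T => f T * f' T)

/-- **INV** (50). Units `1 + b`: `b ∈ F 1` is nilpotent; the inverse is a finite geometric series. -/
def Stmt_INV : Prop := ∀ (S : Type u) [Ring S] (F : ℕ → AddSubgroup S), Fil F → ∀ j : ℕ, 1 ≤ j →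
  (∀ b ∈ F j, ∃ u : Sˣ, (u : S) = 1 + b) ∧
  ∀ u : Sˣ, (u : S) - 1 ∈ F j → ((u⁻¹ : Sˣ) : S) - 1 ∈ F j

/-- **LPB** (100), uses BAS MUL INV. `lp x T` is the product over the list of the functions `T ↦ if i ∈ T then x i else 1`; each minus 1 is
`ls`-like (`c {i} = x i - 1`). By list induction, `(1 + f)(1 + f') - 1 = f + f' + f f'`. The inverse is the product of the
inverses in the other order. -/
def Stmt_LPB : Prop := ∀ (S : Type u) [Ring S] (F : ℕ → AddSubgroup S), Fil F → ∀ (n : ℕ) (κ : Fin n → ℕ) (g : ℕ),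
  1 ≤ g → (∀ i, g ≤ κ i) → ∀ x : Fin n → Sˣ, (∀ i, ((x i : Sˣ) : S) - 1 ∈ F (κ i)) →
  NN F κ g 1 (fun T => ((lp x T : Sˣ) : S) - 1) ∧ NN F κ g 1 (fun T => (((lp x T)⁻¹ : Sˣ) : S) - 1) ∧
  ∀ ρ : Fin n → S, (∀ i, ρ i ∈ F (κ i)) → (∀ i, ((x i : Sˣ) : S) - 1 - ρ i ∈ F (κ i + g)) →
    NN F κ g 2 (fun T => ((lp x T : Sˣ) : S) - 1 - ls ρ T)

/-- **EXT** (120). Two expansions of one function have the same coefficients (strong induction). `(w * ls a T) ^ n * w =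
∑_{r : Fin n → Fin n, all r j ∈ T} (∏ w * a (r j)) * w`, so `c U` is the sum over the `r` with image `U`, and for `U = univ` these are
the bijections. -/
def Stmt_EXT : Prop := ∀ (S : Type u) [Ring S] (F : ℕ → AddSubgroup S), Fil F → ∀ (n : ℕ) (κ : Fin n → ℕ) (g : ℕ) (w : S)
  (a : Fin n → S) (c : ℕ), NN F κ g (n + 1) (fun T => c • ((w * ls a T) ^ n * w)) → c • sy w a ∈ F ((∑ i, κ i) + g)

/-! ## B. The case `k ≥ 2` -/

/-- **G3** (100), uses INV. `w = z ^ k`, `w * z = z * w = 0`, `w * z ^ (k - 1) = 0 = z ^ (k - 1) * w` and `w * w = 0` (`2 k - 1 ≥ k + 1`). `h`: `u = 1 + w a z ^ (k-1)`,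
`h = u⁻¹ g⁻¹ u g = 1 + u⁻¹ g⁻¹ (w a z^(k-1) z - z w a z^(k-1)) = 1 + u⁻¹ g⁻¹ w a w`, `g⁻¹ w = w` (`g w = w`), `u⁻¹ w = w` (`u w = w`).
`c`: `u = 1 + z ^ (k-1) a`, `c = u⁻¹ g⁻¹ u g = 1 + u⁻¹ g⁻¹ (z^(k-1) a z - w a)`; `w u = w`, `w g = w`, so `w c = w`;
`(c - 1) w = - u⁻¹ g⁻¹ w a w = - u⁻¹ w a w = - w a w - (u⁻¹ - 1) w a w`. -/
def Stmt_G3 : Prop := ∀ (S : Type u) [Ring S] (m : ℕ) (F : ℕ → AddSubgroup S) (P : Subgroup Sˣ) (z : S) (k : ℕ) (g : Sˣ),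
  Loc m F P z k g → 2 ≤ k → ∀ j : ℕ, 1 ≤ j → ∀ a ∈ F j,
  (∃ h ∈ P, ((h : Sˣ) : S) = 1 + z ^ k * a * z ^ k) ∧
  ∃ c ∈ P, ((c : Sˣ) : S) - 1 ∈ F j ∧ z ^ k * ((c : Sˣ) : S) = z ^ k ∧
    (((c : Sˣ) : S) - 1) * z ^ k + z ^ k * a * z ^ k ∈ F (2 * j + 2)

/-- **E3** (80). By induction the `i`-th iterate is `1 + (c⁻¹ - 1) ^ i * (w a w)` (with `x = w a w`: `x c = x`, `x c⁻¹ = x`, `x * x = 0`,
`x * ((c⁻¹ - 1) ^ i * x) = 0`; compare `B_KGR`). So `(c⁻¹ - 1) ^ m * (w a w) = 0`; `c⁻¹ - 1 = - c⁻¹ (c - 1)`, multiply by `(- c) ^ m`. -/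
def Stmt_E3 : Prop := ∀ (S : Type u) [Ring S] (m : ℕ) (w a : S) (h c : Sˣ), (h : S) = 1 + w * a * w → w * w = 0 →
  w * (c : S) = w → (fun v : Sˣ => v⁻¹ * c⁻¹ * v * c)^[m] h = 1 → ((c : S) - 1) ^ m * (w * a * w) = 0

/-- **S3** (150), uses BAS MUL LPB EXT G3 E3. `n = m + 1`, `g = k0 = m + 3`. `w = z ^ k`, `c i` from G3 for `a i`, `c T = lp c T ∈ P`, `w * c T = w`; `h T` from G3 for `ls a T ∈ F 1`. E3:
`(c T - 1) ^ m * (w * ls a T * w) = 0`. `NN 2 (fun T => (c T - 1) * w + w * ls a T * w)`: from LPB, more precisely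
`(lp c T - 1) * w`: expansion with coefficients `∏_{i ∈ U} (c i - 1) * w`, those with one letter are `- w a w` up to the gap (list
induction as in LPB; or LPB with `ρ i = c i - 1` (gap zero): `NN 2 (lp c - 1 - ls ρ)`, times `w`, and
`ls ρ T * w + w * ls a T * w = ls (fun i => ρ i * w + w * a i * w) T`, whose coefficients are in `F (2 κ i + 2)`, `≤ F (κ i + g)`). Then by induction
`NN (j + 2) (fun T => (c T - 1) ^ j * (w * ls a T * w) - (-1) ^ j * ((w * ls a T) ^ (j + 1) * w))`. At `j = m`: `NN (m + 2)` of `± (w ls) ^ (m+1) w`; EXT. -/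
def Stmt_S3 : Prop := ∀ (S : Type u) [Ring S] (m : ℕ) (F : ℕ → AddSubgroup S) (P : Subgroup Sˣ) (z : S) (k : ℕ) (g : Sˣ),
  Loc m F P z k g → 2 ≤ k → SymF F (z ^ k) (m + 1) (m + 3)

/-! ## C. The case `k = 1` -/

/-- **G2** (100), uses INV. `z * z = 0`, `g⁻¹ = 1 - z`. `h`: `u = 1 + z a`, `h = u⁻¹ g⁻¹ u g = 1 + u⁻¹ (1 - z) z a z = 1 + z a z + (u⁻¹ - 1) z a z`, `u⁻¹ - 1 ∈ F (j + 1)`.
`c`: `u = 1 + a`, `c = u⁻¹ g⁻¹ u g = 1 + u⁻¹ (1 - z) (a z - z a) = 1 + u⁻¹ (a z - z a - z a z)`. -/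
def Stmt_G2 : Prop := ∀ (S : Type u) [Ring S] (m : ℕ) (F : ℕ → AddSubgroup S) (P : Subgroup Sˣ) (z : S) (g : Sˣ),
  Loc m F P z 1 g → ∀ j : ℕ, 1 ≤ j → ∀ a ∈ F j,
  (∃ h ∈ P, ((h : Sˣ) : S) - 1 - z * a * z ∈ F (2 * j + 3)) ∧
  ∃ c ∈ P, ((c : Sˣ) : S) - 1 - (a * z - z * a - z * a * z) ∈ F (2 * j + 1)

/-- **C2** (150), uses BAS MUL. `z_i` = the iterate, `f_i = z_i - 1`, `f_i' = z_i⁻¹ - 1`, `W_i` = the iterate of `v ↦ v ρ - ρ v`. Induction on `i`: `NN (i+1) f_i`, `NN 1 f_i'`,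
`NN (i+2) (f_i - W_i)`, `NN (i+1) W_i`. `z_{i+1} = z_i⁻¹ c⁻¹ z_i c`, `f_{i+1} = z_i⁻¹ c⁻¹ (f_i γ - γ f_i)` with `γ = c - 1`, and `z_i⁻¹ c⁻¹ = 1 + e`, `NN 1 e`;
`f_{i+1} - (f_i γ - γ f_i)` is `NN (i+3)`, `f_i γ - W ρ = (f_i - W) γ + W (γ - ρ)`; `f_{i+1}' = c⁻¹ z_i⁻¹ (c z_i - z_i c) = (1 + e') (γ f_i - f_i γ)`. -/
def Stmt_C2 : Prop := ∀ (S : Type u) [Ring S] (F : ℕ → AddSubgroup S), Fil F → ∀ (n : ℕ) (κ : Fin n → ℕ) (g : ℕ),
  (∀ i, g ≤ κ i) → ∀ (h c : Finset (Fin n) → Sˣ) (W ρ : Finset (Fin n) → S),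
  NN F κ g 1 (fun T => ((h T : Sˣ) : S) - 1) → NN F κ g 1 (fun T => (((h T)⁻¹ : Sˣ) : S) - 1) →
  NN F κ g 1 (fun T => ((c T : Sˣ) : S) - 1) → NN F κ g 1 (fun T => (((c T)⁻¹ : Sˣ) : S) - 1) →
  NN F κ g 2 (fun T => ((h T : Sˣ) : S) - 1 - W T) → NN F κ g 2 (fun T => ((c T : Sˣ) : S) - 1 - ρ T) →
  ∀ i : ℕ, NN F κ g (i + 2) (fun T =>
    (((fun v : Sˣ => v⁻¹ * (c T)⁻¹ * v * c T)^[i] (h T) : Sˣ) : S) - 1 - (fun v : S => v * ρ T - ρ T * v)^[i] (W T))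

/-- **A2** (30). `z * z = 0`. -/
def Stmt_A2 : Prop := ∀ (S : Type u) [Ring S] (z a : S), z * z = 0 → ∀ i : ℕ,
  (fun v : S => v * (a * z - z * a - z * a * z) - (a * z - z * a - z * a * z) * v)^[i] (z * a * z) =
    2 ^ i • ((z * a) ^ (i + 1) * z)

/-- **S2** (120), uses BAS MUL INV LPB EXT G2 C2 A2. `n = m + 1`, `g = k0 = m + 3`. `h i`, `c i` from G2 for `a i`, `h T = lp h T`, `c T = lp c T` in `P`; `W T = z * ls a T * z = ls (z a z) T`,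
`ρ T = ls a T * z - z * ls a T - z * ls a T * z = ls (..) T`. LPB: hypotheses of C2 (`F (2 κ + 1) ≤ F (κ + g)`). C2 for `i = m`: the iterate is 1, so
`NN (m + 2)` of the iterate of `v ρ - ρ v`, A2: `2 ^ m • ((z * ls a T) ^ (m + 1) * z)`; EXT. -/
def Stmt_S2 : Prop := ∀ (S : Type u) [Ring S] (m : ℕ) (F : ℕ → AddSubgroup S) (P : Subgroup Sˣ) (z : S) (g : Sˣ),
  Loc m F P z 1 g → SymF F (z ^ 1) (m + 1) (m + 3)

/-! ## D. Nagata-Higman -/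

/-- **HOM** (250). `p_NHT` (block NHT of `MP_3617d5_nr`, `import Pool.Agent.Work.MP_3617d5_nr.B_NHT`, as a hypothesis `Stmt_NHT`) in the ring `Polynomial S`.
`B` = the polynomials with `coeff j = w * a`, `a ∈ F (j - 1)`, and `coeff j = 0` for `j < k0 + 1`. `T` = the polynomials with `coeff j * w ∈ F (j + 2)` for all `j`.
`B B ⊆ B`: `(w a)(w b) = w (a w b)`. `B T, T B ⊆ T`: `t_i (w a) w = (t_i w) (a w)`. Saturated: `n ! • (b_j w) ∈ F (j + 2)`, `b_j w ∈ F 1` is `p`-torsion, `n !` is prime to `p`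
(`b_j ∈ F j`). `x ^ n ∈ T` for `x ∈ B`: it is enough that `(n ! * 2 ^ (n-1)) • coeff J (x ^ n) * w ∈ F (J + 2)`: `x = ∑ monomial j (x_j)`,
`x ^ n = ∑_{r : Fin n → supp} ∏ ..` (`MultilinearMap.map_sum_finset` for `MultilinearMap.mkPiAlgebraFin`, or `List.prod_ofFn`), `coeff J` = the sum over the `r` with `∑ r = J` of
`∏ x_(r i)`; this set of `r` is invariant under `Perm (Fin n)`, so `n ! • ∑_r ∏ x_(r i) w = ∑_r ∑_τ ∏ x_(r (τ i)) w = ∑_r sy w a_r`, `x_j = w a_j`, SymF with `κ i = r i - 1 ≥ k0`,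
`∑ κ + n + 2 = J + 2`. Then the list of the `monomial (k0 + 1) (w * a)`. -/
def Stmt_HOM : Prop := ∀ (S : Type u) [Ring S] (F : ℕ → AddSubgroup S), Fil F → ∀ (w : S) (p n k0 : ℕ), w ∈ F 1 → p.Prime → 2 < p → 1 ≤ n → n < p →
  (∀ x ∈ F 1, ∃ e : ℕ, p ^ e • x = 0) → SymF F w n k0 →
  ∀ l : List S, l.length = 2 ^ n - 1 → (∀ b ∈ l, b ∈ F k0) → (l.map (w * ·)).prod * w ∈ F ((2 ^ n - 1) * (k0 + 1) + 2)

/-! ## E. The filtration by the number of factors `w` -/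

/-- **FZP** (80). `(l.map (· * w)).prod * a * ((l'.map (· * w)).prod * a')`: the first letter of `l'` is multiplied by `a` on the left. -/
def Stmt_FZP : Prop := ∀ (S : Type u) [Ring S] (E : Subring S) (w : S), w ∈ E →
  (∀ x, x ∈ FZ E w 0 ↔ x ∈ E) ∧ (∀ i j : ℕ, ∀ x ∈ FZ E w i, ∀ y ∈ FZ E w j, x * y ∈ FZ E w (i + j)) ∧
  (∀ i : ℕ, FZ E w (i + 1) ≤ FZ E w i) ∧ w ∈ FZ E w 1 ∧
  ∀ I : AddSubgroup S, IdI I → w ∈ I → FZ E w 1 ≤ I

/-- **FZN** (100). `T = Submodule.span ℤ Λ`, `T ^ n = ⊥`. `Subring.closure Λ ≤ ⨆ i, T ^ i`, `w = z ^ k ∈ T ^ k`, `k ≥ 1`, so `FZ E w n ≤ ⨆ i, T ^ (n + i) = ⊥`. -/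
def Stmt_FZN : Prop := ∀ (S : Type u) [Ring S] (Λ : Set S) (n : ℕ), (Submodule.span ℤ Λ) ^ n = ⊥ → ∀ z ∈ Λ, ∀ k : ℕ, 1 ≤ k →
  FZ (Subring.closure Λ) (z ^ k) n = ⊥

/-- **GAI** (100), uses FZP. `D = L * (k0 + 1) + 1`. `FZ D ≤ FZ (D + 1)`: a generator `a₁ w a₂ w ⋯ a_D w a` is `a₁ * [w b₁ w b₂ ⋯ w b_L w] * a` with `b_i = a w a ⋯ w a` (`k0` factors `w`), `b_i ∈ FZ k0`.
Then `FZ (D + j) ≤ FZ (D + j + 1)` (`FZ (D + j)` is generated by products of elements of `FZ D` and `FZ j`), so `FZ D ≤ FZ N = ⊥`. -/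
def Stmt_GAI : Prop := ∀ (S : Type u) [Ring S] (E : Subring S) (w : S), w ∈ E → ∀ L k0 N : ℕ, FZ E w N = ⊥ →
  (∀ l : List S, l.length = L → (∀ b ∈ l, b ∈ FZ E w k0) → (l.map (w * ·)).prod * w ∈ FZ E w (L * (k0 + 1) + 2)) →
  FZ E w (L * (k0 + 1) + 1) = ⊥

/-- **DWN** (150), uses S2 S3 HOM FZP FZN GAI. `n = m + 1`, `k0 = m + 3`, `L = 2 ^ n - 1`, `D = L * (k0 + 1) + 1`, `w = z ^ k`: `zw w l = 0` for all `l` of length `D`. (`2 < p`: if `m = 0` and `p = 2`, `P` is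
trivial, `z = 0`, `w = 0`.) First for the letters in `I`: `Λ = {z} ∪ l`, `E = Subring.closure Λ`, `F = FZ E w`, `N` from `lnil`, FZN, `Fil F` (nilpotent: `x ∈ F 1`, `x ^ N ∈ F N`), `Loc m F P z k g` (`F 1 ≤ I`),
S2 or S3 (`k = 1` or `k ≥ 2`), HOM, GAI: `F D = ⊥`, and `zw w l ∈ F D`. General letters: `b = k + b'`, `b' ∈ I`, `w * k * w = 0`, so `zw w l = zw w l'` (list induction: `w * b * zw w l = w * b' * zw w l`, as
`zw w l` begins with `w` and `w * w = 0`). -/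
def Stmt_DWN : Prop := ∀ (S : Type u) [Ring S] (p m : ℕ) (I : AddSubgroup S) (P : Subgroup Sˣ), p.Prime → m + 1 < p → GoodN p m I P →
  ∀ g ∈ P, ∀ z : S, ((g : Sˣ) : S) = 1 + z → ∀ k : ℕ, 1 ≤ k → z ^ (k + 1) = 0 → NilGen (z ^ k)

/-- **QUN** (100). Quotients of `GoodN`: `I' = I.map π`, `P' = P.map (Units.map π)`. A unit `u'` with `u' - 1 = π b`, `b ∈ I`, is the image of the unit `1 + b` (`b` nilpotent by `lnil`); see `B_QIE`. A finite subset of `I'` is the image of a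
finite subset of `I`; the iterates commute with `Units.map π`. -/
def Stmt_QUN : Prop := ∀ (S : Type u) [Ring S] (p m : ℕ) (I : AddSubgroup S) (P : Subgroup Sˣ) (S' : Type u) [Ring S'] (π : S →+* S'),
  Function.Surjective π → GoodN p m I P → GoodN p m (I.map π.toAddMonoidHom) (P.map (Units.map (π : S →* S')))

/-- **INN** (150), uses DWN QUN NGI QUO (the last two of `MP_3617d5_nr`). As `B_IND`: induction on `k` with `z ^ k = 0` for all `S`, `I`, `P`, `g`: `w = z ^ k`, `NilGen w`, the ideal `T` generated by `w` (NGI), the quotient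
`π : S → S'` (QUO), QUN, induction hypothesis for `Units.map π g`, then words are products of elements of `T`. -/
def Stmt_INN : Prop := ∀ (S : Type u) [Ring S] (p m : ℕ) (I : AddSubgroup S) (P : Subgroup Sˣ), p.Prime → m + 1 < p → GoodN p m I P →
  ∀ g ∈ P, NilGen (((g : Sˣ) : S) - 1)

/-- **RDN** (200), uses the block NP of `MP_3fbbd3_adj`. See `MP_3fbbd3_adj/REDU.lean` and `RED.lean`. `S` = the subring `ℤ + M` of `A`, `M` the span of the `χ g - 1`, `I` = `M` in `S`, `f g` = the unit of `S` given by `χ g`, `P = f.range`;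
`f g = 1 ↔ χ g = 1`; a unit `u` of `S` with `u - 1 ∈ I` is in `U` (as a unit of `A`), so normalises `χ.range`. `eng`: `f.range` is the image of `χ.range`. -/
def Stmt_RDN : Prop := ∀ (p m : ℕ) (_ : p.Prime) (G : Type u) [Group G] (_ : IsPGroup p G)
    (_ : ∀ s : Set G, s.Finite → ((Subgroup.closure s : Subgroup G) : Set G).Finite)
    (A : Type u) [Ring A] (χ : G →* Aˣ) (U : Subgroup Aˣ) (_ : χ.range ≤ U) (_ : (χ.range.subgroupOf U).Normal)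
    (_ : Engel m χ.range)
    (_ : ∀ x ∈ Submodule.span ℤ (Set.range fun g => ((χ g : Aˣ) : A) - 1), IsNilpotent x →
      ∃ w ∈ U, ((w : Aˣ) : A) = 1 + x)
    (_ : ∀ g, ∃ n : ℕ, p ^ n • (((χ g : Aˣ) : A) - 1) = 0),
    ∃ (S : Type u) (_ : Ring S) (I : AddSubgroup S) (f : G →* Sˣ), GoodN p m I f.range ∧ ∀ g, f g = 1 ↔ χ g = 1

/-- **FIN** (60), uses INN RDN NGI GEN PUL (the last three of `MP_3617d5_nr`). The theorem. -/
def Stmt_FIN : Prop := ∀ (p n m : ℕ) (_ : p.Prime) (_ : n < p) (_ : m + 1 < p) (G : Type u) [Group G] (_ : IsPGroup p G)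
    (_ : Engel n G)
    (_ : ∀ s : Set G, s.Finite → ((Subgroup.closure s : Subgroup G) : Set G).Finite)
    (A : Type u) [Ring A] (χ : G →* Aˣ) (_ : Group.IsSolvable χ.ker) (U : Subgroup Aˣ) (_ : χ.range ≤ U)
    (_ : (χ.range.subgroupOf U).Normal) (_ : Engel m χ.range)
    (_ : ∀ x ∈ Submodule.span ℤ (Set.range fun g => ((χ g : Aˣ) : A) - 1), IsNilpotent x →
      ∃ w ∈ U, ((w : Aˣ) : A) = 1 + x)
    (_ : ∀ g, ∃ n : ℕ, p ^ n • (((χ g : Aˣ) : A) - 1) = 0), Fitting G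

end Pool.EN
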