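import Pool.Agent.Work.MP_3617d5_en.Defs2
import Pool.Agent.Work.MP_3617d5_ea.Interface
import Pool.Agent.Work.MP_3fbbd3_adj.Def2

/-!
# MP_3617d5_al, THEOREM EN+ (no torsion hypothesis), the blocks

Same rules as in `Defs.lean`: files `B_X.lean`, `import Pool.Agent.Work.MP_3617d5_en.Defs3`.
-/

set_option autoImplicit false

open Nat

universe u

namespace Pool.EN

open Pool.NR Pool.EA

open scoped commutatorElement

section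
variable {S : Type u} [Ring S]

/-- `Loc` with the normalising hypothesis only for the units in `1 + F 2` -/
structure Loc2 (m : ℕ) (F : ℕ → AddSubgroup S) (P : Subgroup Sˣ) (z : S) (k : ℕ) (g : Sˣ) : Prop where
  fil : Fil F
  z0 : z ∈ F 0
  zn : z ^ (k + 1) = 0
  w1 : z ^ k ∈ F 1
  gz : (g : S) = 1 + z
  gP : g ∈ P
  nrm : ∀ x ∈ P, ∀ u : Sˣ, (u : S) - 1 ∈ F 2 → u⁻¹ * x * u ∈ P
  eng : ∀ x ∈ P, ∀ y ∈ P, (fun v : Sˣ => v⁻¹ * x⁻¹ * v * x)^[m] y = 1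

/-- `M` is a locally nilpotent `p`-torsion ideal, `S = ℤ + M`, `I ≤ M` an ideal with `S / I` commutative, `P ≤ 1 + M` is `m`-Engel and
normalised by `1 + I` -/
structure GoodN2 (p m : ℕ) (M I : AddSubgroup S) (P : Subgroup Sˣ) : Prop where
  idl : IdI M
  idi : IdI I
  le : I ≤ M
  com : ∀ a b : S, a * b - b * a ∈ I
  dec : ∀ a : S, ∃ k : ℤ, a - k ∈ M
  lnil : ∀ Λ : Set S, Λ.Finite → Λ ⊆ M → ∃ n : ℕ, (Submodule.span ℤ Λ) ^ n = ⊥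
  tor : ∀ b ∈ M, ∃ e : ℕ, p ^ e • b = 0
  sub : ∀ x ∈ P, (x : S) - 1 ∈ M
  nrm : ∀ x ∈ P, ∀ u : Sˣ, (u : S) - 1 ∈ I → u⁻¹ * x * u ∈ P
  eng : ∀ x ∈ P, ∀ y ∈ P, (fun v : Sˣ => v⁻¹ * x⁻¹ * v * x)^[m] y = 1

/-- the situation after the reduction: `S = ℤ + M`, `M` the span of the `η g - 1`, `I` its `p`-torsion -/
structure Red (p m : ℕ) {G : Type u} [Group G] (η : G →* Sˣ) (M I : AddSubgroup S) : Prop where
  idM : IdI M
  idI : IdI I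
  dec : ∀ a : S, ∃ k : ℤ, a - k ∈ M
  spn : ∀ a : S, a ∈ M ↔ a ∈ Submodule.span ℤ (Set.range fun g => ((η g : Sˣ) : S) - 1)
  mem : ∀ a : S, a ∈ I ↔ a ∈ M ∧ ∃ e : ℕ, p ^ e • a = 0
  com : ∀ g h : G, ((η ⁅g, h⁆ : Sˣ) : S) - 1 ∈ I
  nil : ∀ b ∈ I, IsNilpotent b
  nrm : ∀ x ∈ η.range, ∀ u : Sˣ, (u : S) - 1 ∈ I → u⁻¹ * x * u ∈ η.range
  eng : ∀ x ∈ η.range, ∀ y ∈ η.range, (fun v : Sˣ => v⁻¹ * x⁻¹ * v * x)^[m] y = 1

end

/-! ## Groups and the torsion -/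

/-- **GTC** (80). Induction on the order of `Q`: `Q` is cyclic. `Q` trivial: clear. Otherwise the centre contains `z` of order `p` (`GTx.exists_central` of `MP_3fbbd3_adj/GT.lean` and a power); every `x` with `x ^ p = 1`
commutes with `z`, so lies in `Z = zpowers z`, central, of order `p`. `Q / Z` satisfies the hypothesis: `u, v` commute modulo `Z`, `u ^ p, v ^ p ∈ Z`, `u ∉ Z`: `u ^ p ≠ 1` (else `u ∈ Z`), so
`v ^ p = (u ^ p) ^ (-i)`, and `(u ^ i * v) ^ p = u ^ (i p) v ^ p [v, u ^ i] ^ (p (p - 1) / 2) = 1` (the commutator is in `Z`, `p` odd), so `u ^ i * v ∈ Z`. So `Q / Z` is cyclic, `Q` is abelian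
(`commutative_of_cyclic_center_quotient` or similar), and cyclic by `GTx.cyc` of `MP_3fbbd3_adj/GT.lean`. -/
def Stmt_GTC : Prop := ∀ (p : ℕ) (_ : p.Prime) (_ : p ≠ 2) (Q : Type u) [Group Q] [Finite Q] (_ : IsPGroup p Q),
    (∀ u v : Q, Commute u v → u ^ p = 1 → v ^ p = 1 → u ≠ 1 → ∃ i : ℕ, u ^ i * v = 1) →
    ∀ a b : Q, ⁅a, b⁆ = 1

/-- **RPC** (edit of `blk_RP` of `MP_3fbbd3_adj/RP.lean`), uses GTC. -/
def Stmt_RPC : Prop := ∀ (p : ℕ) (_ : p.Prime) (_ : p ≠ 2) (P : Type u) [Group P] [Finite P] (_ : IsPGroup p P)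
    (R : Type u) [Ring R] (_ : ∀ x : R, p • x = 0 → x = 0) (ψ : P →* R)
    (_ : ∀ g h : P, (ψ g - 1) * ψ h * (∑ i ∈ Finset.range (Nat.card P), ψ g ^ i) = 0)
    (_ : ∀ g h : P, (∑ i ∈ Finset.range (Nat.card P), ψ g ^ i) * ψ h * (ψ g - 1) = 0),
    ∀ a b : P, ψ ⁅a, b⁆ = 1

/-- **UTP** (edit of `MP_3617d5_eu/UT.lean`), uses RPC and `MP_3fbbd3_adj.S_NP`. For `w ∈ U` and `x ∈ χ.range` the first commutator `w⁻¹ x⁻¹ w x` is in `χ.range`, so the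
`(m + 1)`-st iterate is `1`. -/
def Stmt_UTP : Prop := ∀ (p m : ℕ) (_ : p.Prime) (_ : p ≠ 2) (G : Type u) [Group G] (_ : IsPGroup p G)
    (_ : ∀ s : Set G, s.Finite → ((Subgroup.closure s : Subgroup G) : Set G).Finite)
    (A : Type u) [Ring A] (χ : G →* Aˣ) (U : Subgroup Aˣ) (_ : χ.range ≤ U)
    (_ : (χ.range.subgroupOf U).Normal) (_ : Engel m χ.range)
    (_ : ∀ x ∈ Submodule.span ℤ (Set.range fun g => ((χ g : Aˣ) : A) - 1), IsNilpotent x →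
      ∃ w ∈ U, ((w : Aˣ) : A) = 1 + x),
    ∃ (S : Type u) (_ : Ring S) (η : G →* Sˣ) (M I : AddSubgroup S), Red p m η M I ∧ η.ker = χ.ker

/-- **UNC** (edits of `B_QUB`, `B_CEA`, `B_TRB`, `B_UNB` of `MP_3617d5_ea`, where the law `EngI` is not used; `p_PRA`, `p_CIA` as they are). -/
def Stmt_UNC : Prop := ∀ (S : Type u) [Ring S] (m p e : ℕ) (I : AddSubgroup S) (ψ : RingAut S), IdI I →
  (∀ b ∈ I, IsUnit (1 + b)) → InvI I ψ → (∀ j : ℕ, EngA m I (ψ ^ j)) → (∀ b ∈ I, (ψ ^ p ^ e) b = b) →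
  ∃ K : ℕ, ∀ s ∈ I, p ^ K • (ψ s - s) = 0

/-! ## The blocks of EN with `Loc2`, `GoodN2` -/

/-- **G22** (edit of G2), uses INV. -/
def Stmt_G22 : Prop := ∀ (S : Type u) [Ring S] (m : ℕ) (F : ℕ → AddSubgroup S) (P : Subgroup Sˣ) (z : S) (g : Sˣ),
  Loc2 m F P z 1 g → ∀ j : ℕ, 2 ≤ j → ∀ a ∈ F j,
  (∃ h ∈ P, ((h : Sˣ) : S) - 1 - z * a * z ∈ F (2 * j + 3)) ∧
  ∃ c ∈ P, ((c : Sˣ) : S) - 1 - (a * z - z * a - z * a * z) ∈ F (2 * j + 1)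

/-- **G32** (edit of G3), uses INV. -/
def Stmt_G32 : Prop := ∀ (S : Type u) [Ring S] (m : ℕ) (F : ℕ → AddSubgroup S) (P : Subgroup Sˣ) (z : S) (k : ℕ) (g : Sˣ),
  Loc2 m F P z k g → 2 ≤ k → ∀ j : ℕ, 2 ≤ j → ∀ a ∈ F j,
  (∃ h ∈ P, ((h : Sˣ) : S) = 1 + z ^ k * a * z ^ k) ∧
  ∃ c ∈ P, ((c : Sˣ) : S) - 1 ∈ F j ∧ z ^ k * ((c : Sˣ) : S) = z ^ k ∧
    (((c : Sˣ) : S) - 1) * z ^ k + z ^ k * a * z ^ k ∈ F (2 * j + 2)

/-- **S22** (edit of S2V), uses BAS MUL INV LPB EXV G22 C2 A2V. -/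
def Stmt_S22 : Prop := ∀ (S : Type u) [Ring S] (m : ℕ) (F : ℕ → AddSubgroup S) (P : Subgroup Sˣ) (z : S) (g : Sˣ),
  Loc2 m F P z 1 g → SymV F (z ^ 1) m (m + 3)

/-- **S32** (edit of S3L), uses BAS MUL LPB EX2 G32 E3. -/
def Stmt_S32 : Prop := ∀ (S : Type u) [Ring S] (m : ℕ) (F : ℕ → AddSubgroup S) (P : Subgroup Sˣ) (z : S) (k : ℕ) (g : Sˣ),
  Loc2 m F P z k g → 2 ≤ k → SymL F (z ^ k) m (m + 3)

/-- **DW2** (edit of DWV), uses S22 S32 HOV HOL FZP FZN GAI. `FZ E w 2 ≤ I`: `w * a * w = w * (a * w - w * a)`. -/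
def Stmt_DW2 : Prop := ∀ (S : Type u) [Ring S] (p m : ℕ) (M I : AddSubgroup S) (P : Subgroup Sˣ), p.Prime → 2 < p → m < p → GoodN2 p m M I P →
  ∀ g ∈ P, ∀ z : S, ((g : Sˣ) : S) = 1 + z → ∀ k : ℕ, 1 ≤ k → z ^ (k + 1) = 0 → NilGen (z ^ k)

/-- **QU2** (edit of QUN). -/
def Stmt_QU2 : Prop := ∀ (S : Type u) [Ring S] (p m : ℕ) (M I : AddSubgroup S) (P : Subgroup Sˣ) (S' : Type u) [Ring S'] (π : S →+* S'),
  Function.Surjective π → GoodN2 p m M I P →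
  GoodN2 p m (M.map π.toAddMonoidHom) (I.map π.toAddMonoidHom) (P.map (Units.map (π : S →* S')))

/-- **IN2** (edit of INN), uses DW2 QU2 NGI QUO. -/
def Stmt_IN2 : Prop := ∀ (S : Type u) [Ring S] (p m : ℕ) (M I : AddSubgroup S) (P : Subgroup Sˣ), p.Prime → 2 < p → m < p → GoodN2 p m M I P →
  ∀ g ∈ P, NilGen (((g : Sˣ) : S) - 1)

/-! ## Assembly -/

/-- **AQ** (150), uses `MP_3fbbd3_adj.S_NP` and QUO. The annihilator of `I_K` is an ideal (QUO) and contains `p ^ K`, so `p ^ K • S' = 0`; `lnil` for `M' = ` span of the `π (η g) - 1` by `AS.loc_nil`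
(`MP_3fbbd3_adj/AS.lean`; `ht` is clear). `com`: `S` is spanned by the `η g`, `η g η h - η h η g = (η ⁅g, h⁆ - 1) η h η g`. `nrm`: a unit `u'` with `u' - 1 = π b`, `b ∈ I` nilpotent, is the image of
the unit `1 + b`. -/
def Stmt_AQ : Prop := ∀ (p m : ℕ) (_ : p.Prime) (G : Type u) [Group G] (_ : IsPGroup p G)
  (_ : ∀ s : Set G, s.Finite → ((Subgroup.closure s : Subgroup G) : Set G).Finite)
  (S : Type u) [Ring S] (η : G →* Sˣ) (M I : AddSubgroup S), Red p m η M I → ∀ K : ℕ,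
  ∃ (S' : Type u) (_ : Ring S') (π : S →+* S'), Function.Surjective π ∧
    (∀ a, π a = 0 ↔ ∀ c ∈ I, p ^ K • c = 0 → a * c = 0 ∧ c * a = 0) ∧
    GoodN2 p m (M.map π.toAddMonoidHom) (I.map π.toAddMonoidHom) (η.range.map (Units.map (π : S →* S')))

/-- **UD** (edit of `MP_3617d5_eu/UC.lean`). -/
def Stmt_UD : Prop := ∀ (S : Type u) [Ring S] (I T : AddSubgroup S), IdI I → IdI T → T ≤ I → NilT T →
  ∀ H : Subgroup Sˣ, (∀ a b : H, (((⁅a, b⁆ : H) : Sˣ) : S) - 1 ∈ I) → ∀ g : H,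
  (∀ b ∈ I, ((((g : Sˣ)⁻¹ : Sˣ)) : S) * b * ((g : Sˣ) : S) - b ∈ T) →
  ∃ C : Subgroup H, C.Normal ∧ Group.IsSolvable C ∧ g ∈ C

/-- **FI3** (120), uses UTP UNC AQ IN2 NGI UD PU2. The theorem. `p = 2`: `G` is `1`-Engel, so abelian. `p` odd: `S`, `η`, `M`, `I` from UTP. For `g : G`, `x = η g`, `ψ` = conjugation by `x`
(`UC.inn`): `EngA (m + 1) I (ψ ^ j)` (the first commutator `z⁻¹ x^(-j) z x^j` is in `η.range` by `nrm`). UNC: `K`. AQ: `S'`, `π`. IN2: `NilGen (π x - 1)`, NGI: `T₀`.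
`T = {b ∈ I | p ^ K • b = 0 ∧ π b ∈ T₀}`: products of `N + 1` elements vanish. `x⁻¹ b x - b ∈ T`. UD for `H = η.range`, PU2. -/
def Stmt_FI3 : Prop := ∀ (p n m : ℕ) (_ : p.Prime) (_ : n < p) (_ : m < p) (G : Type u) [Group G] (_ : IsPGroup p G)
    (_ : Engel n G)
    (_ : ∀ s : Set G, s.Finite → ((Subgroup.closure s : Subgroup G) : Set G).Finite)
    (A : Type u) [Ring A] (χ : G →* Aˣ) (_ : Group.IsSolvable χ.ker) (U : Subgroup Aˣ) (_ : χ.range ≤ U)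
    (_ : (χ.range.subgroupOf U).Normal) (_ : Engel m χ.range)
    (_ : ∀ x ∈ Submodule.span ℤ (Set.range fun g => ((χ g : Aˣ) : A) - 1), IsNilpotent x →
      ∃ w ∈ U, ((w : Aˣ) : A) = 1 + x), Fitting G

end Pool.EN
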