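import Pool.Agent.Work.MP_3617d5_en.Defs3
import Pool.Agent.Work.MP_3617d5_en.UDc

/-!
# MP_3617d5_al, THEOREM EN++ (an Engel group `V` between `f(G)` and its normaliser), the statements

`G` a locally finite `n`-Engel `p`-group, `χ : G → Aˣ` with soluble kernel, `V` an `m`-Engel subgroup of `Aˣ` with `χ(G) ≤ V`, normalised by a
subgroup `U` which contains `1 + x` for the nilpotent `x` in the span of the `χ g - 1`.
-/

set_option autoImplicit false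

open Nat

universe u

namespace Pool.EN

open Pool.NR Pool.EA

open scoped commutatorElement

/-- the situation after the reduction; `V` is an `m`-Engel group of units `≡ 1` modulo `M`, it contains `η.range` and is normalised by
the units `1 + I` -/
structure Red4 {S : Type u} [Ring S] (p m : ℕ) {G : Type u} [Group G] (η : G →* Sˣ) (M I : AddSubgroup S)
    (V : Subgroup Sˣ) : Prop where
  idM : IdI M
  idI : IdI I
  dec : ∀ a : S, ∃ k : ℤ, a - k ∈ M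
  spn : ∀ a : S, a ∈ M ↔ a ∈ Submodule.span ℤ (Set.range fun g => ((η g : Sˣ) : S) - 1)
  mem : ∀ a : S, a ∈ I ↔ a ∈ M ∧ ∃ e : ℕ, p ^ e • a = 0
  com : ∀ g h : G, ((η ⁅g, h⁆ : Sˣ) : S) - 1 ∈ I
  nil : ∀ b ∈ I, IsNilpotent b
  rng : η.range ≤ V
  sub : ∀ x ∈ V, (x : S) - 1 ∈ M
  nrm : ∀ x ∈ V, ∀ u : Sˣ, (u : S) - 1 ∈ I → u⁻¹ * x * u ∈ V
  eng : ∀ x ∈ V, ∀ y ∈ V, (fun v : Sˣ => v⁻¹ * x⁻¹ * v * x)^[m] y = 1

def Stmt_UT4 : Prop := ∀ (p m : ℕ) (_ : p.Prime) (_ : p ≠ 2) (G : Type u) [Group G] (_ : IsPGroup p G)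
    (_ : ∀ s : Set G, s.Finite → ((Subgroup.closure s : Subgroup G) : Set G).Finite)
    (A : Type u) [Ring A] (χ : G →* Aˣ) (V U : Subgroup Aˣ) (_ : χ.range ≤ V)
    (_ : ∀ v ∈ V, ∀ u ∈ U, u⁻¹ * v * u ∈ V) (_ : Engel m V)
    (_ : ∀ x ∈ Submodule.span ℤ (Set.range fun g => ((χ g : Aˣ) : A) - 1), IsNilpotent x →
      ∃ w ∈ U, ((w : Aˣ) : A) = 1 + x),
    ∃ (S : Type u) (_ : Ring S) (η : G →* Sˣ) (M I : AddSubgroup S) (V' : Subgroup Sˣ), Red4 p m η M I V' ∧ η.ker = χ.ker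

def Stmt_AQ4 : Prop := ∀ (p m : ℕ) (_ : p.Prime) (G : Type u) [Group G] (_ : IsPGroup p G)
  (_ : ∀ s : Set G, s.Finite → ((Subgroup.closure s : Subgroup G) : Set G).Finite)
  (S : Type u) [Ring S] (η : G →* Sˣ) (M I : AddSubgroup S) (V : Subgroup Sˣ), Red4 p m η M I V → ∀ K : ℕ,
  ∃ (S' : Type u) (_ : Ring S') (π : S →+* S'), Function.Surjective π ∧
    (∀ a, π a = 0 ↔ ∀ c ∈ I, p ^ K • c = 0 → a * c = 0 ∧ c * a = 0) ∧
    GoodN2 p m (M.map π.toAddMonoidHom) (I.map π.toAddMonoidHom) (V.map (Units.map (π : S →* S')))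

def Stmt_FI4 : Prop := ∀ (p n m : ℕ) (_ : p.Prime) (_ : n < p) (_ : m < p) (G : Type u) [Group G] (_ : IsPGroup p G)
    (_ : Engel n G)
    (_ : ∀ s : Set G, s.Finite → ((Subgroup.closure s : Subgroup G) : Set G).Finite)
    (A : Type u) [Ring A] (χ : G →* Aˣ) (_ : Group.IsSolvable χ.ker) (V U : Subgroup Aˣ) (_ : χ.range ≤ V)
    (_ : ∀ v ∈ V, ∀ u ∈ U, u⁻¹ * v * u ∈ V) (_ : Engel m V)
    (_ : ∀ x ∈ Submodule.span ℤ (Set.range fun g => ((χ g : Aˣ) : A) - 1), IsNilpotent x →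
      ∃ w ∈ U, ((w : Aˣ) : A) = 1 + x), Fitting G

end Pool.EN
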