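import Pool.Agent.Work.MP_3617d5_en.FI4
import Pool.Agent.Work.MP_3617d5_en.UNI4

/-!
# MP_3617d5_al: locally finite Engel `p`-groups in Engel groups of units which are normalised by unipotent units
-/

set_option autoImplicit false

universe u v

namespace Pool.Agent.Work.MP_3617d5_en.EngelNormalizer

open Pool.NR

/-- Let `p` be a prime, `n, m < p`, `G` a locally finite `n`-Engel `p`-group, `A` any ring with identity and `χ` a
homomorphism from `G` to the group of units of `A` with soluble kernel. Let `V` be an `m`-Engel subgroup of `Aˣ` (its elements may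
have infinite order) which contains `χ(G)` and is normalised by a subgroup `U` that contains `1 + x` for every nilpotent
`x` in the additive group generated by the elements `χ g - 1`. Then every element of `G` lies in a nilpotent normal subgroup
of `G`. -/
theorem result (p n m : ℕ) (hp : p.Prime) (hn : n < p) (hm : m < p) (G : Type u) [Group G] (hG : IsPGroup p G)
    (hE : Engel n G)
    (hlf : ∀ s : Set G, s.Finite → ((Subgroup.closure s : Subgroup G) : Set G).Finite)
    (A : Type v) [Ring A] (χ : G →* Aˣ) (hker : Group.IsSolvable χ.ker)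
    (V U : Subgroup Aˣ) (hV : χ.range ≤ V) (hVE : Engel m V) (hU : ∀ v ∈ V, ∀ u ∈ U, u⁻¹ * v * u ∈ V)
    (hcl : ∀ x ∈ Submodule.span ℤ (Set.range fun g : G => ((χ g : Aˣ) : A) - 1),
      IsNilpotent x → ∃ w ∈ U, ((w : Aˣ) : A) = 1 + x) : Fitting G :=
  Pool.EN.en_uni4 Pool.EN.enq_FI4 p n m hp hn hm G hG hE hlf A χ hker V U hV hU hVE hcl

end Pool.Agent.Work.MP_3617d5_en.EngelNormalizer
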