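import Pool.Agent.Work.MP_3617d5_en.Defs4
import Pool.Agent.Work.MP_3617d5_en.B_UTP

/-!
# MP_3617d5_al, THEOREM EN++, block UT4: the torsion ideal (edit of `B_UTP`)
-/

set_option autoImplicit false

universe u

namespace Pool.EN

open Pool.NR Pool.EA Pool.Agent.Work.MP_3fbbd3_adj Pool.EU

open scoped commutatorElement

theorem p_UT4 (hRPC : Stmt_RPC.{u}) (hNP : S_NP.{u}) : Stmt_UT4.{u} := by
  intro p m hp hp2 G _ hG hlf A _ φ V U hV hconj hE hnil
  have hnil' : ∀ x ∈ AS.M' (TOR.φ0 φ), IsNilpotent x → ∃ w ∈ U, ((w : Aˣ) : A) = 1 + x := hnil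
  have hit : ∀ x ∈ φ.range, ∀ w ∈ U, (fun z : Aˣ => z⁻¹ * x⁻¹ * z * x)^[m + 1] w = 1 := by
    intro x hx w hw
    rw [Function.iterate_succ_apply]
    exact UT.engel_val hE (hV hx) (V.mul_mem (hconj _ (V.inv_mem (hV hx)) w hw) (hV hx))
  set B := AS.B (TOR.φ0 φ) with hB
  have hmt := UTP_comm (m := m + 1) φ U hRPC hp hp2 hG hlf hit hnil'
  let M : AddSubgroup B :=
    { carrier := {b | (b : A) ∈ AS.M' (TOR.φ0 φ)}
      zero_mem' := (AS.M' _).zero_mem
      add_mem' := fun ha hb => (AS.M' _).add_mem ha hb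
      neg_mem' := fun ha => (AS.M' _).neg_mem ha }
  let I : AddSubgroup B :=
    { carrier := {b | (b : A) ∈ AS.M' (TOR.φ0 φ) ∧ (b : A) ∈ AS.t p A}
      zero_mem' := ⟨(AS.M' _).zero_mem, (AS.t p A).zero_mem⟩
      add_mem' := fun ha hb => ⟨(AS.M' _).add_mem ha.1 hb.1, (AS.t p A).add_mem ha.2 hb.2⟩
      neg_mem' := fun ha => ⟨(AS.M' _).neg_mem ha.1, (AS.t p A).neg_mem ha.2⟩ }
  have hM : ∀ b : B, b ∈ M ↔ (b : A) ∈ AS.M' (TOR.φ0 φ) := fun b => Iff.rfl
  have hI : ∀ b : B, b ∈ I ↔ (b : A) ∈ AS.M' (TOR.φ0 φ) ∧ (b : A) ∈ AS.t p A := fun b => Iff.rfl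
  have hMl : ∀ a b : B, b ∈ M → a * b ∈ M := by
    intro a b hb
    rw [hM] at hb ⊢
    obtain ⟨k, hk⟩ := a.2
    have e : ((a * b : B) : A) = k • (b : A) + ((a : A) - k) * b := by
      rw [Subring.coe_mul, zsmul_eq_mul]; noncomm_ring
    rw [e]
    exact (AS.M' _).add_mem ((AS.M' _).smul_mem _ hb) (AS.mul_le (Submodule.mul_mem_mul hk hb))
  have hMr : ∀ a b : B, b ∈ M → b * a ∈ M := by
    intro a b hb
    rw [hM] at hb ⊢
    obtain ⟨k, hk⟩ := a.2
    have e : ((b * a : B) : A) = k • (b : A) + b * ((a : A) - k) := by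
      rw [Subring.coe_mul, zsmul_eq_mul, mul_sub, ← Int.cast_comm k (b : A)]; abel
    rw [e]
    exact (AS.M' _).add_mem ((AS.M' _).smul_mem _ hb) (AS.mul_le (Submodule.mul_mem_mul hb hk))
  have hIl : ∀ a b : B, b ∈ I → a * b ∈ I := fun a b hb =>
    ⟨hMl a b hb.1, (AS.t p A).mul_mem_left _ hb.2⟩
  have hIr : ∀ a b : B, b ∈ I → b * a ∈ I := fun a b hb =>
    ⟨hMr a b hb.1, Ideal.mul_mem_right _ _ hb.2⟩
  let ηf : G → Bˣ := fun g =>
    ⟨⟨((φ g : Aˣ) : A), AS.mem_B g⟩, ⟨((φ g⁻¹ : Aˣ) : A), AS.mem_B g⁻¹⟩, by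
      apply Subtype.ext
      show ((φ g : Aˣ) : A) * ((φ g⁻¹ : Aˣ) : A) = 1
      rw [← Units.val_mul, ← map_mul, mul_inv_cancel, map_one, Units.val_one], by
      apply Subtype.ext
      show ((φ g⁻¹ : Aˣ) : A) * ((φ g : Aˣ) : A) = 1
      rw [← Units.val_mul, ← map_mul, inv_mul_cancel, map_one, Units.val_one]⟩
  let η : G →* Bˣ :=
    { toFun := ηf
      map_one' := by
        apply Units.ext
        apply Subtype.ext
        show ((φ 1 : Aˣ) : A) = 1
        rw [map_one, Units.val_one]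
      map_mul' := by
        intro a b
        apply Units.ext
        apply Subtype.ext
        show ((φ (a * b) : Aˣ) : A) = ((φ a : Aˣ) : A) * ((φ b : Aˣ) : A)
        rw [map_mul, Units.val_mul] }
  have hη : ∀ g, (((η g : Bˣ) : B) : A) = ((φ g : Aˣ) : A) := fun g => rfl
  let ι : Bˣ →* Aˣ := Units.map B.subtype.toMonoidHom
  have hι : ∀ x : Bˣ, ((ι x : Aˣ) : A) = ((x : B) : A) := fun x => rfl
  have hιinj : Function.Injective ι := by
    intro x y hxy
    apply Units.ext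
    apply Subtype.ext
    rw [← hι, ← hι, hxy]
  have hιη : ∀ g, ι (η g) = φ g := fun g => Units.ext rfl
  have hInil : ∀ b ∈ I, IsNilpotent (b : A) := fun b hb =>
    UT.nilp (TOR.φ0 φ) hNP hp hG hlf (b : A) hb.1 hb.2
  have hιr : ∀ x ∈ η.range, ι x ∈ φ.range := by
    rintro _ ⟨g, rfl⟩
    exact ⟨g, (hιη g).symm⟩
  have hMid : IdI M := ⟨fun a b hb => hMl a b hb, fun a b hb => hMr a b hb⟩
  have hMη : ∀ g, ((η g : Bˣ) : B) - 1 ∈ M := fun g => by
    rw [hM]
    exact Submodule.subset_span ⟨g, rfl⟩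
  refine ⟨B, inferInstance, η, M, I, (V.comap ι) ⊓ UD_one M hMid, ⟨hMid,
    ⟨fun a b hb => hIl a b hb, fun a b hb => hIr a b hb⟩, ?_, ?_, ?_, ?_, ?_, ?_, ?_, ?_, ?_⟩, ?_⟩
  · intro a
    obtain ⟨k, hk⟩ := a.2
    refine ⟨k, ?_⟩
    rw [hM]
    show (a : A) - (((k : ℤ) : B) : A) ∈ AS.M' (TOR.φ0 φ)
    rw [show (((k : ℤ) : B) : A) = (k : A) from map_intCast B.subtype k]
    exact hk
  · intro a
    have h1 : Submodule.map B.subtype.toIntAlgHom.toLinearMap
        (Submodule.span ℤ (Set.range fun g => ((η g : Bˣ) : B) - 1)) = AS.M' (TOR.φ0 φ) := by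
      rw [Submodule.map_span, ← Set.range_comp]
      rfl
    rw [hM, ← h1]
    constructor
    · rintro ⟨b, hb, hba⟩
      have h2 : b = a := Subtype.ext hba
      rw [← h2]
      exact hb
    · intro ha
      exact ⟨a, ha, rfl⟩
  · intro a
    rw [hI, hM]
    have h1 : ∀ e : ℕ, p ^ e • (a : A) = 0 ↔ p ^ e • a = 0 := by
      intro e
      constructor
      · intro h
        apply Subtype.ext
        exact h
      · intro h
        exact congrArg Subtype.val h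
    constructor
    · rintro ⟨h2, e, he⟩
      exact ⟨h2, e, (h1 e).1 he⟩
    · rintro ⟨h2, e, he⟩
      exact ⟨h2, e, (h1 e).2 he⟩
  · intro g h
    rw [hI]
    exact ⟨Submodule.subset_span ⟨⁅g, h⁆, rfl⟩, hmt g h⟩
  · intro b hb
    obtain ⟨n, hn⟩ := hInil b hb
    refine ⟨n, ?_⟩
    apply Subtype.ext
    rw [Subring.coe_pow, hn]
    rfl
  · rintro _ ⟨g, rfl⟩
    refine ⟨?_, hMη g⟩
    show ι (η g) ∈ V
    rw [hιη]
    exact hV ⟨g, rfl⟩
  · intro x hx
    exact hx.2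
  · intro x hx u hu
    obtain ⟨w, hwU, hw⟩ := hnil' _ hu.1 (hInil _ hu)
    have h2 : ι u = w := by
      apply Units.ext
      rw [hι, hw]
      show ((u : B) : A) = 1 + (((u : B) : A) - 1)
      abel
    refine ⟨?_, ?_⟩
    · show ι (u⁻¹ * x * u) ∈ V
      rw [map_mul, map_mul, map_inv, h2]
      exact hconj _ hx.1 w hwU
    · have h3 := (UD_one_normal M hMid).conj_mem x hx.2 u⁻¹
      rwa [inv_inv] at h3
  · intro x hx y hy
    have h1 := UT.engel_val hE (show ι x ∈ V from hx.1) (show ι y ∈ V from hy.1)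
    have h2 : ∀ j : ℕ, ι ((fun z : Bˣ => z⁻¹ * x⁻¹ * z * x)^[j] y)
        = (fun z : Aˣ => z⁻¹ * (ι x)⁻¹ * z * (ι x))^[j] (ι y) := by
      intro j
      induction j with
      | zero => rfl
      | succ j ih =>
        rw [Function.iterate_succ_apply', Function.iterate_succ_apply', ← ih]
        simp only [map_mul, map_inv]
    apply hιinj
    rw [h2, h1, map_one]
  · ext g
    rw [MonoidHom.mem_ker, MonoidHom.mem_ker, ← hιη g]
    constructor
    · intro h
      rw [h, map_one]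
    · intro h
      exact hιinj (by rw [h, map_one])

end Pool.EN
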