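import Pool.Agent.Work.MP_3617d5_en.Defs2
import Pool.Agent.Work.MP_3617d5_eu.FIN

/-!
# MP_3617d5_al, THEOREM EN: arbitrary universes, m < p
-/

set_option autoImplicit false

universe u v

namespace Pool.EN

open Pool.NR

/-- the theorem for a ring in an arbitrary universe -/
theorem en_uniw (hFIN : Stmt_FIW.{max u v}) (p n m : ℕ) (hp : p.Prime) (hn : n < p) (hm : m < p)
    (G : Type u) [Group G] (hG : IsPGroup p G) (hGE : Engel n G)
    (hlf : ∀ s : Set G, s.Finite → ((Subgroup.closure s : Subgroup G) : Set G).Finite)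
    (A : Type v) [Ring A] (φ : G →* Aˣ) (hker : Group.IsSolvable φ.ker)
    (U : Subgroup Aˣ) (hU : φ.range ≤ U) (hnrm : (φ.range.subgroupOf U).Normal)
    (hE : Engel m φ.range)
    (hcl : ∀ x ∈ Submodule.span ℤ (Set.range fun g : G => ((φ g : Aˣ) : A) - 1),
      IsNilpotent x → ∃ w ∈ U, ((w : Aˣ) : A) = 1 + x)
    (htor : ∀ g : G, ∃ n : ℕ, p ^ n • (((φ g : Aˣ) : A) - 1) = 0) : Fitting G := by
  let e : ULift.{v} G ≃* G := MulEquiv.ulift
  let f : ULift.{u} A ≃+* A := ULift.ringEquiv
  let fu : (ULift.{u} A)ˣ ≃* Aˣ := Units.mapEquiv f.toMulEquiv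
  let φ' : ULift.{v} G →* (ULift.{u} A)ˣ :=
    (fu.symm : Aˣ →* (ULift.{u} A)ˣ).comp (φ.comp (e : ULift.{v} G →* G))
  have hφ' : ∀ g, fu (φ' g) = φ (e g) := fun g => fu.apply_symm_apply _
  let U' : Subgroup (ULift.{u} A)ˣ := U.comap (fu : (ULift.{u} A)ˣ →* Aˣ)
  have hr : ∀ x, x ∈ φ'.range ↔ fu x ∈ φ.range := by
    intro x
    constructor
    · rintro ⟨g, rfl⟩
      rw [hφ']
      exact ⟨e g, rfl⟩
    · rintro ⟨g, hg⟩
      refine ⟨e.symm g, fu.injective ?_⟩
      rw [hφ', e.apply_symm_apply, hg]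
  have hval : ∀ g : ULift.{v} G, f (((φ' g : (ULift.{u} A)ˣ) : ULift.{u} A) - 1)
      = ((φ (e g) : Aˣ) : A) - 1 := by
    intro g
    rw [map_sub, map_one, ← hφ' g]
    rfl
  apply Pool.EU.FIN.fitting_of_equiv e.symm
  refine hFIN p n m hp hn hm (ULift.{v} G) (hG.of_equiv e.symm)
    (Pool.EU.FIN.engel_of_injective (e : ULift.{v} G →* G) e.injective hGE) ?_
    (ULift.{u} A) φ' ?_ U' ?_ ?_ ?_ ?_ ?_
  · intro s hs
    have h1 := hlf (e '' s) (hs.image _)
    have h2 : (Subgroup.closure s).map (e : ULift.{v} G →* G) = Subgroup.closure (e '' s) := by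
      rw [MonoidHom.map_closure]
      rfl
    have h3 : ((Subgroup.closure s : Subgroup (ULift.{v} G)) : Set (ULift.{v} G)) ⊆
        e ⁻¹' ((Subgroup.closure (e '' s) : Subgroup G) : Set G) := by
      intro x hx
      show e x ∈ Subgroup.closure (e '' s)
      rw [← h2]
      exact ⟨x, hx, rfl⟩
    exact (h1.preimage e.injective.injOn).subset h3
  · have hk : φ'.ker = φ.ker.comap (e : ULift.{v} G →* G) := by
      ext g
      rw [Subgroup.mem_comap, MonoidHom.mem_ker, MonoidHom.mem_ker]
      constructor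
      · intro h
        have h1 := hφ' g
        rw [h, map_one] at h1
        exact h1.symm
      · intro h
        apply fu.injective
        rw [hφ', map_one]
        exact h
    rw [hk]
    have hi : Function.Injective ((e : ULift.{v} G →* G).subgroupComap φ.ker) := by
      intro a b hab
      apply Subtype.ext
      apply e.injective
      exact congrArg Subtype.val hab
    exact Group.isSolvable_of_isSolvable_injective hi
  · rintro _ ⟨g, rfl⟩
    show fu (φ' g) ∈ U
    rw [hφ']
    exact hU ⟨e g, rfl⟩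
  · constructor
    intro x hx u
    rw [Subgroup.mem_subgroupOf] at hx ⊢
    rw [hr] at hx ⊢
    have h1 := hnrm.conj_mem ⟨fu (x : (ULift.{u} A)ˣ), x.2⟩
      (by rw [Subgroup.mem_subgroupOf]; exact hx) ⟨fu (u : (ULift.{u} A)ˣ), u.2⟩
    rw [Subgroup.mem_subgroupOf] at h1
    rw [Subgroup.coe_mul, Subgroup.coe_mul, Subgroup.coe_inv, map_mul, map_mul, map_inv]
    exact h1
  · let ψ : φ'.range →* φ.range := ((fu : (ULift.{u} A)ˣ →* Aˣ).comp φ'.range.subtype).codRestrict
      φ.range (fun x => (hr x).1 x.2)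
    have hi : Function.Injective ψ := by
      intro a b hab
      apply Subtype.ext
      apply fu.injective
      exact congrArg Subtype.val hab
    exact Pool.EU.FIN.engel_of_injective ψ hi hE
  · intro x hx hxn
    have h1 : f x ∈ Submodule.span ℤ (Set.range fun g : G => ((φ g : Aˣ) : A) - 1) := by
      refine Submodule.span_induction
        (p := fun x _ => f x ∈ Submodule.span ℤ (Set.range fun g : G => ((φ g : Aˣ) : A) - 1))
        ?_ ?_ (fun x y _ _ hx hy => ?_) (fun a x _ hx => ?_) hx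
      · rintro _ ⟨g, rfl⟩
        rw [hval]
        exact Submodule.subset_span ⟨e g, rfl⟩
      · rw [map_zero]
        exact Submodule.zero_mem _
      · rw [map_add]
        exact Submodule.add_mem _ hx hy
      · rw [map_zsmul]
        exact Submodule.smul_mem _ a hx
    obtain ⟨w, hwU, hw⟩ := hcl (f x) h1 (hxn.map f)
    refine ⟨fu.symm w, ?_, ?_⟩
    · show fu (fu.symm w) ∈ U
      rw [fu.apply_symm_apply]
      exact hwU
    · apply f.injective
      have h3 : f ((fu.symm w : (ULift.{u} A)ˣ) : ULift.{u} A) = w := by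
        have : fu (fu.symm w) = w := fu.apply_symm_apply w
        exact congrArg Units.val this
      rw [h3, hw, map_add, map_one]
  · intro g
    obtain ⟨k, hk⟩ := htor (e g)
    refine ⟨k, f.injective ?_⟩
    rw [map_nsmul, hval, hk, map_zero]

end Pool.EN
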